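import Pool.Agent.Work.MP_78b16e_an.Basic

/-! Covering of projective discs (`rad_d`, `rad_K`) and the Bernstein-Walsh inequality. -/

set_option autoImplicit false

namespace Pool.Agent.Work.MP_78b16e_an

open Polynomial

/-! ### coefficients of polynomials without small roots -/

lemma coeff_prod_bound {B : ℝ} (hB : 0 ≤ B) (s : Multiset ℂ) (hs : ∀ a ∈ s, ‖a‖ ≤ B) (j : ℕ) :
    ‖((s.map (fun a => (1 - C a * X : ℂ[X]))).prod).coeff j‖ ≤
      ((Multiset.card s).choose j : ℝ) * B ^ j := by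
  induction s using Multiset.induction_on generalizing j with
  | empty =>
    rcases j with _ | j
    · simp
    · simp [coeff_one]
  | cons a s ih =>
    have ih' := ih (fun b hb => hs b (Multiset.mem_cons_of_mem hb))
    have ha : ‖a‖ ≤ B := hs a (Multiset.mem_cons_self a s)
    rw [Multiset.map_cons, Multiset.prod_cons, Multiset.card_cons, sub_mul, one_mul, coeff_sub]
    rcases j with _ | j
    · have h0 := ih' 0
      rw [mul_assoc, coeff_C_mul, coeff_X_mul_zero]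
      simpa using h0
    · rw [mul_assoc, coeff_C_mul, coeff_X_mul, Nat.choose_succ_succ]
      push_cast
      calc ‖((s.map (fun a => (1 - C a * X : ℂ[X]))).prod).coeff (j + 1)
            - a * ((s.map (fun a => (1 - C a * X : ℂ[X]))).prod).coeff j‖
          ≤ ‖((s.map (fun a => (1 - C a * X : ℂ[X]))).prod).coeff (j + 1)‖
            + ‖a‖ * ‖((s.map (fun a => (1 - C a * X : ℂ[X]))).prod).coeff j‖ := by
            rw [← norm_mul]; exact norm_sub_le _ _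
        _ ≤ ((Multiset.card s).choose (j + 1) : ℝ) * B ^ (j + 1)
            + B * (((Multiset.card s).choose j : ℝ) * B ^ j) := by
            gcongr
            · exact ih' (j + 1)
            · exact ih' j
        _ = _ := by ring

lemma prod_form (s : Multiset ℂ) (hs : ∀ z ∈ s, z ≠ 0) :
    (s.map (fun z => (X - C z : ℂ[X]))).prod =
      C ((s.map (fun z => -z)).prod) * ((s.map (fun z => (1 - C z⁻¹ * X : ℂ[X]))).prod) := by
  induction s using Multiset.induction_on with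
  | empty => simp
  | cons a s ih =>
    have ih' := ih (fun b hb => hs b (Multiset.mem_cons_of_mem hb))
    have ha : a ≠ 0 := hs a (Multiset.mem_cons_self a s)
    rw [Multiset.map_cons, Multiset.prod_cons, Multiset.map_cons, Multiset.prod_cons,
      Multiset.map_cons, Multiset.prod_cons, ih']
    have e : (X - C a : ℂ[X]) = C (-a) * (1 - C a⁻¹ * X) := by
      rw [mul_sub, mul_one, ← mul_assoc, ← C_mul, neg_mul, mul_inv_cancel₀ ha, C_neg, C_neg,
        C_1]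
      ring
    rw [e, C_mul]
    ring

lemma coeff_bound {d : ℕ} {P : ℂ[X]} (hP : P.natDegree ≤ d) {ρ : ℝ} (hρ : 0 < ρ)
    (hroot : ∀ t : ℂ, ‖t‖ < ρ → P.eval t ≠ 0) (j : ℕ) :
    ‖P.coeff j‖ ≤ 2 ^ d * (1 / ρ) ^ j * ‖P.eval 0‖ := by
  have hP0 : P ≠ 0 := by
    rintro rfl
    exact hroot 0 (by simpa using hρ) (by simp)
  have hz : ∀ z ∈ P.roots, ρ ≤ ‖z‖ := by
    intro z hz
    by_contra h
    push Not at h
    exact hroot z h ((mem_roots hP0).1 hz)
  have hz0 : ∀ z ∈ P.roots, z ≠ 0 := by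
    intro z hz' h
    have := hz z hz'
    rw [h, norm_zero] at this
    linarith
  have h1 : P = C P.leadingCoeff * (P.roots.map (fun z => (X - C z : ℂ[X]))).prod :=
    (IsAlgClosed.splits P).eq_prod_roots
  rw [prod_form P.roots hz0, ← mul_assoc, ← C_mul] at h1
  set κ := P.leadingCoeff * (P.roots.map (fun z => -z)).prod with hκ
  set s := P.roots.map (fun z => z⁻¹) with hs
  have hmap : P.roots.map (fun z => (1 - C z⁻¹ * X : ℂ[X])) =
      s.map (fun a => (1 - C a * X : ℂ[X])) := by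
    rw [hs, Multiset.map_map]
    rfl
  rw [hmap] at h1
  have hev : P.eval 0 = κ := by
    conv_lhs => rw [h1]
    rw [eval_mul, eval_C, eval_multiset_prod, Multiset.map_map]
    have : ((s.map (eval 0 ∘ fun a => (1 - C a * X : ℂ[X])))) = s.map (fun _ => (1:ℂ)) := by
      apply Multiset.map_congr rfl
      intro a _
      simp
    rw [this]
    simp
  have hsb : ∀ a ∈ s, ‖a‖ ≤ 1 / ρ := by
    intro a ha
    rw [hs, Multiset.mem_map] at ha
    obtain ⟨z, hz', rfl⟩ := ha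
    rw [norm_inv, ← one_div]
    exact one_div_le_one_div_of_le hρ (hz z hz')
  have hb := coeff_prod_bound (by positivity) s hsb j
  have hcard : Multiset.card s ≤ d := by
    rw [hs, Multiset.card_map]
    exact (card_roots' P).trans hP
  have hch : ((Multiset.card s).choose j : ℝ) ≤ 2 ^ d := by
    have h2 : (Multiset.card s).choose j ≤ 2 ^ d :=
      (Nat.choose_le_two_pow _ _).trans (Nat.pow_le_pow_right (by norm_num) hcard)
    exact_mod_cast h2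
  conv_lhs => rw [h1]
  rw [coeff_C_mul, norm_mul, hev]
  calc ‖κ‖ * ‖((s.map (fun a => (1 - C a * X : ℂ[X]))).prod).coeff j‖
      ≤ ‖κ‖ * (((Multiset.card s).choose j : ℝ) * (1 / ρ) ^ j) := by gcongr
    _ ≤ ‖κ‖ * (2 ^ d * (1 / ρ) ^ j) := by gcongr
    _ = _ := by ring

/-! ### coefficients along the line through `x` -/

/-- the coefficients of `t ↦ wg (A (x + t • perp x)) w`, as continuous functions of `x`, `w` -/
noncomputable def qc (d : ℕ) (A : ℂ × ℂ → ℂ × ℂ) (x w : ℂ × ℂ) (j : ℕ) : ℂ :=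
  ∑ k ∈ Finset.range (d + 1), wg (A (x + (k : ℂ) • perp x)) w *
    (Lagrange.basis (Finset.range (d + 1)) (fun k : ℕ => (k : ℂ)) k).coeff j

lemma exists_poly {d : ℕ} {A : ℂ × ℂ → ℂ × ℂ} (hA : IsLift d A) (x w : ℂ × ℂ) :
    ∃ P : ℂ[X], P.natDegree ≤ d ∧ (∀ t, P.eval t = wg (A (x + t • perp x)) w) ∧
      ∀ j, P.coeff j = qc d A x w j := by
  obtain ⟨p, q, hp, hq, h⟩ := hA.line x (perp x)
  refine ⟨p * C w.2 - q * C w.1, ?_, ?_, ?_⟩
  · refine (natDegree_sub_le _ _).trans (max_le ?_ ?_)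
    · exact (natDegree_mul_C_le _ _).trans hp
    · exact (natDegree_mul_C_le _ _).trans hq
  · intro t
    rw [h t]
    simp [wg]
  · intro j
    set P : ℂ[X] := p * C w.2 - q * C w.1 with hP
    have hdeg : P.natDegree ≤ d := by
      refine (natDegree_sub_le _ _).trans (max_le ?_ ?_)
      · exact (natDegree_mul_C_le _ _).trans hp
      · exact (natDegree_mul_C_le _ _).trans hq
    have hev : ∀ t, P.eval t = wg (A (x + t • perp x)) w := by
      intro t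
      rw [h t, hP]
      simp [wg]
    have hinj : Set.InjOn (fun k : ℕ => (k : ℂ)) (Finset.range (d + 1) : Set ℕ) := by
      intro a _ b _ hab
      exact Nat.cast_injective hab
    have hlt : P.degree < ((Finset.range (d + 1)).card : WithBot ℕ) := by
      rw [Finset.card_range]
      calc P.degree ≤ (P.natDegree : WithBot ℕ) := degree_le_natDegree
        _ < ((d + 1 : ℕ) : WithBot ℕ) := by
          exact_mod_cast Nat.lt_succ_of_le hdeg
    have e := Lagrange.eq_interpolate hinj hlt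
    conv_lhs => rw [e]
    rw [Lagrange.interpolate_apply, finsetSum_coeff]
    unfold qc
    refine Finset.sum_congr rfl (fun k _ => ?_)
    rw [coeff_C_mul, hev]

lemma continuous_perp : Continuous perp := by
  unfold perp
  fun_prop

lemma continuous_wg : Continuous fun z : (ℂ × ℂ) × (ℂ × ℂ) => wg z.1 z.2 := by
  unfold wg
  fun_prop

lemma continuous_qc {d : ℕ} {A : ℂ × ℂ → ℂ × ℂ} (hA : IsLift d A) (j : ℕ) :
    Continuous fun z : (ℂ × ℂ) × (ℂ × ℂ) => qc d A z.1 z.2 j := by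
  unfold qc
  refine continuous_finsetSum _ (fun k _ => Continuous.mul ?_ continuous_const)
  have hc := hA.differentiable.continuous
  have hp : Continuous fun z : (ℂ × ℂ) × (ℂ × ℂ) => (k : ℂ) • perp z.1 :=
    (continuous_perp.comp continuous_fst).const_smul (k : ℂ)
  have h1 : Continuous fun z : (ℂ × ℂ) × (ℂ × ℂ) => A (z.1 + (k : ℂ) • perp z.1) :=
    hc.comp (continuous_fst.add hp)
  exact continuous_wg.comp (h1.prodMk continuous_snd)

/-! ### elementary facts on `x + t • perp x` -/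

lemma inner_le (x v : ℂ × ℂ) :
    ‖v.1 * (starRingEnd ℂ) x.1 + v.2 * (starRingEnd ℂ) x.2‖ ≤ 2 * (‖x‖ * ‖v‖) := by
  have h1 : ‖v.1‖ ≤ ‖v‖ := norm_fst_le v
  have h2 : ‖v.2‖ ≤ ‖v‖ := norm_snd_le v
  have h3 : ‖x.1‖ ≤ ‖x‖ := norm_fst_le x
  have h4 : ‖x.2‖ ≤ ‖x‖ := norm_snd_le x
  calc ‖v.1 * (starRingEnd ℂ) x.1 + v.2 * (starRingEnd ℂ) x.2‖
      ≤ ‖v.1 * (starRingEnd ℂ) x.1‖ + ‖v.2 * (starRingEnd ℂ) x.2‖ := norm_add_le _ _
    _ = ‖v.1‖ * ‖x.1‖ + ‖v.2‖ * ‖x.2‖ := by simp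
    _ ≤ ‖v‖ * ‖x‖ + ‖v‖ * ‖x‖ := by gcongr
    _ = _ := by ring

/-- squared euclidean norm -/
noncomputable def nsq (x : ℂ × ℂ) : ℝ := ‖x.1‖ ^ 2 + ‖x.2‖ ^ 2

lemma nsq_nonneg (x : ℂ × ℂ) : 0 ≤ nsq x := by unfold nsq; positivity

lemma sq_norm_le_nsq (x : ℂ × ℂ) : ‖x‖ ^ 2 ≤ nsq x := by
  rw [Prod.norm_def]
  unfold nsq
  rcases max_choice ‖x.1‖ ‖x.2‖ with h | h <;> rw [h]
  · nlinarith [sq_nonneg ‖x.2‖]
  · nlinarith [sq_nonneg ‖x.1‖]

lemma nsq_le (x : ℂ × ℂ) : nsq x ≤ 2 * ‖x‖ ^ 2 := by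
  have h3 : ‖x.1‖ ≤ ‖x‖ := norm_fst_le x
  have h4 : ‖x.2‖ ≤ ‖x‖ := norm_snd_le x
  unfold nsq
  nlinarith [norm_nonneg x.1, norm_nonneg x.2]

lemma nsq_pos {x : ℂ × ℂ} (hx : x ≠ 0) : 0 < nsq x :=
  lt_of_lt_of_le (by positivity) (sq_norm_le_nsq x)

lemma inner_line (x : ℂ × ℂ) (t : ℂ) :
    (x + t • perp x).1 * (starRingEnd ℂ) x.1 + (x + t • perp x).2 * (starRingEnd ℂ) x.2
      = (nsq x : ℂ) := by
  unfold nsq perp
  push_cast
  rw [← Complex.mul_conj', ← Complex.mul_conj']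
  simp
  ring

lemma wg_line (x : ℂ × ℂ) (t : ℂ) : wg x (x + t • perp x) = t * (nsq x : ℂ) := by
  rw [wg_add_right, wg_self, wg_smul_right, wg_perp, zero_add]
  rfl

lemma line_ne {x : ℂ × ℂ} (hx : x ≠ 0) (t : ℂ) : x + t • perp x ≠ 0 := by
  intro h
  have h1 := inner_line x t
  rw [h] at h1
  simp only [Prod.fst_zero, Prod.snd_zero, zero_mul, add_zero] at h1
  have := nsq_pos hx
  have h2 : (nsq x : ℂ) ≠ 0 := by exact_mod_cast this.ne'
  exact h2 h1.symm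

lemma nsq_le_line (x : ℂ × ℂ) (t : ℂ) : nsq x ≤ 2 * (‖x‖ * ‖x + t • perp x‖) := by
  have h := inner_le x (x + t • perp x)
  rw [inner_line] at h
  simpa [abs_of_nonneg (nsq_nonneg x)] using h

/-- points with small parameter lie in a small projective disc -/
lemma line_disc {x : ℂ × ℂ} (hx : x ≠ 0) {t : ℂ} {r : ℝ} (ht : ‖t‖ < r / 2) :
    ‖wg x (x + t • perp x)‖ < r * (‖x‖ * ‖x + t • perp x‖) := by
  rw [wg_line, norm_mul]
  have h1 := nsq_le_line x t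
  have h2 := nsq_pos hx
  have h3 : ‖((nsq x : ℝ) : ℂ)‖ = nsq x := by
    rw [Complex.norm_real, Real.norm_of_nonneg h2.le]
  rw [h3]
  have hr : 0 < r := by linarith [norm_nonneg t]
  calc ‖t‖ * nsq x < r / 2 * nsq x := by gcongr
    _ ≤ r / 2 * (2 * (‖x‖ * ‖x + t • perp x‖)) := by gcongr
    _ = _ := by ring

lemma perp_ne {x : ℂ × ℂ} (hx : x ≠ 0) : perp x ≠ 0 := by
  intro h
  apply wg_perp_ne hx
  rw [h, wg_zero_right]

/-! ### non vanishing of the coefficients -/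

lemma eval_eq_top {d : ℕ} {P : ℂ[X]} (hP : P.natDegree ≤ d) (h : ∀ j < d, P.coeff j = 0) (t : ℂ) :
    P.eval t = P.coeff d * t ^ d := by
  rw [eval_eq_sum_range' (Nat.lt_succ_of_le hP), Finset.sum_range_succ]
  rw [Finset.sum_eq_zero, zero_add]
  intro j hj
  rw [h j (Finset.mem_range.1 hj), zero_mul]

lemma dense_ne_zero : Dense ({0}ᶜ : Set ℂ) := dense_compl_singleton 0

lemma qc_ne {d : ℕ} (hd : 1 ≤ d) {A : ℂ × ℂ → ℂ × ℂ} (hA : IsLift d A) {x w : ℂ × ℂ}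
    (hx : x ≠ 0) (hw : w ≠ 0) : ∃ j ≤ d, qc d A x w j ≠ 0 := by
  by_contra hcon
  push Not at hcon
  have hcA := hA.differentiable.continuous
  obtain ⟨P, hP, hPe, hPc⟩ := exists_poly hA x w
  have hP0 : ∀ t : ℂ, wg (A (x + t • perp x)) w = 0 := by
    intro t
    rw [← hPe t, eval_eq_top hP (fun j hj => by rw [hPc]; exact hcon j hj.le) t, hPc,
      hcon d le_rfl, zero_mul]
  obtain ⟨Q, hQ, hQe, -⟩ := exists_poly hA x (perp w)
  have hzero : ∀ a : ℂ × ℂ, wg a w = 0 → wg a (perp w) = 0 → a = 0 := by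
    intro a h1 h2
    have h1' : wg w a = 0 := by rw [wg_swap, h1, neg_zero]
    obtain ⟨c, rfl⟩ := (wg_eq_zero_iff hw a).1 h1'
    rw [wg_smul_left] at h2
    rcases mul_eq_zero.1 h2 with h | h
    · rw [h, zero_smul]
    · exact absurd h (wg_perp_ne hw)
  have hQne : ∀ t, Q.eval t ≠ 0 := by
    intro t h
    rw [hQe] at h
    exact hA.nz _ (line_ne hx t) (hzero _ (hP0 t) h)
  have hQdeg : Q.degree = 0 := by
    by_contra h
    obtain ⟨z, hz⟩ := IsAlgClosed.exists_root Q h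
    exact hQne z hz
  have hQC : Q = C (Q.coeff 0) := eq_C_of_degree_eq_zero hQdeg
  set s := Q.coeff 0 with hs
  have hcl : Continuous fun τ : ℂ => A (τ • x + perp x) := by
    have h1 : Continuous fun τ : ℂ => τ • x + perp x := by fun_prop
    exact hcA.comp h1
  have key : ∀ τ : ℂ, wg (A (τ • x + perp x)) (perp w) = τ ^ d * s ∧
      wg (A (τ • x + perp x)) w = 0 := by
    have hne : ∀ τ : ℂ, τ ≠ 0 → wg (A (τ • x + perp x)) (perp w) = τ ^ d * s ∧
        wg (A (τ • x + perp x)) w = 0 := by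
      intro τ hτ
      have e : τ • x + perp x = τ • (x + τ⁻¹ • perp x) := by
        rw [smul_add, smul_smul, mul_inv_cancel₀ hτ, one_smul]
      rw [e, hA.hom, wg_smul_left, wg_smul_left, hP0, ← hQe]
      constructor
      · rw [hQC, eval_C]
      · rw [mul_zero]
    have hc1 : Continuous fun τ : ℂ => wg (A (τ • x + perp x)) (perp w) :=
      continuous_wg.comp (hcl.prodMk continuous_const)
    have hc2 : Continuous fun τ : ℂ => wg (A (τ • x + perp x)) w :=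
      continuous_wg.comp (hcl.prodMk continuous_const)
    have h1 := Continuous.ext_on dense_ne_zero hc1 ((continuous_id.pow d).mul continuous_const)
      (fun τ hτ => (hne τ hτ).1)
    have h2 := Continuous.ext_on dense_ne_zero hc2 continuous_const (fun τ hτ => (hne τ hτ).2)
    intro τ
    exact ⟨congrFun h1 τ, congrFun h2 τ⟩
  obtain ⟨k1, k2⟩ := key 0
  rw [zero_smul, zero_add] at k1 k2
  rw [zero_pow (by omega), zero_mul] at k1
  exact hA.nz _ (perp_ne hx) (hzero _ k2 k1)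

lemma qc_ne' {d : ℕ} (hd : 1 ≤ d) {A : ℂ × ℂ → ℂ × ℂ} (hA : IsLift d A) {x w : ℂ × ℂ}
    (hx : x ≠ 0) (hw : w ≠ 0) (hTR : ¬ TR d A x) : ∃ j ≤ d - 1, qc d A x w j ≠ 0 := by
  by_contra hcon
  push Not at hcon
  have hcA := hA.differentiable.continuous
  obtain ⟨P, hP, hPe, hPc⟩ := exists_poly hA x w
  have hPt : ∀ t : ℂ, wg (A (x + t • perp x)) w = P.coeff d * t ^ d := by
    intro t
    rw [← hPe t]
    exact eval_eq_top hP (fun j hj => by rw [hPc]; exact hcon j (by omega)) t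
  have h0 : wg (A x) w = 0 := by
    have := hPt 0
    rwa [zero_smul, add_zero, zero_pow (by omega), mul_zero] at this
  have h0' : wg w (A x) = 0 := by rw [wg_swap, h0, neg_zero]
  obtain ⟨c, hc⟩ := (wg_eq_zero_iff hw (A x)).1 h0'
  apply hTR
  set N := wg x (perp x) with hN
  have hN0 : N ≠ 0 := wg_perp_ne hx
  refine ⟨c * P.coeff d * (-1 / N) ^ d, fun v => ?_⟩
  set β : ℂ := wg x v / N with hβ
  have key : ∀ α : ℂ, wg (A (α • x + β • perp x)) (A x) = c * P.coeff d * β ^ d := by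
    have hne : ∀ α : ℂ, α ≠ 0 → wg (A (α • x + β • perp x)) (A x) = c * P.coeff d * β ^ d := by
      intro α hα
      have e : α • x + β • perp x = α • (x + (β / α) • perp x) := by
        rw [smul_add, smul_smul]
        congr 2
        field_simp
      rw [e, hA.hom, wg_smul_left, hc, wg_smul_right, hPt, div_pow]
      field_simp
    have hcl : Continuous fun α : ℂ => A (α • x + β • perp x) := by
      have h1 : Continuous fun α : ℂ => α • x + β • perp x := by fun_prop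
      exact hcA.comp h1
    have hc1 : Continuous fun α : ℂ => wg (A (α • x + β • perp x)) (A x) :=
      continuous_wg.comp (hcl.prodMk continuous_const)
    have h1 := Continuous.ext_on dense_ne_zero hc1 continuous_const (fun α hα => hne α hα)
    intro α
    exact congrFun h1 α
  have hv : v = (wg v (perp x) / N) • x + β • perp x := by
    have h := wg_decomp x (perp x) v
    rw [← hN] at h
    have h2 : v = N⁻¹ • (wg v (perp x) • x + wg x v • perp x) := by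
      rw [← h, smul_smul, inv_mul_cancel₀ hN0, one_smul]
    conv_lhs => rw [h2]
    rw [smul_add, smul_smul, smul_smul, hβ]
    congr 2 <;> field_simp
  conv_lhs => rw [hv]
  rw [key, mul_assoc, mul_assoc, mul_assoc]
  congr 2
  rw [← mul_pow, hβ, wg_swap v x]
  congr 1
  ring

/-! ### covering of discs -/

lemma normalize_cast (x : ℂ × ℂ) : (((‖x‖⁻¹ : ℝ)) : ℂ) = ((‖x‖ : ℝ) : ℂ)⁻¹ := by
  push_cast
  rfl

lemma norm_normalized {x : ℂ × ℂ} (hx : x ≠ 0) : ‖(((‖x‖ : ℝ) : ℂ)⁻¹) • x‖ = 1 := by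
  rw [norm_smul, norm_inv, Complex.norm_real, norm_norm, inv_mul_cancel₀]
  exact norm_ne_zero_iff.2 hx

lemma rad_gen {d e : ℕ} (hde : e ≤ d) {A : ℂ × ℂ → ℂ × ℂ} (hA : IsLift d A)
    {K : Set (ℂ × ℂ)} (hK : IsClosed K) (hcone : ∀ (c : ℂ) (x : ℂ × ℂ), x ∈ K → c • x ∈ K)
    (hne : ∀ x ∈ K, x ≠ 0 → ∀ w, w ≠ 0 → ∃ j ≤ e, qc d A x w j ≠ 0) :
    ∃ c : ℝ, 0 < c ∧ c ≤ 1 ∧ ∀ (x w : ℂ × ℂ) (r : ℝ), x ∈ K → x ≠ 0 → w ≠ 0 → 0 < r → r ≤ 1 →
      ‖wg (A x) w‖ < c * r ^ e * (‖A x‖ * ‖w‖) →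
      ∃ v, v ≠ 0 ∧ ‖wg x v‖ < r * (‖x‖ * ‖v‖) ∧ wg (A v) w = 0 := by
  have hcA := hA.differentiable.continuous
  -- compactness
  set S1 : Set (ℂ × ℂ) := Metric.sphere (0 : ℂ × ℂ) 1 with hS1
  have hS1c : IsCompact S1 := isCompact_sphere 0 1
  have hne0 : ∀ x : ℂ × ℂ, x ∈ S1 → x ≠ 0 := by
    rintro x hx rfl
    simp [hS1] at hx
  obtain ⟨M, hM0, hM⟩ : ∃ M : ℝ, 0 < M ∧ ∀ x ∈ S1, ‖A x‖ ≤ M := by
    obtain ⟨M, hM⟩ := hS1c.exists_bound_of_continuousOn hcA.continuousOn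
    exact ⟨max M 1, by positivity, fun x hx => (hM x hx).trans (le_max_left _ _)⟩
  set Ψ : (ℂ × ℂ) × (ℂ × ℂ) → ℝ := fun z => ∑ j ∈ Finset.range (e + 1), ‖qc d A z.1 z.2 j‖
    with hΨ
  have hΨc : Continuous Ψ := continuous_finsetSum _ (fun j _ => (continuous_qc hA j).norm)
  set T : Set ((ℂ × ℂ) × (ℂ × ℂ)) := (K ∩ S1) ×ˢ S1 with hT
  have hTc : IsCompact T := (hS1c.inter_left hK).prod hS1c
  obtain ⟨δ, hδ0, hδ⟩ : ∃ δ : ℝ, 0 < δ ∧ ∀ z ∈ T, δ ≤ Ψ z := by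
    rcases T.eq_empty_or_nonempty with hTe | hTn
    · exact ⟨1, one_pos, fun z hz => by rw [hTe] at hz; exact absurd hz (Set.notMem_empty z)⟩
    · obtain ⟨z, hz, hmin⟩ := hTc.exists_isMinOn hTn hΨc.continuousOn
      refine ⟨Ψ z, ?_, fun y hy => hmin hy⟩
      obtain ⟨j, hj, hjne⟩ := hne z.1 hz.1.1 (hne0 _ hz.1.2) z.2 (hne0 _ hz.2)
      calc 0 < ‖qc d A z.1 z.2 j‖ := norm_pos_iff.2 hjne
        _ ≤ Ψ z := Finset.single_le_sum (f := fun j => ‖qc d A z.1 z.2 j‖)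
            (fun _ _ => norm_nonneg _) (Finset.mem_range.2 (Nat.lt_succ_of_le hj))
  set c : ℝ := min 1 (δ / ((e + 1) * 4 ^ d * M)) with hc
  have hc0 : 0 < c := lt_min one_pos (by positivity)
  -- the normalised statement
  have hunit : ∀ (x w : ℂ × ℂ) (r : ℝ), x ∈ K → x ∈ S1 → w ∈ S1 → 0 < r → r ≤ 1 →
      ‖wg (A x) w‖ < c * r ^ e * (‖A x‖ * ‖w‖) →
      ∃ v, v ≠ 0 ∧ ‖wg x v‖ < r * (‖x‖ * ‖v‖) ∧ wg (A v) w = 0 := by
    intro x w r hxK hx hw hr hr1 hlt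
    by_contra hcon
    push Not at hcon
    obtain ⟨P, hP, hPe, hPc⟩ := exists_poly hA x w
    have hroot : ∀ t : ℂ, ‖t‖ < r / 2 → P.eval t ≠ 0 := by
      intro t ht h0
      rw [hPe] at h0
      exact hcon _ (line_ne (hne0 x hx) t) (line_disc (hne0 x hx) ht) h0
    have hP0 : P.eval 0 = wg (A x) w := by rw [hPe, zero_smul, add_zero]
    have hb : ∀ j ∈ Finset.range (e + 1), ‖qc d A x w j‖ ≤ 4 ^ d * (1 / r) ^ e * ‖wg (A x) w‖ := by
      intro j hj
      have hje : j ≤ e := Nat.lt_succ_iff.1 (Finset.mem_range.1 hj)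
      have h1 := coeff_bound hP (by positivity : 0 < r / 2) hroot j
      rw [hPc, hP0] at h1
      refine h1.trans ?_
      have h2 : (1 / (r / 2)) ^ j ≤ 2 ^ d * (1 / r) ^ e := by
        have e1 : 1 / (r / 2) = 2 * (1 / r) := by field_simp
        rw [e1, mul_pow]
        have h1r : 1 ≤ 1 / r := by rw [le_div_iff₀ hr]; linarith
        have h3 : (2:ℝ) ^ j ≤ 2 ^ d := pow_le_pow_right₀ (by norm_num) (hje.trans hde)
        have h4 : (1 / r) ^ j ≤ (1 / r) ^ e := pow_le_pow_right₀ h1r hje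
        gcongr
      calc 2 ^ d * (1 / (r / 2)) ^ j * ‖wg (A x) w‖
          ≤ 2 ^ d * (2 ^ d * (1 / r) ^ e) * ‖wg (A x) w‖ := by gcongr
        _ = 4 ^ d * (1 / r) ^ e * ‖wg (A x) w‖ := by
          rw [show (4:ℝ) = 2 * 2 by norm_num, mul_pow]; ring
    have hsum : δ ≤ (e + 1) * (4 ^ d * (1 / r) ^ e * ‖wg (A x) w‖) := by
      calc δ ≤ Ψ (x, w) := hδ (x, w) ⟨⟨hxK, hx⟩, hw⟩
        _ ≤ ∑ _j ∈ Finset.range (e + 1), 4 ^ d * (1 / r) ^ e * ‖wg (A x) w‖ :=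
            Finset.sum_le_sum hb
        _ = _ := by rw [Finset.sum_const, Finset.card_range, nsmul_eq_mul]; push_cast; ring
    have hnw : ‖w‖ = 1 := by simpa [hS1] using hw
    rw [hnw, mul_one] at hlt
    have h3 : ‖wg (A x) w‖ < δ / ((e + 1) * 4 ^ d * M) * r ^ e * M := by
      calc ‖wg (A x) w‖ < c * r ^ e * ‖A x‖ := hlt
        _ ≤ δ / ((e + 1) * 4 ^ d * M) * r ^ e * M := by
          gcongr
          · exact min_le_right _ _
          · exact hM x hx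
    have h4 : δ < δ := by
      calc δ ≤ (e + 1) * (4 ^ d * (1 / r) ^ e * ‖wg (A x) w‖) := hsum
        _ < (e + 1) * (4 ^ d * (1 / r) ^ e * (δ / ((e + 1) * 4 ^ d * M) * r ^ e * M)) := by
          gcongr
        _ = δ := by
          have : (1 / r) ^ e * r ^ e = 1 := by
            rw [← mul_pow, one_div, inv_mul_cancel₀ hr.ne', one_pow]
          field_simp
          exact this
    exact lt_irrefl _ h4
  refine ⟨c, hc0, min_le_left _ _, ?_⟩
  intro x w r hxK hx hw hr hr1 hlt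
  set a : ℂ := ((‖x‖ : ℝ) : ℂ)⁻¹ with ha
  set b : ℂ := ((‖w‖ : ℝ) : ℂ)⁻¹ with hb
  have hnx : 0 < ‖x‖ := norm_pos_iff.2 hx
  have hnw : 0 < ‖w‖ := norm_pos_iff.2 hw
  have ha0 : a ≠ 0 := by
    rw [ha]; exact inv_ne_zero (by exact_mod_cast hnx.ne')
  have hb0 : b ≠ 0 := by
    rw [hb]; exact inv_ne_zero (by exact_mod_cast hnw.ne')
  have hxS : a • x ∈ S1 := by
    rw [hS1, mem_sphere_zero_iff_norm]; exact norm_normalized hx
  have hwS : b • w ∈ S1 := by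
    rw [hS1, mem_sphere_zero_iff_norm]; exact norm_normalized hw
  have hlt' : ‖wg (A (a • x)) (b • w)‖ < c * r ^ e * (‖A (a • x)‖ * ‖b • w‖) := by
    rw [hA.hom, wg_smul_left, wg_smul_right, norm_mul, norm_mul, norm_smul, norm_smul]
    have hpos : 0 < ‖a ^ d‖ * ‖b‖ := mul_pos (norm_pos_iff.2 (pow_ne_zero _ ha0))
      (norm_pos_iff.2 hb0)
    calc ‖a ^ d‖ * (‖b‖ * ‖wg (A x) w‖) = (‖a ^ d‖ * ‖b‖) * ‖wg (A x) w‖ := by ring
      _ < (‖a ^ d‖ * ‖b‖) * (c * r ^ e * (‖A x‖ * ‖w‖)) := by gcongr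
      _ = _ := by ring
  obtain ⟨v, hv, hv1, hv2⟩ := hunit (a • x) (b • w) r (hcone a x hxK) hxS hwS hr hr1 hlt'
  refine ⟨v, hv, ?_, ?_⟩
  · rw [wg_smul_left, norm_mul, norm_smul] at hv1
    have hpos : 0 < ‖a‖ := norm_pos_iff.2 ha0
    have : ‖a‖ * ‖wg x v‖ < ‖a‖ * (r * (‖x‖ * ‖v‖)) := by
      calc ‖a‖ * ‖wg x v‖ < r * (‖a‖ * ‖x‖ * ‖v‖) := hv1
        _ = _ := by ring
    exact lt_of_mul_lt_mul_left this hpos.le
  · rw [wg_smul_right] at hv2
    exact (mul_eq_zero.1 hv2).resolve_left hb0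

theorem rad_d' {d : ℕ} (hd : 1 ≤ d) {A : ℂ × ℂ → ℂ × ℂ} (hA : IsLift d A) :
    ∃ c : ℝ, 0 < c ∧ c ≤ 1 ∧ ∀ (x w : ℂ × ℂ) (r : ℝ), x ≠ 0 → w ≠ 0 → 0 < r → r ≤ 1 →
      ‖wg (A x) w‖ < c * r ^ d * (‖A x‖ * ‖w‖) →
      ∃ v, v ≠ 0 ∧ ‖wg x v‖ < r * (‖x‖ * ‖v‖) ∧ wg (A v) w = 0 := by
  obtain ⟨c, h1, h2, h3⟩ := rad_gen (e := d) le_rfl hA isClosed_univ (fun _ _ _ => Set.mem_univ _)
    (fun x _ hx w hw => qc_ne hd hA hx hw)
  exact ⟨c, h1, h2, fun x w r hx hw hr hr1 h => h3 x w r (Set.mem_univ _) hx hw hr hr1 h⟩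

theorem rad_K' {d : ℕ} (hd : 2 ≤ d) {A : ℂ × ℂ → ℂ × ℂ} (hA : IsLift d A) {K : Set (ℂ × ℂ)}
    (hK : IsClosed K) (hcone : ∀ (c : ℂ) (x : ℂ × ℂ), x ∈ K → c • x ∈ K)
    (hTR : ∀ x ∈ K, x ≠ 0 → ¬ TR d A x) :
    ∃ c : ℝ, 0 < c ∧ c ≤ 1 ∧ ∀ (x w : ℂ × ℂ) (r : ℝ), x ∈ K → x ≠ 0 → w ≠ 0 → 0 < r → r ≤ 1 →
      ‖wg (A x) w‖ < c * r ^ (d - 1) * (‖A x‖ * ‖w‖) →
      ∃ v, v ≠ 0 ∧ ‖wg x v‖ < r * (‖x‖ * ‖v‖) ∧ wg (A v) w = 0 :=
  rad_gen (e := d - 1) (by omega) hA hK hcone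
    (fun x hxK hx w hw => qc_ne' (by omega) hA hx hw (hTR x hxK hx))

/-! ### Bernstein-Walsh -/

lemma decomp_line {x : ℂ × ℂ} (hx : x ≠ 0) (y : ℂ × ℂ) :
    ∃ α β : ℂ, y = α • x + β • perp x ∧ ‖α‖ ≤ 2 * (‖y‖ / ‖x‖) ∧ ‖β‖ ≤ 2 * (‖y‖ / ‖x‖) := by
  set N := wg x (perp x) with hN
  have hN0 : N ≠ 0 := wg_perp_ne hx
  have hNn : ‖N‖ = nsq x := by
    rw [hN, wg_perp, Complex.norm_real]
    exact Real.norm_of_nonneg (nsq_nonneg x)
  have hnx : 0 < ‖x‖ := norm_pos_iff.2 hx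
  have hNge : ‖x‖ ^ 2 ≤ ‖N‖ := by rw [hNn]; exact sq_norm_le_nsq x
  have hpn : ‖perp x‖ = ‖x‖ := by
    rw [Prod.norm_def, Prod.norm_def, max_comm]
    simp [perp]
  have hN0' : 0 < ‖N‖ := norm_pos_iff.2 hN0
  refine ⟨wg y (perp x) / N, wg x y / N, ?_, ?_, ?_⟩
  · have h := wg_decomp x (perp x) y
    rw [← hN] at h
    have h2 : y = N⁻¹ • (wg y (perp x) • x + wg x y • perp x) := by
      rw [← h, smul_smul, inv_mul_cancel₀ hN0, one_smul]
    conv_lhs => rw [h2]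
    rw [smul_add, smul_smul, smul_smul]
    congr 2 <;> field_simp
  · rw [norm_div, div_le_iff₀ hN0']
    calc ‖wg y (perp x)‖ ≤ 2 * ‖y‖ * ‖perp x‖ := norm_wg_le _ _
      _ = 2 * (‖y‖ / ‖x‖) * ‖x‖ ^ 2 := by rw [hpn]; field_simp
      _ ≤ 2 * (‖y‖ / ‖x‖) * ‖N‖ := by gcongr
  · rw [norm_div, div_le_iff₀ hN0']
    calc ‖wg x y‖ ≤ 2 * ‖x‖ * ‖y‖ := norm_wg_le _ _
      _ = 2 * (‖y‖ / ‖x‖) * ‖x‖ ^ 2 := by field_simp
      _ ≤ 2 * (‖y‖ / ‖x‖) * ‖N‖ := by gcongr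

lemma norm_perp_eq (x : ℂ × ℂ) : ‖perp x‖ = ‖x‖ := by
  rw [Prod.norm_def, Prod.norm_def, max_comm]
  simp [perp]

/-- growth estimate: values of `Z` are controlled by the values on a small disc -/
lemma growth {k : ℕ} {Z : ℂ × ℂ → ℂ × ℂ} (hZ : IsLift k Z) {x : ℂ × ℂ} (hx : x ≠ 0) {ρ S : ℝ}
    (hρ : 0 < ρ) (hρ1 : ρ ≤ 1) (hS : ∀ t : ℂ, ‖t‖ ≤ ρ → ‖Z (x + t • perp x)‖ ≤ S)
    (y : ℂ × ℂ) : ‖Z y‖ ≤ (2 * (‖y‖ / ‖x‖)) ^ k * (1 / ρ) ^ k * S := by
  obtain ⟨α, β, hy, hα, hβ⟩ := decomp_line hx y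
  have hS0 : 0 ≤ S := (norm_nonneg _).trans (hS 0 (by simpa using hρ.le))
  have h1ρ : 1 ≤ 1 / ρ := by rw [le_div_iff₀ hρ]; linarith
  have h1ρk : 1 ≤ (1 / ρ) ^ k := one_le_pow₀ h1ρ
  have hB0 : 0 ≤ 2 * (‖y‖ / ‖x‖) := by positivity
  rcases le_or_gt ‖β‖ (ρ * ‖α‖) with hab | hab
  · rcases eq_or_ne α 0 with h0 | h0
    · have hβ0 : β = 0 := by
        rw [h0, norm_zero, mul_zero] at hab
        exact norm_le_zero_iff.1 hab
      have hy0 : y = (0:ℂ) • x := by rw [hy, h0, hβ0]; simp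
      have : ‖Z y‖ ≤ ‖(0:ℂ)‖ ^ k * S := by
        rw [hy0, hZ.hom, norm_smul, norm_pow]
        have := hS 0 (by simpa using hρ.le)
        rw [zero_smul, add_zero] at this
        gcongr
      refine this.trans ?_
      have h2 : ‖(0:ℂ)‖ ^ k ≤ (2 * (‖y‖ / ‖x‖)) ^ k := by
        apply pow_le_pow_left₀ (norm_nonneg _)
        rw [norm_zero]; exact hB0
      calc ‖(0:ℂ)‖ ^ k * S ≤ (2 * (‖y‖ / ‖x‖)) ^ k * S := by gcongr
        _ = (2 * (‖y‖ / ‖x‖)) ^ k * 1 * S := by ring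
        _ ≤ _ := by gcongr
    · have e : y = α • (x + (β / α) • perp x) := by
        rw [hy, smul_add, smul_smul]; congr 2; field_simp
      rw [e, hZ.hom, norm_smul, norm_pow, ← e]
      have h3 : ‖β / α‖ ≤ ρ := by
        rw [norm_div, div_le_iff₀ (norm_pos_iff.2 h0)]
        exact hab
      calc ‖α‖ ^ k * ‖Z (x + (β / α) • perp x)‖ ≤ (2 * (‖y‖ / ‖x‖)) ^ k * S := by
            gcongr
            exact hS _ h3
        _ = (2 * (‖y‖ / ‖x‖)) ^ k * 1 * S := by ring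
        _ ≤ _ := by gcongr
  · have hβ0 : β ≠ 0 := by
      rintro rfl
      rw [norm_zero] at hab
      exact absurd hab (not_lt.2 (by positivity))
    have e : y = β • ((α / β) • x + perp x) := by
      rw [hy, smul_add, smul_smul]; congr 2; field_simp
    have hmax : ‖Z ((α / β) • x + perp x)‖ ≤ (1 / ρ) ^ k * S := by
      have hdiff : Differentiable ℂ fun τ : ℂ => Z (τ • x + perp x) := by
        have h1 : Differentiable ℂ fun τ : ℂ => τ • x + perp x := by fun_prop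
        exact hZ.differentiable.comp h1
      have hτ : α / β ∈ closure (Metric.ball (0:ℂ) (1 / ρ)) := by
        rw [closure_ball _ (by positivity), mem_closedBall_zero_iff, norm_div,
          div_le_div_iff₀ (norm_pos_iff.2 hβ0) hρ]
        linarith
      refine Complex.norm_le_of_forall_mem_frontier_norm_le Metric.isBounded_ball
        hdiff.diffContOnCl ?_ hτ
      intro z hz
      rw [frontier_ball _ (by positivity), mem_sphere_zero_iff_norm] at hz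
      have hz0 : z ≠ 0 := by
        rintro rfl
        rw [norm_zero] at hz
        have : 0 < 1 / ρ := by positivity
        linarith
      have e2 : z • x + perp x = z • (x + z⁻¹ • perp x) := by
        rw [smul_add, smul_smul, mul_inv_cancel₀ hz0, one_smul]
      rw [e2, hZ.hom, norm_smul, norm_pow, hz]
      have h5 : ‖z⁻¹‖ ≤ ρ := by rw [norm_inv, hz]; simp
      gcongr
      exact hS _ h5
    rw [e, hZ.hom, norm_smul, norm_pow, ← e]
    calc ‖β‖ ^ k * ‖Z ((α / β) • x + perp x)‖ ≤ (2 * (‖y‖ / ‖x‖)) ^ k * ((1 / ρ) ^ k * S) := by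
          gcongr
      _ = _ := by ring

theorem bernstein_walsh' : ∃ c : ℝ, 0 < c ∧ ∀ (k : ℕ) (Z : ℂ × ℂ → ℂ × ℂ), IsLift k Z →
    ∀ (x : ℂ × ℂ) (r : ℝ), x ≠ 0 → 0 < r → r ≤ 1 → ∀ y : ℂ × ℂ, y ≠ 0 →
      ∃ v, v ≠ 0 ∧ ‖wg x v‖ < r * (‖x‖ * ‖v‖) ∧
        Real.log ‖Z v‖ - k * Real.log ‖v‖ ≥
          Real.log ‖Z y‖ - k * Real.log ‖y‖ - k * (Real.log (1 / r) + c) := by
  refine ⟨Real.log 16, Real.log_pos (by norm_num), ?_⟩
  intro k Z hZ x r hx hr hr1 y hy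
  have hcont : Continuous fun t : ℂ => ‖Z (x + t • perp x)‖ := by
    have h1 : Continuous fun t : ℂ => x + t • perp x := by fun_prop
    exact (hZ.differentiable.continuous.comp h1).norm
  obtain ⟨t, ht, hmax⟩ := (isCompact_closedBall (0:ℂ) (r / 4)).exists_isMaxOn
    ⟨0, by simp; positivity⟩ hcont.continuousOn
  rw [mem_closedBall_zero_iff] at ht
  set v := x + t • perp x with hv
  have hv0 : v ≠ 0 := line_ne hx t
  refine ⟨v, hv0, line_disc hx (by linarith), ?_⟩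
  have hS : ∀ s : ℂ, ‖s‖ ≤ r / 4 → ‖Z (x + s • perp x)‖ ≤ ‖Z v‖ := by
    intro s hs
    exact hmax (by rw [mem_closedBall_zero_iff]; exact hs)
  have hg := growth hZ hx (by positivity : 0 < r / 4) (by linarith) hS y
  have hnx : 0 < ‖x‖ := norm_pos_iff.2 hx
  have hny : 0 < ‖y‖ := norm_pos_iff.2 hy
  have hnv : 0 < ‖v‖ := norm_pos_iff.2 hv0
  have hZv : 0 < ‖Z v‖ := norm_pos_iff.2 (hZ.nz v hv0)
  have hZy : 0 < ‖Z y‖ := norm_pos_iff.2 (hZ.nz y hy)
  have hvx : ‖v‖ ≤ 2 * ‖x‖ := by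
    calc ‖v‖ ≤ ‖x‖ + ‖t • perp x‖ := norm_add_le _ _
      _ = ‖x‖ + ‖t‖ * ‖x‖ := by rw [norm_smul, norm_perp_eq]
      _ ≤ ‖x‖ + 1 * ‖x‖ := by gcongr; linarith
      _ = _ := by ring
  have hlog := Real.log_le_log hZy hg
  rw [Real.log_mul (by positivity) hZv.ne', Real.log_mul (by positivity) (by positivity),
    Real.log_pow, Real.log_pow, Real.log_mul (by norm_num) (by positivity),
    Real.log_div hny.ne' hnx.ne'] at hlog
  have h16 : Real.log (16:ℝ) = 4 * Real.log 2 := by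
    rw [show (16:ℝ) = 2 ^ 4 by norm_num, Real.log_pow]; norm_num
  have h4 : Real.log (1 / (r / 4)) = 2 * Real.log 2 + Real.log (1 / r) := by
    rw [show 1 / (r / 4) = 2 ^ 2 * (1 / r) by field_simp; norm_num,
      Real.log_mul (by norm_num) (by positivity), Real.log_pow]
    norm_num
  have hvx' : Real.log ‖v‖ ≤ Real.log 2 + Real.log ‖x‖ := by
    rw [← Real.log_mul (by norm_num) hnx.ne']
    exact Real.log_le_log hnv hvx
  rw [h4] at hlog
  rw [h16]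
  have hk : (0:ℝ) ≤ k := Nat.cast_nonneg k
  have hmul := mul_le_mul_of_nonneg_left hvx' hk
  nlinarith [hlog, hmul]

end Pool.Agent.Work.MP_78b16e_an
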