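import Pool.Agent.Work.MP_78b16e_an.Alg
import Pool.Agent.Work.MP_78b16e_an.PotA1

/-! Green functions, covering of discs, Bernstein-Walsh, Part A case 1. -/

set_option autoImplicit false

namespace Pool.Agent.Work.MP_78b16e_an

open Polynomial Filter Topology

/-! ### logarithmic size of a lift -/

/-- `log ‖Z v‖ - k log ‖v‖`. -/
noncomputable def lsz (k : ℕ) (Z : ℂ × ℂ → ℂ × ℂ) (v : ℂ × ℂ) : ℝ :=
  Real.log ‖Z v‖ - k * Real.log ‖v‖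

lemma lsz_smul {k : ℕ} {Z : ℂ × ℂ → ℂ × ℂ} (hZ : IsLift k Z) {c : ℂ} (hc : c ≠ 0) {v : ℂ × ℂ}
    (hv : v ≠ 0) : lsz k Z (c • v) = lsz k Z v := by
  unfold lsz
  rw [hZ.hom, norm_smul, norm_smul, norm_pow,
    Real.log_mul (pow_ne_zero _ (norm_ne_zero_iff.2 hc)) (norm_ne_zero_iff.2 (hZ.nz v hv)),
    Real.log_mul (norm_ne_zero_iff.2 hc) (norm_ne_zero_iff.2 hv), Real.log_pow]
  ring

lemma lsz_contOn {k : ℕ} {Z : ℂ × ℂ → ℂ × ℂ} (hZ : IsLift k Z) :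
    ContinuousOn (lsz k Z) ({0}ᶜ : Set (ℂ × ℂ)) := by
  unfold lsz
  refine ContinuousOn.sub ?_ (ContinuousOn.mul continuousOn_const ?_)
  · refine ContinuousOn.log (hZ.differentiable.continuous.norm.continuousOn) ?_
    intro v hv
    exact norm_ne_zero_iff.2 (hZ.nz v hv)
  · refine ContinuousOn.log continuous_norm.continuousOn ?_
    intro v hv
    exact norm_ne_zero_iff.2 hv

lemma sphere_sub : Metric.sphere (0 : ℂ × ℂ) 1 ⊆ ({0}ᶜ : Set (ℂ × ℂ)) := by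
  rintro x hx rfl
  simp at hx

lemma sphere_ne : (Metric.sphere (0 : ℂ × ℂ) 1).Nonempty :=
  ⟨(1, 0), by rw [mem_sphere_zero_iff_norm, Prod.norm_def]; simp⟩

lemma inv_norm_ne {v : ℂ × ℂ} (hv : v ≠ 0) : (((‖v‖ : ℝ) : ℂ)⁻¹) ≠ 0 :=
  inv_ne_zero (by exact_mod_cast norm_ne_zero_iff.2 hv)

lemma exists_lsup {k : ℕ} {Z : ℂ × ℂ → ℂ × ℂ} (hZ : IsLift k Z) :
    ∃ s : ℝ, (∀ v, v ≠ 0 → lsz k Z v ≤ s) ∧ ∃ y, y ≠ 0 ∧ lsz k Z y = s := by
  obtain ⟨y, hy, hmax⟩ := (isCompact_sphere (0 : ℂ × ℂ) 1).exists_isMaxOn sphere_ne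
    ((lsz_contOn hZ).mono sphere_sub)
  refine ⟨lsz k Z y, fun v hv => ?_, y, sphere_sub hy, rfl⟩
  rw [← lsz_smul hZ (inv_norm_ne hv) hv]
  exact hmax (by rw [mem_sphere_zero_iff_norm]; exact norm_normalized hv)

lemma exists_lbdd {k : ℕ} {Z : ℂ × ℂ → ℂ × ℂ} (hZ : IsLift k Z) :
    ∃ B : ℝ, 0 ≤ B ∧ ∀ v, v ≠ 0 → |lsz k Z v| ≤ B := by
  obtain ⟨B, hB⟩ := (isCompact_sphere (0 : ℂ × ℂ) 1).exists_bound_of_continuousOn
    ((lsz_contOn hZ).mono sphere_sub)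
  refine ⟨max B 0, le_max_right _ _, fun v hv => ?_⟩
  rw [← lsz_smul hZ (inv_norm_ne hv) hv, ← Real.norm_eq_abs]
  exact (hB _ (by rw [mem_sphere_zero_iff_norm]; exact norm_normalized hv)).trans
    (le_max_left _ _)

/-! ### the Green function -/

lemma iter_ne {d : ℕ} {A : ℂ × ℂ → ℂ × ℂ} (hA : IsLift d A) (n : ℕ) {v : ℂ × ℂ} (hv : v ≠ 0) :
    A^[n] v ≠ 0 := (hA.iterate n).nz v hv

/-- existence of the Green function -/
theorem exists_green {d : ℕ} (hd : 2 ≤ d) {A : ℂ × ℂ → ℂ × ℂ} (hA : IsLift d A) :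
    ∃ g, IsPot g ∧ ∀ v, v ≠ 0 → g (A v) = (d : ℝ) * g v := by
  obtain ⟨B, hB0, hB⟩ := exists_lbdd hA
  have hd0 : (0:ℝ) < d := by exact_mod_cast (by omega : 0 < d)
  have hd1 : (1:ℝ) / d < 1 := by
    rw [div_lt_one hd0]
    exact_mod_cast (by omega : 1 < d)
  have hdnn : (0:ℝ) ≤ 1 / d := by positivity
  set F : ℕ → ℂ × ℂ → ℝ := fun n v => (1 / (d:ℝ)) ^ (n + 1) * lsz d A (A^[n] v) with hF
  have hu : Summable fun n : ℕ => (1 / (d:ℝ)) ^ (n + 1) * B := by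
    have h1 : Summable fun n : ℕ => (1 / (d:ℝ)) ^ n * (1 / (d:ℝ) * B) :=
      (summable_geometric_of_lt_one hdnn hd1).mul_right _
    refine h1.congr (fun n => ?_)
    ring
  have hFb : ∀ n v, v ≠ 0 → ‖F n v‖ ≤ (1 / (d:ℝ)) ^ (n + 1) * B := by
    intro n v hv
    rw [hF]
    simp only [norm_mul, Real.norm_eq_abs]
    rw [abs_of_nonneg (by positivity : (0:ℝ) ≤ (1 / (d:ℝ)) ^ (n + 1))]
    gcongr
    exact hB _ (iter_ne hA n hv)
  have hFs : ∀ v, v ≠ 0 → Summable fun n => F n v := fun v hv =>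
    Summable.of_norm_bounded hu (fun n => hFb n v hv)
  refine ⟨fun v => Real.log ‖v‖ + ∑' n, F n v, ⟨?_, ?_⟩, ?_⟩
  · refine ContinuousOn.add ?_ ?_
    · refine ContinuousOn.log continuous_norm.continuousOn ?_
      intro v hv
      exact norm_ne_zero_iff.2 hv
    · refine continuousOn_tsum (fun n => ?_) hu (fun n v hv => hFb n v hv)
      refine ContinuousOn.mul continuousOn_const ?_
      refine (lsz_contOn hA).comp (hA.iterate n).differentiable.continuous.continuousOn ?_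
      intro v hv
      exact iter_ne hA n hv
  · intro c v hc hv
    rw [norm_smul, Real.log_mul (norm_ne_zero_iff.2 hc) (norm_ne_zero_iff.2 hv), add_assoc]
    congr 2
    refine tsum_congr (fun n => ?_)
    simp only [hF]
    rw [(hA.iterate n).hom, lsz_smul hA (pow_ne_zero _ hc) (iter_ne hA n hv)]
  · intro v hv
    have h1 : ∑' n, F n v = F 0 v + ∑' n, F (n + 1) v := (hFs v hv).tsum_eq_zero_add
    have h2 : ∑' n, F n (A v) = d * ∑' n, F (n + 1) v := by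
      rw [← tsum_mul_left]
      refine tsum_congr (fun n => ?_)
      simp only [hF]
      rw [Function.iterate_succ_apply, ← mul_assoc]
      congr 1
      rw [pow_succ (1 / (d:ℝ)) (n + 1)]
      field_simp
    have h3 : F 0 v = (1 / d) * (Real.log ‖A v‖ - d * Real.log ‖v‖) := by
      simp [hF, lsz]
    beta_reduce
    rw [h1, h2, h3]
    field_simp
    ring

/-! ### the statements on discs -/

/-- projective discs are mapped onto projective discs, no ramification assumption -/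
theorem rad_d {d : ℕ} (hd : 1 ≤ d) {A : ℂ × ℂ → ℂ × ℂ} (hA : IsLift d A) :
    ∃ c : ℝ, 0 < c ∧ c ≤ 1 ∧ ∀ (x w : ℂ × ℂ) (r : ℝ), x ≠ 0 → w ≠ 0 → 0 < r → r ≤ 1 →
      ‖wg (A x) w‖ < c * r ^ d * (‖A x‖ * ‖w‖) →
      ∃ v, v ≠ 0 ∧ ‖wg x v‖ < r * (‖x‖ * ‖v‖) ∧ wg (A v) w = 0 := rad_d' hd hA

/-- same with exponent `d - 1` at the points of a closed cone `K` without totally ramified
points -/
theorem rad_K {d : ℕ} (hd : 2 ≤ d) {A : ℂ × ℂ → ℂ × ℂ} (hA : IsLift d A) {K : Set (ℂ × ℂ)}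
    (hK : IsClosed K) (hcone : ∀ (c : ℂ) (x : ℂ × ℂ), x ∈ K → c • x ∈ K)
    (hTR : ∀ x ∈ K, x ≠ 0 → ¬ TR d A x) :
    ∃ c : ℝ, 0 < c ∧ c ≤ 1 ∧ ∀ (x w : ℂ × ℂ) (r : ℝ), x ∈ K → x ≠ 0 → w ≠ 0 → 0 < r → r ≤ 1 →
      ‖wg (A x) w‖ < c * r ^ (d - 1) * (‖A x‖ * ‖w‖) →
      ∃ v, v ≠ 0 ∧ ‖wg x v‖ < r * (‖x‖ * ‖v‖) ∧ wg (A v) w = 0 := rad_K' hd hA hK hcone hTR

/-- Bernstein-Walsh inequality for homogeneous maps -/
theorem bernstein_walsh : ∃ c : ℝ, 0 < c ∧ ∀ (k : ℕ) (Z : ℂ × ℂ → ℂ × ℂ), IsLift k Z → 1 ≤ k →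
    ∀ (x : ℂ × ℂ) (r : ℝ), x ≠ 0 → 0 < r → r ≤ 1 → ∀ y : ℂ × ℂ, y ≠ 0 →
      ∃ v, v ≠ 0 ∧ ‖wg x v‖ < r * (‖x‖ * ‖v‖) ∧
        Real.log ‖Z v‖ - k * Real.log ‖v‖ ≥
          Real.log ‖Z y‖ - k * Real.log ‖y‖ - k * (Real.log (1 / r) + c) := by
  obtain ⟨c, hc, h⟩ := bernstein_walsh'
  exact ⟨c, hc, fun k Z hZ _ x r hx hr hr1 y hy => h k Z hZ x r hx hr hr1 y hy⟩

/-- the image under `A` of the disc of radius `r` around `x` contains the disc of radius `ρ`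
around `A x`. -/
def Covd (A : ℂ × ℂ → ℂ × ℂ) (x : ℂ × ℂ) (r ρ : ℝ) : Prop :=
  ∀ w, w ≠ 0 → ‖wg (A x) w‖ < ρ * (‖A x‖ * ‖w‖) →
    ∃ v, v ≠ 0 ∧ ‖wg x v‖ < r * (‖x‖ * ‖v‖) ∧ wg (A v) w = 0

lemma Covd.comp {d e : ℕ} {A B : ℂ × ℂ → ℂ × ℂ} (hA : IsLift d A) (hB : IsLift e B) {x : ℂ × ℂ}
    {r ρ σ : ℝ} (h1 : Covd A x r ρ) (h2 : Covd B (A x) ρ σ) : Covd (B ∘ A) x r σ := by
  intro w hw hlt
  obtain ⟨v₁, hv₁, hd₁, he₁⟩ := h2 w hw hlt
  obtain ⟨v, hv, hd, he⟩ := h1 v₁ hv₁ hd₁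
  refine ⟨v, hv, hd, ?_⟩
  obtain ⟨c, hc⟩ := (wg_eq_zero_iff (hA.nz v hv) v₁).1 he
  have hc0 : c ≠ 0 := by
    rintro rfl
    exact hv₁ (by rw [hc, zero_smul])
  rw [hc, hB.hom, wg_smul_left] at he₁
  exact (mul_eq_zero.1 he₁).resolve_left (pow_ne_zero _ hc0)

lemma log_one_div_nonneg {r : ℝ} (hr : 0 < r) (hr1 : r ≤ 1) : 0 ≤ Real.log (1 / r) :=
  Real.log_nonneg (by rw [le_div_iff₀ hr]; linarith)

lemma cov_iter1 {d m : ℕ} (hm : 1 ≤ m) {A : ℂ × ℂ → ℂ × ℂ} (hA : IsLift d A) {c : ℝ} (hc : 0 < c)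
    (hc1 : c ≤ 1) (h : ∀ (x : ℂ × ℂ) (r : ℝ), x ≠ 0 → 0 < r → r ≤ 1 → Covd A x r (c * r ^ m))
    (n : ℕ) {x : ℂ × ℂ} (hx : x ≠ 0) {r : ℝ} (hr : 0 < r) (hr1 : r ≤ 1) :
    ∃ ρ : ℝ, 0 < ρ ∧ ρ ≤ 1 ∧ Covd (A^[n]) x r ρ ∧
      Real.log (1 / ρ) ≤ (m:ℝ) ^ n * (Real.log (1 / r) + n * Real.log (1 / c)) := by
  have hL := log_one_div_nonneg hc hc1
  have hm' : (1:ℝ) ≤ m := by exact_mod_cast hm
  induction n with
  | zero =>
    refine ⟨r, hr, hr1, ?_, by simp⟩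
    intro w hw hlt
    exact ⟨w, hw, hlt, wg_self w⟩
  | succ n ih =>
    obtain ⟨ρ, h0, h1, hcov, hlog⟩ := ih
    have hpos : 0 < c * ρ ^ m := by positivity
    refine ⟨c * ρ ^ m, hpos, ?_, ?_, ?_⟩
    · calc c * ρ ^ m ≤ 1 * 1 := by
            gcongr
            exact pow_le_one₀ h0.le h1
        _ = 1 := by ring
    · rw [Function.iterate_succ']
      exact Covd.comp (hA.iterate n) hA hcov (h _ ρ (iter_ne hA n hx) h0 h1)
    · have e : Real.log (1 / (c * ρ ^ m)) = Real.log (1 / c) + m * Real.log (1 / ρ) := by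
        rw [Real.log_div one_ne_zero hpos.ne', Real.log_mul hc.ne' (by positivity), Real.log_pow,
          Real.log_div one_ne_zero hc.ne', Real.log_div one_ne_zero h0.ne', Real.log_one]
        ring
      rw [e]
      have h2 : (m:ℝ) * Real.log (1 / ρ) ≤
          m * ((m:ℝ) ^ n * (Real.log (1 / r) + n * Real.log (1 / c))) := by gcongr
      have h3 : Real.log (1 / c) ≤ (m:ℝ) ^ (n + 1) * Real.log (1 / c) :=
        le_mul_of_one_le_left hL (one_le_pow₀ hm')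
      have h4 : (m:ℝ) ^ (n + 1) * (Real.log (1 / r) + ((n + 1 : ℕ) : ℝ) * Real.log (1 / c)) =
          m * ((m:ℝ) ^ n * (Real.log (1 / r) + n * Real.log (1 / c)))
            + (m:ℝ) ^ (n + 1) * Real.log (1 / c) := by
        push_cast; ring
      rw [h4]
      linarith

lemma cov_iter2 {d m : ℕ} (hm : 2 ≤ m) {A : ℂ × ℂ → ℂ × ℂ} (hA : IsLift d A) {c : ℝ} (hc : 0 < c)
    (hc1 : c ≤ 1) (h : ∀ (x : ℂ × ℂ) (r : ℝ), x ≠ 0 → 0 < r → r ≤ 1 → Covd A x r (c * r ^ m))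
    (n : ℕ) {x : ℂ × ℂ} (hx : x ≠ 0) {r : ℝ} (hr : 0 < r) (hr1 : r ≤ 1) :
    ∃ ρ : ℝ, 0 < ρ ∧ ρ ≤ 1 ∧ Covd (A^[n]) x r ρ ∧
      Real.log (1 / ρ) ≤ (m:ℝ) ^ n * (Real.log (1 / r) + Real.log (1 / c)) - Real.log (1 / c) := by
  have hL := log_one_div_nonneg hc hc1
  have hm' : (2:ℝ) ≤ m := by exact_mod_cast hm
  induction n with
  | zero =>
    refine ⟨r, hr, hr1, ?_, by simp⟩
    intro w hw hlt
    exact ⟨w, hw, hlt, wg_self w⟩
  | succ n ih =>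
    obtain ⟨ρ, h0, h1, hcov, hlog⟩ := ih
    have hpos : 0 < c * ρ ^ m := by positivity
    refine ⟨c * ρ ^ m, hpos, ?_, ?_, ?_⟩
    · calc c * ρ ^ m ≤ 1 * 1 := by
            gcongr
            exact pow_le_one₀ h0.le h1
        _ = 1 := by ring
    · rw [Function.iterate_succ']
      exact Covd.comp (hA.iterate n) hA hcov (h _ ρ (iter_ne hA n hx) h0 h1)
    · have e : Real.log (1 / (c * ρ ^ m)) = Real.log (1 / c) + m * Real.log (1 / ρ) := by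
        rw [Real.log_div one_ne_zero hpos.ne', Real.log_mul hc.ne' (by positivity), Real.log_pow,
          Real.log_div one_ne_zero hc.ne', Real.log_div one_ne_zero h0.ne', Real.log_one]
        ring
      rw [e]
      have h2 : (m:ℝ) * Real.log (1 / ρ) ≤
          m * ((m:ℝ) ^ n * (Real.log (1 / r) + Real.log (1 / c)) - Real.log (1 / c)) := by gcongr
      have h3 : 2 * Real.log (1 / c) ≤ m * Real.log (1 / c) := by gcongr
      have h4 : (m:ℝ) ^ (n + 1) * (Real.log (1 / r) + Real.log (1 / c)) =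
          m * ((m:ℝ) ^ n * (Real.log (1 / r) + Real.log (1 / c))) := by ring
      rw [h4]
      linarith

/-! ### comparison of potentials -/

/-- continuity of a function of homogeneity zero, in terms of projective discs -/
lemma unif_disc {h : ℂ × ℂ → ℝ} (hc : ContinuousOn h {0}ᶜ)
    (hhom : ∀ (c : ℂ) (v : ℂ × ℂ), c ≠ 0 → v ≠ 0 → h (c • v) = h v) {ε : ℝ} (hε : 0 < ε) :
    ∃ r : ℝ, 0 < r ∧ r ≤ 1 ∧ ∀ x v : ℂ × ℂ, x ≠ 0 → v ≠ 0 → ‖wg x v‖ < r * (‖x‖ * ‖v‖) →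
      |h x - h v| < ε := by
  set S1 : Set (ℂ × ℂ) := Metric.sphere (0 : ℂ × ℂ) 1 with hS1
  have hS1c : IsCompact S1 := isCompact_sphere 0 1
  have hcS : ContinuousOn h S1 := hc.mono sphere_sub
  have hHc : ContinuousOn (fun z : (ℂ × ℂ) × (ℂ × ℂ) => |h z.1 - h z.2|) (S1 ×ˢ S1) := by
    refine (ContinuousOn.sub ?_ ?_).abs
    · exact hcS.comp continuousOn_fst (fun z hz => hz.1)
    · exact hcS.comp continuousOn_snd (fun z hz => hz.2)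
  set T : Set ((ℂ × ℂ) × (ℂ × ℂ)) := (S1 ×ˢ S1) ∩ (fun z => |h z.1 - h z.2|) ⁻¹' (Set.Ici ε)
    with hT
  have hTc : IsCompact T := by
    refine (hS1c.prod hS1c).of_isClosed_subset ?_ Set.inter_subset_left
    exact hHc.preimage_isClosed_of_isClosed (hS1c.prod hS1c).isClosed isClosed_Ici
  obtain ⟨δ, hδ0, hδ⟩ : ∃ δ : ℝ, 0 < δ ∧ ∀ z ∈ T, δ ≤ ‖wg z.1 z.2‖ := by
    rcases T.eq_empty_or_nonempty with hTe | hTn
    · exact ⟨1, one_pos, fun z hz => by rw [hTe] at hz; exact absurd hz (Set.notMem_empty z)⟩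
    · obtain ⟨z, hz, hmin⟩ := hTc.exists_isMinOn hTn continuous_wg.norm.continuousOn
      refine ⟨‖wg z.1 z.2‖, ?_, fun y hy => hmin hy⟩
      rw [norm_pos_iff]
      intro h0
      have hz1 : z.1 ≠ 0 := sphere_sub hz.1.1
      have hz2 : z.2 ≠ 0 := sphere_sub hz.1.2
      obtain ⟨c, hcc⟩ := (wg_eq_zero_iff hz1 z.2).1 h0
      have hc0 : c ≠ 0 := by
        rintro rfl
        exact hz2 (by rw [hcc, zero_smul])
      have h1 : ε ≤ |h z.1 - h z.2| := hz.2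
      rw [hcc, hhom c z.1 hc0 hz1, sub_self, abs_zero] at h1
      linarith
  refine ⟨min δ 1, lt_min hδ0 one_pos, min_le_right _ _, ?_⟩
  intro x v hx hv hlt
  by_contra hcon
  push Not at hcon
  set a : ℂ := ((‖x‖ : ℝ) : ℂ)⁻¹ with ha
  set b : ℂ := ((‖v‖ : ℝ) : ℂ)⁻¹ with hb
  have ha0 : a ≠ 0 := inv_norm_ne hx
  have hb0 : b ≠ 0 := inv_norm_ne hv
  have hz : (a • x, b • v) ∈ T := by
    refine ⟨⟨?_, ?_⟩, ?_⟩
    · rw [hS1, mem_sphere_zero_iff_norm]; exact norm_normalized hx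
    · rw [hS1, mem_sphere_zero_iff_norm]; exact norm_normalized hv
    · change ε ≤ |h (a • x) - h (b • v)|
      rw [hhom a x ha0 hx, hhom b v hb0 hv]
      exact hcon
  have h1 := hδ _ hz
  simp only at h1
  rw [wg_smul_left, wg_smul_right, norm_mul, norm_mul] at h1
  have hax : ‖a‖ * ‖x‖ = 1 := by rw [← norm_smul]; exact norm_normalized hx
  have hbv : ‖b‖ * ‖v‖ = 1 := by rw [← norm_smul]; exact norm_normalized hv
  have h2 : ‖a‖ * (‖b‖ * ‖wg x v‖) < ‖a‖ * (‖b‖ * (min δ 1 * (‖x‖ * ‖v‖))) := by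
    have := norm_pos_iff.2 ha0
    have := norm_pos_iff.2 hb0
    gcongr
  have h3 : ‖a‖ * (‖b‖ * (min δ 1 * (‖x‖ * ‖v‖))) = min δ 1 := by
    calc ‖a‖ * (‖b‖ * (min δ 1 * (‖x‖ * ‖v‖))) = min δ 1 * (‖a‖ * ‖x‖) * (‖b‖ * ‖v‖) := by ring
      _ = _ := by rw [hax, hbv]; ring
  rw [h3] at h2
  linarith [min_le_left δ 1]

/-- upper and lower estimates for `log ‖Z (W v)‖` -/
lemma est {cb : ℝ} (hbw : ∀ (k : ℕ) (Z : ℂ × ℂ → ℂ × ℂ), IsLift k Z → 1 ≤ k →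
    ∀ (x : ℂ × ℂ) (r : ℝ), x ≠ 0 → 0 < r → r ≤ 1 → ∀ y : ℂ × ℂ, y ≠ 0 →
      ∃ v, v ≠ 0 ∧ ‖wg x v‖ < r * (‖x‖ * ‖v‖) ∧
        Real.log ‖Z v‖ - k * Real.log ‖v‖ ≥
          Real.log ‖Z y‖ - k * Real.log ‖y‖ - k * (Real.log (1 / r) + cb))
    {g : ℂ × ℂ → ℝ} {k m : ℕ} (hk : 1 ≤ k) {Z W : ℂ × ℂ → ℂ × ℂ} (hZ : IsLift k Z)
    (hW : IsLift m W) {b s : ℝ} (hs : ∀ v, v ≠ 0 → lsz k Z v ≤ s) (hs' : ∃ y, y ≠ 0 ∧ lsz k Z y = s)
    (hb : ∀ v, v ≠ 0 → |Real.log ‖W v‖ - m * g v| ≤ b) :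
    (∀ v, v ≠ 0 → Real.log ‖Z (W v)‖ ≤ (k * m : ℕ) * g v + k * b + s) ∧
    ∀ (x : ℂ × ℂ) (r ρ : ℝ), x ≠ 0 → 0 < ρ → ρ ≤ 1 → Covd W x r ρ →
      ∃ v, v ≠ 0 ∧ ‖wg x v‖ < r * (‖x‖ * ‖v‖) ∧
        (k * m : ℕ) * g v - k * b + s - k * (Real.log (1 / ρ) + cb) ≤ Real.log ‖Z (W v)‖ := by
  have hk0 : (0:ℝ) ≤ k := Nat.cast_nonneg k
  constructor
  · intro v hv
    have h1 := hs (W v) (hW.nz v hv)
    have h2 := (abs_le.1 (hb v hv)).2
    have h3 : (k:ℝ) * (Real.log ‖W v‖ - m * g v) ≤ k * b := by gcongr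
    unfold lsz at h1
    push_cast
    linarith
  · intro x r ρ hx hρ hρ1 hcov
    obtain ⟨y, hy, hys⟩ := hs'
    obtain ⟨v₁, hv₁, hd₁, he₁⟩ := hbw k Z hZ hk (W x) ρ (hW.nz x hx) hρ hρ1 y hy
    obtain ⟨v, hv, hd, he⟩ := hcov v₁ hv₁ hd₁
    refine ⟨v, hv, hd, ?_⟩
    obtain ⟨c, hc⟩ := (wg_eq_zero_iff (hW.nz v hv) v₁).1 he
    have hc0 : c ≠ 0 := by
      rintro rfl
      exact hv₁ (by rw [hc, zero_smul])
    have h1 : lsz k Z v₁ = lsz k Z (W v) := by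
      rw [hc]
      exact lsz_smul hZ hc0 (hW.nz v hv)
    unfold lsz at h1 hys
    rw [hys, h1] at he₁
    have h2 := (abs_le.1 (hb v hv)).1
    have h3 : (k:ℝ) * (-b) ≤ k * (Real.log ‖W v‖ - m * g v) := by gcongr
    push_cast
    linarith

lemma pot_iter {g : ℂ × ℂ → ℝ} {d : ℕ} {A : ℂ × ℂ → ℂ × ℂ} (hA : IsLift d A)
    (hg : ∀ v, v ≠ 0 → g (A v) = (d : ℝ) * g v) (n : ℕ) {v : ℂ × ℂ} (hv : v ≠ 0) :
    g (A^[n] v) = (d : ℝ) ^ n * g v := by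
  induction n with
  | zero => simp
  | succ n ih =>
    rw [Function.iterate_succ_apply', hg _ (iter_ne hA n hv), ih, pow_succ]
    ring

theorem green_const {gA gC : ℂ × ℂ → ℝ} (hpA : IsPot gA) (hpC : IsPot gC) {d M : ℕ}
    (hd : 2 ≤ d) (hM : 2 ≤ M) {A C : ℂ × ℂ → ℂ × ℂ} (hA : IsLift d A) (hC : IsLift M C)
    (hgA : ∀ v, v ≠ 0 → gA (A v) = (d : ℝ) * gA v) (hgC : ∀ v, v ≠ 0 → gC (C v) = (M : ℝ) * gC v)
    (hno : NoTR M C)
    (hrel : ∀ n N : ℕ, 1 ≤ n → 1 ≤ N → ∃ (k l : ℕ) (Z Y : ℂ × ℂ → ℂ × ℂ) (κ : ℂ),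
      1 ≤ k ∧ 1 ≤ l ∧ IsLift k Z ∧ IsLift l Y ∧ κ ≠ 0 ∧ k * (M ^ N * d ^ n) = l * M ^ n ∧
      ∀ v, v ≠ 0 → Z (C^[N] (A^[n] v)) = κ • Y (C^[n] v)) :
    ∃ b : ℝ, ∀ v, v ≠ 0 → gC v - gA v = b := by
  obtain ⟨cb, hcb, hbw⟩ := bernstein_walsh
  obtain ⟨cA, hcA, hcA1, hradA⟩ := rad_d (by omega : 1 ≤ d) hA
  obtain ⟨cC, hcC, hcC1, hradC⟩ := rad_K hM hC isClosed_univ (fun _ _ _ => Set.mem_univ _)
    (fun x _ hx => hno x hx)
  obtain ⟨BA, hBA0, hBA⟩ := hpA.bdd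
  obtain ⟨BC, hBC0, hBC⟩ := hpC.bdd
  set B := max BA BC with hBdef
  have hB0 : 0 ≤ B := hBA0.trans (le_max_left _ _)
  have hBA' : ∀ v, v ≠ 0 → |gA v - Real.log ‖v‖| ≤ B := fun v hv =>
    (hBA v hv).trans (le_max_left _ _)
  have hBC' : ∀ v, v ≠ 0 → |gC v - Real.log ‖v‖| ≤ B := fun v hv =>
    (hBC v hv).trans (le_max_right _ _)
  have hdR : (2:ℝ) ≤ d := by exact_mod_cast hd
  have hMR : (2:ℝ) ≤ M := by exact_mod_cast hM
  have hd0 : (0:ℝ) < d := by linarith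
  have hM0 : (0:ℝ) < M := by linarith
  set LA := Real.log (1 / cA) with hLA
  set LC := Real.log (1 / cC) with hLC
  have hLA0 : 0 ≤ LA := log_one_div_nonneg hcA hcA1
  have hLC0 : 0 ≤ LC := log_one_div_nonneg hcC hcC1
  set θ : ℝ := ((M - 1 : ℕ) : ℝ) / M with hθ
  have hMm : ((M - 1 : ℕ) : ℝ) = (M:ℝ) - 1 := by
    rw [Nat.cast_sub (by omega)]; simp
  have hθ0 : 0 ≤ θ := by positivity
  have hθ1 : θ < 1 := by
    rw [hθ, div_lt_one hM0, hMm]; linarith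
  have hθM : ∀ j : ℕ, (((M - 1 : ℕ) : ℝ)) ^ j = θ ^ j * (M:ℝ) ^ j := by
    intro j
    rw [hθ, div_pow, div_mul_cancel₀]
    positivity
  have hcovA : ∀ (x : ℂ × ℂ) (r : ℝ), x ≠ 0 → 0 < r → r ≤ 1 → Covd A x r (cA * r ^ d) :=
    fun x r hx hr hr1 w hw hlt => hradA x w r hx hw hr hr1 hlt
  have hcovC : ∀ (x : ℂ × ℂ) (r : ℝ), x ≠ 0 → 0 < r → r ≤ 1 → Covd C x r (cC * r ^ (M - 1)) :=
    fun x r hx hr hr1 w hw hlt => hradC x w r (Set.mem_univ _) hx hw hr hr1 hlt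
  set h : ℂ × ℂ → ℝ := fun v => gC v - gA v with hh
  have hhc : ContinuousOn h {0}ᶜ := hpC.cont.sub hpA.cont
  have hhom : ∀ (c : ℂ) (v : ℂ × ℂ), c ≠ 0 → v ≠ 0 → h (c • v) = h v := by
    intro c v hc hv
    simp only [hh]
    rw [hpC.smul c v hc hv, hpA.smul c v hc hv]
    ring
  -- main claim
  have claim : ∀ ε : ℝ, 0 < ε → ∃ β : ℝ, ∀ x, x ≠ 0 → |h x - β| ≤ 3 * ε := by
    intro ε hε
    obtain ⟨r, hr, hr1, hosc⟩ := unif_disc hhc hhom hε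
    set R := Real.log (1 / r) with hR
    have hR0 : 0 ≤ R := log_one_div_nonneg hr hr1
    -- choice of N
    have hN : ∃ N : ℕ, 1 ≤ N ∧ θ ^ N * (R + LA) < ε := by
      have h1 : Tendsto (fun N : ℕ => θ ^ N * (R + LA)) atTop (𝓝 (0 * (R + LA))) :=
        (tendsto_pow_atTop_nhds_zero_of_lt_one hθ0 hθ1).mul_const _
      rw [zero_mul] at h1
      obtain ⟨N, hN1, hN2⟩ := ((h1.eventually_lt_const hε).and (eventually_ge_atTop 1)).exists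
      exact ⟨N, hN2, hN1⟩
    obtain ⟨N, hN1, hNε⟩ := hN
    -- choice of n
    have hinvd : Tendsto (fun n : ℕ => (1 / (d:ℝ)) ^ n) atTop (𝓝 0) :=
      tendsto_pow_atTop_nhds_zero_of_lt_one (by positivity)
        (by rw [div_lt_one hd0]; linarith)
    have hinvM : Tendsto (fun n : ℕ => (1 / (M:ℝ)) ^ n) atTop (𝓝 0) :=
      tendsto_pow_atTop_nhds_zero_of_lt_one (by positivity)
        (by rw [div_lt_one hM0]; linarith)
    have hθn : Tendsto (fun n : ℕ => θ ^ n) atTop (𝓝 0) :=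
      tendsto_pow_atTop_nhds_zero_of_lt_one hθ0 hθ1
    have hnθn : Tendsto (fun n : ℕ => (n:ℝ) * θ ^ n) atTop (𝓝 0) :=
      tendsto_self_mul_const_pow_of_lt_one hθ0 hθ1
    have hE1 : Tendsto (fun n : ℕ => B * (1 / (M:ℝ)) ^ n + (3 * B) * (1 / (d:ℝ)) ^ n
        + (θ ^ N * (N * LC)) * (1 / (d:ℝ)) ^ n + (cb / (M:ℝ) ^ N) * (1 / (d:ℝ)) ^ n) atTop
        (𝓝 0) := by
      have := (((hinvM.const_mul B).add (hinvd.const_mul (3 * B))).add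
        (hinvd.const_mul (θ ^ N * (N * LC)))).add (hinvd.const_mul (cb / (M:ℝ) ^ N))
      simpa using this
    have hE2 : Tendsto (fun n : ℕ => B * (1 / (M:ℝ)) ^ n + (3 * B) * (1 / (d:ℝ)) ^ n
        + (R * θ ^ n + LC * ((n:ℝ) * θ ^ n)) + cb * (1 / (M:ℝ)) ^ n) atTop (𝓝 0) := by
      have := (((hinvM.const_mul B).add (hinvd.const_mul (3 * B))).add
        ((hθn.const_mul R).add (hnθn.const_mul LC))).add (hinvM.const_mul cb)
      simpa using this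
    obtain ⟨n, ⟨hn1, hn2⟩, hn3⟩ := (((hE1.eventually_lt_const hε).and
      (hE2.eventually_lt_const hε)).and (eventually_ge_atTop 1)).exists
    obtain ⟨k, l, Z, Y, κ, hk, hl, hZ, hY, hκ, hdeg, hrelv⟩ := hrel n N hn3 hN1
    -- the two compositions
    have hW1 : IsLift (M ^ N * d ^ n) (C^[N] ∘ A^[n]) := (hC.iterate N).comp (hA.iterate n)
    have hW2 : IsLift (M ^ n) (C^[n]) := hC.iterate n
    have hMN : (1:ℝ) ≤ (M:ℝ) ^ N := one_le_pow₀ (by linarith)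
    have hb1 : ∀ v, v ≠ 0 → |Real.log ‖(C^[N] ∘ A^[n]) v‖ - ((M ^ N * d ^ n : ℕ) : ℝ) * gA v|
        ≤ 3 * B * (M:ℝ) ^ N := by
      intro v hv
      have hv1 := iter_ne hA n hv
      have hv2 := iter_ne hC N hv1
      have e1 := hBC' _ hv2
      have e2 := hBC' _ hv1
      have e3 := hBA' _ hv1
      rw [pot_iter hC hgC N hv1] at e1
      rw [pot_iter hA hgA n hv] at e3
      rw [abs_le] at e1 e2 e3 ⊢
      simp only [Function.comp]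
      push_cast
      have f2a := mul_le_mul_of_nonneg_left e2.1 (by positivity : (0:ℝ) ≤ (M:ℝ) ^ N)
      have f2b := mul_le_mul_of_nonneg_left e2.2 (by positivity : (0:ℝ) ≤ (M:ℝ) ^ N)
      have f3a := mul_le_mul_of_nonneg_left e3.1 (by positivity : (0:ℝ) ≤ (M:ℝ) ^ N)
      have f3b := mul_le_mul_of_nonneg_left e3.2 (by positivity : (0:ℝ) ≤ (M:ℝ) ^ N)
      have f4 : B ≤ B * (M:ℝ) ^ N := le_mul_of_one_le_right hB0 hMN
      constructor <;> linarith [e1.1, e1.2, f2a, f2b, f3a, f3b, f4]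
    have hb2 : ∀ v, v ≠ 0 → |Real.log ‖(C^[n]) v‖ - ((M ^ n : ℕ) : ℝ) * gC v| ≤ B := by
      intro v hv
      have e1 := hBC' _ (iter_ne hC n hv)
      rw [pot_iter hC hgC n hv] at e1
      rw [abs_sub_comm]
      push_cast
      exact e1
    obtain ⟨sZ, hsZ, hsZ'⟩ := exists_lsup hZ
    obtain ⟨sY, hsY, hsY'⟩ := exists_lsup hY
    obtain ⟨up1, lo1⟩ := est hbw (g := gA) hk hZ hW1 hsZ hsZ' hb1
    obtain ⟨up2, lo2⟩ := est hbw (g := gC) hl hY hW2 hsY hsY' hb2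
    have hlogrel : ∀ v, v ≠ 0 → Real.log ‖Z ((C^[N] ∘ A^[n]) v)‖ =
        Real.log ‖κ‖ + Real.log ‖Y ((C^[n]) v)‖ := by
      intro v hv
      simp only [Function.comp]
      rw [hrelv v hv, norm_smul, Real.log_mul (norm_ne_zero_iff.2 hκ)
        (norm_ne_zero_iff.2 (hY.nz _ (iter_ne hC n hv)))]
    set K : ℝ := ((k * (M ^ N * d ^ n) : ℕ) : ℝ) with hK
    have hK' : ((l * M ^ n : ℕ) : ℝ) = K := by rw [hK, hdeg]
    have hKpos : 0 < K := by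
      rw [hK]
      have : 0 < k * (M ^ N * d ^ n) := by positivity
      exact_mod_cast this
    have hkK : (k:ℝ) = K * (1 / (M:ℝ)) ^ N * (1 / (d:ℝ)) ^ n := by
      rw [hK]
      push_cast
      rw [one_div_pow, one_div_pow]
      field_simp
    have hlK : (l:ℝ) = K * (1 / (M:ℝ)) ^ n := by
      rw [← hK']
      push_cast
      rw [one_div_pow]
      field_simp
    set β : ℝ := (sZ - sY - Real.log ‖κ‖) / K with hβ
    have hKβ : K * β = sZ - sY - Real.log ‖κ‖ := by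
      rw [hβ]; field_simp
    have hk0 : (0:ℝ) ≤ k := Nat.cast_nonneg k
    have hl0 : (0:ℝ) ≤ l := Nat.cast_nonneg l
    have hMNi : (M:ℝ) ^ N * (1 / (M:ℝ)) ^ N = 1 := by
      rw [← mul_pow, mul_one_div_cancel hM0.ne', one_pow]
    have hMni : (M:ℝ) ^ n * (1 / (M:ℝ)) ^ n = 1 := by
      rw [← mul_pow, mul_one_div_cancel hM0.ne', one_pow]
    have hdni : (d:ℝ) ^ n * (1 / (d:ℝ)) ^ n = 1 := by
      rw [← mul_pow, mul_one_div_cancel hd0.ne', one_pow]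
    refine ⟨β, fun x hx => ?_⟩
    -- lower estimate
    have hlow : β - 3 * ε ≤ h x := by
      obtain ⟨ρ₁, hρ₁, hρ₁', hcov1, hlog1⟩ := cov_iter2 hd hA hcA hcA1 hcovA n hx hr hr1
      obtain ⟨ρ₂, hρ₂, hρ₂', hcov2, hlog2⟩ := cov_iter1 (by omega : 1 ≤ M - 1) hC hcC hcC1 hcovC N
        (iter_ne hA n hx) hρ₁ hρ₁'
      have hcov := Covd.comp (hA.iterate n) (hC.iterate N) hcov1 hcov2
      obtain ⟨v, hv, hvd, hve⟩ := lo1 x r ρ₂ hx hρ₂ hρ₂' hcov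
      rw [hlogrel v hv] at hve
      have hu := up2 v hv
      rw [hK'] at hu
      have hlogρ : Real.log (1 / ρ₂) ≤ θ ^ N * (M:ℝ) ^ N * ((d:ℝ) ^ n * (R + LA) + N * LC) := by
        rw [← hθM N]
        refine hlog2.trans ?_
        gcongr
        linarith [hlog1]
      have hklog : (k:ℝ) * (Real.log (1 / ρ₂) + cb) ≤
          K * (θ ^ N * (R + LA) + (θ ^ N * (N * LC)) * (1 / (d:ℝ)) ^ n
            + (cb / (M:ℝ) ^ N) * (1 / (d:ℝ)) ^ n) := by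
        calc (k:ℝ) * (Real.log (1 / ρ₂) + cb)
            ≤ k * (θ ^ N * (M:ℝ) ^ N * ((d:ℝ) ^ n * (R + LA) + N * LC) + cb) := by gcongr
          _ = K * (θ ^ N * (R + LA) * (((M:ℝ) ^ N * (1 / (M:ℝ)) ^ N) *
                ((d:ℝ) ^ n * (1 / (d:ℝ)) ^ n))
              + (θ ^ N * (N * LC)) * (1 / (d:ℝ)) ^ n * ((M:ℝ) ^ N * (1 / (M:ℝ)) ^ N)
              + (cb * (1 / (M:ℝ)) ^ N) * (1 / (d:ℝ)) ^ n) := by rw [hkK]; ring
          _ = _ := by rw [hMNi, hdni, one_div_pow (M:ℝ) N]; ring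
      have hkb : (k:ℝ) * (3 * B * (M:ℝ) ^ N) = K * ((3 * B) * (1 / (d:ℝ)) ^ n) := by
        calc (k:ℝ) * (3 * B * (M:ℝ) ^ N) = K * ((3 * B) * (1 / (d:ℝ)) ^ n)
              * ((M:ℝ) ^ N * (1 / (M:ℝ)) ^ N) := by rw [hkK]; ring
          _ = _ := by rw [hMNi, mul_one]
      have hlb : (l:ℝ) * B = K * (B * (1 / (M:ℝ)) ^ n) := by rw [hlK]; ring
      have hmain : K * (β - 2 * ε) ≤ K * h v := by
        have h5 : K * (θ ^ N * (R + LA)) ≤ K * ε := by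
          exact mul_le_mul_of_nonneg_left hNε.le hKpos.le
        have h6 := mul_le_mul_of_nonneg_left hn1.le hKpos.le
        simp only [hh]
        rw [mul_sub, mul_sub, hKβ]
        linarith [hve, hu, hklog, hkb, hlb, h5, h6]
      have hmain' := le_of_mul_le_mul_left hmain hKpos
      have hosc' := abs_lt.1 (hosc x v hx hv hvd)
      linarith [hosc'.1, hosc'.2]
    have hupp : h x ≤ β + 3 * ε := by
      obtain ⟨ρ₂, hρ₂, hρ₂', hcov2, hlog2⟩ := cov_iter1 (by omega : 1 ≤ M - 1) hC hcC hcC1 hcovC n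
        hx hr hr1
      obtain ⟨v, hv, hvd, hve⟩ := lo2 x r ρ₂ hx hρ₂ hρ₂' hcov2
      have hu := up1 v hv
      rw [hlogrel v hv] at hu
      rw [hK'] at hve
      have hlogρ : Real.log (1 / ρ₂) ≤ θ ^ n * (M:ℝ) ^ n * (R + n * LC) := by
        rw [← hθM n]
        exact hlog2
      have hllog : (l:ℝ) * (Real.log (1 / ρ₂) + cb) ≤
          K * ((R * θ ^ n + LC * ((n:ℝ) * θ ^ n)) + cb * (1 / (M:ℝ)) ^ n) := by
        calc (l:ℝ) * (Real.log (1 / ρ₂) + cb)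
            ≤ l * (θ ^ n * (M:ℝ) ^ n * (R + n * LC) + cb) := by gcongr
          _ = K * ((R * θ ^ n + LC * ((n:ℝ) * θ ^ n)) * ((M:ℝ) ^ n * (1 / (M:ℝ)) ^ n)
              + cb * (1 / (M:ℝ)) ^ n) := by rw [hlK]; ring
          _ = _ := by rw [hMni, mul_one]
      have hkb : (k:ℝ) * (3 * B * (M:ℝ) ^ N) = K * ((3 * B) * (1 / (d:ℝ)) ^ n) := by
        calc (k:ℝ) * (3 * B * (M:ℝ) ^ N) = K * ((3 * B) * (1 / (d:ℝ)) ^ n)
              * ((M:ℝ) ^ N * (1 / (M:ℝ)) ^ N) := by rw [hkK]; ring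
          _ = _ := by rw [hMNi, mul_one]
      have hlb : (l:ℝ) * B = K * (B * (1 / (M:ℝ)) ^ n) := by rw [hlK]; ring
      have hmain : K * h v ≤ K * (β + ε) := by
        have h6 := mul_le_mul_of_nonneg_left hn2.le hKpos.le
        simp only [hh]
        rw [mul_sub, mul_add, hKβ]
        linarith [hve, hu, hllog, hkb, hlb, h6]
      have hmain' := le_of_mul_le_mul_left hmain hKpos
      have hosc' := abs_lt.1 (hosc x v hx hv hvd)
      linarith [hosc'.1, hosc'.2]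
    rw [abs_le]
    constructor <;> linarith
  -- conclusion
  have h10 : ((1, 0) : ℂ × ℂ) ≠ 0 := by
    intro h0
    have := congrArg Prod.fst h0
    simp at this
  refine ⟨h (1, 0), fun v hv => ?_⟩
  change h v = h (1, 0)
  by_contra hne
  have hpos : 0 < |h v - h (1, 0)| := abs_pos.2 (sub_ne_zero.2 hne)
  obtain ⟨β, hβ⟩ := claim (|h v - h (1, 0)| / 12) (by positivity)
  have h1 := hβ v hv
  have h2 := hβ _ h10
  have h3 : |h v - h (1, 0)| ≤ |h v - β| + |h (1, 0) - β| := by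
    have : h v - h (1, 0) = (h v - β) - (h (1, 0) - β) := by ring
    rw [this]
    exact abs_sub _ _
  linarith

lemma iter_mem {S : Set (RatFunc ℂ)} (hc : ∀ f ∈ S, ∀ g ∈ S, rcomp f g ∈ S) {f : RatFunc ℂ}
    (hf : f ∈ S) {n : ℕ} (hn : 1 ≤ n) : (rcomp f)^[n] RatFunc.X ∈ S := by
  induction n with
  | zero => omega
  | succ n ih =>
    rcases Nat.eq_zero_or_pos n with h0 | h0
    · subst h0
      simp only [zero_add, Function.iterate_one]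
      rw [rcomp_X]
      exact hf
    · rw [Function.iterate_succ_apply']
      exact hc f hf _ (ih h0)

/-- Part A, case 1: some element has no totally ramified point. -/
theorem partA_case1 (S : Set (RatFunc ℂ)) (hc : ∀ f ∈ S, ∀ g ∈ S, rcomp f g ∈ S)
    (hd : ∀ f ∈ S, 2 ≤ rdeg f)
    (hrev : ∀ A ∈ S, ∀ B ∈ S, ∃ P ∈ S, ∃ Q ∈ S, rcomp P A = rcomp Q B)
    (C : RatFunc ℂ) (hC : C ∈ S) (hno : NoTR (rdeg C) (rlift C)) :
    ∃ g, IsPot g ∧ ∀ A ∈ S, Compat g A := by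
  obtain ⟨gC, hpC, hgC⟩ := exists_green (hd C hC) (rlift_isLift C)
  refine ⟨gC, hpC, fun A hA => ?_⟩
  obtain ⟨gA, hpA, hgA⟩ := exists_green (hd A hA) (rlift_isLift A)
  have hdA := hd A hA
  have hdC := hd C hC
  have hrel : ∀ n N : ℕ, 1 ≤ n → 1 ≤ N → ∃ (k l : ℕ) (Z Y : ℂ × ℂ → ℂ × ℂ) (κ : ℂ),
      1 ≤ k ∧ 1 ≤ l ∧ IsLift k Z ∧ IsLift l Y ∧ κ ≠ 0 ∧
      k * (rdeg C ^ N * rdeg A ^ n) = l * rdeg C ^ n ∧
      ∀ v, v ≠ 0 → Z ((rlift C)^[N] ((rlift A)^[n] v)) = κ • Y ((rlift C)^[n] v) := by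
    intro n N hn hN
    have hCN := iter_mem hc hC hN
    have hAn := iter_mem hc hA hn
    have hCn := iter_mem hc hC hn
    obtain ⟨hdCN, c3, hc3, hlCN⟩ := rlift_iterate C (by omega) N
    obtain ⟨hdAn, c4, hc4, hlAn⟩ := rlift_iterate A (by omega) n
    obtain ⟨hdCn, c6, hc6, hlCn⟩ := rlift_iterate C (by omega) n
    set CN := (rcomp C)^[N] RatFunc.X with hCNdef
    set An := (rcomp A)^[n] RatFunc.X with hAndef
    set Cn := (rcomp C)^[n] RatFunc.X with hCndef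
    have hT := hc CN hCN An hAn
    obtain ⟨P, hP, Q, hQ, hPQ⟩ := hrev (rcomp CN An) hT Cn hCn
    have hdAn1 : 1 ≤ rdeg An := by have := hd An hAn; omega
    have hdT1 : 1 ≤ rdeg (rcomp CN An) := by have := hd _ hT; omega
    have hdCn1 : 1 ≤ rdeg Cn := by have := hd Cn hCn; omega
    obtain ⟨c1, hc1, hl1⟩ := rlift_rcomp P (rcomp CN An) hdT1
    obtain ⟨c2, hc2, hl2⟩ := rlift_rcomp CN An hdAn1
    obtain ⟨c5, hc5, hl5⟩ := rlift_rcomp Q Cn hdCn1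
    have hdeg1 := rdeg_rcomp P (rcomp CN An) hdT1
    have hdeg2 := rdeg_rcomp CN An hdAn1
    have hdeg3 := rdeg_rcomp Q Cn hdCn1
    have hPd := hd P hP
    have hQd := hd Q hQ
    have hPL := rlift_isLift P
    have hQL := rlift_isLift Q
    set a : ℂ := c1 * (c2 * c3 * c4 ^ (rdeg C ^ N)) ^ rdeg P with ha
    set b : ℂ := c5 * c6 ^ rdeg Q with hb
    have ha0 : a ≠ 0 := mul_ne_zero hc1 (pow_ne_zero _ (mul_ne_zero (mul_ne_zero hc2 hc3)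
      (pow_ne_zero _ hc4)))
    have hb0 : b ≠ 0 := mul_ne_zero hc5 (pow_ne_zero _ hc6)
    refine ⟨rdeg P, rdeg Q, rlift P, rlift Q, a⁻¹ * b, by omega, by omega, hPL, hQL,
      mul_ne_zero (inv_ne_zero ha0) hb0, ?_, ?_⟩
    · rw [← hdCN, ← hdAn, ← hdeg2, ← hdeg1, ← hdCn, ← hdeg3, hPQ]
    · intro v _
      have e1 : rlift (rcomp P (rcomp CN An)) v = a • rlift P ((rlift C)^[N] ((rlift A)^[n] v)) := by
        rw [hl1, hl2, hlAn, hlCN, ((rlift_isLift C).iterate N).hom, smul_smul, smul_smul, hPL.hom,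
          smul_smul, ha, mul_assoc]
      have e2 : rlift (rcomp Q Cn) v = b • rlift Q ((rlift C)^[n] v) := by
        rw [hl5, hlCn, hQL.hom, smul_smul]
      rw [hPQ, e2] at e1
      rw [← smul_smul, e1, smul_smul, inv_mul_cancel₀ ha0, one_smul]
  obtain ⟨b, hb⟩ := green_const hpA hpC (hd A hA) (hd C hC) (rlift_isLift A) (rlift_isLift C) hgA
    hgC hno hrel
  refine ⟨(1 - (rdeg A : ℝ)) * b, fun v hv => ?_⟩
  have h1 := hb v hv
  have h2 := hb _ ((rlift_isLift A).nz v hv)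
  rw [hgA v hv] at h2
  have h3 : gA v = gC v - b := by linarith
  rw [h3] at h2
  linarith

end Pool.Agent.Work.MP_78b16e_an
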