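import Pool.Agent.Work.MP_78b16e_an.PartB
import Pool.Agent.Work.MP_78b16e_an.PotA

/-! Assembly.  (owner: helper71) -/

set_option autoImplicit false

namespace Pool.Agent.Work.MP_78b16e_an

/-- all elements share one Green function -/
theorem partA (S : Set (RatFunc ℂ)) (hc : ∀ f ∈ S, ∀ g ∈ S, rcomp f g ∈ S)
    (hd : ∀ f ∈ S, 2 ≤ rdeg f)
    (hrev : ∀ A ∈ S, ∀ B ∈ S, ∃ P ∈ S, ∃ Q ∈ S, rcomp P A = rcomp Q B)
    (F : RatFunc ℂ) (hF : F ∈ S) (hns : ¬ Special F) :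
    ∃ g, IsPot g ∧ ∀ A ∈ S, Compat g A := by
  by_cases h : ∃ C ∈ S, NoTR (rdeg C) (rlift C)
  · obtain ⟨C, hC, hno⟩ := h
    exact partA_case1 S hc hd hrev C hC hno
  · refine partA_case2 S hc hd hrev (fun C hC => ?_) F hF hns
    by_contra hcon
    exact h ⟨C, hC, fun x hx hTR => hcon ⟨x, hx, hTR⟩⟩

theorem main (S : Set (RatFunc ℂ)) (hc : ∀ f ∈ S, ∀ g ∈ S, rcomp f g ∈ S)
    (hd : ∀ f ∈ S, 2 ≤ rdeg f) (hns : ∃ f ∈ S, ¬ Special f) :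
    (∀ A ∈ S, ∀ B ∈ S, ∃ P ∈ S, ∃ Q ∈ S, rcomp P A = rcomp Q B) ↔
      ∀ A ∈ S, ∀ B ∈ S, ∃ k l : ℕ, 1 ≤ k ∧ 1 ≤ l ∧
        (rcomp A)^[2 * k] RatFunc.X =
          rcomp ((rcomp A)^[k] RatFunc.X) ((rcomp B)^[l] RatFunc.X) ∧
        (rcomp B)^[2 * l] RatFunc.X =
          rcomp ((rcomp B)^[l] RatFunc.X) ((rcomp A)^[k] RatFunc.X) := by
  obtain ⟨F, hF, hFns⟩ := hns
  constructor
  · intro hrev
    obtain ⟨g, hg, hcompat⟩ := partA S hc hd hrev F hF hFns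
    exact endgame S hc hd F hF fun G hG =>
      partB F G (hd F hF) (hd G hG) hFns hg (hcompat F hF) (hcompat G hG)
  · exact easy_direction S hc hd

end Pool.Agent.Work.MP_78b16e_an
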