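import Pool.Agent.Work.MP_78b16e_an.Basic

/-! Rational functions, their lifts, composition monoid, algebraic endgame. (owner: helper65) -/

set_option autoImplicit false

namespace Pool.Agent.Work.MP_78b16e_an

open Polynomial

theorem isLift_pair {d : ℕ} {p q : ℂ[X]} (hp : p.natDegree ≤ d) (hq : q.natDegree ≤ d)
    (hc : IsCoprime p q) (ht : p.coeff d ≠ 0 ∨ q.coeff d ≠ 0) :
    IsLift d (fun v => (hform d p v, hform d q v)) := by
  refine ⟨⟨p, q, fun v => rfl⟩, fun v hv h => ?_⟩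
  have h1 : hform d p v = 0 := congrArg Prod.fst h
  have h2 : hform d q v = 0 := congrArg Prod.snd h
  by_cases hv2 : v.2 = 0
  · have hv' : v = (v.1, 0) := Prod.ext rfl hv2
    have hv1 : v.1 ≠ 0 := by
      intro h0
      exact hv (Prod.ext h0 hv2)
    rw [hv', hform_inf] at h1 h2
    rcases ht with ht | ht
    · exact (mul_ne_zero ht (pow_ne_zero _ hv1)) h1
    · exact (mul_ne_zero ht (pow_ne_zero _ hv1)) h2
  · rw [hform_eval hp v hv2] at h1
    rw [hform_eval hq v hv2] at h2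
    have h3 : p.eval (v.1 / v.2) = 0 := (mul_eq_zero.1 h1).resolve_left (pow_ne_zero _ hv2)
    have h4 : q.eval (v.1 / v.2) = 0 := (mul_eq_zero.1 h2).resolve_left (pow_ne_zero _ hv2)
    obtain ⟨a, b, hab⟩ := hc
    have h5 := congrArg (Polynomial.eval (v.1 / v.2)) hab
    simp only [eval_add, eval_mul, h3, h4, mul_zero, add_zero, eval_one] at h5
    exact zero_ne_one h5

theorem rlift_isLift (f : RatFunc ℂ) : IsLift (rdeg f) (rlift f) := by
  refine isLift_pair (le_max_left _ _) (le_max_right _ _) (RatFunc.isCoprime_num_denom f) ?_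
  by_cases h : f.num.natDegree ≤ f.denom.natDegree
  · right
    rw [rdeg, max_eq_right h]
    exact leadingCoeff_ne_zero.2 (RatFunc.denom_ne_zero f)
  · left
    push Not at h
    rw [rdeg, max_eq_left h.le]
    refine leadingCoeff_ne_zero.2 ?_
    intro h0
    rw [h0, natDegree_zero] at h
    exact absurd h (Nat.not_lt_zero _)

/-- `rlift` in the affine chart -/
theorem rlift_affine (f : RatFunc ℂ) (z : ℂ) :
    rlift f (z, 1) = (f.num.eval z, f.denom.eval z) := by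
  have h1 : f.num.natDegree ≤ rdeg f := le_max_left _ _
  have h2 : f.denom.natDegree ≤ rdeg f := le_max_right _ _
  rw [rlift, hform_affine h1, hform_affine h2]

/-- coprimality of the components of a lift -/
theorem coprime_of_lift {d : ℕ} {p q : ℂ[X]} (hp : p.natDegree ≤ d) (hq : q.natDegree ≤ d)
    (h : ∀ v : ℂ × ℂ, v ≠ 0 → (hform d p v, hform d q v) ≠ (0 : ℂ × ℂ)) : IsCoprime p q := by
  refine (Polynomial.isCoprime_iff_aeval_ne_zero_of_isAlgClosed ℂ ℂ p q).2 fun a => ?_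
  by_contra hcon
  push Not at hcon
  obtain ⟨h1, h2⟩ := hcon
  refine h (a, 1) (fun h0 => one_ne_zero (congrArg Prod.snd h0)) ?_
  rw [hform_affine hp, hform_affine hq]
  rw [Polynomial.coe_aeval_eq_eval] at h1 h2
  exact Prod.ext h1 h2

theorem ne_zero_of_lift {d : ℕ} (hd : 1 ≤ d) {p q : ℂ[X]} (hp : p.natDegree ≤ d)
    (hq : q.natDegree ≤ d)
    (h : ∀ v : ℂ × ℂ, v ≠ 0 → (hform d p v, hform d q v) ≠ (0 : ℂ × ℂ)) : q ≠ 0 := by
  intro h0
  have hc := coprime_of_lift hp hq h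
  rw [h0, isCoprime_zero_right] at hc
  have h1 : p.natDegree = 0 := natDegree_eq_zero_of_isUnit hc
  refine h (1, 0) (fun h0 => one_ne_zero (congrArg Prod.fst h0)) ?_
  rw [hform_inf, hform_inf, h0, coeff_eq_zero_of_natDegree_lt (by omega : p.natDegree < d)]
  simp

/-- a coprime pair is the reduced fraction up to a scalar -/
theorem ratFunc_of_pair {d : ℕ} {p q : ℂ[X]} (hp : p.natDegree ≤ d) (hq : q.natDegree ≤ d)
    (h : ∀ v : ℂ × ℂ, v ≠ 0 → (hform d p v, hform d q v) ≠ (0 : ℂ × ℂ)) (hq0 : q ≠ 0)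
    {f : RatFunc ℂ} (hf : f = algebraMap ℂ[X] (RatFunc ℂ) p / algebraMap ℂ[X] (RatFunc ℂ) q) :
    rdeg f = d ∧ ∃ c : ℂ, c ≠ 0 ∧ ∀ v, rlift f v = c • (hform d p v, hform d q v) := by
  have hc := coprime_of_lift hp hq h
  have h1 : f.num * q = p * f.denom := (RatFunc.num_mul_eq_mul_denom_iff hq0).2 hf
  have hcf := RatFunc.isCoprime_num_denom f
  have h2 : f.denom ∣ q := hcf.symm.dvd_of_dvd_mul_left (Dvd.intro_left _ h1.symm)
  obtain ⟨u, hu⟩ := h2
  have h3 : p = f.num * u := by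
    have : f.denom * (f.num * u) = f.denom * p := by
      rw [hu] at h1
      linear_combination h1
    exact (mul_left_cancel₀ (RatFunc.denom_ne_zero f) this).symm
  have hu' : IsUnit u := hc.isUnit_of_dvd' (Dvd.intro_left _ h3.symm) (Dvd.intro_left _ hu.symm)
  obtain ⟨a, ha, rfl⟩ := Polynomial.isUnit_iff.1 hu'
  have ha0 : a ≠ 0 := ha.ne_zero
  have hnum : f.num = C a⁻¹ * p := by
    rw [h3, mul_comm f.num, ← mul_assoc, ← C_mul, inv_mul_cancel₀ ha0, C_1, one_mul]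
  have hden : f.denom = C a⁻¹ * q := by
    rw [hu, mul_comm f.denom, ← mul_assoc, ← C_mul, inv_mul_cancel₀ ha0, C_1, one_mul]
  have hdeg : rdeg f = d := by
    rw [rdeg, hnum, hden, natDegree_C_mul (inv_ne_zero ha0), natDegree_C_mul (inv_ne_zero ha0)]
    refine le_antisymm (max_le hp hq) ?_
    by_contra hcon
    push Not at hcon
    obtain ⟨h4, h5⟩ := max_lt_iff.1 hcon
    refine h (1, 0) (fun h0 => one_ne_zero (congrArg Prod.fst h0)) ?_
    rw [hform_inf, hform_inf, coeff_eq_zero_of_natDegree_lt h4, coeff_eq_zero_of_natDegree_lt h5]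
    simp
  refine ⟨hdeg, a⁻¹, inv_ne_zero ha0, fun v => ?_⟩
  rw [rlift, hdeg, hnum, hden, hform_C_mul, hform_C_mul]
  rfl

theorem aeval_eq (g : RatFunc ℂ) {d : ℕ} {p : ℂ[X]} (hp : p.natDegree ≤ d) :
    aeval g p = algebraMap ℂ[X] (RatFunc ℂ)
        (∑ i ∈ Finset.range (d + 1), C (p.coeff i) * (g.num ^ i * g.denom ^ (d - i))) /
      algebraMap ℂ[X] (RatFunc ℂ) (g.denom ^ d) := by
  have hs : algebraMap ℂ[X] (RatFunc ℂ) g.denom ≠ 0 :=
    (map_ne_zero_iff _ (RatFunc.algebraMap_injective ℂ)).2 (RatFunc.denom_ne_zero g)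
  rw [eq_div_iff (by rw [map_pow]; exact pow_ne_zero _ hs),
    aeval_eq_sum_range' (Nat.lt_succ_of_le hp), Finset.sum_mul, map_sum]
  refine Finset.sum_congr rfl fun i hi => ?_
  have hi' : i ≤ d := Nat.lt_succ_iff.1 (Finset.mem_range.1 hi)
  have h1 : algebraMap ℂ[X] (RatFunc ℂ) g.denom ^ d =
      algebraMap ℂ[X] (RatFunc ℂ) g.denom ^ i * algebraMap ℂ[X] (RatFunc ℂ) g.denom ^ (d - i) := by
    rw [← pow_add, Nat.add_sub_cancel' hi']
  have h2 : g * algebraMap ℂ[X] (RatFunc ℂ) g.denom = algebraMap ℂ[X] (RatFunc ℂ) g.num := by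
    conv_lhs => rw [← RatFunc.num_div_denom g]
    rw [RatFunc.num_div_denom g]
    nth_rewrite 1 [← RatFunc.num_div_denom g]
    exact div_mul_cancel₀ _ hs
  rw [map_mul, map_mul, map_pow, map_pow, map_pow, ← h2, h1, mul_pow, Algebra.smul_def]
  have h3 : algebraMap ℂ (RatFunc ℂ) (p.coeff i) = algebraMap ℂ[X] (RatFunc ℂ) (C (p.coeff i)) := rfl
  rw [h3]
  ring

/-- main computation -/
theorem rcomp_main (f g : RatFunc ℂ) (hg : 1 ≤ rdeg g) :
    rdeg (rcomp f g) = rdeg f * rdeg g ∧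
      ∃ c : ℂ, c ≠ 0 ∧ ∀ v, rlift (rcomp f g) v = c • rlift f (rlift g v) := by
  set d := rdeg f with hd
  set e := rdeg g with he
  set N : ℂ[X] := ∑ i ∈ Finset.range (d + 1), C (f.num.coeff i) * (g.num ^ i * g.denom ^ (d - i))
    with hN
  set M : ℂ[X] := ∑ i ∈ Finset.range (d + 1),
    C (f.denom.coeff i) * (g.num ^ i * g.denom ^ (d - i)) with hM
  have hfn : f.num.natDegree ≤ d := le_max_left _ _
  have hfd : f.denom.natDegree ≤ d := le_max_right _ _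
  have hgn : g.num.natDegree ≤ e := le_max_left _ _
  have hgd : g.denom.natDegree ≤ e := le_max_right _ _
  have hNd : N.natDegree ≤ d * e := subst_natDegree d f.num hgn hgd
  have hMd : M.natDegree ≤ d * e := subst_natDegree d f.denom hgn hgd
  have hval : ∀ v, (hform (d * e) N v, hform (d * e) M v) = rlift f (rlift g v) := by
    intro v
    rw [hN, hM, ← hform_subst d f.num hgn hgd, ← hform_subst d f.denom hgn hgd]
    rfl
  have hnz : ∀ v : ℂ × ℂ, v ≠ 0 → (hform (d * e) N v, hform (d * e) M v) ≠ (0 : ℂ × ℂ) := by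
    intro v hv
    rw [hval]
    exact (rlift_isLift f).nz _ ((rlift_isLift g).nz _ hv)
  have hM0 : M ≠ 0 := by
    rcases Nat.eq_zero_or_pos d with h0 | h0
    · have h1 : f.denom.natDegree = 0 := by omega
      have h2 : f.denom = 1 := (Monic.natDegree_eq_zero (RatFunc.monic_denom f)).1 h1
      rw [hM, h0, h2]
      simp
    · exact ne_zero_of_lift (Nat.mul_pos h0 hg) hNd hMd hnz
  have hs : algebraMap ℂ[X] (RatFunc ℂ) (g.denom ^ d) ≠ 0 :=
    (map_ne_zero_iff _ (RatFunc.algebraMap_injective ℂ)).2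
      (pow_ne_zero _ (RatFunc.denom_ne_zero g))
  have hf : rcomp f g = algebraMap ℂ[X] (RatFunc ℂ) N / algebraMap ℂ[X] (RatFunc ℂ) M := by
    rw [rcomp, aeval_eq g hfn, aeval_eq g hfd, div_div_div_cancel_right₀ hs]
  obtain ⟨h1, c, hc, h2⟩ := ratFunc_of_pair hNd hMd hnz hM0 hf
  exact ⟨h1, c, hc, fun v => by rw [h2, hval]⟩

theorem rdeg_rcomp (f g : RatFunc ℂ) (hg : 1 ≤ rdeg g) : rdeg (rcomp f g) = rdeg f * rdeg g :=
  (rcomp_main f g hg).1

theorem rlift_rcomp (f g : RatFunc ℂ) (hg : 1 ≤ rdeg g) :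
    ∃ c : ℂ, c ≠ 0 ∧ ∀ v, rlift (rcomp f g) v = c • rlift f (rlift g v) :=
  (rcomp_main f g hg).2

theorem eq_of_infinite (f g : RatFunc ℂ)
    (h : {z : ℂ | wg (rlift f (z, 1)) (rlift g (z, 1)) = 0}.Infinite) : f = g := by
  have h1 : f.num * g.denom = g.num * f.denom := by
    apply Polynomial.eq_of_infinite_eval_eq
    refine h.mono fun z hz => ?_
    simp only [Set.mem_ofPred_eq, rlift_affine, wg] at hz ⊢
    rw [eval_mul, eval_mul]
    linear_combination hz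
  rw [← RatFunc.num_div_denom g]
  exact (RatFunc.num_mul_eq_mul_denom_iff (RatFunc.denom_ne_zero g)).1 h1

/-- every homogeneous lift comes from a rational function -/
theorem exists_ratFunc {d : ℕ} (hd : 1 ≤ d) {A : ℂ × ℂ → ℂ × ℂ} (hA : IsLift d A) :
    ∃ f : RatFunc ℂ, rdeg f = d ∧ ∃ c : ℂ, c ≠ 0 ∧ ∀ v, rlift f v = c • A v := by
  obtain ⟨p, q, hp, hq, hpq⟩ := hA.form'
  have hnz : ∀ v : ℂ × ℂ, v ≠ 0 → (hform d p v, hform d q v) ≠ (0 : ℂ × ℂ) := by
    intro v hv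
    rw [← hpq]
    exact hA.nz v hv
  obtain ⟨h1, c, hc, h2⟩ := ratFunc_of_pair hp hq hnz (ne_zero_of_lift hd hp hq hnz) rfl
  exact ⟨_, h1, c, hc, fun v => by rw [h2, hpq]⟩

theorem rcomp_assoc (f g h : RatFunc ℂ) (hg : 1 ≤ rdeg g) (hh : 1 ≤ rdeg h) :
    rcomp (rcomp f g) h = rcomp f (rcomp g h) := by
  have hgh : 1 ≤ rdeg (rcomp g h) := by
    rw [rdeg_rcomp g h hh]
    exact Nat.mul_pos hg hh
  obtain ⟨c1, -, h1⟩ := rlift_rcomp (rcomp f g) h hh
  obtain ⟨c2, -, h2⟩ := rlift_rcomp f g hg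
  obtain ⟨c3, -, h3⟩ := rlift_rcomp f (rcomp g h) hgh
  obtain ⟨c4, -, h4⟩ := rlift_rcomp g h hh
  apply eq_of_infinite
  refine Set.infinite_univ.mono fun z _ => ?_
  simp only [Set.mem_ofPred_eq]
  rw [h1, h2, h3, h4, (rlift_isLift f).hom, wg_smul_left, wg_smul_left, wg_smul_right,
    wg_smul_right, wg_self]
  simp

theorem rcomp_X (f : RatFunc ℂ) : rcomp f RatFunc.X = f := by
  rw [rcomp, RatFunc.aeval_X_left_eq_algebraMap, RatFunc.aeval_X_left_eq_algebraMap,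
    RatFunc.num_div_denom]

theorem rdeg_X : rdeg (RatFunc.X : RatFunc ℂ) = 1 := by
  rw [rdeg, RatFunc.num_X, RatFunc.denom_X, natDegree_X, natDegree_one]
  rfl

theorem rlift_X (v : ℂ × ℂ) : rlift RatFunc.X v = v := by
  rw [rlift, rdeg_X, RatFunc.num_X, RatFunc.denom_X]
  simp only [hform, Finset.sum_range_succ, Finset.sum_range_zero]
  ext <;> simp [coeff_one, coeff_X]

/-- iterates are nonconstant and their lifts are the iterated lifts up to scaling -/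
theorem rlift_iterate (f : RatFunc ℂ) (hf : 1 ≤ rdeg f) (n : ℕ) :
    rdeg ((rcomp f)^[n] RatFunc.X) = rdeg f ^ n ∧
    ∃ c : ℂ, c ≠ 0 ∧ ∀ v, rlift ((rcomp f)^[n] RatFunc.X) v = c • (rlift f)^[n] v := by
  induction n with
  | zero =>
    refine ⟨by rw [Function.iterate_zero, id, rdeg_X, pow_zero], 1, one_ne_zero, fun v => ?_⟩
    rw [Function.iterate_zero, id, rlift_X, one_smul, Function.iterate_zero, id]
  | succ n ih =>
    obtain ⟨h1, c, hc, h2⟩ := ih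
    have h3 : 1 ≤ rdeg ((rcomp f)^[n] RatFunc.X) := by
      rw [h1]
      exact Nat.one_le_pow _ _ hf
    rw [Function.iterate_succ_apply', rdeg_rcomp _ _ h3, h1]
    refine ⟨by rw [pow_succ, mul_comm], ?_⟩
    obtain ⟨c', hc', h4⟩ := rlift_rcomp f _ h3
    refine ⟨c' * c ^ rdeg f, mul_ne_zero hc' (pow_ne_zero _ hc), fun v => ?_⟩
    rw [h4, h2, (rlift_isLift f).hom, smul_smul, Function.iterate_succ_apply']

/-! ### the monoid of nonconstant rational functions -/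

/-- nonconstant rational functions -/
def NC : Type := {f : RatFunc ℂ // 1 ≤ rdeg f}

noncomputable instance : Monoid NC where
  mul f g := ⟨rcomp f.1 g.1, by
    rw [rdeg_rcomp _ _ g.2]
    exact Nat.mul_pos f.2 g.2⟩
  one := ⟨RatFunc.X, by rw [rdeg_X]⟩
  mul_assoc f g h := Subtype.ext (rcomp_assoc f.1 g.1 h.1 g.2 h.2)
  one_mul f := Subtype.ext (by
    change rcomp RatFunc.X f.1 = f.1
    rw [rcomp, RatFunc.num_X, RatFunc.denom_X, aeval_X, map_one, div_one])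
  mul_one f := Subtype.ext (rcomp_X f.1)

/-- constructor -/
def NC.mk (f : RatFunc ℂ) (hf : 1 ≤ rdeg f) : NC := ⟨f, hf⟩

theorem NC.val_mul (f g : NC) : (f * g).1 = rcomp f.1 g.1 := rfl

theorem NC.val_one : (1 : NC).1 = RatFunc.X := rfl

theorem NC.val_pow (f : NC) (n : ℕ) : (f ^ n).1 = (rcomp f.1)^[n] RatFunc.X := by
  induction n with
  | zero => rfl
  | succ n ih => rw [pow_succ', NC.val_mul, ih, Function.iterate_succ_apply']

theorem NC.ext {f g : NC} (h : f.1 = g.1) : f = g := Subtype.ext h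

theorem rdeg_const (a : ℂ) : rdeg (algebraMap ℂ (RatFunc ℂ) a) = 0 := by
  have : algebraMap ℂ (RatFunc ℂ) a = RatFunc.C a := rfl
  rw [this, rdeg, RatFunc.num_C, RatFunc.denom_C]
  simp

theorem aeval_ne_zero {h : RatFunc ℂ} (hh : 1 ≤ rdeg h) {u : ℂ[X]} (hu : u ≠ 0) :
    aeval h u ≠ 0 := by
  have h1 : u = C u.leadingCoeff * (u.roots.map fun a => X - C a).prod :=
    (IsAlgClosed.splits u).eq_prod_roots
  rw [h1, map_mul, aeval_C, map_multiset_prod, Multiset.map_map]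
  refine mul_ne_zero ?_ ?_
  · exact (map_ne_zero_iff _ (algebraMap ℂ (RatFunc ℂ)).injective).2 (leadingCoeff_ne_zero.2 hu)
  · refine Multiset.prod_ne_zero ?_
    intro h2
    obtain ⟨a, -, h3⟩ := Multiset.mem_map.1 h2
    simp only [Function.comp_apply, map_sub, aeval_X, aeval_C] at h3
    rw [sub_eq_zero.1 h3, rdeg_const] at hh
    exact absurd hh (by norm_num)

theorem NC.cancel {f g h : NC} (heq : f * h = g * h) : f = g := by
  apply NC.ext
  have h1 : rcomp f.1 h.1 = rcomp g.1 h.1 := congrArg Subtype.val heq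
  rw [rcomp, rcomp, div_eq_div_iff (aeval_ne_zero h.2 (RatFunc.denom_ne_zero _))
    (aeval_ne_zero h.2 (RatFunc.denom_ne_zero _)), ← map_mul, ← map_mul, ← sub_eq_zero,
    ← map_sub] at h1
  have h2 : f.1.num * g.1.denom - g.1.num * f.1.denom = 0 := by
    by_contra hne
    exact aeval_ne_zero h.2 hne h1
  rw [← RatFunc.num_div_denom g.1]
  exact (RatFunc.num_mul_eq_mul_denom_iff (RatFunc.denom_ne_zero g.1)).1 (sub_eq_zero.1 h2)

/-- the polynomial over the function field whose roots are the right quotients -/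
theorem NC.exists_poly (R K : NC) : ∃ P : (RatFunc ℂ)[X], P ≠ 0 ∧ P.natDegree ≤ rdeg R.1 ∧
    ∀ W : NC, R * W = K → P.IsRoot W.1 := by
  refine ⟨R.1.num.map (algebraMap ℂ (RatFunc ℂ)) - C K.1 * R.1.denom.map (algebraMap ℂ (RatFunc ℂ)),
    ?_, ?_, ?_⟩
  · intro h0
    have h1 := congrArg (fun P => P.coeff R.1.denom.natDegree) h0
    simp only [coeff_sub, coeff_map, coeff_C_mul, coeff_zero] at h1
    have h2 : R.1.denom.coeff R.1.denom.natDegree = 1 := RatFunc.monic_denom R.1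
    rw [h2, map_one, mul_one, sub_eq_zero] at h1
    have h3 := K.2
    rw [← h1, rdeg_const] at h3
    exact absurd h3 (by norm_num)
  · refine (natDegree_sub_le _ _).trans (max_le ?_ ?_)
    · exact natDegree_map_le.trans (le_max_left _ _)
    · exact (natDegree_C_mul_le _ _).trans (natDegree_map_le.trans (le_max_right _ _))
  · intro W hW
    have h1 : rcomp R.1 W.1 = K.1 := congrArg Subtype.val hW
    rw [rcomp, div_eq_iff (aeval_ne_zero W.2 (RatFunc.denom_ne_zero _))] at h1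
    rw [IsRoot.def, eval_sub, eval_mul, eval_C, eval_map_algebraMap, eval_map_algebraMap, h1,
      sub_self]

theorem NC.pigeon (R K : NC) (W : ℕ → NC) (hW : ∀ i ≤ rdeg R.1, R * W i = K) :
    ∃ i j, i < j ∧ j ≤ rdeg R.1 ∧ W i = W j := by
  classical
  obtain ⟨P, hP, hPd, hPW⟩ := NC.exists_poly R K
  have h1 : ∀ i ∈ Finset.range (rdeg R.1 + 1), (W i).1 ∈ P.roots.toFinset := by
    intro i hi
    rw [Multiset.mem_toFinset, mem_roots hP]
    exact hPW _ (hW i (Nat.lt_succ_iff.1 (Finset.mem_range.1 hi)))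
  have h2 : P.roots.toFinset.card < (Finset.range (rdeg R.1 + 1)).card := by
    rw [Finset.card_range]
    exact Nat.lt_succ_of_le ((Multiset.toFinset_card_le _).trans ((card_roots' P).trans hPd))
  obtain ⟨i, hi, j, hj, hne, heq⟩ := Finset.exists_ne_map_eq_of_card_lt_of_maps_to h2 h1
  have hi' := Nat.lt_succ_iff.1 (Finset.mem_range.1 hi)
  have hj' := Nat.lt_succ_iff.1 (Finset.mem_range.1 hj)
  rcases lt_or_gt_of_ne hne with h | h
  · exact ⟨i, j, h, hj', NC.ext heq⟩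
  · exact ⟨j, i, h, hi', NC.ext heq.symm⟩

theorem NC.left_pow {R P : NC} (h : R * P = R ^ 2) (n : ℕ) : R * P ^ n = R ^ (n + 1) := by
  induction n with
  | zero => rw [pow_zero, mul_one, zero_add, pow_one]
  | succ n ih =>
    rw [pow_succ', ← mul_assoc, h, pow_two, mul_assoc, ih, ← pow_succ']

theorem NC.lemmaW {R P Q : NC} (hP : R * P = R ^ 2) (hQ : R * Q = R ^ 2) :
    ∃ L : ℕ, 1 ≤ L ∧ ∀ s : ℕ, 1 ≤ s → P ^ (L * s) * Q ^ (L * s) = P ^ (2 * (L * s)) := by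
  obtain ⟨i, i', hii, hi', heq⟩ := NC.pigeon R (R ^ (rdeg R.1 + 1))
    (fun i => P ^ i * Q ^ (rdeg R.1 - i)) (by
      intro i hi
      rw [← mul_assoc, NC.left_pow hP, pow_succ, mul_assoc, NC.left_pow hQ, ← pow_add]
      congr 1
      omega)
  obtain ⟨j, rfl⟩ : ∃ j, i' = i + j := ⟨i' - i, by omega⟩
  have hj : 1 ≤ j := by omega
  have h1 : P ^ i * Q ^ j = P ^ (i + j) := by
    apply NC.cancel (h := Q ^ (rdeg R.1 - (i + j)))
    rw [mul_assoc, ← pow_add, ← heq]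
    congr 2
    omega
  have h2 : ∀ s, P ^ i * Q ^ (j * s) = P ^ (i + j * s) := by
    intro s
    induction s with
    | zero => simp
    | succ s ih =>
      rw [Nat.mul_succ, pow_add Q, ← mul_assoc, ih, add_comm i (j * s), pow_add, mul_assoc, h1,
        ← pow_add]
      congr 1
      omega
  refine ⟨j * (i + 1), Nat.mul_pos hj (Nat.succ_pos _), fun s hs => ?_⟩
  have h3 : i ≤ j * (i + 1) * s := by
    calc i ≤ 1 * (i + 1) * 1 := by omega
      _ ≤ j * (i + 1) * s := by gcongr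
  have h4 : P ^ (j * (i + 1) * s) = P ^ (j * (i + 1) * s - i) * P ^ i := by
    rw [← pow_add]
    congr 1
    omega
  have h5 : P ^ i * Q ^ (j * (i + 1) * s) = P ^ (i + j * (i + 1) * s) := by
    rw [mul_assoc j]
    exact h2 _
  rw [h4, mul_assoc, h5, ← pow_add]
  congr 1
  omega

theorem NC.pow_rel {G F : NC} (h1 : G * F = G ^ 2) (t : ℕ) (ht : 1 ≤ t) :
    G ^ t * F ^ t = (G ^ t) ^ 2 := by
  have h7 : G ^ t = G ^ (t - 1) * G := by
    rw [← pow_succ]
    congr 1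
    omega
  conv_lhs => rw [h7]
  rw [mul_assoc, NC.left_pow h1, ← pow_add, ← pow_mul]
  congr 1
  omega

theorem NC.step1 {G F : NC} {n q p : ℕ} (hn : 1 ≤ n) (hq : 1 ≤ q) (hp : 1 ≤ p)
    (h : G ^ n * F ^ q = G ^ (n + p)) :
    ∃ a b : ℕ, 1 ≤ a ∧ 1 ≤ b ∧ G ^ a * F ^ b = (G ^ a) ^ 2 ∧ F ^ b * G ^ a = (F ^ b) ^ 2 := by
  have h1 : ∀ i, G ^ n * F ^ (q * i) = G ^ (n + p * i) := by
    intro i
    induction i with
    | zero => simp
    | succ i ih =>
      rw [Nat.mul_succ, pow_add F, ← mul_assoc, ih, add_comm n (p * i), pow_add, mul_assoc, h,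
        ← pow_add]
      congr 1
      ring
  have h2 : n ≤ p * n := Nat.le_mul_of_pos_left _ hp
  have h3 : G ^ (p * n) * F ^ (q * n) = (G ^ (p * n)) ^ 2 := by
    have h4 : G ^ (p * n) = G ^ (p * n - n) * G ^ n := by
      rw [← pow_add]
      congr 1
      omega
    rw [← pow_mul]
    rw [h4, mul_assoc, h1, ← pow_add]
    congr 1
    omega
  set Q := G ^ (p * n) with hQ
  set P := F ^ (q * n) with hP
  obtain ⟨L, hL, h5⟩ := NC.lemmaW (R := Q) (P := P) (Q := Q) h3 (pow_two Q).symm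
  have h6 := h5 1 le_rfl
  rw [mul_one] at h6
  refine ⟨p * n * L, q * n * L, ?_, ?_, ?_, ?_⟩
  · exact Nat.mul_pos (Nat.mul_pos hp hn) hL
  · exact Nat.mul_pos (Nat.mul_pos hq hn) hL
  · rw [pow_mul G (p * n), pow_mul F (q * n), ← hQ, ← hP]
    exact NC.pow_rel h3 L hL
  · rw [pow_mul G (p * n), pow_mul F (q * n), ← hQ, ← hP, h6, mul_comm 2 L, pow_mul]

theorem NC.step2 {A B F : NC} {a b a' b' : ℕ} (ha : 1 ≤ a) (hb : 1 ≤ b) (ha' : 1 ≤ a')
    (hb' : 1 ≤ b') (h1 : F ^ b * A ^ a = (F ^ b) ^ 2)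
    (h3 : F ^ b' * B ^ a' = (F ^ b') ^ 2) :
    ∃ k l : ℕ, 1 ≤ k ∧ 1 ≤ l ∧ A ^ (2 * k) = A ^ k * B ^ l ∧ B ^ (2 * l) = B ^ l * A ^ k := by
  have h5 := NC.pow_rel h1 b' hb'
  have h6 := NC.pow_rel h3 b hb
  rw [← pow_mul, ← pow_mul A] at h5
  rw [← pow_mul, ← pow_mul B, mul_comm b' b] at h6
  obtain ⟨L1, hL1, h7⟩ := NC.lemmaW h5 h6
  obtain ⟨L2, hL2, h8⟩ := NC.lemmaW h6 h5
  have h9 := h7 L2 hL2
  have h10 := h8 L1 hL1
  rw [mul_comm L2 L1] at h10
  refine ⟨a * b' * (L1 * L2), a' * b * (L1 * L2), ?_, ?_, ?_, ?_⟩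
  · exact Nat.mul_pos (Nat.mul_pos ha hb') (Nat.mul_pos hL1 hL2)
  · exact Nat.mul_pos (Nat.mul_pos ha' hb) (Nat.mul_pos hL1 hL2)
  · rw [pow_mul A (a * b'), pow_mul B (a' * b), h9, ← pow_mul]
    congr 1
    ring
  · rw [pow_mul A (a * b'), pow_mul B (a' * b), h10, ← pow_mul]
    congr 1
    ring

/-- algebraic endgame -/
theorem endgame (S : Set (RatFunc ℂ)) (hc : ∀ f ∈ S, ∀ g ∈ S, rcomp f g ∈ S)
    (hd : ∀ f ∈ S, 2 ≤ rdeg f) (F : RatFunc ℂ) (hF : F ∈ S)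
    (h : ∀ G ∈ S, ∃ n q p : ℕ, 1 ≤ n ∧ 1 ≤ q ∧ 1 ≤ p ∧
      rcomp ((rcomp G)^[n] RatFunc.X) ((rcomp F)^[q] RatFunc.X) = (rcomp G)^[n + p] RatFunc.X) :
    ∀ A ∈ S, ∀ B ∈ S, ∃ k l : ℕ, 1 ≤ k ∧ 1 ≤ l ∧
      (rcomp A)^[2 * k] RatFunc.X =
        rcomp ((rcomp A)^[k] RatFunc.X) ((rcomp B)^[l] RatFunc.X) ∧
      (rcomp B)^[2 * l] RatFunc.X =
        rcomp ((rcomp B)^[l] RatFunc.X) ((rcomp A)^[k] RatFunc.X) := by
  have hd1 : ∀ f ∈ S, 1 ≤ rdeg f := fun f hf => le_trans (by norm_num) (hd f hf)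
  have key : ∀ (G : RatFunc ℂ) (hG : G ∈ S), ∃ a b : ℕ, 1 ≤ a ∧ 1 ≤ b ∧
      NC.mk F (hd1 F hF) ^ b * NC.mk G (hd1 G hG) ^ a = (NC.mk F (hd1 F hF) ^ b) ^ 2 := by
    intro G hG
    obtain ⟨n, q, p, hn, hq, hp, heq⟩ := h G hG
    obtain ⟨a, b, ha, hb, -, h2⟩ := NC.step1 (G := NC.mk G (hd1 G hG)) (F := NC.mk F (hd1 F hF)) hn hq hp
      (NC.ext (by rw [NC.val_mul, NC.val_pow, NC.val_pow, NC.val_pow]; exact heq))
    exact ⟨a, b, ha, hb, h2⟩
  intro A hA B hB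
  obtain ⟨a, b, ha, hb, h1⟩ := key A hA
  obtain ⟨a', b', ha', hb', h2⟩ := key B hB
  obtain ⟨k, l, hk, hl, h3, h4⟩ := NC.step2 ha hb ha' hb' h1 h2
  refine ⟨k, l, hk, hl, ?_, ?_⟩
  · have := congrArg Subtype.val h3
    rw [NC.val_mul, NC.val_pow, NC.val_pow, NC.val_pow] at this
    exact this
  · have := congrArg Subtype.val h4
    rw [NC.val_mul, NC.val_pow, NC.val_pow, NC.val_pow] at this
    exact this

/-- the easy direction of the frozen statement -/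
theorem easy_direction (S : Set (RatFunc ℂ)) (hc : ∀ f ∈ S, ∀ g ∈ S, rcomp f g ∈ S)
    (hd : ∀ f ∈ S, 2 ≤ rdeg f)
    (h : ∀ A ∈ S, ∀ B ∈ S, ∃ k l : ℕ, 1 ≤ k ∧ 1 ≤ l ∧
      (rcomp A)^[2 * k] RatFunc.X =
        rcomp ((rcomp A)^[k] RatFunc.X) ((rcomp B)^[l] RatFunc.X) ∧
      (rcomp B)^[2 * l] RatFunc.X =
        rcomp ((rcomp B)^[l] RatFunc.X) ((rcomp A)^[k] RatFunc.X)) :
    ∀ A ∈ S, ∀ B ∈ S, ∃ P ∈ S, ∃ Q ∈ S, rcomp P A = rcomp Q B := by
  have hd1 : ∀ f ∈ S, 1 ≤ rdeg f := fun f hf => le_trans (by norm_num) (hd f hf)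
  have hS : ∀ f ∈ S, ∀ n, (rcomp f)^[n + 1] RatFunc.X ∈ S := by
    intro f hf n
    induction n with
    | zero =>
      rw [zero_add, Function.iterate_one, rcomp_X]
      exact hf
    | succ n ih =>
      rw [Function.iterate_succ_apply']
      exact hc _ hf _ ih
  intro A hA B hB
  obtain ⟨k, l, hk, hl, h1, -⟩ := h A hA B hB
  obtain ⟨k, rfl⟩ : ∃ k', k = k' + 1 := ⟨k - 1, by omega⟩
  obtain ⟨l, rfl⟩ : ∃ l', l = l' + 1 := ⟨l - 1, by omega⟩
  let a : NC := NC.mk A (hd1 A hA)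
  let b : NC := NC.mk B (hd1 B hB)
  have h2 : a ^ (2 * (k + 1)) = a ^ (k + 1) * b ^ (l + 1) := by
    apply NC.ext
    rw [NC.val_mul, NC.val_pow, NC.val_pow, NC.val_pow]
    exact h1
  have h3 : a ^ (2 * k + 1) * a = a ^ (k + 1) * b ^ l * b := by
    rw [← pow_succ, mul_assoc, ← pow_succ, ← h2]
    congr 1
  have h4 := congrArg Subtype.val h3
  rw [NC.val_mul, NC.val_mul, NC.val_mul, NC.val_pow, NC.val_pow, NC.val_pow] at h4
  refine ⟨_, hS A hA (2 * k), _, ?_, h4⟩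
  rcases l with _ | l
  · rw [Function.iterate_zero]
    change rcomp ((rcomp A)^[k + 1] RatFunc.X) RatFunc.X ∈ S
    rw [rcomp_X]
    exact hS A hA k
  · exact hc _ (hS A hA k) _ (hS B hB l)

end Pool.Agent.Work.MP_78b16e_an
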