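import Pool.Agent.Work.MP_78b16e_an.Defs

/-! Basic algebra of `wg`, homogeneous lifts, potentials.  (owner: helper71) -/

set_option autoImplicit false

namespace Pool.Agent.Work.MP_78b16e_an

open Polynomial Metric

theorem wg_self (x : ℂ × ℂ) : wg x x = 0 := by simp [wg]; ring
theorem wg_swap (x y : ℂ × ℂ) : wg x y = - wg y x := by simp only [wg]; ring
theorem wg_smul_left (c : ℂ) (x y : ℂ × ℂ) : wg (c • x) y = c * wg x y := by simp [wg]; ring
theorem wg_smul_right (c : ℂ) (x y : ℂ × ℂ) : wg x (c • y) = c * wg x y := by simp [wg]; ring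
theorem wg_add_left (x y z : ℂ × ℂ) : wg (x + y) z = wg x z + wg y z := by simp [wg]; ring
theorem wg_add_right (x y z : ℂ × ℂ) : wg x (y + z) = wg x y + wg x z := by simp [wg]; ring
theorem wg_zero_left (x : ℂ × ℂ) : wg 0 x = 0 := by simp [wg]
theorem wg_zero_right (x : ℂ × ℂ) : wg x 0 = 0 := by simp [wg]

theorem wg_decomp (x y v : ℂ × ℂ) : wg x y • v = wg v y • x + wg x v • y := by
  ext <;> simp [wg] <;> ring

theorem wg_eq_zero_iff {x : ℂ × ℂ} (hx : x ≠ 0) (y : ℂ × ℂ) :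
    wg x y = 0 ↔ ∃ c : ℂ, y = c • x := by
  constructor
  · intro h
    simp only [wg] at h
    by_cases h1 : x.1 = 0
    · have h2 : x.2 ≠ 0 := by
        intro h2; exact hx (Prod.ext h1 h2)
      refine ⟨y.2 / x.2, ?_⟩
      rw [h1] at h
      have h3 : y.1 = 0 := by
        have : x.2 * y.1 = 0 := by linear_combination -h
        exact (mul_eq_zero.1 this).resolve_left h2
      ext
      · simp [h1, h3]
      · simp; field_simp
    · refine ⟨y.1 / x.1, ?_⟩
      ext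
      · simp; field_simp
      · simp
        field_simp
        linear_combination h
  · rintro ⟨c, rfl⟩
    rw [wg_smul_right, wg_self, mul_zero]

theorem wg_trans {x y z : ℂ × ℂ} (hy : y ≠ 0) (h1 : wg x y = 0) (h2 : wg y z = 0) :
    wg x z = 0 := by
  obtain ⟨c, rfl⟩ := (wg_eq_zero_iff hy x).1 (by rw [wg_swap, h1, neg_zero])
  obtain ⟨e, rfl⟩ := (wg_eq_zero_iff hy z).1 h2
  rw [wg_smul_left, wg_smul_right, wg_self, mul_zero, mul_zero]

theorem wg_perp (x : ℂ × ℂ) : wg x (perp x) = ((‖x.1‖ ^ 2 + ‖x.2‖ ^ 2 : ℝ) : ℂ) := by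
  simp only [wg, perp]
  push_cast
  rw [← Complex.mul_conj', ← Complex.mul_conj']
  ring

theorem wg_perp_ne {x : ℂ × ℂ} (hx : x ≠ 0) : wg x (perp x) ≠ 0 := by
  rw [wg_perp]
  intro h
  have h' : ‖x.1‖ ^ 2 + ‖x.2‖ ^ 2 = 0 := by exact_mod_cast h
  have h1 : ‖x.1‖ = 0 := by nlinarith [sq_nonneg ‖x.1‖, sq_nonneg ‖x.2‖]
  have h2 : ‖x.2‖ = 0 := by nlinarith [sq_nonneg ‖x.1‖, sq_nonneg ‖x.2‖]
  exact hx (Prod.ext (norm_eq_zero.1 h1) (norm_eq_zero.1 h2))

theorem norm_wg_le (x y : ℂ × ℂ) : ‖wg x y‖ ≤ 2 * ‖x‖ * ‖y‖ := by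
  simp only [wg]
  have hx1 := norm_fst_le x
  have hx2 := norm_snd_le x
  have hy1 := norm_fst_le y
  have hy2 := norm_snd_le y
  calc ‖x.1 * y.2 - x.2 * y.1‖ ≤ ‖x.1 * y.2‖ + ‖x.2 * y.1‖ := norm_sub_le _ _
    _ = ‖x.1‖ * ‖y.2‖ + ‖x.2‖ * ‖y.1‖ := by rw [norm_mul, norm_mul]
    _ ≤ ‖x‖ * ‖y‖ + ‖x‖ * ‖y‖ := by gcongr
    _ = 2 * ‖x‖ * ‖y‖ := by ring

/-! ### homogeneous forms -/

theorem hform_smul (d : ℕ) (p : ℂ[X]) (c : ℂ) (v : ℂ × ℂ) :
    hform d p (c • v) = c ^ d * hform d p v := by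
  simp only [hform, Finset.mul_sum]
  refine Finset.sum_congr rfl fun i hi => ?_
  have hi' : i ≤ d := Nat.lt_succ_iff.1 (Finset.mem_range.1 hi)
  have : c ^ d = c ^ i * c ^ (d - i) := by rw [← pow_add, Nat.add_sub_cancel' hi']
  simp only [Prod.smul_fst, Prod.smul_snd, smul_eq_mul, mul_pow, this]
  ring

theorem hform_contDiff (d : ℕ) (p : ℂ[X]) : ContDiff ℂ ⊤ (hform d p) := by
  unfold hform
  fun_prop

theorem hform_add (d : ℕ) (p q : ℂ[X]) (v : ℂ × ℂ) :
    hform d (p + q) v = hform d p v + hform d q v := by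
  simp only [hform, coeff_add, add_mul, Finset.sum_add_distrib]

theorem hform_C_mul (d : ℕ) (c : ℂ) (p : ℂ[X]) (v : ℂ × ℂ) :
    hform d (C c * p) v = c * hform d p v := by
  simp only [hform, coeff_C_mul, Finset.mul_sum]
  exact Finset.sum_congr rfl fun i _ => by ring

theorem hform_zero (d : ℕ) (v : ℂ × ℂ) : hform d 0 v = 0 := by
  simp [hform]

theorem hform_sum {ι : Type*} (s : Finset ι) (d : ℕ) (f : ι → ℂ[X]) (v : ℂ × ℂ) :
    hform d (∑ i ∈ s, f i) v = ∑ i ∈ s, hform d (f i) v := by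
  classical
  induction s using Finset.induction_on with
  | empty => simp [hform_zero]
  | insert a s ha ih => rw [Finset.sum_insert ha, Finset.sum_insert ha, hform_add, ih]

/-- truncation -/
theorem hform_trunc (d : ℕ) (p : ℂ[X]) :
    ∃ p' : ℂ[X], p'.natDegree ≤ d ∧ hform d p' = hform d p ∧ ∀ i ≤ d, p'.coeff i = p.coeff i := by
  classical
  refine ⟨∑ i ∈ Finset.range (d + 1), C (p.coeff i) * X ^ i, ?_, ?_, ?_⟩
  · refine natDegree_sum_le_of_forall_le _ _ fun i hi => ?_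
    have hi' : i ≤ d := Nat.lt_succ_iff.1 (Finset.mem_range.1 hi)
    exact (natDegree_C_mul_X_pow_le _ _).trans hi'
  · funext v
    have hc : ∀ j ∈ Finset.range (d + 1),
        (∑ i ∈ Finset.range (d + 1), C (p.coeff i) * X ^ i : ℂ[X]).coeff j = p.coeff j := by
      intro j hj
      simp only [finsetSum_coeff, coeff_C_mul, coeff_X_pow, mul_ite, mul_one, mul_zero,
        Finset.sum_ite_eq]
      rw [if_pos hj]
    simp only [hform]
    exact Finset.sum_congr rfl fun j hj => by rw [hc j hj]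
  · intro j hj
    simp only [finsetSum_coeff, coeff_C_mul, coeff_X_pow, mul_ite, mul_one, mul_zero,
      Finset.sum_ite_eq]
    rw [if_pos (Finset.mem_range.2 (by omega))]

theorem hform_eval {d : ℕ} {p : ℂ[X]} (hp : p.natDegree ≤ d) (v : ℂ × ℂ) (hv : v.2 ≠ 0) :
    hform d p v = v.2 ^ d * p.eval (v.1 / v.2) := by
  rw [eval_eq_sum_range' (Nat.lt_succ_of_le hp), Finset.mul_sum]
  simp only [hform]
  refine Finset.sum_congr rfl fun i hi => ?_
  have hi' : i ≤ d := Nat.lt_succ_iff.1 (Finset.mem_range.1 hi)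
  have : v.2 ^ d = v.2 ^ i * v.2 ^ (d - i) := by rw [← pow_add, Nat.add_sub_cancel' hi']
  rw [this, div_pow]
  field_simp

theorem hform_affine {d : ℕ} {p : ℂ[X]} (hp : p.natDegree ≤ d) (z : ℂ) :
    hform d p (z, 1) = p.eval z := by
  rw [hform_eval hp _ (by simp)]
  simp

theorem hform_inf (d : ℕ) (p : ℂ[X]) (z : ℂ) : hform d p (z, 0) = p.coeff d * z ^ d := by
  simp only [hform]
  rw [Finset.sum_eq_single d]
  · simp
  · intro i hi hne
    have hi' : i ≤ d := Nat.lt_succ_iff.1 (Finset.mem_range.1 hi)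
    have : d - i ≠ 0 := by omega
    simp [zero_pow this]
  · intro h
    exact absurd (Finset.mem_range.2 (Nat.lt_succ_self d)) h

theorem hform_mul {d e : ℕ} {p q : ℂ[X]} (hp : p.natDegree ≤ d) (hq : q.natDegree ≤ e)
    (v : ℂ × ℂ) : hform (d + e) (p * q) v = hform d p v * hform e q v := by
  by_cases hv : v.2 = 0
  · have hv' : v = (v.1, 0) := Prod.ext rfl hv
    rw [hv', hform_inf, hform_inf, hform_inf, coeff_mul_add_eq_of_natDegree_le hp hq]
    ring
  · rw [hform_eval hp v hv, hform_eval hq v hv,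
      hform_eval ((natDegree_mul_le).trans (add_le_add hp hq)) v hv, eval_mul, pow_add]
    ring

theorem hform_one (v : ℂ × ℂ) : hform 0 1 v = 1 := by
  simp [hform]

theorem hform_pow {e : ℕ} {p : ℂ[X]} (hp : p.natDegree ≤ e) (i : ℕ) (v : ℂ × ℂ) :
    hform (i * e) (p ^ i) v = hform e p v ^ i := by
  induction i with
  | zero => simp [hform_one]
  | succ i ih =>
    rw [pow_succ, pow_succ, add_mul, one_mul, hform_mul _ hp, ih]
    exact (natDegree_pow_le).trans (Nat.mul_le_mul_left _ hp)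

/-- substitution of forms into a form -/
theorem hform_subst (d : ℕ) {e : ℕ} (p : ℂ[X]) {r s : ℂ[X]} (hr : r.natDegree ≤ e)
    (hs : s.natDegree ≤ e) (v : ℂ × ℂ) :
    hform d p (hform e r v, hform e s v) =
      hform (d * e) (∑ i ∈ Finset.range (d + 1), C (p.coeff i) * (r ^ i * s ^ (d - i))) v := by
  rw [hform_sum]
  conv_lhs => rw [hform]
  refine Finset.sum_congr rfl fun i hi => ?_
  have hi' : i ≤ d := Nat.lt_succ_iff.1 (Finset.mem_range.1 hi)
  rw [hform_C_mul]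
  have h1 : d * e = i * e + (d - i) * e := by
    rw [← add_mul, Nat.add_sub_cancel' hi']
  have h2 : (r ^ i).natDegree ≤ i * e := (natDegree_pow_le).trans (Nat.mul_le_mul_left _ hr)
  have h3 : (s ^ (d - i)).natDegree ≤ (d - i) * e :=
    (natDegree_pow_le).trans (Nat.mul_le_mul_left _ hs)
  rw [h1, hform_mul h2 h3, hform_pow hr, hform_pow hs]
  ring

theorem subst_natDegree (d : ℕ) {e : ℕ} (p : ℂ[X]) {r s : ℂ[X]} (hr : r.natDegree ≤ e)
    (hs : s.natDegree ≤ e) :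
    (∑ i ∈ Finset.range (d + 1), C (p.coeff i) * (r ^ i * s ^ (d - i))).natDegree ≤ d * e := by
  refine natDegree_sum_le_of_forall_le _ _ fun i hi => ?_
  have hi' : i ≤ d := Nat.lt_succ_iff.1 (Finset.mem_range.1 hi)
  have h1 : d * e = i * e + (d - i) * e := by
    rw [← add_mul, Nat.add_sub_cancel' hi']
  have h2 : (r ^ i).natDegree ≤ i * e := (natDegree_pow_le).trans (Nat.mul_le_mul_left _ hr)
  have h3 : (s ^ (d - i)).natDegree ≤ (d - i) * e :=
    (natDegree_pow_le).trans (Nat.mul_le_mul_left _ hs)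
  calc (C (p.coeff i) * (r ^ i * s ^ (d - i))).natDegree ≤ (r ^ i * s ^ (d - i)).natDegree :=
        natDegree_C_mul_le _ _
    _ ≤ (r ^ i).natDegree + (s ^ (d - i)).natDegree := natDegree_mul_le
    _ ≤ d * e := by rw [h1]; exact add_le_add h2 h3

/-! ### lifts -/

theorem IsLift.form' {d : ℕ} {A : ℂ × ℂ → ℂ × ℂ} (hA : IsLift d A) :
    ∃ p q : ℂ[X], p.natDegree ≤ d ∧ q.natDegree ≤ d ∧
      ∀ v, A v = (hform d p v, hform d q v) := by
  obtain ⟨p, q, h⟩ := hA.form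
  obtain ⟨p', hp', hpe, -⟩ := hform_trunc d p
  obtain ⟨q', hq', hqe, -⟩ := hform_trunc d q
  exact ⟨p', q', hp', hq', fun v => by rw [h v, hpe, hqe]⟩

theorem IsLift.hom {d : ℕ} {A : ℂ × ℂ → ℂ × ℂ} (hA : IsLift d A) (c : ℂ) (v : ℂ × ℂ) :
    A (c • v) = c ^ d • A v := by
  obtain ⟨p, q, h⟩ := hA.form
  rw [h, h, hform_smul, hform_smul]
  rfl

theorem IsLift.contDiff {d : ℕ} {A : ℂ × ℂ → ℂ × ℂ} (hA : IsLift d A) :
    ContDiff ℂ ⊤ A := by
  obtain ⟨p, q, h⟩ := hA.form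
  have : A = fun v => (hform d p v, hform d q v) := funext h
  rw [this]
  exact (hform_contDiff d p).prodMk (hform_contDiff d q)

theorem IsLift.differentiable {d : ℕ} {A : ℂ × ℂ → ℂ × ℂ} (hA : IsLift d A) :
    Differentiable ℂ A := hA.contDiff.differentiable (by simp)

theorem IsLift.continuous {d : ℕ} {A : ℂ × ℂ → ℂ × ℂ} (hA : IsLift d A) :
    Continuous A := hA.contDiff.continuous

/-- restriction to a line is a pair of polynomials of degree at most `d` -/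
theorem IsLift.line {d : ℕ} {A : ℂ × ℂ → ℂ × ℂ} (hA : IsLift d A) (x y : ℂ × ℂ) :
    ∃ p q : ℂ[X], p.natDegree ≤ d ∧ q.natDegree ≤ d ∧
      ∀ t : ℂ, A (x + t • y) = (p.eval t, q.eval t) := by
  obtain ⟨p, q, h⟩ := hA.form
  have hr : (C x.1 + C y.1 * X : ℂ[X]).natDegree ≤ 1 := by
    refine (natDegree_add_le _ _).trans ?_
    rw [natDegree_C]
    exact max_le (by simp) ((natDegree_C_mul_le _ _).trans natDegree_X_le)
  have hs : (C x.2 + C y.2 * X : ℂ[X]).natDegree ≤ 1 := by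
    refine (natDegree_add_le _ _).trans ?_
    rw [natDegree_C]
    exact max_le (by simp) ((natDegree_C_mul_le _ _).trans natDegree_X_le)
  have key : ∀ (u : ℂ[X]) (t : ℂ), hform d u (x + t • y) =
      (∑ i ∈ Finset.range (d + 1), C (u.coeff i) *
        ((C x.1 + C y.1 * X) ^ i * (C x.2 + C y.2 * X) ^ (d - i)) : ℂ[X]).eval t := by
    intro u t
    simp only [hform, eval_finsetSum, eval_mul, eval_pow, eval_add, eval_C, eval_X,
      Prod.fst_add, Prod.snd_add, Prod.smul_fst, Prod.smul_snd, smul_eq_mul]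
    refine Finset.sum_congr rfl fun i _ => ?_
    ring
  refine ⟨_, _, ?_, ?_, fun t => by rw [h, key, key]⟩
  · simpa using subst_natDegree d p hr hs
  · simpa using subst_natDegree d q hr hs

theorem IsLift.comp {d e : ℕ} {A B : ℂ × ℂ → ℂ × ℂ} (hA : IsLift d A) (hB : IsLift e B) :
    IsLift (d * e) (A ∘ B) := by
  obtain ⟨p, q, h⟩ := hA.form
  obtain ⟨r, s, hr, hs, h'⟩ := hB.form'
  refine ⟨⟨∑ i ∈ Finset.range (d + 1), C (p.coeff i) * (r ^ i * s ^ (d - i)),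
    ∑ i ∈ Finset.range (d + 1), C (q.coeff i) * (r ^ i * s ^ (d - i)), fun v => ?_⟩,
    fun v hv => hA.nz _ (hB.nz _ hv)⟩
  rw [Function.comp_apply, h, h', hform_subst d p hr hs, hform_subst d q hr hs]

theorem IsLift.id : IsLift 1 (fun v => v) := by
  refine ⟨⟨X, 1, fun v => ?_⟩, fun v hv => hv⟩
  simp only [hform, Finset.sum_range_succ, Finset.sum_range_zero]
  ext <;> simp [coeff_one, coeff_X]

theorem IsLift.iterate {d : ℕ} {A : ℂ × ℂ → ℂ × ℂ} (hA : IsLift d A) (n : ℕ) :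
    IsLift (d ^ n) (A^[n]) := by
  induction n with
  | zero =>
    rw [pow_zero, Function.iterate_zero]
    exact IsLift.id
  | succ n ih =>
    rw [Function.iterate_succ, pow_succ]
    exact ih.comp hA

theorem IsLift.smul {d : ℕ} {A : ℂ × ℂ → ℂ × ℂ} (hA : IsLift d A) {c : ℂ} (hc : c ≠ 0) :
    IsLift d (fun v => c • A v) := by
  obtain ⟨p, q, h⟩ := hA.form
  refine ⟨⟨C c * p, C c * q, fun v => ?_⟩, fun v hv => smul_ne_zero hc (hA.nz v hv)⟩
  rw [h, hform_C_mul, hform_C_mul]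
  rfl

theorem IsLift.fderiv_self {d : ℕ} {A : ℂ × ℂ → ℂ × ℂ} (hA : IsLift d A) (v : ℂ × ℂ) :
    fderiv ℂ A v v = (d : ℂ) • A v := by
  have h1 : HasDerivAt (fun t : ℂ => A (t • v)) (fderiv ℂ A v v) 1 := by
    have h2 : HasDerivAt (fun t : ℂ => t • v) v 1 := by
      simpa using (hasDerivAt_id (1 : ℂ)).smul_const v
    have h3 : HasFDerivAt A (fderiv ℂ A v) ((1 : ℂ) • v) := by
      rw [one_smul]; exact (hA.differentiable v).hasFDerivAt
    exact h3.comp_hasDerivAt (1 : ℂ) h2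
  have h4 : HasDerivAt (fun t : ℂ => A (t • v)) ((d : ℂ) • A v) 1 := by
    have h5 : (fun t : ℂ => A (t • v)) = fun t : ℂ => t ^ d • A v := funext fun t => hA.hom t v
    rw [h5]
    simpa using (hasDerivAt_pow d (1 : ℂ)).smul_const (A v)
  exact h1.unique h4

/-- determinant of the derivative -/
noncomputable def jac (A : ℂ × ℂ → ℂ × ℂ) (v : ℂ × ℂ) : ℂ :=
  wg (fderiv ℂ A v (1, 0)) (fderiv ℂ A v (0, 1))

theorem wg_linear (L : ℂ × ℂ →L[ℂ] ℂ × ℂ) (x y : ℂ × ℂ) :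
    wg (L x) (L y) = wg (L (1, 0)) (L (0, 1)) * wg x y := by
  have hx : L x = x.1 • L (1, 0) + x.2 • L (0, 1) := by
    rw [← map_smul, ← map_smul, ← map_add]
    congr 1
    ext <;> simp
  have hy : L y = y.1 • L (1, 0) + y.2 • L (0, 1) := by
    rw [← map_smul, ← map_smul, ← map_add]
    congr 1
    ext <;> simp
  rw [hx, hy]
  simp [wg]
  ring

/-- Euler relation: the wedge of the value and a derivative is a multiple of the wedge -/
theorem IsLift.euler_jac {d : ℕ} {A : ℂ × ℂ → ℂ × ℂ} (hA : IsLift d A) (v b : ℂ × ℂ) :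
    (d : ℂ) * wg (A v) (fderiv ℂ A v b) = jac A v * wg v b := by
  rw [← wg_smul_left, ← hA.fderiv_self, wg_linear]
  rfl

theorem IsLift.continuous_jac {d : ℕ} {A : ℂ × ℂ → ℂ × ℂ} (hA : IsLift d A) :
    Continuous (jac A) := by
  have h : Continuous (fderiv ℂ A) := hA.contDiff.continuous_fderiv (by simp)
  have h1 : Continuous fun v => fderiv ℂ A v (1, 0) := h.clm_apply continuous_const
  have h2 : Continuous fun v => fderiv ℂ A v (0, 1) := h.clm_apply continuous_const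
  unfold jac wg
  exact ((continuous_fst.comp h1).mul (continuous_snd.comp h2)).sub
    ((continuous_snd.comp h1).mul (continuous_fst.comp h2))

theorem IsLift.euler {d : ℕ} {A : ℂ × ℂ → ℂ × ℂ} (hA : IsLift d A) :
    ∃ J : ℂ × ℂ → ℂ, Continuous J ∧
      ∀ v b, (d : ℂ) * wg (A v) (fderiv ℂ A v b) = J v * wg v b :=
  ⟨jac A, hA.continuous_jac, hA.euler_jac⟩

theorem IsPot.bdd {g : ℂ × ℂ → ℝ} (hg : IsPot g) :
    ∃ C : ℝ, 0 ≤ C ∧ ∀ v : ℂ × ℂ, v ≠ 0 → |g v - Real.log ‖v‖| ≤ C := by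
  have hK : IsCompact (sphere (0 : ℂ × ℂ) 1) := isCompact_sphere _ _
  have hsub : sphere (0 : ℂ × ℂ) 1 ⊆ ({0}ᶜ : Set (ℂ × ℂ)) := by
    intro v hv
    simp only [mem_sphere_zero_iff_norm] at hv
    simp only [Set.mem_compl_iff, Set.mem_singleton_iff]
    rintro rfl
    simp at hv
  obtain ⟨C, hC⟩ := hK.exists_bound_of_continuousOn (hg.cont.mono hsub)
  refine ⟨max C 0, le_max_right _ _, fun v hv => ?_⟩
  have hn : ‖v‖ ≠ 0 := norm_ne_zero_iff.2 hv
  have hcn : ((‖v‖ : ℝ) : ℂ) ≠ 0 := by exact_mod_cast hn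
  have hu : ((‖v‖ : ℝ) : ℂ)⁻¹ • v ∈ sphere (0 : ℂ × ℂ) 1 := by
    rw [mem_sphere_zero_iff_norm, norm_smul, norm_inv, Complex.norm_real, norm_norm]
    exact inv_mul_cancel₀ hn
  have h1 := hC _ hu
  have h2 : g v = Real.log ‖v‖ + g (((‖v‖ : ℝ) : ℂ)⁻¹ • v) := by
    have h3 := hg.smul ((‖v‖ : ℝ) : ℂ) (((‖v‖ : ℝ) : ℂ)⁻¹ • v) hcn
      (smul_ne_zero (inv_ne_zero hcn) hv)
    rw [smul_smul, mul_inv_cancel₀ hcn, one_smul, Complex.norm_real, norm_norm] at h3
    exact h3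
  rw [h2, add_sub_cancel_left]
  exact (Real.norm_eq_abs _ ▸ h1).trans (le_max_left _ _)

/-- iterates of a normalised dynamical system -/
theorem Dyn.iterate {g : ℂ × ℂ → ℝ} {d : ℕ} {A : ℂ × ℂ → ℂ × ℂ} (h : Dyn g d A) (k : ℕ)
    (hk : 1 ≤ k) : Dyn g (d ^ k) (A^[k]) := by
  refine ⟨h.lift.iterate k, ?_, h.pot, ?_⟩
  · calc 2 ≤ d := h.two
      _ = d ^ 1 := (pow_one d).symm
      _ ≤ d ^ k := Nat.pow_le_pow_right (by have := h.two; omega) hk
  · clear hk
    induction k with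
    | zero => intro v _; simp
    | succ k ih =>
      intro v hv
      rw [Function.iterate_succ_apply, ih _ (h.lift.nz v hv), h.inv v hv]
      push_cast
      ring

theorem IsLift.iterate_nz {d : ℕ} {A : ℂ × ℂ → ℂ × ℂ} (hA : IsLift d A) (n : ℕ) {v : ℂ × ℂ}
    (hv : v ≠ 0) : A^[n] v ≠ 0 := (hA.iterate n).nz v hv

theorem IsLift.par {d : ℕ} {A : ℂ × ℂ → ℂ × ℂ} (hA : IsLift d A) {x y : ℂ × ℂ}
    (hx : x ≠ 0) (h : wg x y = 0) : wg (A x) (A y) = 0 := by
  obtain ⟨c, rfl⟩ := (wg_eq_zero_iff hx y).1 h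
  rw [hA.hom, wg_smul_right, wg_self, mul_zero]

end Pool.Agent.Work.MP_78b16e_an
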