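import Pool.Agent.Work.MP_78b16e_an.ClassD

/-! A periodic curve with known fibres is a Moebius image of an explicit function. -/

set_option autoImplicit false

namespace Pool.Agent.Work.MP_78b16e_an

open Metric Filter Topology Complex

theorem liouville_off_discrete {E : ℂ → ℂ} {Z : Set ℂ} (hdisc : ∀ z, ∀ᶠ w in 𝓝[≠] z, w ∉ Z)
    (hd : ∀ z, z ∉ Z → DifferentiableAt ℂ E z) {K : ℝ} (hb : ∀ z, z ∉ Z → ‖E z‖ ≤ K) :
    ∃ c, ∀ z, z ∉ Z → E z = c := by
  set E' : ℂ → ℂ := fun z => limUnder (𝓝[≠] z) E with hE'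
  have hreg : ∀ z, z ∉ Z → E' z = E z := by
    intro z hz
    exact ((hd z hz).continuousAt.tendsto.mono_left nhdsWithin_le_nhds).limUnder_eq
  have hloc : ∀ z₀, ∃ S : Set ℂ, IsOpen S ∧ z₀ ∈ S ∧ (∀ w ∈ S \ {z₀}, w ∉ Z) ∧
      DifferentiableOn ℂ (Function.update E z₀ (limUnder (𝓝[≠] z₀) E)) S := by
    intro z₀
    have h1 := hdisc z₀
    rw [eventually_nhdsWithin_iff] at h1
    obtain ⟨S, hS1, hS2, hS3⟩ := _root_.eventually_nhds_iff.1 h1
    have h2 : ∀ w ∈ S \ {z₀}, w ∉ Z := fun w hw => hS1 w hw.1 hw.2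
    refine ⟨S, hS2, hS3, h2, ?_⟩
    apply differentiableOn_update_limUnder_of_bddAbove (hS2.mem_nhds hS3)
    · intro w hw
      exact (hd w (h2 w hw)).differentiableWithinAt
    · refine ⟨K, ?_⟩
      rintro _ ⟨w, hw, rfl⟩
      exact hb w (h2 w hw)
  have hupd : ∀ z₀ (S : Set ℂ), (∀ w ∈ S \ {z₀}, w ∉ Z) → ∀ w ∈ S,
      Function.update E z₀ (limUnder (𝓝[≠] z₀) E) w = E' w := by
    intro z₀ S hS w hw
    by_cases h : w = z₀
    · rw [h, Function.update_self]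
    · rw [Function.update_of_ne h, hreg w (hS w ⟨hw, h⟩)]
  have hdiff : Differentiable ℂ E' := by
    intro z₀
    obtain ⟨S, hS1, hS2, hS3, hS4⟩ := hloc z₀
    have h1 := (hS4 z₀ hS2).differentiableAt (hS1.mem_nhds hS2)
    apply h1.congr_of_eventuallyEq
    filter_upwards [hS1.mem_nhds hS2] with w hw
    rw [hupd z₀ S hS3 w hw]
  have hbd : ∀ z, ‖E' z‖ ≤ K := by
    intro z
    have h1 : Tendsto (fun w => ‖E' w‖) (𝓝[≠] z) (𝓝 ‖E' z‖) :=
      (hdiff z).continuousAt.norm.tendsto.mono_left nhdsWithin_le_nhds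
    apply le_of_tendsto h1
    filter_upwards [hdisc z] with w hw
    rw [hreg w hw]
    exact hb w hw
  have hrange : Bornology.IsBounded (Set.range E') := by
    rw [isBounded_iff_forall_norm_le]
    refine ⟨K, ?_⟩
    rintro _ ⟨z, rfl⟩
    exact hbd z
  refine ⟨E' 0, fun z hz => ?_⟩
  rw [← hreg z hz]
  exact hdiff.apply_eq_apply_of_bounded hrange z 0

theorem curve_eq {ψ : ℂ → ℂ × ℂ} (hd : Differentiable ℂ ψ) (hnz : ∀ z, ψ z ≠ 0)
    (himm : wg (ψ 0) (deriv ψ 0) ≠ 0) {τ : ℂ → ℂ} (hτ : Differentiable ℂ τ)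
    (hτper : ∀ z, τ (z + 1) = τ z) (hψper : ∀ z, wg (ψ (z + 1)) (ψ z) = 0)
    (t1 : ∀ z, τ z = τ 0 ↔ wg (ψ z) (ψ 0) = 0) (t2 : deriv τ 0 ≠ 0)
    (t3 : ∀ z₁, wg (ψ z₁) (ψ 0) = 0 → ∃ α : ℂ, α ≠ 0 ∧
      ∀ z, wg (ψ (α * z + z₁)) (ψ z) = 0 ∧ τ (α * z + z₁) = τ z)
    (t4 : ∃ M c : ℝ, 0 < c ∧ ∀ z : ℂ, M ≤ |z.im| → c ≤ ‖τ z - τ 0‖)
    (t5 : ∃ M K : ℝ, ∀ z : ℂ, M ≤ |z.im| →
      ‖wg (perp (ψ 0)) (ψ z)‖ ≤ K * ‖wg (ψ 0) (ψ z)‖) :
    ∃ a b : ℂ × ℂ, wg a b ≠ 0 ∧ ∀ z, wg (ψ z) (τ z • a + b) = 0 := by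
  set a0 := ψ 0 with ha0
  set b0 := perp a0 with hb0
  have hab0 : wg a0 b0 ≠ 0 := wg_perp_ne (hnz 0)
  set X : ℂ → ℂ := fun z => wg b0 (ψ z) with hX
  set Y : ℂ → ℂ := fun z => wg a0 (ψ z) with hY
  set T : ℂ → ℂ := fun z => τ z - τ 0 with hT
  have hXd : Differentiable ℂ X := fun z =>
    (hasDerivAt_wg (hasDerivAt_const z b0) (hd z).hasDerivAt).differentiableAt
  have hYd : Differentiable ℂ Y := fun z =>
    (hasDerivAt_wg (hasDerivAt_const z a0) (hd z).hasDerivAt).differentiableAt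
  have hTd : Differentiable ℂ T := hτ.sub_const _
  have hY0 : Y 0 = 0 := wg_self _
  have hT0 : T 0 = 0 := sub_self _
  have hX0 : X 0 ≠ 0 := by
    show wg b0 a0 ≠ 0
    rw [wg_swap]
    exact neg_ne_zero.2 hab0
  have hY' : deriv Y 0 = wg a0 (deriv ψ 0) := by
    have := (hasDerivAt_wg (hasDerivAt_const (0 : ℂ) a0) (hd 0).hasDerivAt).deriv
    rw [wg_zero_left, zero_add] at this
    exact this
  have hY'0 : deriv Y 0 ≠ 0 := by rw [hY']; exact himm
  have hT' : deriv T 0 = deriv τ 0 := by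
    show deriv (fun z => τ z - τ 0) 0 = _
    rw [deriv_sub_const]
  have hT'0 : deriv T 0 ≠ 0 := by rw [hT']; exact t2
  set A₁ : ℂ := X 0 * deriv T 0 / deriv Y 0 with hA₁
  have hA₁0 : A₁ ≠ 0 := div_ne_zero (mul_ne_zero hX0 hT'0) hY'0
  set Z : Set ℂ := {z | T z = 0} with hZ
  have hTY : ∀ z, T z = 0 ↔ Y z = 0 := by
    intro z
    show τ z - τ 0 = 0 ↔ wg a0 (ψ z) = 0
    rw [sub_eq_zero, t1, wg_swap, neg_eq_zero]
  set E : ℂ → ℂ := fun z => X z / Y z - A₁ / T z with hE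
  -- discreteness
  obtain ⟨M4, c4, hc4, h4⟩ := t4
  obtain ⟨M5, K5, h5⟩ := t5
  have hdisc : ∀ z, ∀ᶠ w in 𝓝[≠] z, w ∉ Z := by
    intro z
    have han : AnalyticOnNhd ℂ T Set.univ := fun z _ => hTd.analyticAt z
    have hx : T (((|M4| : ℝ) : ℂ) * I) ≠ 0 := by
      intro h0
      have h1 := h4 (((|M4| : ℝ) : ℂ) * I) (by simp [le_abs_self])
      have h2 : τ (((|M4| : ℝ) : ℂ) * I) - τ 0 = 0 := h0
      rw [h2, norm_zero] at h1
      linarith
    have h1 : T ⁻¹' {0}ᶜ ∈ codiscrete ℂ := han.preimage_zero_mem_codiscrete hx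
    rw [mem_codiscrete] at h1
    have h2 := h1 z
    rw [disjoint_principal_right] at h2
    filter_upwards [h2] with w hw
    intro hwZ
    apply hw
    show ¬ (T w ∈ ({0}ᶜ : Set ℂ))
    intro h3
    exact h3 hwZ
  have hreg : ∀ z, z ∉ Z → DifferentiableAt ℂ E z := by
    intro z hz
    have h1 : T z ≠ 0 := hz
    have h2 : Y z ≠ 0 := fun h => h1 ((hTY z).2 h)
    exact ((hXd z).div (hYd z) h2).sub ((differentiableAt_const _).div (hTd z) h1)
  -- boundedness near 0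
  have hb0 : ∃ K : ℝ, ∀ᶠ w in 𝓝[≠] (0 : ℂ), ‖E w‖ ≤ K := by
    set Y₁ := dslope Y 0 with hY₁
    set T₁ := dslope T 0 with hT₁
    have hYw : ∀ w, Y w = w * Y₁ w := by
      intro w
      have := sub_smul_dslope Y 0 w
      rw [sub_zero, smul_eq_mul, hY0, sub_zero] at this
      exact this.symm
    have hTw : ∀ w, T w = w * T₁ w := by
      intro w
      have := sub_smul_dslope T 0 w
      rw [sub_zero, smul_eq_mul, hT0, sub_zero] at this
      exact this.symm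
    have hY₁d : Differentiable ℂ Y₁ := by
      rw [← differentiableOn_univ]
      exact (differentiableOn_dslope univ_mem).2 hYd.differentiableOn
    have hT₁d : Differentiable ℂ T₁ := by
      rw [← differentiableOn_univ]
      exact (differentiableOn_dslope univ_mem).2 hTd.differentiableOn
    have hY₁0 : Y₁ 0 = deriv Y 0 := dslope_same _ _
    have hT₁0 : T₁ 0 = deriv T 0 := dslope_same _ _
    set N : ℂ → ℂ := fun w => X w * T₁ w - A₁ * Y₁ w with hN
    have hNd : Differentiable ℂ N := (hXd.mul hT₁d).sub (hY₁d.const_mul _)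
    have hN0 : N 0 = 0 := by
      show X 0 * T₁ 0 - A₁ * Y₁ 0 = 0
      rw [hY₁0, hT₁0, hA₁]
      field_simp
      ring
    set N₂ := dslope N 0 with hN₂
    have hNw : ∀ w, N w = w * N₂ w := by
      intro w
      have := sub_smul_dslope N 0 w
      rw [sub_zero, smul_eq_mul, hN0, sub_zero] at this
      exact this.symm
    have hN₂c : ContinuousAt N₂ 0 := continuousAt_dslope_same.2 (hNd 0)
    have hQc : ContinuousAt (fun w => N₂ w / (Y₁ w * T₁ w)) 0 := by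
      apply hN₂c.div (hY₁d.continuous.continuousAt.mul hT₁d.continuous.continuousAt)
      show Y₁ 0 * T₁ 0 ≠ 0
      rw [hY₁0, hT₁0]
      exact mul_ne_zero hY'0 hT'0
    refine ⟨‖N₂ 0 / (Y₁ 0 * T₁ 0)‖ + 1, ?_⟩
    have h1 : ∀ᶠ w in 𝓝[≠] (0 : ℂ), ‖N₂ w / (Y₁ w * T₁ w)‖ ≤ ‖N₂ 0 / (Y₁ 0 * T₁ 0)‖ + 1 :=
      (hQc.norm.tendsto.mono_left nhdsWithin_le_nhds).eventually
        (eventually_le_nhds (lt_add_one _))
    filter_upwards [h1, hdisc 0, self_mem_nhdsWithin] with w hw1 hw2 hw3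
    have hw0 : w ≠ 0 := hw3
    have hTw0 : T w ≠ 0 := hw2
    have hYw0 : Y w ≠ 0 := fun h => hTw0 ((hTY w).2 h)
    have hT₁w : T₁ w ≠ 0 := by
      intro h; apply hTw0; rw [hTw, h, mul_zero]
    have hY₁w : Y₁ w ≠ 0 := by
      intro h; apply hYw0; rw [hYw, h, mul_zero]
    have h2 : E w = N₂ w / (Y₁ w * T₁ w) := by
      show X w / Y w - A₁ / T w = _
      have h3 : X w * T₁ w - A₁ * Y₁ w = w * N₂ w := hNw w
      rw [hYw w, hTw w]
      field_simp
      linear_combination h3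
    rw [h2]
    exact hw1
  -- invariance
  have hinv : ∀ z w, wg (ψ z) (ψ w) = 0 → τ z = τ w → E z = E w := by
    intro z w h1 h2
    show wg b0 (ψ z) / wg a0 (ψ z) - A₁ / (τ z - τ 0) = wg b0 (ψ w) / wg a0 (ψ w) - A₁ / (τ w - τ 0)
    rw [h2]
    congr 1
    have h3 := coord_par (a := b0) (b := a0) (hnz z) (hnz w) h1
    rw [wg_swap (ψ z) a0, wg_swap (ψ w) a0, div_neg, div_neg, neg_inj] at h3
    exact h3
  -- local boundedness
  have hloc : ∀ z, ∃ t ∈ 𝓝 z, ∃ K : ℝ, ∀ w ∈ t, w ∉ Z → ‖E w‖ ≤ K := by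
    intro z
    by_cases hz : z ∈ Z
    · have hz' : wg (ψ z) (ψ 0) = 0 := (t1 z).1 (sub_eq_zero.1 hz)
      obtain ⟨α, hα, hα'⟩ := t3 z hz'
      obtain ⟨K, hK⟩ := hb0
      rw [eventually_nhdsWithin_iff] at hK
      have hc : Tendsto (fun w : ℂ => (w - z) / α) (𝓝 z) (𝓝 0) := by
        have h1 : Continuous (fun w : ℂ => (w - z) / α) := by fun_prop
        have h2 := h1.tendsto z
        simpa using h2
      refine ⟨_, hc.eventually hK, K, fun w hw hwZ => ?_⟩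
      have h1 : α * ((w - z) / α) + z = w := by field_simp; ring
      have h2 := hα' ((w - z) / α)
      rw [h1] at h2
      rw [hinv w _ h2.1 h2.2]
      apply hw
      intro h0
      have h3 : (w - z) / α = 0 := h0
      rcases div_eq_zero_iff.1 h3 with h4 | h4
      · apply hwZ
        rw [sub_eq_zero.1 h4]
        exact hz
      · exact hα h4
    · have h1 := (hreg z hz).continuousAt.norm.eventually (eventually_le_nhds (lt_add_one _))
      exact ⟨_, h1, ‖E z‖ + 1, fun w hw _ => hw⟩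
  have hcpt : ∃ K : ℝ, ∀ w ∈ closedBall (0 : ℂ) (max |M4| |M5| + 1), w ∉ Z → ‖E w‖ ≤ K := by
    apply (isCompact_closedBall (0 : ℂ) (max |M4| |M5| + 1)).induction_on
      (p := fun s => ∃ K : ℝ, ∀ w ∈ s, w ∉ Z → ‖E w‖ ≤ K)
    · exact ⟨0, fun w hw => absurd hw (Set.notMem_empty w)⟩
    · rintro s t hst ⟨K, hK⟩
      exact ⟨K, fun w hw => hK w (hst hw)⟩
    · rintro s t ⟨K, hK⟩ ⟨K', hK'⟩
      refine ⟨max K K', ?_⟩
      rintro w (hw | hw) hwZ
      · exact (hK w hw hwZ).trans (le_max_left _ _)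
      · exact (hK' w hw hwZ).trans (le_max_right _ _)
    · intro x _
      obtain ⟨t, ht, K, hK⟩ := hloc x
      exact ⟨t, mem_nhdsWithin_of_mem_nhds ht, K, hK⟩
  obtain ⟨K0, hK0⟩ := hcpt
  have hEper : Function.Periodic E 1 := fun z => hinv _ _ (hψper z) (hτper z)
  have hTper : Function.Periodic T 1 := fun z => by
    show τ (z + 1) - τ 0 = τ z - τ 0
    rw [hτper]
  have hbound : ∀ z, z ∉ Z → ‖E z‖ ≤ max K0 (K5 + ‖A₁‖ / c4) := by
    intro z hz
    by_cases hzim : max |M4| |M5| ≤ |z.im|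
    · apply le_trans _ (le_max_right _ _)
      have h1 : M4 ≤ |z.im| := (le_abs_self _).trans ((le_max_left _ _).trans hzim)
      have h2 : M5 ≤ |z.im| := (le_abs_self _).trans ((le_max_right _ _).trans hzim)
      have hTz : T z ≠ 0 := hz
      have hYz : Y z ≠ 0 := fun h => hTz ((hTY z).2 h)
      calc ‖X z / Y z - A₁ / T z‖ ≤ ‖X z / Y z‖ + ‖A₁ / T z‖ := norm_sub_le _ _
        _ ≤ K5 + ‖A₁‖ / c4 := by
          apply add_le_add
          · rw [norm_div, div_le_iff₀ (norm_pos_iff.2 hYz)]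
            exact h5 z h2
          · rw [norm_div]
            exact div_le_div_of_nonneg_left (norm_nonneg _) hc4 (h4 z h1)
    · apply le_trans _ (le_max_left _ _)
      push Not at hzim
      have h1 : E (z - (⌊z.re⌋ : ℂ)) = E z := by
        have := hEper.sub_int_mul_eq ⌊z.re⌋ (x := z)
        rwa [mul_one] at this
      have h2 : T (z - (⌊z.re⌋ : ℂ)) = T z := by
        have := hTper.sub_int_mul_eq ⌊z.re⌋ (x := z)
        rwa [mul_one] at this
      rw [← h1]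
      apply hK0
      · rw [mem_closedBall_zero_iff]
        have h3 := norm_le_abs_re_add_abs_im (z - (⌊z.re⌋ : ℂ))
        have h4 : (z - (⌊z.re⌋ : ℂ)).re = Int.fract z.re := by
          rw [sub_re, intCast_re]; rfl
        have h5 : (z - (⌊z.re⌋ : ℂ)).im = z.im := by
          rw [sub_im, intCast_im, sub_zero]
        rw [h4, h5, abs_of_nonneg (Int.fract_nonneg _)] at h3
        have h6 := Int.fract_lt_one z.re
        linarith
      · intro h3
        apply hz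
        show T z = 0
        rw [← h2]
        exact h3
  obtain ⟨B₀, hB₀⟩ := liouville_off_discrete hdisc hreg hbound
  have hfin : ∀ z, X z * T z = (B₀ * T z + A₁) * Y z := by
    intro z
    by_cases hz : T z = 0
    · rw [hz, (hTY z).1 hz]; ring
    · have hYz : Y z ≠ 0 := fun h => hz ((hTY z).2 h)
      have h1 : X z / Y z - A₁ / T z = B₀ := hB₀ z hz
      field_simp at h1
      linear_combination h1
  refine ⟨(-B₀) • a0 + b0, (B₀ * τ 0 - A₁) • a0 + (-τ 0) • b0, ?_, fun z => ?_⟩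
  · have h1 : wg ((-B₀) • a0 + b0) ((B₀ * τ 0 - A₁) • a0 + (-τ 0) • b0) = A₁ * wg a0 b0 := by
      simp only [wg_add_left, wg_add_right, wg_smul_left, wg_smul_right, wg_self]
      rw [wg_swap b0 a0]
      ring
    rw [h1]
    exact mul_ne_zero hA₁0 hab0
  · have h1 : X z * (τ z - τ 0) = (B₀ * (τ z - τ 0) + A₁) * Y z := hfin z
    have h2 : wg (ψ z) a0 = - Y z := wg_swap _ _
    have h3 : wg (ψ z) b0 = - X z := wg_swap _ _
    simp only [wg_add_right, wg_smul_right, h2, h3]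
    linear_combination -h1

end Pool.Agent.Work.MP_78b16e_an
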