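import Pool.Agent.Work.MP_78b16e_an.ClassB

/-! Power maps and Chebyshev maps. -/

set_option autoImplicit false

namespace Pool.Agent.Work.MP_78b16e_an

open Polynomial

theorem special_exp {F : RatFunc ℂ} (hF : 2 ≤ rdeg F) {a b : ℂ × ℂ} (hab : wg a b ≠ 0) {m : ℤ}
    (hm : m ≠ 0) {κ : ℂ} (hκ : κ ≠ 0)
    (h : ∀ x : ℂ, x ≠ 0 → wg (rlift F (x • a + b)) ((κ * x ^ m) • a + b) = 0) : Special F := by
  have hF1 : 1 ≤ rdeg F := by omega
  have hab' : ∀ s : ℂ, s ≠ 0 → wg (s • a) b ≠ 0 := by
    intro s hs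
    rw [wg_smul_left]
    exact mul_ne_zero hs hab
  rcases lt_trichotomy m 1 with hlt | heq | hgt
  · -- negative exponent
    obtain ⟨n, hn⟩ : ∃ n : ℕ, m = -(n : ℤ) := ⟨m.natAbs, by omega⟩
    have hn1 : 1 ≤ n := by omega
    obtain ⟨s, hs, hsn⟩ := exists_root_pow (n := n + 1) (by omega) hκ
    obtain ⟨μ, hμ, hμF⟩ := conj_of_affine (F := F) (f := (RatFunc.X ^ n)⁻¹) hF1 (hab' s hs)
      (Set.finite_singleton (0 : ℂ)) (by
        intro x hx
        have hx0 : x ≠ 0 := hx
        have h1 := h (x * s) (mul_ne_zero hx0 hs)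
        rw [rlift_X_pow_inv]
        simp only [one_pow]
        have h2 : x • s • a + b = (x * s) • a + b := by rw [smul_smul]
        have h3 : (1 : ℂ) • s • a + (x ^ n) • b = (x ^ n) • ((κ * (x * s) ^ m) • a + b) := by
          rw [smul_add, smul_smul, smul_smul]
          congr 2
          rw [hn, zpow_neg, zpow_natCast, mul_pow, ← hsn]
          field_simp
          ring
        rw [h2, h3, wg_smul_right, h1, mul_zero])
    exact Or.inr ⟨μ, hμ, n, Or.inr (Or.inl hμF)⟩
  · -- exponent one: impossible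
    exfalso
    have hlin : IsLift 1 (fun v : ℂ × ℂ => (κ * v.1, v.2)) := by
      constructor
      · refine ⟨C κ * X, 1, fun v => ?_⟩
        ext
        · simp [hform, Finset.sum_range_succ]
        · simp [hform, coeff_one]
      · intro v hv h0
        have h1 : κ * v.1 = 0 := congrArg Prod.fst h0
        have h2 : v.2 = 0 := congrArg Prod.snd h0
        rcases mul_eq_zero.1 h1 with h3 | h3
        · exact hκ h3
        · exact hv (Prod.ext h3 h2)
    obtain ⟨f, hf, c, hc, hfl⟩ := exists_ratFunc (le_refl 1) hlin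
    obtain ⟨μ, hμ, hμF⟩ := conj_of_affine (F := F) (f := f) hF1 hab
      (Set.finite_singleton (0 : ℂ)) (by
        intro x hx
        have hx0 : x ≠ 0 := hx
        have h1 := h x hx0
        rw [hfl]
        show wg (rlift F (x • a + b)) ((c * (κ * x)) • a + (c * 1) • b) = 0
        have h3 : (c * (κ * x)) • a + (c * 1) • b = c • ((κ * x ^ m) • a + b) := by
          rw [smul_add, smul_smul, heq, zpow_one, mul_one]
        rw [h3, wg_smul_right, h1, mul_zero])
    have h4 := congrArg rdeg hμF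
    rw [rdeg_rcomp μ F hF1, rdeg_rcomp f μ (by omega), hμ, hf] at h4
    omega
  · -- exponent at least two
    obtain ⟨n, hn⟩ : ∃ n : ℕ, m = (n : ℤ) := ⟨m.natAbs, by omega⟩
    have hn2 : 2 ≤ n := by omega
    obtain ⟨s, hs, hsn⟩ := exists_root_pow (n := n - 1) (by omega) (inv_ne_zero hκ)
    obtain ⟨μ, hμ, hμF⟩ := conj_of_affine (F := F) (f := RatFunc.X ^ n) hF1 (hab' s hs)
      (Set.finite_singleton (0 : ℂ)) (by
        intro x hx
        have hx0 : x ≠ 0 := hx
        have h1 := h (x * s) (mul_ne_zero hx0 hs)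
        rw [rlift_X_pow]
        simp only [one_pow]
        have h2 : x • s • a + b = (x * s) • a + b := by rw [smul_smul]
        have h3 : (x ^ n) • s • a + (1 : ℂ) • b = (κ * (x * s) ^ m) • a + b := by
          rw [smul_smul, one_smul]
          congr 2
          have h4 : s ^ n = s * s ^ (n - 1) := by rw [← pow_succ']; congr 1; omega
          rw [hn, zpow_natCast, mul_pow, h4, hsn]
          field_simp
        rw [h2, h3, h1])
    exact Or.inr ⟨μ, hμ, n, Or.inl hμF⟩

theorem special_cos {F : RatFunc ℂ} (hF : 2 ≤ rdeg F) {a b : ℂ × ℂ} (hab : wg a b ≠ 0) {n : ℕ}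
    {ε : ℂ} (hε : ε = 1 ∨ ε = -1)
    (h : ∀ x : ℂ, wg (rlift F (x • a + b))
      ((ε * (Polynomial.Chebyshev.T ℂ (n : ℤ)).eval x) • a + b) = 0) : Special F := by
  have hF1 : 1 ≤ rdeg F := by omega
  rcases hε with rfl | rfl
  · obtain ⟨μ, hμ, hμF⟩ := conj_of_affine (F := F)
      (f := algebraMap (Polynomial ℂ) (RatFunc ℂ) (Polynomial.Chebyshev.T ℂ (n : ℤ))) hF1 hab
      Set.finite_empty (by
        intro x _
        have h1 := h x
        rw [rlift_affine, RatFunc.num_algebraMap, RatFunc.denom_algebraMap]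
        simp only [eval_one, one_smul]
        rw [one_mul] at h1
        exact h1)
    exact Or.inr ⟨μ, hμ, n, Or.inr (Or.inr (Or.inl hμF))⟩
  · obtain ⟨μ, hμ, hμF⟩ := conj_of_affine (F := F)
      (f := -(algebraMap (Polynomial ℂ) (RatFunc ℂ) (Polynomial.Chebyshev.T ℂ (n : ℤ)))) hF1 hab
      Set.finite_empty (by
        intro x _
        have h1 := h x
        rw [← map_neg, rlift_affine, RatFunc.num_algebraMap, RatFunc.denom_algebraMap]
        simp only [eval_one, one_smul, eval_neg]
        rw [neg_one_mul] at h1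
        exact h1)
    exact Or.inr ⟨μ, hμ, n, Or.inr (Or.inr (Or.inr hμF))⟩

end Pool.Agent.Work.MP_78b16e_an
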