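import Pool.Agent.Work.MP_78b16e_an.ClassA
import Pool.Agent.Work.MP_78b16e_an.ClassE
import Pool.Agent.Work.MP_78b16e_an.ClassF

/-! Classification: many affine symmetries force `F` to be special. -/

set_option autoImplicit false

namespace Pool.Agent.Work.MP_78b16e_an

open Metric Filter Topology Complex

variable {g : ℂ × ℂ → ℝ} {D : ℕ} {B : ℂ × ℂ → ℂ × ℂ} {lam : ℂ} {ψ : ℂ → ℂ × ℂ} {p : ℂ → ℂ}

theorem wg_symm0 {x y : ℂ × ℂ} (h : wg x y = 0) : wg y x = 0 := by rw [wg_swap, h, neg_zero]

theorem re_ofReal_mul_im_aux (r : ℝ) (z : ℂ) : ((r : ℂ) * z).im = r * z.im := by simp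

/-- The case of a cyclic group of periods, normalised to be the integers. -/
theorem class_rank1 (hL : Lin g D B lam ψ p) (F : RatFunc ℂ) (hF : 2 ≤ rdeg F)
    (hDD : ∀ z₁, wg (ψ z₁) (ψ 0) = 0 →
      ∃ α : ℂ, α ≠ 0 ∧ ∀ z, wg (ψ (α * z + z₁)) (ψ z) = 0)
    (hFF : ∃ α β : ℂ, α ≠ 0 ∧ ∀ z, wg (ψ (α * z + β)) (rlift F (ψ z)) = 0)
    (hC : ∀ z, ¬ HarmAt (fun y => g (ψ y)) z → ∀ ε > 0, ∃ n₀ : ℕ, ∀ n ≥ n₀,
      ∃ y ∈ ball z ε, wg (ψ (lam ^ n * y)) (ψ 0) = 0)
    (hΛ : ∀ w, (∀ z, wg (ψ (z + w)) (ψ z) = 0) ↔ ∃ n : ℤ, w = n) : Special F := by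
  have hnz := hL.nz
  have tr : ∀ {x y z : ℂ}, wg (ψ x) (ψ y) = 0 → wg (ψ y) (ψ z) = 0 → wg (ψ x) (ψ z) = 0 :=
    fun h1 h2 => wg_trans (hnz _) h1 h2
  have hint : ∀ (n : ℤ) (z : ℂ), wg (ψ (z + n)) (ψ z) = 0 := fun n => (hΛ n).2 ⟨n, rfl⟩
  have hper : ∀ z, wg (ψ (z + 1)) (ψ z) = 0 := by
    intro z
    have := hint 1 z
    rwa [Int.cast_one] at this
  -- lam is an integer
  obtain ⟨k, hk⟩ : ∃ k : ℤ, lam = k := by
    apply (hΛ lam).1
    intro z
    have hlam0 : lam ≠ 0 := by
      intro h0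
      have := hL.one
      rw [h0, norm_zero] at this
      linarith
    have h1 := hL.push (hper (z / lam))
    have h2 : lam * (z / lam + 1) = z + lam := by field_simp
    have h3 : lam * (z / lam) = z := by field_simp
    rwa [h2, h3] at h1
  have hk2 : 2 ≤ |k| := by
    have h1 := hL.one
    rw [hk, Complex.norm_intCast] at h1
    have h2 : (1 : ℝ) < ((|k| : ℤ) : ℝ) := by push_cast; exact h1
    have h3 : (1 : ℤ) < |k| := by exact_mod_cast h2
    omega
  -- deck maps
  have hdeck : ∀ (z₁ α : ℂ), α ≠ 0 → (∀ z, wg (ψ (α * z + z₁)) (ψ z) = 0) → α = 1 ∨ α = -1 := by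
    intro z₁ α hα h
    obtain ⟨m, hm⟩ : ∃ m : ℤ, α = m := by
      apply (hΛ α).1
      intro z
      set x := (z - z₁) / α with hx
      have h1 : α * x + z₁ = z := by rw [hx]; field_simp; ring
      have h2 : α * (x + 1) + z₁ = z + α := by rw [← h1]; ring
      have h3 := h (x + 1)
      have h4 := h x
      rw [h2] at h3
      rw [h1] at h4
      exact tr (tr h3 (hper x)) (wg_symm0 h4)
    obtain ⟨m', hm'⟩ : ∃ m' : ℤ, α⁻¹ = m' := by
      apply (hΛ α⁻¹).1
      intro z
      have h1 := h (z + α⁻¹)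
      have h2 : α * (z + α⁻¹) + z₁ = (α * z + z₁) + 1 := by field_simp; ring
      rw [h2] at h1
      exact tr (wg_symm0 h1) (tr (hper _) (h z))
    have hmm : m * m' = 1 := by
      have h1 : (m : ℂ) * m' = 1 := by rw [← hm, ← hm', mul_inv_cancel₀ hα]
      exact_mod_cast h1
    rcases Int.mul_eq_one_iff_eq_one_or_neg_one.1 hmm with ⟨h1, -⟩ | ⟨h1, -⟩
    · left; rw [hm, h1]; simp
    · right; rw [hm, h1]; simp
  -- the exponent of F
  obtain ⟨α, β, hα, hFα⟩ := hFF
  obtain ⟨m, hm⟩ : ∃ m : ℤ, α = m := by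
    apply (hΛ α).1
    intro z
    set x := (z - β) / α with hx
    have h1 : α * x + β = z := by rw [hx]; field_simp; ring
    have h2 : α * (x + 1) + β = z + α := by rw [← h1]; ring
    have h3 := hFα (x + 1)
    have h4 := hFα x
    rw [h2] at h3
    rw [h1] at h4
    have hLF := rlift_isLift F
    have h5 := hLF.par (hnz (x + 1)) (hper x)
    exact wg_trans (hLF.nz _ (hnz x)) (wg_trans (hLF.nz _ (hnz (x + 1))) h3 h5) (wg_symm0 h4)
  have hm0 : m ≠ 0 := by
    rintro rfl
    exact hα (by rw [hm]; simp)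
  -- harmonicity off the real line, given a bound for the fibre
  have hreal : ∀ b : ℝ, (∀ z, wg (ψ z) (ψ 0) = 0 → |z.im| ≤ b) →
      ∀ z : ℂ, z.im ≠ 0 → HarmAt (fun y => g (ψ y)) z := by
    intro b hb z hz
    by_contra hcon
    have hzpos : 0 < |z.im| := abs_pos.2 hz
    obtain ⟨n₀, hn₀⟩ := hC z hcon (|z.im| / 2) (by positivity)
    have hbpos : 0 ≤ b := by
      have := hb 0 (wg_self _)
      simpa using this
    obtain ⟨n₁, hn₁⟩ := pow_unbounded_of_one_lt (b / (|z.im| / 2)) (one_lt_two : (1 : ℝ) < 2)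
    obtain ⟨y, hy, hy2⟩ := hn₀ (max n₀ n₁) (le_max_left _ _)
    have h1 := hb _ hy2
    have h2 : (lam ^ (max n₀ n₁) * y).im = ((k : ℝ) ^ (max n₀ n₁)) * y.im := by
      rw [hk]
      have h3 : ((k : ℂ) ^ (max n₀ n₁)) = (((k : ℝ) ^ (max n₀ n₁) : ℝ) : ℂ) := by push_cast; rfl
      rw [h3, re_ofReal_mul_im_aux]
    rw [h2, abs_mul, abs_pow] at h1
    have h3 : (2 : ℝ) ^ (max n₀ n₁) ≤ |(k : ℝ)| ^ (max n₀ n₁) := by
      apply pow_le_pow_left₀ (by norm_num)
      have : ((2 : ℤ) : ℝ) ≤ ((|k| : ℤ) : ℝ) := by exact_mod_cast hk2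
      push_cast at this
      exact this
    have h4 : (2 : ℝ) ^ n₁ ≤ (2 : ℝ) ^ (max n₀ n₁) :=
      pow_le_pow_right₀ (by norm_num) (le_max_right _ _)
    have h5 : |z.im| - |y.im| < |z.im| / 2 := by
      have h6 := mem_ball.1 hy
      rw [dist_eq_norm] at h6
      have h7 := (abs_im_le_norm (y - z)).trans_lt h6
      rw [sub_im] at h7
      have h8 := abs_sub_abs_le_abs_sub z.im y.im
      rw [abs_sub_comm] at h8
      linarith
    have h6 : |z.im| / 2 < |y.im| := by linarith
    rw [div_lt_iff₀ (by positivity)] at hn₁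
    have h7 : (2 : ℝ) ^ n₁ * (|z.im| / 2) ≤ |(k : ℝ)| ^ (max n₀ n₁) * |y.im| := by
      apply mul_le_mul (h4.trans h3) h6.le (by positivity) (by positivity)
    linarith
  -- conclusion from a parametrisation of the curve
  have hconcl : ∀ (τ : ℂ → ℂ) (a b : ℂ × ℂ), wg a b ≠ 0 → (∀ z, wg (ψ z) (τ z • a + b) = 0) →
      ∀ z, wg (rlift F (τ z • a + b)) (τ (m * z + β) • a + b) = 0 := by
    intro τ a b hab hτ z
    have hLF := rlift_isLift F
    have hne : ∀ x : ℂ, x • a + b ≠ 0 := by
      intro x h0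
      apply hab
      have h1 : wg a (x • a + b) = wg a b := by
        rw [wg_add_right, wg_smul_right, wg_self, mul_zero, zero_add]
      rw [← h1, h0, wg_zero_right]
    have h1 := hLF.par (hnz z) (hτ z)
    have h2 := hFα z
    rw [hm] at h2
    have h3 := hτ (m * z + β)
    exact wg_trans (hLF.nz _ (hnz z)) (wg_symm0 h1)
      (wg_trans (hnz _) (wg_symm0 h2) h3)
  by_cases hcase : ∀ z₁, wg (ψ z₁) (ψ 0) = 0 → ∃ n : ℤ, z₁ = n
  · -- the fibre is the integers
    have hharm := hreal 0 (by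
      intro z hz
      obtain ⟨n, hn⟩ := hcase z hz
      rw [hn]
      simp)
    have t5 := both_ends hL ⟨k, hk⟩ hper hharm
    set τ : ℂ → ℂ := fun z => exp (2 * Real.pi * I * z) with hτ
    have hτd : Differentiable ℂ τ := by
      intro z; fun_prop
    have hτn : ∀ (n : ℤ) (z : ℂ), τ (z + n) = τ z := by
      intro n z
      show exp (2 * Real.pi * I * (z + n)) = exp (2 * Real.pi * I * z)
      rw [mul_add, exp_add]
      have h1 : exp (2 * Real.pi * I * n) = 1 := by
        rw [exp_eq_one_iff]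
        exact ⟨n, by ring⟩
      rw [h1, mul_one]
    have hτ0 : τ 0 = 1 := by
      show exp (2 * Real.pi * I * 0) = 1
      rw [mul_zero, exp_zero]
    have hpi : (2 * Real.pi * I : ℂ) ≠ 0 := by
      simp [Real.pi_ne_zero]
    obtain ⟨a, b, hab, hcurve⟩ := curve_eq hL.diff hnz hL.imm hτd
      (fun z => by have := hτn 1 z; rwa [Int.cast_one] at this) hper
      (by
        intro z
        rw [hτ0]
        constructor
        · intro h
          obtain ⟨n, hn⟩ := exp_eq_one_iff.1 h
          have h1 : z = n := by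
            apply mul_left_cancel₀ hpi
            rw [hn]; ring
          have h2 := hint n 0
          rwa [zero_add, ← h1] at h2
        · intro h
          obtain ⟨n, hn⟩ := hcase z h
          have h1 := hτn n 0
          rw [zero_add, ← hn, hτ0] at h1
          exact h1)
      (by
        have h1 : HasDerivAt τ (exp (2 * Real.pi * I * 0) * (2 * Real.pi * I * 1)) 0 :=
          ((hasDerivAt_id (0 : ℂ)).const_mul (2 * Real.pi * I : ℂ)).cexp
        rw [h1.deriv, mul_zero, exp_zero, one_mul, mul_one]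
        exact hpi)
      (by
        intro z₁ hz₁
        obtain ⟨n, hn⟩ := hcase z₁ hz₁
        refine ⟨1, one_ne_zero, fun z => ?_⟩
        rw [one_mul, hn]
        exact ⟨hint n z, hτn n z⟩)
      (by
        refine ⟨1, 1 / 2, by norm_num, fun z hz => ?_⟩
        rw [hτ0]
        have hn : ‖τ z‖ = Real.exp (-(2 * Real.pi * z.im)) := by
          show ‖exp (2 * Real.pi * I * z)‖ = _
          rw [norm_exp]
          congr 1
          simp
        have hpi3 := Real.pi_gt_three
        have hexp : (2 : ℝ) ≤ Real.exp 1 := by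
          have := Real.add_one_le_exp (1 : ℝ)
          linarith
        rcases le_total 0 z.im with h0 | h0
        · rw [abs_of_nonneg h0] at hz
          have h1 : ‖τ z‖ ≤ 1 / 2 := by
            rw [hn, Real.exp_neg]
            rw [one_div]
            apply inv_anti₀ (by norm_num)
            exact hexp.trans (Real.exp_le_exp.2 (by nlinarith))
          have h2 : ‖(1 : ℂ)‖ - ‖τ z‖ ≤ ‖τ z - 1‖ := by
            rw [norm_sub_rev]; exact norm_sub_norm_le _ _
          rw [norm_one] at h2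
          linarith
        · rw [abs_of_nonpos h0] at hz
          have h1 : 2 ≤ ‖τ z‖ := by
            rw [hn]
            exact hexp.trans (Real.exp_le_exp.2 (by nlinarith))
          have h2 : ‖τ z‖ - ‖(1 : ℂ)‖ ≤ ‖τ z - 1‖ := norm_sub_norm_le _ _
          rw [norm_one] at h2
          linarith)
      t5
    have hfin := hconcl τ a b hab hcurve
    apply special_exp hF hab hm0 (exp_ne_zero (2 * Real.pi * I * β))
    intro x hx
    obtain ⟨z, hz⟩ : ∃ z, τ z = x := by
      refine ⟨log x / (2 * Real.pi * I), ?_⟩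
      show exp (2 * Real.pi * I * (log x / (2 * Real.pi * I))) = x
      rw [mul_div_cancel₀ _ hpi, exp_log hx]
    have h1 := hfin z
    have h2 : τ (m * z + β) = exp (2 * Real.pi * I * β) * x ^ m := by
      rw [← hz]
      show exp (2 * Real.pi * I * (m * z + β)) = exp (2 * Real.pi * I * β) *
        (exp (2 * Real.pi * I * z)) ^ m
      rw [← exp_int_mul, ← exp_add]
      congr 1
      ring
    rw [h2, hz] at h1
    exact h1
  · -- there is a second class
    push Not at hcase
    obtain ⟨b0, hb0, hb0n⟩ := hcase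
    have hdeckm : ∀ z₁, wg (ψ z₁) (ψ 0) = 0 → (¬ ∃ n : ℤ, z₁ = n) →
        ∀ z, wg (ψ (-z + z₁)) (ψ z) = 0 := by
      intro z₁ hz₁ hn z
      obtain ⟨α', hα', h⟩ := hDD z₁ hz₁
      rcases hdeck z₁ α' hα' h with h1 | h1
      · exfalso
        apply hn
        apply (hΛ z₁).1
        intro z
        have := h z
        rwa [h1, one_mul] at this
      · have := h z
        rwa [h1, neg_one_mul] at this
    have hb0m := hdeckm b0 hb0 (by push Not; exact hb0n)
    have hfib : ∀ z₁, wg (ψ z₁) (ψ 0) = 0 → (∃ n : ℤ, z₁ = n) ∨ (∃ n : ℤ, z₁ = b0 + n) := by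
      intro z₁ hz₁
      by_cases hn : ∃ n : ℤ, z₁ = n
      · exact Or.inl hn
      · right
        have h1 := hdeckm z₁ hz₁ hn
        obtain ⟨n, hn'⟩ := (hΛ (z₁ - b0)).1 (by
          intro z
          have h2 := h1 (b0 - z)
          have h3 := hb0m z
          rw [show -(b0 - z) + z₁ = z + (z₁ - b0) by ring] at h2
          rw [show -z + b0 = b0 - z by ring] at h3
          exact tr h2 h3)
        exact ⟨n, by rw [← hn']; ring⟩
    have hharm := hreal |b0.im| (by
      intro z hz
      rcases hfib z hz with ⟨n, hn⟩ | ⟨n, hn⟩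
      · rw [hn]; simp
      · rw [hn]; simp)
    have t5 := both_ends hL ⟨k, hk⟩ hper hharm
    set τ : ℂ → ℂ := fun z => cos (2 * Real.pi * (z - b0 / 2)) with hτ
    have hτd : Differentiable ℂ τ := by
      intro z; fun_prop
    have hτn : ∀ (n : ℤ) (z : ℂ), τ (z + n) = τ z := by
      intro n z
      show cos (2 * Real.pi * (z + n - b0 / 2)) = cos (2 * Real.pi * (z - b0 / 2))
      have h1 : (2 * Real.pi * (z + n - b0 / 2) : ℂ) =
          2 * Real.pi * (z - b0 / 2) + n * (2 * Real.pi) := by ring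
      rw [h1, cos_add_int_mul_two_pi]
    have hτm : ∀ z : ℂ, τ (-z + b0) = τ z := by
      intro z
      show cos (2 * Real.pi * (-z + b0 - b0 / 2)) = cos (2 * Real.pi * (z - b0 / 2))
      have h1 : (2 * Real.pi * (-z + b0 - b0 / 2) : ℂ) = -(2 * Real.pi * (z - b0 / 2)) := by ring
      rw [h1, cos_neg]
    have hpi : (2 * Real.pi : ℂ) ≠ 0 := by
      simp [Real.pi_ne_zero]
    obtain ⟨a, b, hab, hcurve⟩ := curve_eq hL.diff hnz hL.imm hτd
      (fun z => by have := hτn 1 z; rwa [Int.cast_one] at this) hper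
      (by
        intro z
        constructor
        · intro h
          have h1 : cos (2 * Real.pi * (0 - b0 / 2)) = cos (2 * Real.pi * (z - b0 / 2)) := h.symm
          obtain ⟨n, hn | hn⟩ := cos_eq_cos_iff.1 h1
          · have h2 : z = n := by
              apply mul_left_cancel₀ hpi
              linear_combination hn
            have h3 := hint n 0
            rwa [zero_add, ← h2] at h3
          · have h2 : z = b0 + n := by
              apply mul_left_cancel₀ hpi
              linear_combination hn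
            have h3 := hint n b0
            rw [← h2] at h3
            exact tr h3 hb0
        · intro h
          rcases hfib z h with ⟨n, hn⟩ | ⟨n, hn⟩
          · have h1 := hτn n 0
            rwa [zero_add, ← hn] at h1
          · have h1 := hτn n b0
            have h2 := hτm 0
            rw [neg_zero, zero_add] at h2
            rw [← hn, h2] at h1
            exact h1)
      (by
        have h1 : HasDerivAt (fun z : ℂ => 2 * Real.pi * (z - b0 / 2)) (2 * Real.pi * 1) 0 :=
          ((hasDerivAt_id (0 : ℂ)).sub_const (b0 / 2)).const_mul (2 * Real.pi : ℂ)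
        have h2 := h1.ccos
        rw [h2.deriv, mul_one]
        apply mul_ne_zero _ hpi
        rw [neg_ne_zero]
        intro h3
        obtain ⟨n, hn⟩ := sin_eq_zero_iff.1 h3
        have hpi' : (Real.pi : ℂ) ≠ 0 := by simp [Real.pi_ne_zero]
        have h4 : b0 = ((-n : ℤ) : ℂ) := by
          apply mul_left_cancel₀ hpi'
          push_cast
          linear_combination -hn
        exact hb0n _ h4)
      (by
        intro z₁ hz₁
        rcases hfib z₁ hz₁ with ⟨n, hn⟩ | ⟨n, hn⟩
        · refine ⟨1, one_ne_zero, fun z => ?_⟩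
          rw [one_mul, hn]
          exact ⟨hint n z, hτn n z⟩
        · refine ⟨-1, by norm_num, fun z => ?_⟩
          have h1 : -1 * z + z₁ = (-z + b0) + n := by rw [hn]; ring
          rw [h1]
          exact ⟨tr (hint n _) (hb0m z), by rw [hτn, hτm]⟩)
      (by
        -- growth of the cosine
        have hgrow : ∀ w : ℂ, (Real.exp |w.im| - 1) / 2 ≤ ‖cos w‖ := by
          intro w
          have h1 : cos w = (exp (w * I) + exp (-w * I)) / 2 := rfl
          have e1 : ‖exp (w * I)‖ = Real.exp (-w.im) := by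
            rw [norm_exp]; congr 1; simp
          have e2 : ‖exp (-w * I)‖ = Real.exp (w.im) := by
            rw [norm_exp]; congr 1; simp
          rw [h1, norm_div]
          have h2 : ‖(2 : ℂ)‖ = 2 := by simp
          rw [h2]
          apply div_le_div_of_nonneg_right _ (by norm_num)
          rcases le_total 0 w.im with h0 | h0
          · rw [abs_of_nonneg h0]
            have h3 : ‖exp (-w * I)‖ - ‖exp (w * I)‖ ≤ ‖exp (w * I) + exp (-w * I)‖ := by
              have := norm_sub_norm_le (exp (-w * I)) (-(exp (w * I)))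
              rw [norm_neg, sub_neg_eq_add, add_comm] at this
              exact this
            rw [e1, e2] at h3
            have h4 : Real.exp (-w.im) ≤ 1 := Real.exp_le_one_iff.2 (by linarith)
            linarith
          · rw [abs_of_nonpos h0]
            have h3 : ‖exp (w * I)‖ - ‖exp (-w * I)‖ ≤ ‖exp (w * I) + exp (-w * I)‖ := by
              have := norm_sub_norm_le (exp (w * I)) (-(exp (-w * I)))
              rw [norm_neg, sub_neg_eq_add] at this
              exact this
            rw [e1, e2] at h3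
            have h4 : Real.exp w.im ≤ 1 := Real.exp_le_one_iff.2 h0
            linarith
        refine ⟨|b0.im| + (2 * ‖τ 0‖ + 3), 1, one_pos, fun z hz => ?_⟩
        have h1 : (2 * Real.pi * (z - b0 / 2) : ℂ).im = 2 * Real.pi * (z.im - b0.im / 2) := by
          have h2 : (2 * Real.pi * (z - b0 / 2) : ℂ) = ((2 * Real.pi : ℝ) : ℂ) * (z - b0 / 2) := by
            push_cast; ring
          rw [h2, re_ofReal_mul_im_aux, sub_im]
          congr 2
          have h3 : (b0 / 2 : ℂ) = (((1 / 2 : ℝ)) : ℂ) * b0 := by push_cast; ring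
          rw [h3, re_ofReal_mul_im_aux]
          ring
        have h2 := hgrow (2 * Real.pi * (z - b0 / 2))
        rw [h1] at h2
        have h3 : 2 * ‖τ 0‖ + 3 ≤ |2 * Real.pi * (z.im - b0.im / 2)| := by
          rw [abs_mul, abs_of_pos (by positivity : (0 : ℝ) < 2 * Real.pi)]
          have h4 : |z.im| - |b0.im| ≤ |z.im - b0.im / 2| := by
            have h5 := abs_sub_abs_le_abs_sub z.im (b0.im / 2)
            rw [abs_div, abs_two] at h5
            have := abs_nonneg b0.im
            linarith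
          have h5 : 2 * ‖τ 0‖ + 3 ≤ |z.im - b0.im / 2| := by linarith
          have h6 := Real.pi_gt_three
          have h7 : 0 ≤ |z.im - b0.im / 2| := abs_nonneg _
          nlinarith
        have h4 := Real.add_one_le_exp |2 * Real.pi * (z.im - b0.im / 2)|
        have h5 : ‖τ z‖ - ‖τ 0‖ ≤ ‖τ z - τ 0‖ := norm_sub_norm_le _ _
        have h6 : ‖τ z‖ = ‖cos (2 * Real.pi * (z - b0 / 2))‖ := rfl
        linarith)
      t5
    have hfin := hconcl τ a b hab hcurve
    -- the phase
    set γ : ℂ := 2 * Real.pi * (m * (b0 / 2) + β - b0 / 2) with hγ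
    have hτy : ∀ y : ℂ, τ (b0 / 2 + y) = cos (2 * Real.pi * y) := by
      intro y
      show cos (2 * Real.pi * (b0 / 2 + y - b0 / 2)) = _
      congr 1
      ring
    have hτmy : ∀ y : ℂ, τ (m * (b0 / 2 + y) + β) = cos (2 * Real.pi * m * y + γ) := by
      intro y
      show cos (2 * Real.pi * (m * (b0 / 2 + y) + β - b0 / 2)) = _
      congr 1
      rw [hγ]
      ring
    have hF1 : ∀ y : ℂ, wg (rlift F (cos (2 * Real.pi * y) • a + b))
        (cos (2 * Real.pi * m * y + γ) • a + b) = 0 := by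
      intro y
      have h1 := hfin (b0 / 2 + y)
      rwa [hτy, hτmy] at h1
    have hne : ∀ x : ℂ, x • a + b ≠ 0 := by
      intro x h0
      apply hab
      have h1 : wg a (x • a + b) = wg a b := by
        rw [wg_add_right, wg_smul_right, wg_self, mul_zero, zero_add]
      rw [← h1, h0, wg_zero_right]
    have hinj : ∀ x x' : ℂ, wg (x • a + b) (x' • a + b) = 0 → x = x' := by
      intro x x' h
      have h1 : wg (x • a + b) (x' • a + b) = (x - x') * wg a b := by
        simp only [wg_add_left, wg_add_right, wg_smul_left, wg_smul_right, wg_self]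
        rw [wg_swap b a]
        ring
      rw [h1] at h
      rcases mul_eq_zero.1 h with h2 | h2
      · exact sub_eq_zero.1 h2
      · exact absurd h2 hab
    have hLF := rlift_isLift F
    have hsym : ∀ y : ℂ, cos (2 * Real.pi * m * y + γ) = cos (-(2 * Real.pi * m * y) + γ) := by
      intro y
      have h1 := hF1 y
      have h2 := hF1 (-y)
      have h3 : (2 * Real.pi * -y : ℂ) = -(2 * Real.pi * y) := by ring
      have h4 : (2 * Real.pi * m * -y + γ : ℂ) = -(2 * Real.pi * m * y) + γ := by ring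
      rw [h3, cos_neg, h4] at h2
      exact hinj _ _ (wg_trans (hLF.nz _ (hne _)) (wg_symm0 h1) h2)
    have hmC : (m : ℂ) ≠ 0 := by exact_mod_cast hm0
    have hsinγ : sin γ = 0 := by
      have h1 := hsym (1 / (4 * m))
      have h2 : (2 * Real.pi * m * (1 / (4 * m)) : ℂ) = Real.pi / 2 := by
        field_simp; ring
      rw [h2, cos_add, cos_add, cos_neg, sin_neg, cos_pi_div_two, sin_pi_div_two] at h1
      have h3 : (2 : ℂ) * sin γ = 0 := by linear_combination -h1
      rcases mul_eq_zero.1 h3 with h4 | h4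
      · norm_num at h4
      · exact h4
    have hcosγ : cos γ = 1 ∨ cos γ = -1 := by
      have h1 := sin_sq_add_cos_sq γ
      rw [hsinγ] at h1
      have h2 : (cos γ - 1) * (cos γ + 1) = 0 := by linear_combination h1
      rcases mul_eq_zero.1 h2 with h3 | h3
      · exact Or.inl (sub_eq_zero.1 h3)
      · exact Or.inr (by linear_combination h3)
    apply special_cos (n := m.natAbs) hF hab hcosγ
    intro x
    obtain ⟨w, hw⟩ := cos_surjective x
    have h1 := hF1 (w / (2 * Real.pi))
    have h2 : (2 * Real.pi * (w / (2 * Real.pi)) : ℂ) = w := by field_simp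
    have h3 : (2 * Real.pi * m * (w / (2 * Real.pi)) : ℂ) = m * w := by field_simp
    rw [h2, h3, hw, cos_add, hsinγ, mul_zero, sub_zero] at h1
    have h4 : (Polynomial.Chebyshev.T ℂ ((m.natAbs : ℕ) : ℤ)).eval x = cos (m * w) := by
      rw [← hw, Polynomial.Chebyshev.T_complex_cos]
      rcases Int.natAbs_eq m with h5 | h5
      · congr 2
        exact_mod_cast h5.symm
      · rw [← cos_neg]
        congr 1
        have h6 : (m : ℂ) = -((m.natAbs : ℤ) : ℂ) := by exact_mod_cast congrArg (Int.cast : ℤ → ℂ) h5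
        rw [h6]
        ring
    rw [h4, mul_comm]
    exact h1

/-- The group of periods of the curve. -/
def periodGroup (ψ : ℂ → ℂ × ℂ) (hnz : ∀ z, ψ z ≠ 0) : AddSubgroup ℂ where
  carrier := {w | ∀ z, wg (ψ (z + w)) (ψ z) = 0}
  add_mem' := by
    intro a b ha hb z
    have h1 := hb (z + a)
    have h2 := ha z
    rw [add_assoc] at h1
    exact wg_trans (hnz _) h1 h2
  zero_mem' := by
    intro z
    rw [add_zero, wg_self]
  neg_mem' := by
    intro a ha z
    have h1 := ha (z + -a)
    rw [neg_add_cancel_right] at h1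
    exact wg_symm0 h1

theorem classify (hL : Lin g D B lam ψ p) (F : RatFunc ℂ) (hF : 2 ≤ rdeg F)
    (hDD : ∀ z₁, wg (ψ z₁) (ψ 0) = 0 →
      ∃ α : ℂ, α ≠ 0 ∧ ∀ z, wg (ψ (α * z + z₁)) (ψ z) = 0)
    (hFF : ∃ α β : ℂ, α ≠ 0 ∧ ∀ z, wg (ψ (α * z + β)) (rlift F (ψ z)) = 0)
    (hN : ∀ z₁, wg (ψ z₁) (ψ 0) = 0 → wg (ψ z₁) (deriv ψ z₁) ≠ 0)
    (hC : ∀ z, ¬ HarmAt (fun y => g (ψ y)) z → ∀ ε > 0, ∃ n₀ : ℕ, ∀ n ≥ n₀,
      ∃ y ∈ ball z ε, wg (ψ (lam ^ n * y)) (ψ 0) = 0)
    (hZ : ∃ z₁, z₁ ≠ 0 ∧ wg (ψ z₁) (ψ 0) = 0) : Special F := by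
  have hnz := hL.nz
  have hlam0 : lam ≠ 0 := by
    intro h0
    have := hL.one
    rw [h0, norm_zero] at this
    linarith
  have hlam1 : lam - 1 ≠ 0 := by
    intro h0
    have h1 : lam = 1 := by linear_combination h0
    have := hL.one
    rw [h1, norm_one] at this
    exact lt_irrefl _ this
  set Λ := periodGroup ψ hnz with hΛ
  have hmem : ∀ w, w ∈ Λ ↔ ∀ z, wg (ψ (z + w)) (ψ z) = 0 := fun w => Iff.rfl
  -- discreteness
  obtain ⟨ε, hε, hdisc⟩ : ∃ ε : ℝ, 0 < ε ∧ ∀ w ∈ Λ, ‖w‖ < ε → w = 0 := by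
    have h1 := hasDerivAt_wg (hasDerivAt_const (0 : ℂ) (ψ 0)) (hL.diff 0).hasDerivAt
    rw [wg_zero_left, zero_add] at h1
    have h2 := h1.eventually_ne (c := 0) hL.imm
    rw [eventually_nhdsWithin_iff, Metric.eventually_nhds_iff] at h2
    obtain ⟨ε, hε, h3⟩ := h2
    refine ⟨ε, hε, fun w hw hwε => ?_⟩
    by_contra hne
    have h4 := h3 (y := w) (by rw [dist_zero_right]; exact hwε) hne
    apply h4
    have h5 := (hmem w).1 hw 0
    rw [zero_add] at h5
    exact wg_symm0 h5
  -- a nonzero period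
  obtain ⟨z₁, hz₁, hz₁'⟩ := hZ
  obtain ⟨α₁, hα₁, hα₁'⟩ := hDD z₁ hz₁'
  have hw1 : (lam - 1) * z₁ ∈ Λ := by
    rw [hmem]
    intro w
    set x := (w - z₁) / α₁ with hx
    have h1 : α₁ * x + z₁ = w := by rw [hx]; field_simp; ring
    have h2 := hα₁' x
    rw [h1] at h2
    have h3 := hL.push (hα₁' (x / lam))
    have h4 : lam * (α₁ * (x / lam) + z₁) = w + (lam - 1) * z₁ := by
      rw [← h1]; field_simp; ring
    have h5 : lam * (x / lam) = x := by field_simp
    rw [h4, h5] at h3
    exact wg_trans (hnz _) h3 (wg_symm0 h2)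
  have hw10 : (lam - 1) * z₁ ≠ 0 := mul_ne_zero hlam1 hz₁
  obtain ⟨α, β, hα, hFα⟩ := hFF
  have hαΛ : ∀ w ∈ Λ, α * w ∈ Λ := by
    intro w hw
    rw [hmem] at hw ⊢
    intro z
    set x := (z - β) / α with hx
    have h1 : α * x + β = z := by rw [hx]; field_simp; ring
    have h2 : α * (x + w) + β = z + α * w := by rw [← h1]; ring
    have h3 := hFα (x + w)
    have h4 := hFα x
    rw [h2] at h3
    rw [h1] at h4
    have hLF := rlift_isLift F
    have h5 := hLF.par (hnz (x + w)) (hw x)
    exact wg_trans (hLF.nz _ (hnz x)) (wg_trans (hLF.nz _ (hnz (x + w))) h3 h5) (wg_symm0 h4)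
  by_cases hind : ∃ w ∈ Λ, LinearIndependent ℝ ![(lam - 1) * z₁, w]
  · -- rank two
    obtain ⟨w, hw, hli⟩ := hind
    obtain ⟨ω₁, ω₂, hli', h1, h2, hspan⟩ := lattice_basis Λ hε hdisc hw1 hw hli
    obtain ⟨m₁, n₁, h3⟩ := hspan _ (hαΛ ω₁ h1)
    obtain ⟨m₂, n₂, h4⟩ := hspan _ (hαΛ ω₂ h2)
    exact special_lattes hL.diff hnz hL.imm F hFα hli' ((hmem _).1 h1) ((hmem _).1 h2)
      ⟨m₁, n₁, m₂, n₂, h3, h4⟩
  · -- rank one
    push Not at hind
    obtain ⟨w0, hw0, hw0'⟩ := cyclic_of_line Λ hε hdisc hw1 hw10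
      (fun w hw => line_of_not_indep hw10 (hind w hw))
    have hmulz : Differentiable ℂ (fun z : ℂ => w0 * z) := by intro z; fun_prop
    have hL' : Lin g D B lam (fun z => ψ (w0 * z)) (fun z => p (w0 * z)) := by
      refine ⟨hL.dyn, hL.one, hL.diff.comp hmulz, fun z => hnz _, ?_, hL.pdiff.comp hmulz,
        fun z => ?_⟩
      · have h2 : deriv (fun z => ψ (w0 * z)) 0 = w0 • deriv ψ 0 := by
          have h3 : HasDerivAt (fun z : ℂ => w0 * z) w0 0 := by
            simpa using (hasDerivAt_id (0 : ℂ)).const_mul w0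
          have h4 : HasDerivAt ψ (deriv ψ 0) (w0 * 0) := by
            rw [mul_zero]; exact (hL.diff 0).hasDerivAt
          exact (HasDerivAt.scomp (0 : ℂ) h4 h3).deriv
        rw [h2, mul_zero, wg_smul_right]
        exact mul_ne_zero hw0 hL.imm
      · show B (ψ (w0 * z)) = exp (p (w0 * z)) • ψ (w0 * (lam * z))
        rw [hL.eqn, mul_left_comm]
    apply class_rank1 hL' F hF
    · intro z hz
      simp only [mul_zero] at hz
      obtain ⟨α', hα', h⟩ := hDD (w0 * z) hz
      refine ⟨α', hα', fun y => ?_⟩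
      have h1 := h (w0 * y)
      have h2 : w0 * (α' * y + z) = α' * (w0 * y) + w0 * z := by ring
      show wg (ψ (w0 * (α' * y + z))) (ψ (w0 * y)) = 0
      rw [h2]
      exact h1
    · refine ⟨α, β / w0, hα, fun z => ?_⟩
      show wg (ψ (w0 * (α * z + β / w0))) (rlift F (ψ (w0 * z))) = 0
      have h2 : w0 * (α * z + β / w0) = α * (w0 * z) + β := by field_simp
      rw [h2]
      exact hFα (w0 * z)
    · intro z hz ε' hε'
      have hz' : ¬ HarmAt (fun y => g (ψ y)) (w0 * z) := by
        intro h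
        exact hz (h.comp (h := fun z => w0 * z) (by fun_prop))
      have hn0 : 0 < ‖w0‖ := norm_pos_iff.2 hw0
      obtain ⟨n₀, hn₀⟩ := hC _ hz' (‖w0‖ * ε') (by positivity)
      refine ⟨n₀, fun n hn => ?_⟩
      obtain ⟨y, hy, hy2⟩ := hn₀ n hn
      refine ⟨y / w0, ?_, ?_⟩
      · rw [mem_ball, dist_eq_norm] at hy ⊢
        have h1 : y / w0 - z = (y - w0 * z) / w0 := by field_simp
        rw [h1, norm_div, div_lt_iff₀ hn0, mul_comm ε']
        exact hy
      · show wg (ψ (w0 * (lam ^ n * (y / w0)))) (ψ (w0 * 0)) = 0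
        have h1 : w0 * (lam ^ n * (y / w0)) = lam ^ n * y := by field_simp
        rw [h1, mul_zero]
        exact hy2
    · intro w
      have h1 : (∀ z, wg (ψ (w0 * (z + w))) (ψ (w0 * z)) = 0) ↔ w0 * w ∈ Λ := by
        rw [hmem]
        constructor
        · intro h z
          have h2 := h (z / w0)
          have h3 : w0 * (z / w0 + w) = z + w0 * w := by field_simp
          have h4 : w0 * (z / w0) = z := by field_simp
          rwa [h3, h4] at h2
        · intro h z
          have h2 := h (w0 * z)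
          rwa [← mul_add] at h2
      rw [h1, hw0']
      constructor
      · rintro ⟨n, hn⟩
        refine ⟨n, ?_⟩
        apply mul_left_cancel₀ hw0
        rw [hn, mul_comm]
      · rintro ⟨n, hn⟩
        exact ⟨n, by rw [hn, mul_comm]⟩

end Pool.Agent.Work.MP_78b16e_an
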