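import Mathlib

/-! Discrete subgroups of the complex plane. -/

set_option autoImplicit false

namespace Pool.Agent.Work.MP_78b16e_an

open Metric Filter Topology

theorem lattice_basis (Λ : AddSubgroup ℂ) {ε : ℝ} (hε : 0 < ε)
    (hdisc : ∀ w ∈ Λ, ‖w‖ < ε → w = 0) {w1 w2 : ℂ} (h1 : w1 ∈ Λ) (h2 : w2 ∈ Λ)
    (hind : LinearIndependent ℝ ![w1, w2]) :
    ∃ ω₁ ω₂ : ℂ, LinearIndependent ℝ ![ω₁, ω₂] ∧ ω₁ ∈ Λ ∧ ω₂ ∈ Λ ∧
      ∀ w ∈ Λ, ∃ m n : ℤ, w = (m : ℂ) * ω₁ + (n : ℂ) * ω₂ := by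
  let L : Submodule ℤ ℂ := AddSubgroup.toIntSubmodule Λ
  have hmem : ∀ w, w ∈ L ↔ w ∈ Λ := fun w => Iff.rfl
  have hdt : DiscreteTopology L := by
    apply discreteTopology_of_isOpen_singleton_zero
    rw [Metric.isOpen_singleton_iff]
    refine ⟨ε, hε, fun y hy => ?_⟩
    have h3 : ‖(y : ℂ)‖ < ε := by
      have h4 : dist y 0 = ‖(y : ℂ)‖ := by
        rw [Subtype.dist_eq, dist_eq_norm]; simp
      rwa [h4] at hy
    exact Subtype.ext (hdisc y y.2 h3)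
  have hz : IsZLattice ℝ L := by
    constructor
    have h3 : Submodule.span ℝ (Set.range ![w1, w2]) = ⊤ := by
      apply hind.span_eq_top_of_card_eq_finrank
      simp [Complex.finrank_real_complex]
    rw [eq_top_iff, ← h3]
    apply Submodule.span_mono
    rintro _ ⟨i, rfl⟩
    fin_cases i
    · exact h1
    · exact h2
  have hfree : Module.Free ℤ L := ZLattice.module_free ℝ L
  have hfin : Module.Finite ℤ L := ZLattice.module_finite ℝ L
  have hrank : Module.finrank ℤ L = 2 := by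
    rw [ZLattice.rank ℝ L, Complex.finrank_real_complex]
  let b : Module.Basis (Fin 2) ℤ L := Module.finBasisOfFinrankEq ℤ L hrank
  have hb := (b.ofZLatticeBasis ℝ L).linearIndependent
  refine ⟨b 0, b 1, ?_, (b 0).2, (b 1).2, fun w hw => ?_⟩
  · convert! hb using 1
    funext i
    fin_cases i <;> simp
  · have h3 := b.sum_repr ⟨w, hw⟩
    rw [Fin.sum_univ_two] at h3
    refine ⟨b.repr ⟨w, hw⟩ 0, b.repr ⟨w, hw⟩ 1, ?_⟩
    have h4 := congrArg (Subtype.val) h3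
    simp only [Submodule.coe_add, Submodule.coe_smul] at h4
    rw [zsmul_eq_mul, zsmul_eq_mul] at h4
    exact h4.symm

theorem cyclic_of_line (Λ : AddSubgroup ℂ) {ε : ℝ} (hε : 0 < ε)
    (hdisc : ∀ w ∈ Λ, ‖w‖ < ε → w = 0) {w1 : ℂ} (h1 : w1 ∈ Λ) (h0 : w1 ≠ 0)
    (hline : ∀ w ∈ Λ, ∃ t : ℝ, w = (t : ℂ) * w1) :
    ∃ w0 : ℂ, w0 ≠ 0 ∧ ∀ w, w ∈ Λ ↔ ∃ n : ℤ, w = (n : ℂ) * w0 := by
  let φ : ℝ →+ ℂ := ((AddMonoidHom.mulRight w1).comp (Complex.ofRealHom : ℝ →+* ℂ).toAddMonoidHom)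
  have hφ : ∀ t : ℝ, φ t = (t : ℂ) * w1 := fun t => rfl
  let S : AddSubgroup ℝ := Λ.comap φ
  have hS : ∀ t : ℝ, t ∈ S ↔ (t : ℂ) * w1 ∈ Λ := fun t => Iff.rfl
  have hn1 : 0 < ‖w1‖ := norm_pos_iff.2 h0
  rcases S.dense_or_cyclic with hd | ⟨a, ha⟩
  · exfalso
    obtain ⟨t, ht1, ht2⟩ := hd.exists_between (show (0 : ℝ) < ε / ‖w1‖ by positivity)
    have h2 := hdisc _ ((hS t).1 ht1) (by
      rw [norm_mul, Complex.norm_real, Real.norm_eq_abs, abs_of_pos ht2.1, ← lt_div_iff₀ hn1]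
      exact ht2.2)
    rcases mul_eq_zero.1 h2 with h3 | h3
    · have : t = 0 := by exact_mod_cast h3
      linarith [ht2.1]
    · exact h0 h3
  · have hmem : ∀ t : ℝ, t ∈ S ↔ ∃ n : ℤ, t = n * a := by
      intro t
      rw [ha, AddSubgroup.mem_closure_singleton]
      constructor
      · rintro ⟨n, rfl⟩; exact ⟨n, by simp⟩
      · rintro ⟨n, rfl⟩; exact ⟨n, by simp⟩
    have ha0 : a ≠ 0 := by
      rintro rfl
      have h2 : (1 : ℝ) ∈ S := by rw [hS]; simpa using h1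
      obtain ⟨n, hn⟩ := (hmem 1).1 h2
      simp at hn
    refine ⟨(a : ℂ) * w1, mul_ne_zero (by exact_mod_cast ha0) h0, fun w => ?_⟩
    constructor
    · intro hw
      obtain ⟨t, ht⟩ := hline w hw
      have h2 : t ∈ S := by rw [hS, ← ht]; exact hw
      obtain ⟨n, hn⟩ := (hmem t).1 h2
      refine ⟨n, ?_⟩
      rw [ht, hn]
      push_cast
      ring
    · rintro ⟨n, rfl⟩
      have h2 : (n * a : ℝ) ∈ S := (hmem _).2 ⟨n, rfl⟩
      rw [hS] at h2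
      convert h2 using 1
      push_cast
      ring

theorem line_of_not_indep {w1 w : ℂ} (h0 : w1 ≠ 0) (h : ¬ LinearIndependent ℝ ![w1, w]) :
    ∃ t : ℝ, w = (t : ℂ) * w1 := by
  rw [LinearIndependent.pair_iff] at h
  push Not at h
  obtain ⟨s, t, hst, hne⟩ := h
  have ht : t ≠ 0 := by
    rintro rfl
    rw [zero_smul, add_zero] at hst
    rcases smul_eq_zero.1 hst with h1 | h1
    · exact hne h1 rfl
    · exact h0 h1
  refine ⟨-(s / t), ?_⟩
  have ht' : (t : ℂ) ≠ 0 := by exact_mod_cast ht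
  rw [Complex.real_smul, Complex.real_smul] at hst
  push_cast
  field_simp
  linear_combination hst

end Pool.Agent.Work.MP_78b16e_an
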