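import Pool.Agent.Work.MP_78b16e_an.HarmMV

/-! Harmonic kit and Montel (small Montel theorem here; the rest is in `HarmKit`, `HarmMV`). -/

set_option autoImplicit false

namespace Pool.Agent.Work.MP_78b16e_an

open Metric Filter Topology

/-- small Montel theorem on a ball -/
theorem montel {E : Type*} [NormedAddCommGroup E] [NormedSpace ℂ E] [FiniteDimensional ℂ E]
    {F : ℕ → ℂ → E} {z : ℂ} {R M : ℝ} (hR : 0 < R)
    (hd : ∀ n, DifferentiableOn ℂ (F n) (ball z R)) (hb : ∀ n, ∀ y ∈ ball z R, ‖F n y‖ ≤ M) :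
    ∃ (φ : ℕ → ℕ) (G : ℂ → E), StrictMono φ ∧ DifferentiableOn ℂ G (ball z R) ∧
      TendstoLocallyUniformlyOn (fun n => F (φ n)) G atTop (ball z R) := by
  have : CompleteSpace E := FiniteDimensional.complete ℂ E
  have : ProperSpace E := FiniteDimensional.proper ℂ E
  have hM : 0 ≤ M := (norm_nonneg _).trans (hb 0 z (mem_ball_self hR))
  -- Taylor coefficients
  let a : ℕ → ℕ → E := fun n k => ((k.factorial : ℂ)⁻¹) • iteratedDeriv k (F n) z
  have ha : ∀ ρ, 0 < ρ → ρ < R → ∀ n k, ‖a n k‖ ≤ M / ρ ^ k := by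
    intro ρ hρ hρR n k
    have hcl : closedBall z ρ ⊆ ball z R := closedBall_subset_ball hρR
    have h1 := Complex.norm_iteratedDeriv_le_of_forall_mem_sphere_norm_le (c := z) (R := ρ)
      (C := M) (f := F n) k hρ ((hd n).diffContOnCl_ball hcl)
      (fun y hy => hb n y (hcl (sphere_subset_closedBall hy)))
    have h2 : (0 : ℝ) < k.factorial := by exact_mod_cast Nat.factorial_pos k
    simp only [a, norm_smul, norm_inv, Complex.norm_natCast]
    calc ((k.factorial : ℝ))⁻¹ * ‖iteratedDeriv k (F n) z‖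
        ≤ ((k.factorial : ℝ))⁻¹ * (k.factorial * M / ρ ^ k) := by gcongr
      _ = M / ρ ^ k := by field_simp
  have hsum : ∀ n, ∀ w ∈ ball z R, HasSum (fun k => (w - z) ^ k • a n k) (F n w) := by
    intro n w hw
    have := Complex.hasSum_taylorSeries_on_ball (hd n) hw
    have e : (fun k => (w - z) ^ k • a n k) =
        fun k : ℕ => ((k.factorial : ℂ)⁻¹) • (w - z) ^ k • iteratedDeriv k (F n) z := by
      funext k
      simp only [a]
      rw [smul_comm]
    rw [e]
    exact this
  let K : Set (ℕ → E) := Set.pi Set.univ fun k => closedBall (0 : E) (M / (R / 2) ^ k)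
  have hK : IsCompact K := isCompact_univ_pi fun k => isCompact_closedBall _ _
  have haK : ∀ n, a n ∈ K := by
    intro n k _
    rw [mem_closedBall_zero_iff]
    exact ha (R / 2) (by positivity) (by linarith) n k
  obtain ⟨b, -, φ, hφ, hlim⟩ := hK.tendsto_subseq haK
  rw [tendsto_pi_nhds] at hlim
  have hbb : ∀ ρ, 0 < ρ → ρ < R → ∀ k, ‖b k‖ ≤ M / ρ ^ k := by
    intro ρ hρ hρR k
    exact le_of_tendsto (hlim k).norm (Eventually.of_forall fun n => ha ρ hρ hρR (φ n) k)
  have hbs : ∀ w ∈ ball z R, Summable fun k => (w - z) ^ k • b k := by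
    intro w hw
    rw [mem_ball, dist_eq_norm] at hw
    obtain ⟨ρ, hρ1, hρ2⟩ := exists_between hw
    have hρ0 : 0 < ρ := lt_of_le_of_lt (norm_nonneg _) hρ1
    refine Summable.of_norm_bounded (g := fun k => M * (‖w - z‖ / ρ) ^ k) ?_ fun k => ?_
    · exact (summable_geometric_of_lt_one (by positivity) ((div_lt_one hρ0).2 hρ1)).mul_left M
    · rw [norm_smul, norm_pow, div_pow]
      calc ‖w - z‖ ^ k * ‖b k‖ ≤ ‖w - z‖ ^ k * (M / ρ ^ k) := by
            gcongr
            exact hbb ρ hρ0 hρ2 k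
        _ = M * (‖w - z‖ ^ k / ρ ^ k) := by ring
  let G : ℂ → E := fun w => ∑' k, (w - z) ^ k • b k
  have hunif : TendstoLocallyUniformlyOn (fun n => F (φ n)) G atTop (ball z R) := by
    rw [Metric.tendstoLocallyUniformlyOn_iff]
    intro ε hε x hx
    have hx' := hx
    rw [mem_ball] at hx'
    obtain ⟨ρ', hρ'1, hρ'2⟩ := exists_between hx'
    obtain ⟨ρ, hρ1, hρ2⟩ := exists_between hρ'2
    have hρ'0 : 0 < ρ' := lt_of_le_of_lt dist_nonneg hρ'1
    have hρ0 : 0 < ρ := hρ'0.trans hρ1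
    have hgeo : Summable fun k : ℕ => (M + M) * (ρ' / ρ) ^ k :=
      (summable_geometric_of_lt_one (by positivity) ((div_lt_one hρ0).2 hρ1)).mul_left _
    have hbd : ∀ n k, ‖a (φ n) k - b k‖ * ρ' ^ k ≤ (M + M) * (ρ' / ρ) ^ k := by
      intro n k
      rw [div_pow]
      calc ‖a (φ n) k - b k‖ * ρ' ^ k ≤ (M / ρ ^ k + M / ρ ^ k) * ρ' ^ k := by
            gcongr
            exact (norm_sub_le _ _).trans
              (add_le_add (ha ρ hρ0 hρ2 (φ n) k) (hbb ρ hρ0 hρ2 k))
        _ = (M + M) * (ρ' ^ k / ρ ^ k) := by ring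
    have hS : Tendsto (fun n => ∑' k, ‖a (φ n) k - b k‖ * ρ' ^ k) atTop
        (𝓝 (∑' _ : ℕ, (0 : ℝ))) := by
      refine tendsto_tsum_of_dominated_convergence hgeo (fun k => ?_) ?_
      · have h1 : Tendsto (fun n => ‖a (φ n) k - b k‖) atTop (𝓝 0) := by
          have := ((hlim k).sub_const (b k)).norm
          simpa using this
        simpa using h1.mul_const (ρ' ^ k)
      · refine Eventually.of_forall fun n k => ?_
        rw [Real.norm_eq_abs, abs_of_nonneg (by positivity)]
        exact hbd n k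
    rw [tsum_zero] at hS
    refine ⟨ball z ρ', mem_nhdsWithin_of_mem_nhds (isOpen_ball.mem_nhds hρ'1), ?_⟩
    filter_upwards [hS.eventually_lt_const hε] with n hn y hy
    have hyR : y ∈ ball z R := ball_subset_ball hρ'2.le hy
    rw [dist_comm, dist_eq_norm]
    refine lt_of_le_of_lt ?_ hn
    have h1 : HasSum (fun k => (y - z) ^ k • a (φ n) k - (y - z) ^ k • b k)
        (F (φ n) y - G y) := (hsum (φ n) y hyR).sub (hbs y hyR).hasSum
    have h2 : Summable fun k => ‖a (φ n) k - b k‖ * ρ' ^ k :=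
      Summable.of_nonneg_of_le (fun k => by positivity) (hbd n) hgeo
    refine h1.norm_le_of_bounded h2.hasSum fun k => ?_
    rw [← smul_sub, norm_smul, norm_pow, mul_comm]
    rw [mem_ball, dist_eq_norm] at hy
    gcongr
  refine ⟨φ, G, hφ, ?_, hunif⟩
  exact hunif.differentiableOn (Eventually.of_forall fun n => hd (φ n)) isOpen_ball

end Pool.Agent.Work.MP_78b16e_an
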