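import Pool.Agent.Work.MP_78b16e_an.Basic
import Pool.Agent.Work.MP_78b16e_an.Harm

/-! Local inverses and matching of parallel curves.  (owner: helper71) -/

set_option autoImplicit false

namespace Pool.Agent.Work.MP_78b16e_an

open Metric Filter Topology

theorem analyticAt_wg {c₁ c₂ : ℂ → ℂ × ℂ} {x : ℂ} (h₁ : AnalyticAt ℂ c₁ x)
    (h₂ : AnalyticAt ℂ c₂ x) : AnalyticAt ℂ (fun z => wg (c₁ z) (c₂ z)) x := by
  have a1 : AnalyticAt ℂ (fun z => (c₁ z).1) x := analyticAt_fst.comp h₁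
  have a2 : AnalyticAt ℂ (fun z => (c₁ z).2) x := analyticAt_snd.comp h₁
  have b1 : AnalyticAt ℂ (fun z => (c₂ z).1) x := analyticAt_fst.comp h₂
  have b2 : AnalyticAt ℂ (fun z => (c₂ z).2) x := analyticAt_snd.comp h₂
  exact (a1.mul b2).sub (a2.mul b1)

theorem hasDerivAt_wg {c₁ c₂ : ℂ → ℂ × ℂ} {d₁ d₂ : ℂ × ℂ} {x : ℂ} (h₁ : HasDerivAt c₁ d₁ x)
    (h₂ : HasDerivAt c₂ d₂ x) :
    HasDerivAt (fun z => wg (c₁ z) (c₂ z)) (wg d₁ (c₂ x) + wg (c₁ x) d₂) x := by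
  have a1 : HasDerivAt (fun z => (c₁ z).1) d₁.1 x :=
    ((ContinuousLinearMap.fst ℂ ℂ ℂ).hasFDerivAt (x := c₁ x)).comp_hasDerivAt x h₁
  have a2 : HasDerivAt (fun z => (c₁ z).2) d₁.2 x :=
    ((ContinuousLinearMap.snd ℂ ℂ ℂ).hasFDerivAt (x := c₁ x)).comp_hasDerivAt x h₁
  have b1 : HasDerivAt (fun z => (c₂ z).1) d₂.1 x :=
    ((ContinuousLinearMap.fst ℂ ℂ ℂ).hasFDerivAt (x := c₂ x)).comp_hasDerivAt x h₂
  have b2 : HasDerivAt (fun z => (c₂ z).2) d₂.2 x :=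
    ((ContinuousLinearMap.snd ℂ ℂ ℂ).hasFDerivAt (x := c₂ x)).comp_hasDerivAt x h₂
  refine ((a1.mul b2).sub (a2.mul b1)).congr_deriv ?_
  simp only [wg]
  ring

theorem exists_local_inverse {f : ℂ → ℂ} {x : ℂ} (hf : AnalyticAt ℂ f x)
    (hf' : deriv f x ≠ 0) :
    ∃ k : ℂ → ℂ, AnalyticAt ℂ k (f x) ∧ k (f x) = x ∧ deriv k (f x) = (deriv f x)⁻¹ ∧
      (∀ᶠ y in 𝓝 (f x), f (k y) = y) ∧ (∀ᶠ z in 𝓝 x, k (f z) = z) := by
  refine ⟨hf.hasStrictDerivAt.localInverse _ _ _ hf', hf.analyticAt_localInverse hf',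
    HasStrictFDerivAt.localInverse_apply_image .., ?_,
    HasStrictDerivAt.eventually_right_inverse .., HasStrictDerivAt.eventually_left_inverse ..⟩
  exact (HasStrictDerivAt.to_localInverse _ _).hasDerivAt.deriv

/-- the local coordinate `z ↦ wg a (c z) / wg (c z) b` of a curve -/
theorem coord_deriv {c : ℂ → ℂ × ℂ} {x : ℂ} {a b : ℂ × ℂ} (h : DifferentiableAt ℂ c x)
    (ha : wg a (c x) = 0) (hb : wg (c x) b ≠ 0) :
    HasDerivAt (fun z => wg a (c z) / wg (c z) b) (wg a (deriv c x) / wg (c x) b) x := by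
  have h1 := hasDerivAt_wg (hasDerivAt_const x a) h.hasDerivAt
  have h2 := hasDerivAt_wg h.hasDerivAt (hasDerivAt_const x b)
  refine (h1.div h2 hb).congr_deriv ?_
  rw [ha]
  simp only [wg_zero_left, wg_zero_right, zero_add, add_zero, zero_mul, sub_zero]
  field_simp

/-- two curves passing through the same point, both immersed there, can be matched -/
theorem exists_match {c₁ c₂ : ℂ → ℂ × ℂ} {x₁ x₂ : ℂ} (h₁ : AnalyticAt ℂ c₁ x₁)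
    (h₂ : AnalyticAt ℂ c₂ x₂) (hi₁ : wg (c₁ x₁) (deriv c₁ x₁) ≠ 0)
    (hi₂ : wg (c₂ x₂) (deriv c₂ x₂) ≠ 0) (hp : wg (c₁ x₁) (c₂ x₂) = 0) :
    ∃ η : ℂ → ℂ, AnalyticAt ℂ η x₂ ∧ η x₂ = x₁ ∧ deriv η x₂ ≠ 0 ∧
      ∀ᶠ z in 𝓝 x₂, wg (c₁ (η z)) (c₂ z) = 0 := by
  have n₁ : c₁ x₁ ≠ 0 := by
    intro h; rw [h, wg_zero_left] at hi₁; exact hi₁ rfl
  have n₂ : c₂ x₂ ≠ 0 := by
    intro h; rw [h, wg_zero_left] at hi₂; exact hi₂ rfl
  obtain ⟨k, hk⟩ := (wg_eq_zero_iff n₁ _).1 hp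
  have hk0 : k ≠ 0 := by
    rintro rfl; rw [zero_smul] at hk; exact n₂ hk
  set a := c₁ x₁ with ha
  set b := perp a with hb
  have hab : wg a b ≠ 0 := wg_perp_ne n₁
  have hb₂ : wg (c₂ x₂) b ≠ 0 := by
    rw [hk, wg_smul_left]; exact mul_ne_zero hk0 hab
  let f₁ : ℂ → ℂ := fun z => wg a (c₁ z) / wg (c₁ z) b
  let f₂ : ℂ → ℂ := fun z => wg a (c₂ z) / wg (c₂ z) b
  have hf₁ : AnalyticAt ℂ f₁ x₁ :=
    (analyticAt_wg analyticAt_const h₁).div (analyticAt_wg h₁ analyticAt_const) hab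
  have hf₂ : AnalyticAt ℂ f₂ x₂ :=
    (analyticAt_wg analyticAt_const h₂).div (analyticAt_wg h₂ analyticAt_const) hb₂
  have hd₁ : deriv f₁ x₁ = wg a (deriv c₁ x₁) / wg (c₁ x₁) b :=
    (coord_deriv h₁.differentiableAt (by rw [← ha, wg_self]) hab).deriv
  have hd₂ : deriv f₂ x₂ = wg a (deriv c₂ x₂) / wg (c₂ x₂) b :=
    (coord_deriv h₂.differentiableAt hp hb₂).deriv
  have hd₁0 : deriv f₁ x₁ ≠ 0 := by
    rw [hd₁]; exact div_ne_zero hi₁ hab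
  have hd₂0 : deriv f₂ x₂ ≠ 0 := by
    rw [hd₂]
    refine div_ne_zero (fun h => hi₂ ?_) hb₂
    rw [hk, wg_smul_left, h, mul_zero]
  have hv₁ : f₁ x₁ = 0 := by
    show wg a (c₁ x₁) / wg (c₁ x₁) b = 0
    rw [← ha, wg_self, zero_div]
  have hv₂ : f₂ x₂ = 0 := by
    show wg a (c₂ x₂) / wg (c₂ x₂) b = 0
    rw [hp, zero_div]
  obtain ⟨k₁, hk₁, hk₁x, hk₁d, hk₁r, -⟩ := exists_local_inverse hf₁ hd₁0
  rw [hv₁] at hk₁ hk₁x hk₁d hk₁r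
  have hcomp : AnalyticAt ℂ (fun z => k₁ (f₂ z)) x₂ := by
    have : AnalyticAt ℂ k₁ (f₂ x₂) := by rw [hv₂]; exact hk₁
    exact this.comp hf₂
  refine ⟨fun z => k₁ (f₂ z), hcomp, ?_, ?_, ?_⟩
  · show k₁ (f₂ x₂) = x₁
    rw [hv₂, hk₁x]
  · have h3 : HasDerivAt k₁ (deriv f₁ x₁)⁻¹ (f₂ x₂) := by
      rw [hv₂, ← hk₁d]; exact hk₁.differentiableAt.hasDerivAt
    have h4 := h3.comp x₂ hf₂.differentiableAt.hasDerivAt
    rw [show (fun z => k₁ (f₂ z)) = k₁ ∘ f₂ from rfl, h4.deriv]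
    exact mul_ne_zero (inv_ne_zero hd₁0) hd₂0
  · have e1 : ∀ᶠ z in 𝓝 x₂, f₁ (k₁ (f₂ z)) = f₂ z := by
      have : Tendsto f₂ (𝓝 x₂) (𝓝 0) := by
        have := hf₂.continuousAt.tendsto
        rwa [hv₂] at this
      exact this.eventually hk₁r
    have e2 : ∀ᶠ z in 𝓝 x₂, wg (c₂ z) b ≠ 0 :=
      (analyticAt_wg h₂ analyticAt_const).continuousAt.eventually_ne hb₂
    have e3 : ∀ᶠ z in 𝓝 x₂, wg (c₁ (k₁ (f₂ z))) b ≠ 0 := by
      have h5 : Tendsto (fun z => k₁ (f₂ z)) (𝓝 x₂) (𝓝 x₁) := by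
        have := hcomp.continuousAt.tendsto
        simp only [hv₂, hk₁x] at this
        exact this
      exact h5.eventually ((analyticAt_wg h₁ analyticAt_const).continuousAt.eventually_ne hab)
    filter_upwards [e1, e2, e3] with z h1 h2 h3
    change wg a (c₁ (k₁ (f₂ z))) / wg (c₁ (k₁ (f₂ z))) b = wg a (c₂ z) / wg (c₂ z) b at h1
    rw [div_eq_div_iff h3 h2] at h1
    -- `wg a p * wg q b = wg a q * wg p b` gives `wg a b * wg p q = 0`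
    have key : ∀ p q : ℂ × ℂ, wg a b * wg p q = wg a q * wg p b - wg a p * wg q b := by
      intro p q; simp only [wg]; ring
    have h6 := key (c₁ (k₁ (f₂ z))) (c₂ z)
    rw [← h1] at h6
    have h7 : wg a b * wg (c₁ (k₁ (f₂ z))) (c₂ z) = 0 := by rw [h6]; ring
    exact (mul_eq_zero.1 h7).resolve_left hab

/-- for parallel curves the difference of the potentials is harmonic -/
theorem harmAt_par {g : ℂ × ℂ → ℝ} (hg : IsPot g) {c₁ c₂ : ℂ → ℂ × ℂ} {x : ℂ}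
    (h₁ : AnalyticAt ℂ c₁ x) (h₂ : AnalyticAt ℂ c₂ x) (n₁ : c₁ x ≠ 0) (n₂ : c₂ x ≠ 0)
    (hp : ∀ᶠ z in 𝓝 x, wg (c₁ z) (c₂ z) = 0) :
    HarmAt (fun z => g (c₁ z) - g (c₂ z)) x := by
  set b := perp (c₂ x) with hb
  have hb₂ : wg (c₂ x) b ≠ 0 := wg_perp_ne n₂
  have hpx : wg (c₁ x) (c₂ x) = 0 := hp.self_of_nhds
  obtain ⟨k, hk⟩ := (wg_eq_zero_iff n₂ (c₁ x)).1 (by rw [wg_swap, hpx, neg_zero])
  have hk0 : k ≠ 0 := by
    rintro rfl; rw [zero_smul] at hk; exact n₁ hk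
  have hb₁ : wg (c₁ x) b ≠ 0 := by
    rw [hk, wg_smul_left]; exact mul_ne_zero hk0 hb₂
  have ha₁ : AnalyticAt ℂ (fun z => wg (c₁ z) b) x := analyticAt_wg h₁ analyticAt_const
  have ha₂ : AnalyticAt ℂ (fun z => wg (c₂ z) b) x := analyticAt_wg h₂ analyticAt_const
  have hr : HarmAt (fun z => Real.log ‖wg (c₁ z) b / wg (c₂ z) b‖) x :=
    harmAt_log (ha₁.div ha₂ hb₂) (div_ne_zero hb₁ hb₂)
  refine hr.congr ?_
  filter_upwards [hp, ha₁.continuousAt.eventually_ne hb₁, ha₂.continuousAt.eventually_ne hb₂]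
    with z h1 h2 h3
  have h2' : wg (c₁ z) b ≠ 0 := h2
  have h3' : wg (c₂ z) b ≠ 0 := h3
  have m₂ : c₂ z ≠ 0 := by
    intro h; rw [h, wg_zero_left] at h3'; exact h3' rfl
  obtain ⟨r, hr⟩ := (wg_eq_zero_iff m₂ (c₁ z)).1 (by rw [wg_swap, h1, neg_zero])
  have hr0 : r ≠ 0 := by
    rintro rfl
    rw [hr, zero_smul, wg_zero_left] at h2'
    exact h2' rfl
  rw [hr, wg_smul_left, mul_div_cancel_right₀ _ h3', hg.smul r _ hr0 m₂]
  ring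

/-- identity theorem for parallel entire curves -/
theorem par_of_eventually {c₁ c₂ : ℂ → ℂ × ℂ} (h₁ : Differentiable ℂ c₁)
    (h₂ : Differentiable ℂ c₂) {x : ℂ} (h : ∀ᶠ z in 𝓝 x, wg (c₁ z) (c₂ z) = 0) (z : ℂ) :
    wg (c₁ z) (c₂ z) = 0 := by
  have ha : AnalyticOnNhd ℂ (fun z => wg (c₁ z) (c₂ z)) Set.univ := fun z _ =>
    analyticAt_wg (h₁.analyticAt z) (h₂.analyticAt z)
  have h0 : AnalyticOnNhd ℂ (fun _ : ℂ => (0 : ℂ)) Set.univ := fun z _ => analyticAt_const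
  exact congrFun (ha.eq_of_eventuallyEq h0 h) z

end Pool.Agent.Work.MP_78b16e_an
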