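import Pool.Agent.Work.MP_78b16e_an.ExcB
import Pool.Agent.Work.MP_78b16e_an.Loc

/-! Lattes maps; conjugacy of rational functions. -/

set_option autoImplicit false

namespace Pool.Agent.Work.MP_78b16e_an

open Polynomial Metric Filter Topology

theorem ratio_eq {v w : ℂ × ℂ} (hv : v ≠ 0) (hw : w ≠ 0) (h : wg v w = 0) :
    v.1 / v.2 = w.1 / w.2 := by
  obtain ⟨c, hc⟩ := (wg_eq_zero_iff hv w).1 h
  have hc0 := ne_zero_of_smul hc hw
  rw [hc]
  show v.1 / v.2 = (c * v.1) / (c * v.2)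
  rw [mul_div_mul_left _ _ hc0]

theorem special_lattes {ψ : ℂ → ℂ × ℂ} (hd : Differentiable ℂ ψ) (hnz : ∀ z, ψ z ≠ 0)
    (himm : wg (ψ 0) (deriv ψ 0) ≠ 0) (F : RatFunc ℂ) {α β : ℂ}
    (hFF : ∀ z, wg (ψ (α * z + β)) (rlift F (ψ z)) = 0) {ω₁ ω₂ : ℂ}
    (hind : LinearIndependent ℝ ![ω₁, ω₂]) (h1 : ∀ z, wg (ψ (z + ω₁)) (ψ z) = 0)
    (h2 : ∀ z, wg (ψ (z + ω₂)) (ψ z) = 0)
    (hm : ∃ m₁ n₁ m₂ n₂ : ℤ, α * ω₁ = (m₁ : ℂ) * ω₁ + (n₁ : ℂ) * ω₂ ∧
      α * ω₂ = (m₂ : ℂ) * ω₁ + (n₂ : ℂ) * ω₂) : Special F := by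
  have hfst : Differentiable ℂ (fun z => (ψ z).1) := fun z => (hd z).fst
  have hsnd : Differentiable ℂ (fun z => (ψ z).2) := fun z => (hd z).snd
  have hder1 : deriv (fun z => (ψ z).1) 0 = (deriv ψ 0).1 := by
    have h3 := (hd 0).hasDerivAt
    exact (((ContinuousLinearMap.fst ℂ ℂ ℂ).hasFDerivAt (x := ψ 0)).comp_hasDerivAt 0 h3).deriv
  have hder2 : deriv (fun z => (ψ z).2) 0 = (deriv ψ 0).2 := by
    have h3 := (hd 0).hasDerivAt
    exact (((ContinuousLinearMap.snd ℂ ℂ ℂ).hasFDerivAt (x := ψ 0)).comp_hasDerivAt 0 h3).deriv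
  have hW : (ψ 0).1 * deriv (fun z => (ψ z).2) 0 - (ψ 0).2 * deriv (fun z => (ψ z).1) 0 ≠ 0 := by
    rw [hder1, hder2]; exact himm
  -- the second coordinate is not identically zero near 0
  have hfreq : ∃ᶠ z in 𝓝 (0 : ℂ), (ψ z).2 ≠ 0 := by
    intro hcon
    have hcon' : ∀ᶠ z in 𝓝 (0 : ℂ), (ψ z).2 = 0 := by
      filter_upwards [hcon] with z hz
      by_contra h3
      exact hz h3
    have h3 : (fun z => (ψ z).2) =ᶠ[𝓝 0] (fun _ => (0 : ℂ)) := hcon'
    have h4 : deriv (fun z => (ψ z).2) 0 = 0 := by rw [h3.deriv_eq]; simp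
    have h5 : (ψ 0).2 = 0 := hcon'.self_of_nhds
    apply hW
    rw [h4, h5]; ring
  have hcontW : Continuous (fun z => (ψ z).1 * deriv (fun z => (ψ z).2) z -
      (ψ z).2 * deriv (fun z => (ψ z).1) z) := by
    have h3 : Continuous (deriv (fun z => (ψ z).2)) :=
      (hsnd.contDiff (n := 1)).continuous_deriv le_rfl
    have h4 : Continuous (deriv (fun z => (ψ z).1)) :=
      (hfst.contDiff (n := 1)).continuous_deriv le_rfl
    exact (hfst.continuous.mul h3).sub (hsnd.continuous.mul h4)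
  obtain ⟨z0, hz0, hz0'⟩ := (hfreq.and_eventually (hcontW.continuousAt.eventually_ne hW)).exists
  refine Or.inl ⟨ω₁, ω₂, α, β, fun z => (ψ z).1 / (ψ z).2, hind, hm, ?_, ?_, ⟨z0, ?_, ?_⟩, ?_⟩
  · intro z _
    exact (hfst.analyticAt z).meromorphicAt.div (hsnd.analyticAt z).meromorphicAt
  · intro z
    exact ⟨ratio_eq (hnz _) (hnz _) (h1 z), ratio_eq (hnz _) (hnz _) (h2 z)⟩
  · exact (hfst z0).div (hsnd z0) hz0
  · rw [deriv_fun_div (hfst z0) (hsnd z0) hz0]
    apply div_ne_zero _ (pow_ne_zero _ hz0)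
    intro h3
    apply hz0'
    show (ψ z0).1 * deriv (fun z => (ψ z).2) z0 - (ψ z0).2 * deriv (fun z => (ψ z).1) z0 = 0
    linear_combination -h3
  · have han : AnalyticOnNhd ℂ (fun z => (ψ z).2) Set.univ := fun z _ => hsnd.analyticAt z
    have hcod : (fun z => (ψ z).2) ⁻¹' {0}ᶜ ∈ codiscrete ℂ :=
      han.preimage_zero_mem_codiscrete (x := z0) hz0
    filter_upwards [hcod] with z hz
    have hz' : (ψ z).2 ≠ 0 := hz
    have h3 : ψ z = (ψ z).2 • ((ψ z).1 / (ψ z).2, (1 : ℂ)) := by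
      ext
      · show (ψ z).1 = (ψ z).2 * ((ψ z).1 / (ψ z).2)
        field_simp
      · show (ψ z).2 = (ψ z).2 * 1
        rw [mul_one]
    have hL := rlift_isLift F
    have h4 := ratio_eq (hnz _) (hL.nz _ (hnz z)) (hFF z)
    show RatFunc.eval (RingHom.id ℂ) ((ψ z).1 / (ψ z).2) F = (ψ (α * z + β)).1 / (ψ (α * z + β)).2
    rw [h4]
    have h5 : rlift F (ψ z) = (ψ z).2 ^ (rdeg F) • rlift F ((ψ z).1 / (ψ z).2, 1) := by
      conv_lhs => rw [h3]
      rw [hL.hom]
    rw [h5, rlift_affine]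
    show _ = ((ψ z).2 ^ rdeg F * _) / ((ψ z).2 ^ rdeg F * _)
    rw [mul_div_mul_left _ _ (pow_ne_zero _ hz')]
    rfl

theorem finite_affine {α β : ℂ} (h : ¬ (α = 0 ∧ β = 0)) : {z : ℂ | z * α = β}.Finite := by
  by_cases hα : α = 0
  · have hβ : β ≠ 0 := fun h0 => h ⟨hα, h0⟩
    have : {z : ℂ | z * α = β} = ∅ := by
      ext z
      simp [hα, hβ.symm]
    rw [this]
    exact Set.finite_empty
  · apply Set.Finite.subset (Set.finite_singleton (β / α))
    intro z hz
    have hz' : z * α = β := hz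
    show z = β / α
    rw [eq_div_iff hα, hz']

theorem conj_of_affine {F f : RatFunc ℂ} (hF : 1 ≤ rdeg F) {a b : ℂ × ℂ} (hab : wg a b ≠ 0)
    {T : Set ℂ} (hT : T.Finite)
    (h : ∀ x, x ∉ T → wg (rlift F (x • a + b))
      ((rlift f (x, 1)).1 • a + (rlift f (x, 1)).2 • b) = 0) :
    ∃ μ : RatFunc ℂ, rdeg μ = 1 ∧ rcomp μ F = rcomp f μ := by
  have ha : a ≠ 0 := by rintro rfl; exact hab (wg_zero_left _)
  have hL' : IsLift 1 (fun v => (wg v b, wg a v)) := by
    constructor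
    · refine ⟨C b.2 * X - C b.1, C a.1 - C a.2 * X, fun v => ?_⟩
      ext
      · simp [hform, wg, Finset.sum_range_succ]; ring
      · simp [hform, wg, Finset.sum_range_succ]; ring
    · intro v hv h0
      have h1 : wg v b = 0 := congrArg Prod.fst h0
      have h2 : wg a v = 0 := congrArg Prod.snd h0
      exact hab (wg_trans hv h2 h1)
  obtain ⟨μ, hμ, c, hc, hμL⟩ := exists_ratFunc (le_refl 1) hL'
  refine ⟨μ, hμ, ?_⟩
  have hLF := rlift_isLift F
  have hLf := rlift_isLift f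
  obtain ⟨c1, -, h1⟩ := rlift_rcomp μ F hF
  obtain ⟨c2, -, h2⟩ := rlift_rcomp f μ (by omega)
  apply eq_of_infinite
  have hfin : ({z : ℂ | z * a.2 = a.1} ∪
      ⋃ t ∈ T, {z : ℂ | z * (b.2 + t * a.2) = b.1 + t * a.1}).Finite := by
    apply Set.Finite.union
    · apply finite_affine
      rintro ⟨h3, h4⟩
      exact ha (Prod.ext h4 h3)
    · apply hT.biUnion
      intro t _
      apply finite_affine
      rintro ⟨h3, h4⟩
      apply hab
      have hb : b = (-t) • a := by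
        ext
        · show b.1 = -t * a.1
          linear_combination h4
        · show b.2 = -t * a.2
          linear_combination h3
      rw [hb, wg_smul_right, wg_self, mul_zero]
  apply Set.Infinite.mono _ hfin.infinite_compl
  intro z hz
  simp only [Set.mem_compl_iff, Set.mem_union, Set.mem_ofPred_eq, Set.mem_iUnion, not_or,
    not_exists] at hz
  obtain ⟨hz1, hz2⟩ := hz
  show wg (rlift (rcomp μ F) (z, 1)) (rlift (rcomp f μ) (z, 1)) = 0
  set v : ℂ × ℂ := (z, 1) with hv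
  set Y : ℂ := wg a v with hY
  set X' : ℂ := wg v b with hX
  have hY0 : Y ≠ 0 := by
    intro h0
    apply hz1
    have h3 : a.1 * 1 - a.2 * z = 0 := h0
    linear_combination -h3
  set x : ℂ := X' / Y with hx
  have hxT : x ∉ T := by
    intro hxT
    apply hz2 x hxT
    have h3 : X' = x * Y := by rw [hx]; field_simp
    have h4 : X' = z * b.2 - 1 * b.1 := rfl
    have h5 : Y = a.1 * 1 - a.2 * z := rfl
    linear_combination h3 - h4 + x * h5
  have hdec : v = (Y / wg a b) • (x • a + b) := by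
    have h3 := wg_decomp a b v
    have h4 : v = (wg a b)⁻¹ • (X' • a + Y • b) := by
      rw [← h3, smul_smul, inv_mul_cancel₀ hab, one_smul]
    conv_lhs => rw [h4]
    rw [smul_add, smul_add, smul_smul, smul_smul, smul_smul]
    congr 2
    · rw [hx]; field_simp
    · field_simp
  have hw : wg (rlift F v) ((rlift f (x, 1)).1 • a + (rlift f (x, 1)).2 • b) = 0 := by
    rw [hdec, hLF.hom, wg_smul_left, h x hxT, mul_zero]
  have hr : rlift f (X', Y) = Y ^ (rdeg f) • rlift f (x, 1) := by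
    have h3 : ((X', Y) : ℂ × ℂ) = Y • (x, (1 : ℂ)) := by
      ext
      · show X' = Y * x
        rw [hx]; field_simp
      · show Y = Y * 1
        rw [mul_one]
    rw [h3, hLf.hom]
  have hkey : wg (wg (rlift F v) b, wg a (rlift F v)) (rlift f (x, 1)) = 0 := by
    rw [wg_add_right, wg_smul_right, wg_smul_right] at hw
    have h3 : wg (wg (rlift F v) b, wg a (rlift F v)) (rlift f (x, 1)) =
      wg (rlift F v) b * (rlift f (x, 1)).2 - wg a (rlift F v) * (rlift f (x, 1)).1 := rfl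
    rw [h3, wg_swap a]
    linear_combination hw
  rw [h1, h2, wg_smul_left, wg_smul_right, hμL, hμL]
  have h4 : rlift f (c • (wg v b, wg a v)) = c ^ (rdeg f) • rlift f (X', Y) := hLf.hom _ _
  rw [h4, hr, wg_smul_left, wg_smul_right, wg_smul_right, hkey]
  ring

end Pool.Agent.Work.MP_78b16e_an
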