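import Pool.Agent.Work.MP_78b16e_an.Loc

/-! The behaviour of a periodic Poincare function at the ends of the cylinder. -/

set_option autoImplicit false

namespace Pool.Agent.Work.MP_78b16e_an

open Metric Filter Topology Complex

variable {g : ℂ × ℂ → ℝ} {D : ℕ} {B : ℂ × ℂ → ℂ × ℂ} {lam : ℂ} {ψ : ℂ → ℂ × ℂ} {p : ℂ → ℂ}

theorem Lin.push (hL : Lin g D B lam ψ p) {x y : ℂ} (h : wg (ψ x) (ψ y) = 0) :
    wg (ψ (lam * x)) (ψ (lam * y)) = 0 := by
  have h1 := hL.dyn.lift.par (hL.nz x) h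
  rw [hL.eqn, hL.eqn, wg_smul_left, wg_smul_right] at h1
  rcases mul_eq_zero.1 h1 with h2 | h2
  · exact absurd h2 (exp_ne_zero _)
  · rcases mul_eq_zero.1 h2 with h3 | h3
    · exact absurd h3 (exp_ne_zero _)
    · exact h3

theorem norm_sub_I_lt_iff (z : ℂ) : ‖z - I‖ < ‖z + I‖ ↔ 0 < z.im := by
  have h1 : ‖z - I‖ ^ 2 = z.re ^ 2 + (z.im - 1) ^ 2 := by
    rw [Complex.sq_norm, normSq_apply]; simp; ring
  have h2 : ‖z + I‖ ^ 2 = z.re ^ 2 + (z.im + 1) ^ 2 := by
    rw [Complex.sq_norm, normSq_apply]; simp; ring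
  constructor
  · intro h
    have h3 : ‖z - I‖ ^ 2 < ‖z + I‖ ^ 2 := by
      apply pow_lt_pow_left₀ h (norm_nonneg _) (by norm_num)
    nlinarith
  · intro h
    apply lt_of_pow_lt_pow_left₀ 2 (norm_nonneg _)
    nlinarith

/-- gluing of a harmonic function on the upper half plane -/
theorem exists_half_plane {u : ℂ → ℝ} (hu : ∀ z : ℂ, 0 < z.im → HarmAt u z) :
    ∃ e : ℂ → ℂ, DifferentiableOn ℂ e {z | 0 < z.im} ∧ ∀ z : ℂ, 0 < z.im → u z = (e z).re := by
  set φ : ℂ → ℂ := fun w => I * (1 + w) / (1 - w) with hφ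
  have h1w : ∀ w ∈ ball (0 : ℂ) 1, 1 - w ≠ 0 := by
    intro w hw h0
    have h1 : w = 1 := by linear_combination -h0
    rw [h1, mem_ball_zero_iff, norm_one] at hw
    exact lt_irrefl _ hw
  have him : ∀ w ∈ ball (0 : ℂ) 1, 0 < (φ w).im := by
    intro w hw
    rw [← norm_sub_I_lt_iff]
    have hw0 := h1w w hw
    have h1 : φ w - I = I * 2 * w / (1 - w) := by
      rw [hφ]; field_simp; ring
    have h2 : φ w + I = I * 2 / (1 - w) := by
      rw [hφ]; field_simp; ring
    rw [h1, h2, norm_div, norm_div, norm_mul (I * 2) w]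
    apply div_lt_div_of_pos_right _ (norm_pos_iff.2 hw0)
    rw [mem_ball_zero_iff] at hw
    have h3 : 0 < ‖I * 2‖ := by simp
    nlinarith
  have hharm : HarmOn (fun w => u (φ w)) (ball 0 1) := by
    intro w hw
    apply HarmAt.comp (hu _ (him w hw))
    have hw0 := h1w w hw
    have h1 : AnalyticAt ℂ (fun w : ℂ => I * (1 + w)) w := by fun_prop
    have h2 : AnalyticAt ℂ (fun w : ℂ => 1 - w) w := by fun_prop
    exact h1.div h2 hw0
  obtain ⟨e0, he0, he0'⟩ := hharm.exists_ball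
  have hzI : ∀ z : ℂ, 0 < z.im → z + I ≠ 0 := by
    intro z hz h0
    have h1 : z.im + 1 = 0 := by
      have := congrArg Complex.im h0
      simpa using this
    linarith
  have hmem : ∀ z : ℂ, 0 < z.im → (z - I) / (z + I) ∈ ball (0 : ℂ) 1 := by
    intro z hz
    rw [mem_ball_zero_iff, norm_div, div_lt_one (norm_pos_iff.2 (hzI z hz))]
    exact (norm_sub_I_lt_iff z).2 hz
  refine ⟨fun z => e0 ((z - I) / (z + I)), ?_, ?_⟩
  · have h1 : DifferentiableOn ℂ (fun z : ℂ => (z - I) / (z + I)) {z | 0 < z.im} := by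
      apply DifferentiableOn.div (by fun_prop) (by fun_prop)
      intro z hz
      exact hzI z hz
    exact he0.comp h1 (fun z hz => hmem z hz)
  · intro z hz
    have h1 := he0' _ (hmem z hz)
    have h2 : φ ((z - I) / (z + I)) = z := by
      have h3 := hzI z hz
      have h4 : (1 : ℂ) - (z - I) / (z + I) = 2 * I / (z + I) := by field_simp; ring
      have h5 : (1 : ℂ) + (z - I) / (z + I) = 2 * z / (z + I) := by field_simp; ring
      rw [hφ]
      show I * (1 + (z - I) / (z + I)) / (1 - (z - I) / (z + I)) = z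
      rw [h4, h5]
      field_simp
    simp only [h2] at h1
    exact h1

theorem im_atTop_basis {P : ℂ → Prop} :
    (∀ᶠ z in comap im atTop, P z) ↔ ∃ M : ℝ, ∀ z : ℂ, M ≤ z.im → P z := by
  rw [eventually_comap]
  constructor
  · intro h
    obtain ⟨M, hM⟩ := eventually_atTop.1 h
    exact ⟨M, fun z hz => hM z.im hz z rfl⟩
  · rintro ⟨M, hM⟩
    rw [eventually_atTop]
    exact ⟨M, fun b hb z hz => hM z (by rw [hz]; exact hb)⟩

theorem im_atTop_neBot : (comap im atTop : Filter ℂ).NeBot := by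
  apply comap_neBot
  intro t ht
  obtain ⟨M, hM⟩ := mem_atTop_sets.1 ht
  exact ⟨M * I, by simpa using hM M le_rfl⟩

/-- the normalised lift converges at the upper end -/
theorem upper_limit (hL : Lin g D B lam ψ p) (hper : ∀ z, wg (ψ (z + 1)) (ψ z) = 0)
    (hharm : ∀ z : ℂ, 0 < z.im → HarmAt (fun y => g (ψ y)) z) :
    ∃ (e : ℂ → ℂ) (V : ℂ × ℂ), V ≠ 0 ∧
      Tendsto (fun z => exp (-(e z)) • ψ z) (comap im atTop) (𝓝 V) := by
  obtain ⟨e, he, he'⟩ := exists_half_plane hharm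
  obtain ⟨C, hC0, hC⟩ := hL.dyn.pot.bdd
  set Ψ : ℂ → ℂ × ℂ := fun z => exp (-(e z)) • ψ z with hΨ
  have hΨnz : ∀ z, Ψ z ≠ 0 := fun z => smul_ne_zero (exp_ne_zero _) (hL.nz z)
  have hΨg : ∀ z : ℂ, 0 < z.im → g (Ψ z) = 0 := by
    intro z hz
    show g (exp (-(e z)) • ψ z) = 0
    rw [hL.dyn.pot.smul _ _ (exp_ne_zero _) (hL.nz z), he' z hz, norm_exp, Real.log_exp]
    simp
  have hΨlow : ∀ z : ℂ, 0 < z.im → Real.exp (-C) ≤ ‖Ψ z‖ := by
    intro z hz
    have h1 := abs_le.1 (hC (Ψ z) (hΨnz z))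
    rw [hΨg z hz] at h1
    rw [← Real.le_log_iff_exp_le (norm_pos_iff.2 (hΨnz z))]
    linarith [h1.2]
  have hΨup : ∀ z : ℂ, 0 < z.im → ‖Ψ z‖ ≤ Real.exp C := by
    intro z hz
    have h1 := abs_le.1 (hC (Ψ z) (hΨnz z))
    rw [hΨg z hz] at h1
    rw [← Real.log_le_iff_le_exp (norm_pos_iff.2 (hΨnz z))]
    linarith [h1.1]
  have hopen : IsOpen {z : ℂ | 0 < z.im} := isOpen_lt continuous_const continuous_im
  have hΨd : ∀ z : ℂ, 0 < z.im → DifferentiableAt ℂ Ψ z := by
    intro z hz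
    have h1 : DifferentiableAt ℂ e z := (he z hz).differentiableAt (hopen.mem_nhds hz)
    exact (h1.neg.cexp).smul (hL.diff z)
  have him1 : ∀ z : ℂ, (z + 1).im = z.im := by intro z; simp
  -- the multiplier
  have hχ : ∀ z, ∃ c : ℂ, Ψ (z + 1) = c • Ψ z := by
    intro z
    apply (wg_eq_zero_iff (hΨnz z) (Ψ (z + 1))).1
    show wg (exp (-(e z)) • ψ z) (exp (-(e (z + 1))) • ψ (z + 1)) = 0
    rw [wg_smul_left, wg_smul_right, wg_swap, hper]
    ring
  choose χ hχ using hχ
  have hχ1 : ∀ z : ℂ, 0 < z.im → ‖χ z‖ = 1 := by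
    intro z hz
    have hc0 : χ z ≠ 0 := by
      intro h0
      have h1 := hχ z
      rw [h0, zero_smul] at h1
      exact hΨnz _ h1
    have h1 := hΨg (z + 1) (by rw [him1]; exact hz)
    rw [hχ z, hL.dyn.pot.smul _ _ hc0 (hΨnz z), hΨg z hz, add_zero] at h1
    have h2 := Real.exp_log (norm_pos_iff.2 hc0)
    rw [h1, Real.exp_zero] at h2
    exact h2.symm
  have hχd : DifferentiableOn ℂ χ {z | 0 < z.im} := by
    intro z hz
    apply DifferentiableAt.differentiableWithinAt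
    set b := perp (Ψ z) with hb
    have hb0 : wg (Ψ z) b ≠ 0 := wg_perp_ne (hΨnz z)
    have hz1 : (0 : ℝ) < (z + 1).im := by rw [him1]; exact hz
    have d1 : DifferentiableAt ℂ (fun y => wg (Ψ y) b) z :=
      (hasDerivAt_wg (hΨd z hz).hasDerivAt (hasDerivAt_const z b)).differentiableAt
    have d2 : DifferentiableAt ℂ (fun y => wg (Ψ (y + 1)) b) z := by
      have h1 : DifferentiableAt ℂ (fun y => Ψ (y + 1)) z := by
        have h2 := hΨd (z + 1) hz1
        exact h2.comp z (by fun_prop : DifferentiableAt ℂ (fun y : ℂ => y + 1) z)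
      exact (hasDerivAt_wg h1.hasDerivAt (hasDerivAt_const z b)).differentiableAt
    have h3 : (fun y => wg (Ψ (y + 1)) b / wg (Ψ y) b) =ᶠ[𝓝 z] χ := by
      filter_upwards [d1.continuousAt.eventually_ne hb0] with y hy
      rw [hχ y, wg_smul_left, mul_div_cancel_right₀ _ hy]
    exact (d2.div d1 hb0).congr_of_eventuallyEq h3.symm
  have hIpos : (I : ℂ) ∈ {z : ℂ | 0 < z.im} := by show (0 : ℝ) < I.im; simp
  have hχc : ∀ z : ℂ, 0 < z.im → χ z = χ I := by
    intro z hz
    have h1 := eqOn_of_isPreconnected_of_isMaxOn_norm (convex_halfSpace_im_gt 0).isPreconnected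
      hopen hχd hIpos (by
        intro y hy
        show ‖χ y‖ ≤ ‖χ I‖
        rw [hχ1 y hy, hχ1 I hIpos])
    exact h1 hz
  -- the angle
  obtain ⟨θ, hθ0, hθ1, hθ⟩ : ∃ θ : ℝ, 0 ≤ θ ∧ θ < 2 * Real.pi ∧ exp (θ * I) = χ I := by
    have h1 : exp (arg (χ I) * I) = χ I := by
      have h2 := norm_mul_exp_arg_mul_I (χ I)
      rw [hχ1 I hIpos] at h2
      simpa using h2
    by_cases ha : 0 ≤ arg (χ I)
    · exact ⟨arg (χ I), ha, by linarith [arg_le_pi (χ I), Real.pi_pos], h1⟩
    · refine ⟨arg (χ I) + 2 * Real.pi, by linarith [neg_pi_lt_arg (χ I), Real.pi_pos],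
        by linarith, ?_⟩
      push_cast
      rw [add_mul, exp_add, h1, exp_two_pi_mul_I, mul_one]
  have hstep : ∀ z : ℂ, 0 < z.im → Ψ (z + 1) = exp (θ * I) • Ψ z := by
    intro z hz
    rw [hχ z, hχc z hz, hθ]
  -- a general periodic function
  have hgen : ∀ (s : ℂ) (ℓ : ℂ × ℂ →L[ℂ] ℂ), exp (s * I) * exp (θ * I) = 1 →
      Function.Periodic (fun z : ℂ => if 0 < z.im then exp (s * I * z) * ℓ (Ψ z) else 0)
        ((1 : ℝ) : ℂ) ∧
      ∀ᶠ z in comap im atTop, DifferentiableAt ℂ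
        (fun z : ℂ => if 0 < z.im then exp (s * I * z) * ℓ (Ψ z) else 0) z := by
    intro s ℓ hs
    constructor
    · intro z
      simp only [ofReal_one, him1]
      by_cases hz : 0 < z.im
      · rw [if_pos hz, if_pos hz, hstep z hz, mul_add, mul_one, exp_add, map_smul, smul_eq_mul]
        linear_combination (exp (s * I * z) * ℓ (Ψ z)) * hs
      · rw [if_neg hz, if_neg hz]
    · rw [im_atTop_basis]
      refine ⟨1, fun z hz => ?_⟩
      have hz' : 0 < z.im := by linarith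
      have h1 : DifferentiableAt ℂ (fun z => exp (s * I * z) * ℓ (Ψ z)) z := by
        have h2 : DifferentiableAt ℂ (fun z => ℓ (Ψ z)) z :=
          ℓ.differentiableAt.comp z (hΨd z hz')
        have h3 : DifferentiableAt ℂ (fun z => exp (s * I * z)) z := by fun_prop
        exact h3.mul h2
      apply h1.congr_of_eventuallyEq
      filter_upwards [hopen.mem_nhds hz'] with y hy
      rw [if_pos hy]
  have hnormexp : ∀ (s : ℝ) (z : ℂ), ‖exp ((s : ℂ) * I * z)‖ = Real.exp (-(s * z.im)) := by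
    intro s z
    rw [norm_exp]
    congr 1
    simp
  -- the angle is zero
  have hθz : θ = 0 := by
    by_contra hne
    have hθpos : 0 < θ := lt_of_le_of_ne hθ0 (Ne.symm hne)
    have hs : exp (((2 * Real.pi - θ : ℝ) : ℂ) * I) * exp (θ * I) = 1 := by
      rw [← exp_add]
      push_cast
      rw [sub_mul, sub_add_cancel, exp_two_pi_mul_I]
    have hdec : ∀ ℓ : ℂ × ℂ →L[ℂ] ℂ, ‖ℓ‖ ≤ 1 → ∃ K M : ℝ, ∀ z : ℂ, M ≤ z.im → 0 < z.im →
        ‖exp (((2 * Real.pi - θ : ℝ) : ℂ) * I * z) * ℓ (Ψ z)‖ ≤ K * Real.exp (-2 * Real.pi * z.im) := by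
      intro ℓ hℓ
      obtain ⟨h1, h2⟩ := hgen _ ℓ hs
      have hzero : (comap im atTop).ZeroAtFilter
          (fun z : ℂ => if 0 < z.im then exp (((2 * Real.pi - θ : ℝ) : ℂ) * I * z) * ℓ (Ψ z)
            else 0) := by
        show Tendsto _ _ _
        have hlim : Tendsto (fun z : ℂ => Real.exp (-((2 * Real.pi - θ) * z.im)) * Real.exp C)
            (comap im atTop) (𝓝 0) := by
          have h3 : Tendsto (fun y : ℝ => Real.exp (-((2 * Real.pi - θ) * y)) * Real.exp C)
              atTop (𝓝 0) := by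
            have h4 : Tendsto (fun y : ℝ => (2 * Real.pi - θ) * y) atTop atTop :=
              tendsto_id.const_mul_atTop (by linarith)
            have h5 := (Real.tendsto_exp_neg_atTop_nhds_zero.comp h4).mul_const (Real.exp C)
            simpa using h5
          exact h3.comp tendsto_comap
        apply squeeze_zero_norm' _ hlim
        rw [im_atTop_basis]
        refine ⟨1, fun z hz => ?_⟩
        have hz' : 0 < z.im := by linarith
        rw [if_pos hz', norm_mul, hnormexp]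
        apply mul_le_mul_of_nonneg_left _ (Real.exp_pos _).le
        calc ‖ℓ (Ψ z)‖ ≤ ‖ℓ‖ * ‖Ψ z‖ := ℓ.le_opNorm _
          _ ≤ 1 * ‖Ψ z‖ := mul_le_mul_of_nonneg_right hℓ (norm_nonneg _)
          _ ≤ Real.exp C := by rw [one_mul]; exact hΨup z hz'
      have h3 := Function.Periodic.exp_decay_of_zero_at_inf one_pos h1 h2 hzero
      obtain ⟨K, hK⟩ := h3.bound
      rw [im_atTop_basis] at hK
      obtain ⟨M, hM⟩ := hK
      refine ⟨K, M, fun z hz hz' => ?_⟩
      have h4 := hM z hz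
      rw [if_pos hz', Real.norm_eq_abs, Real.abs_exp, div_one] at h4
      exact h4
    obtain ⟨K1, M1, hK1⟩ := hdec (ContinuousLinearMap.fst ℂ ℂ ℂ)
      (ContinuousLinearMap.norm_fst_le ℂ ℂ ℂ)
    obtain ⟨K2, M2, hK2⟩ := hdec (ContinuousLinearMap.snd ℂ ℂ ℂ)
      (ContinuousLinearMap.norm_snd_le ℂ ℂ ℂ)
    have hb : ∀ y : ℝ, max (max M1 M2) 1 ≤ y →
        Real.exp (θ * y) ≤ max K1 K2 * Real.exp C := by
      intro y hy
      have hy1 : M1 ≤ y := (le_max_left _ _).trans ((le_max_left _ _).trans hy)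
      have hy2 : M2 ≤ y := (le_max_right _ _).trans ((le_max_left _ _).trans hy)
      have hy0 : 0 < y := by linarith [(le_max_right (max M1 M2) 1).trans hy]
      have him : ((y : ℂ) * I).im = y := by simp
      have h1 := hK1 (y * I) (by rw [him]; exact hy1) (by rw [him]; exact hy0)
      have h2 := hK2 (y * I) (by rw [him]; exact hy2) (by rw [him]; exact hy0)
      rw [norm_mul, hnormexp, him] at h1 h2
      have hlow := hΨlow (y * I) (by rw [him]; exact hy0)
      set E := Real.exp (-((2 * Real.pi - θ) * y)) with hE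
      have hEpos : 0 < E := Real.exp_pos _
      have h3 : E * ‖Ψ (y * I)‖ ≤ max K1 K2 * Real.exp (-2 * Real.pi * y) := by
        rw [Prod.norm_def, mul_max_of_nonneg _ _ hEpos.le]
        apply max_le
        · exact h1.trans (mul_le_mul_of_nonneg_right (le_max_left _ _) (Real.exp_pos _).le)
        · exact h2.trans (mul_le_mul_of_nonneg_right (le_max_right _ _) (Real.exp_pos _).le)
      have h4 : E * Real.exp (-C) ≤ max K1 K2 * Real.exp (-2 * Real.pi * y) :=
        (mul_le_mul_of_nonneg_left hlow hEpos.le).trans h3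
      have h5 : Real.exp (θ * y) = (E * Real.exp (-C)) * (Real.exp C * Real.exp (2 * Real.pi * y)) := by
        rw [hE, ← Real.exp_add, ← Real.exp_add, ← Real.exp_add]
        congr 1
        ring
      rw [h5]
      calc (E * Real.exp (-C)) * (Real.exp C * Real.exp (2 * Real.pi * y))
          ≤ (max K1 K2 * Real.exp (-2 * Real.pi * y)) * (Real.exp C * Real.exp (2 * Real.pi * y)) :=
            mul_le_mul_of_nonneg_right h4 (by positivity)
        _ = max K1 K2 * Real.exp C * (Real.exp (-2 * Real.pi * y) * Real.exp (2 * Real.pi * y)) := by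
            ring
        _ = max K1 K2 * Real.exp C := by
            rw [← Real.exp_add]
            have : -2 * Real.pi * y + 2 * Real.pi * y = 0 := by ring
            rw [this, Real.exp_zero, mul_one]
    have htop : Tendsto (fun y : ℝ => Real.exp (θ * y)) atTop atTop :=
      Real.tendsto_exp_atTop.comp (tendsto_id.const_mul_atTop hθpos)
    obtain ⟨y, hy1, hy2⟩ := ((tendsto_atTop.1 htop (max K1 K2 * Real.exp C + 1)).and
      (eventually_ge_atTop (max (max M1 M2) 1))).exists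
    linarith [hb y hy2]
  -- convergence of the components
  have hconv : ∀ ℓ : ℂ × ℂ →L[ℂ] ℂ, ‖ℓ‖ ≤ 1 → ∃ V : ℂ, Tendsto (fun z => ℓ (Ψ z)) (comap im atTop)
      (𝓝 V) := by
    intro ℓ hℓ
    obtain ⟨h1, h2⟩ := hgen 0 ℓ (by rw [hθz]; simp)
    have hbd : (comap im atTop).BoundedAtFilter
        (fun z : ℂ => if 0 < z.im then exp (0 * I * z) * ℓ (Ψ z) else 0) := by
      show _ =O[_] _
      apply Asymptotics.IsBigO.of_bound (Real.exp C)
      rw [im_atTop_basis]
      refine ⟨1, fun z hz => ?_⟩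
      have hz' : 0 < z.im := by linarith
      rw [if_pos hz']
      simp only [zero_mul, exp_zero, one_mul, Pi.one_apply, norm_one, mul_one]
      calc ‖ℓ (Ψ z)‖ ≤ ‖ℓ‖ * ‖Ψ z‖ := ℓ.le_opNorm _
        _ ≤ 1 * ‖Ψ z‖ := mul_le_mul_of_nonneg_right hℓ (norm_nonneg _)
        _ ≤ Real.exp C := by rw [one_mul]; exact hΨup z hz'
    have h3 := Function.Periodic.tendsto_at_I_inf one_pos h1 h2 hbd
    refine ⟨_, h3.congr' ?_⟩
    rw [EventuallyEq, im_atTop_basis]
    refine ⟨1, fun z hz => ?_⟩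
    have hz' : 0 < z.im := by linarith
    rw [if_pos hz']
    simp
  obtain ⟨V1, hV1⟩ := hconv (ContinuousLinearMap.fst ℂ ℂ ℂ) (ContinuousLinearMap.norm_fst_le ℂ ℂ ℂ)
  obtain ⟨V2, hV2⟩ := hconv (ContinuousLinearMap.snd ℂ ℂ ℂ) (ContinuousLinearMap.norm_snd_le ℂ ℂ ℂ)
  have hV : Tendsto Ψ (comap im atTop) (𝓝 (V1, V2)) := hV1.prodMk_nhds hV2
  refine ⟨e, (V1, V2), ?_, hV⟩
  have := im_atTop_neBot
  have hn : Real.exp (-C) ≤ ‖((V1, V2) : ℂ × ℂ)‖ := by
    apply ge_of_tendsto hV.norm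
    rw [im_atTop_basis]
    exact ⟨1, fun z hz => hΨlow z (by linarith)⟩
  intro h0
  rw [h0, norm_zero] at hn
  exact absurd hn (not_le.2 (Real.exp_pos _))

end Pool.Agent.Work.MP_78b16e_an
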