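import Pool.Agent.Work.MP_78b16e_an.ClassC

/-! The limit at the end of the cylinder is not the repelling fixed point. -/

set_option autoImplicit false

namespace Pool.Agent.Work.MP_78b16e_an

open Metric Filter Topology Complex

variable {g : ℂ × ℂ → ℝ} {D : ℕ} {B : ℂ × ℂ → ℂ × ℂ} {lam : ℂ} {ψ : ℂ → ℂ × ℂ} {p : ℂ → ℂ}

theorem coord_par {a b v w : ℂ × ℂ} (hv : v ≠ 0) (hw : w ≠ 0) (h : wg v w = 0) :
    wg a v / wg v b = wg a w / wg w b := by
  obtain ⟨c, hc⟩ := (wg_eq_zero_iff hv w).1 h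
  have hc0 : c ≠ 0 := by
    rintro rfl
    exact hw (by rw [hc, zero_smul])
  rw [hc, wg_smul_left, wg_smul_right, mul_div_mul_left _ _ hc0]

theorem par_of_coord {a b v w : ℂ × ℂ} (hab : wg a b ≠ 0) (hv : wg v b ≠ 0) (hw : wg w b ≠ 0)
    (h : wg a v / wg v b = wg a w / wg w b) : wg v w = 0 := by
  rw [div_eq_div_iff hv hw] at h
  have key : wg a b * wg v w = wg a w * wg v b - wg a v * wg w b := by
    simp only [wg]; ring
  rw [← h] at key
  have h7 : wg a b * wg v w = 0 := by rw [key]; ring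
  exact (mul_eq_zero.1 h7).resolve_left hab

theorem Lin.not_const (hL : Lin g D B lam ψ p) {x : ℂ}
    (h : ∀ᶠ z in 𝓝 x, wg (ψ 0) (ψ z) = 0) : False := by
  have h1 := par_of_eventually (differentiable_const (ψ 0)) hL.diff h
  have h2 := hasDerivAt_wg (hasDerivAt_const (0 : ℂ) (ψ 0)) (hL.diff 0).hasDerivAt
  have h3 : (fun z => wg (ψ 0) (ψ z)) = fun _ => (0 : ℂ) := funext h1
  rw [h3] at h2
  have h4 := h2.unique (hasDerivAt_const (0 : ℂ) (0 : ℂ))
  rw [wg_zero_left, zero_add] at h4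
  exact hL.imm h4

theorem upper_end (hL : Lin g D B lam ψ p) (hk : ∃ k : ℤ, lam = k)
    (hper : ∀ z, wg (ψ (z + 1)) (ψ z) = 0)
    (hharm : ∀ z : ℂ, 0 < z.im → HarmAt (fun y => g (ψ y)) z) :
    ∃ M K : ℝ, ∀ z : ℂ, M ≤ z.im → ‖wg (perp (ψ 0)) (ψ z)‖ ≤ K * ‖wg (ψ 0) (ψ z)‖ := by
  obtain ⟨e, V, hV0, hV⟩ := upper_limit hL hper hharm
  obtain ⟨k, hk⟩ := hk
  set a := ψ 0 with ha
  set b := perp a with hb
  have hab : wg a b ≠ 0 := wg_perp_ne (hL.nz 0)
  have hVa : Tendsto (fun z => wg a (exp (-(e z)) • ψ z)) (comap im atTop) (𝓝 (wg a V)) := by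
    have hc : Continuous (fun v : ℂ × ℂ => wg a v) := by unfold wg; fun_prop
    exact (hc.tendsto V).comp hV
  have hVb : Tendsto (fun z => wg (exp (-(e z)) • ψ z) b) (comap im atTop) (𝓝 (wg V b)) := by
    have hc : Continuous (fun v : ℂ × ℂ => wg v b) := by unfold wg; fun_prop
    exact (hc.tendsto V).comp hV
  have hne : wg a V ≠ 0 := by
    intro hcon
    have hVb0 : wg V b ≠ 0 := fun h0 => hab (wg_trans hV0 hcon h0)
    set f : ℂ → ℂ := fun z => wg a (ψ z) / wg (ψ z) b with hf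
    have hflim : Tendsto f (comap im atTop) (𝓝 0) := by
      have h1 := hVa.div hVb hVb0
      rw [hcon, zero_div] at h1
      refine h1.congr fun z => ?_
      show wg a (exp (-(e z)) • ψ z) / wg (exp (-(e z)) • ψ z) b = wg a (ψ z) / wg (ψ z) b
      rw [wg_smul_left, wg_smul_right, mul_div_mul_left _ _ (exp_ne_zero _)]
    have han : AnalyticAt ℂ ψ 0 := hL.diff.analyticAt 0
    have hb0 : wg (ψ 0) b ≠ 0 := hab
    have hfan : AnalyticAt ℂ f 0 :=
      (analyticAt_wg analyticAt_const han).div (analyticAt_wg han analyticAt_const) hb0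
    have hf0 : f 0 = 0 := by
      show wg a (ψ 0) / wg (ψ 0) b = 0
      rw [← ha, wg_self, zero_div]
    have hfd : deriv f 0 ≠ 0 := by
      rw [(coord_deriv (hL.diff 0) (by rw [← ha, wg_self]) hb0).deriv]
      exact div_ne_zero hL.imm hb0
    obtain ⟨kk, hkk, hkk0, -, hkr, hkl⟩ := exists_local_inverse hfan hfd
    rw [hf0] at hkk hkk0 hkr
    have hζ : Tendsto (fun z => kk (f z)) (comap im atTop) (𝓝 0) := by
      have h1 : Tendsto kk (𝓝 0) (𝓝 0) := by
        have := hkk.continuousAt.tendsto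
        rwa [hkk0] at this
      exact h1.comp hflim
    -- eventual properties
    have E1 : ∀ᶠ z in comap im atTop, wg (ψ z) b ≠ 0 := by
      filter_upwards [hVb.eventually_ne hVb0] with z hz h0
      apply hz
      rw [wg_smul_left, h0, mul_zero]
    have E2 : ∀ᶠ z in comap im atTop, f (kk (f z)) = f z := hflim.eventually hkr
    have E3 : ∀ᶠ z in comap im atTop, wg (ψ (kk (f z))) b ≠ 0 := by
      have h1 : ∀ᶠ z in 𝓝 (0 : ℂ), wg (ψ z) b ≠ 0 :=
        (analyticAt_wg han analyticAt_const).continuousAt.eventually_ne hb0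
      exact hζ.eventually h1
    have E4 : ∀ᶠ z in comap im atTop, kk (f (lam * (lam * kk (f z)))) = lam * (lam * kk (f z)) := by
      have h1 : Tendsto (fun z => lam * (lam * kk (f z))) (comap im atTop) (𝓝 0) := by
        have := (hζ.const_mul lam).const_mul lam
        simpa using this
      exact h1.eventually hkl
    have E : ∀ᶠ z in comap im atTop, wg (ψ (kk (f z))) (ψ z) = 0 ∧
        kk (f (lam * (lam * z))) = lam * (lam * kk (f z)) := by
      filter_upwards [E1, E2, E3, E4] with z h1 h2 h3 h4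
      have hp : wg (ψ (kk (f z))) (ψ z) = 0 := par_of_coord hab h3 h1 h2
      refine ⟨hp, ?_⟩
      have h5 := hL.push (hL.push hp)
      have h6 : f (lam * (lam * kk (f z))) = f (lam * (lam * z)) :=
        coord_par (hL.nz _) (hL.nz _) h5
      rw [← h6, h4]
    obtain ⟨M, hM⟩ := im_atTop_basis.1 E
    have hlam2 : 2 ≤ |k| := by
      have h1 := hL.one
      rw [hk, Complex.norm_intCast] at h1
      have h2 : (1 : ℝ) < ((|k| : ℤ) : ℝ) := by push_cast; exact h1
      have h3 : (1 : ℤ) < |k| := by exact_mod_cast h2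
      omega
    have hk4 : (1 : ℝ) < (k : ℝ) * k := by
      have h1 : (4 : ℤ) ≤ k * k := by
        rw [← abs_mul_abs_self]; nlinarith
      have h2 : (4 : ℝ) ≤ (k : ℝ) * k := by exact_mod_cast h1
      linarith
    have himlam : ∀ z : ℂ, (lam * (lam * z)).im = (k * k : ℝ) * z.im := by
      intro z
      rw [hk]
      simp
      ring
    have hzero : ∀ z : ℂ, max M 1 ≤ z.im → kk (f z) = 0 := by
      intro z hz
      have hzM : M ≤ z.im := (le_max_left _ _).trans hz
      have hz1 : 1 ≤ z.im := (le_max_right _ _).trans hz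
      have hiter : ∀ n : ℕ, z.im * ((k * k : ℝ)) ^ n = (((fun w : ℂ => lam * (lam * w))^[n]) z).im ∧
          kk (f (((fun w : ℂ => lam * (lam * w))^[n]) z)) = (lam * lam) ^ n * kk (f z) := by
        intro n
        induction n with
        | zero => simp
        | succ n ih =>
          obtain ⟨ih1, ih2⟩ := ih
          rw [Function.iterate_succ_apply']
          constructor
          · rw [himlam, ← ih1]; ring
          · have h1 : M ≤ (((fun w : ℂ => lam * (lam * w))^[n]) z).im := by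
              rw [← ih1]
              have h2 : 1 ≤ ((k * k : ℝ)) ^ n := one_le_pow₀ hk4.le
              nlinarith
            rw [(hM _ h1).2, ih2]
            ring
      have hlim : Tendsto (fun n : ℕ => ((fun w : ℂ => lam * (lam * w))^[n]) z) atTop
          (comap im atTop) := by
        rw [tendsto_comap_iff]
        have h1 : (im ∘ fun n : ℕ => ((fun w : ℂ => lam * (lam * w))^[n]) z) =
            fun n : ℕ => z.im * ((k * k : ℝ)) ^ n := by
          funext n
          exact (hiter n).1.symm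
        rw [h1]
        exact (tendsto_pow_atTop_atTop_of_one_lt hk4).const_mul_atTop (by linarith)
      have h2 := (hζ.comp hlim).norm
      rw [norm_zero] at h2
      have h3 : ‖kk (f z)‖ ≤ 0 := by
        apply ge_of_tendsto' h2
        intro n
        show ‖kk (f z)‖ ≤ ‖kk (f (((fun w : ℂ => lam * (lam * w))^[n]) z))‖
        rw [(hiter n).2, norm_mul, norm_pow]
        have h4 : 1 ≤ ‖lam * lam‖ ^ n := by
          apply one_le_pow₀
          rw [norm_mul]
          have := hL.one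
          nlinarith
        nlinarith [norm_nonneg (kk (f z))]
      exact norm_le_zero_iff.1 h3
    have hx : ∀ᶠ z in 𝓝 ((((max M 1) + 1 : ℝ) : ℂ) * I), wg (ψ 0) (ψ z) = 0 := by
      have h1 : IsOpen {z : ℂ | max M 1 < z.im} := isOpen_lt continuous_const continuous_im
      have h2 : (((max M 1) + 1 : ℝ) : ℂ) * I ∈ {z : ℂ | max M 1 < z.im} := by
        show max M 1 < ((((max M 1) + 1 : ℝ) : ℂ) * I).im
        simp
      filter_upwards [h1.mem_nhds h2] with z hz
      have hz' : max M 1 < z.im := hz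
      have h3 := (hM z ((le_max_left _ _).trans hz'.le)).1
      rw [hzero z hz'.le] at h3
      exact h3
    exact hL.not_const hx
  -- conclusion
  have hVa2 : Tendsto (fun z => wg b (exp (-(e z)) • ψ z)) (comap im atTop) (𝓝 (wg b V)) := by
    have hc : Continuous (fun v : ℂ × ℂ => wg b v) := by unfold wg; fun_prop
    exact (hc.tendsto V).comp hV
  have hlim := hVa2.norm.div hVa.norm (norm_ne_zero_iff.2 hne)
  have hev := hlim.eventually (eventually_le_nhds (lt_add_one _))
  have hev2 := hVa.eventually_ne hne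
  obtain ⟨M, hM⟩ := im_atTop_basis.1 (hev.and hev2)
  refine ⟨M, ‖wg b V‖ / ‖wg a V‖ + 1, fun z hz => ?_⟩
  obtain ⟨h1, h2⟩ := hM z hz
  have h3 : 0 < ‖wg a (exp (-(e z)) • ψ z)‖ := norm_pos_iff.2 h2
  change ‖wg b (exp (-(e z)) • ψ z)‖ / ‖wg a (exp (-(e z)) • ψ z)‖ ≤ _ at h1
  rw [div_le_iff₀ h3, wg_smul_right, wg_smul_right, norm_mul, norm_mul] at h1
  have h4 : 0 < ‖exp (-(e z))‖ := norm_pos_iff.2 (exp_ne_zero _)
  have h5 : ‖exp (-(e z))‖ * ‖wg b (ψ z)‖ ≤ ‖exp (-(e z))‖ *
      ((‖wg b V‖ / ‖wg a V‖ + 1) * ‖wg a (ψ z)‖) := by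
    calc _ ≤ _ := h1
      _ = _ := by ring
  exact le_of_mul_le_mul_left h5 h4

/-- both ends -/
theorem both_ends (hL : Lin g D B lam ψ p) (hk : ∃ k : ℤ, lam = k)
    (hper : ∀ z, wg (ψ (z + 1)) (ψ z) = 0)
    (hharm : ∀ z : ℂ, z.im ≠ 0 → HarmAt (fun y => g (ψ y)) z) :
    ∃ M K : ℝ, ∀ z : ℂ, M ≤ |z.im| → ‖wg (perp (ψ 0)) (ψ z)‖ ≤ K * ‖wg (ψ 0) (ψ z)‖ := by
  obtain ⟨M1, K1, h1⟩ := upper_end hL hk hper (fun z hz => hharm z hz.ne')
  have hL' : Lin g D B lam (fun z => ψ (-z)) (fun z => p (-z)) := by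
    refine ⟨hL.dyn, hL.one, hL.diff.comp differentiable_neg, fun z => hL.nz _, ?_,
      hL.pdiff.comp differentiable_neg, fun z => ?_⟩
    · have h2 : deriv (fun z => ψ (-z)) 0 = -(deriv ψ 0) := by
        have h3 : HasDerivAt (fun z : ℂ => -z) (-1) 0 := hasDerivAt_neg 0
        have h4 : HasDerivAt ψ (deriv ψ 0) (-0) := by
          rw [neg_zero]; exact (hL.diff 0).hasDerivAt
        have h5 := HasDerivAt.scomp (0 : ℂ) h4 h3
        rw [show (fun z => ψ (-z)) = ψ ∘ (fun z : ℂ => -z) from rfl, h5.deriv, neg_one_smul]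
      rw [h2, neg_zero]
      have h6 : wg (ψ 0) (-(deriv ψ 0)) = -wg (ψ 0) (deriv ψ 0) := by
        rw [← neg_one_smul ℂ, wg_smul_right]; ring
      rw [h6]
      exact neg_ne_zero.2 hL.imm
    · show B (ψ (-z)) = exp (p (-z)) • ψ (-(lam * z))
      rw [hL.eqn, mul_neg]
  have hper' : ∀ z, wg (ψ (-(z + 1))) (ψ (-z)) = 0 := by
    intro z
    have h2 := hper (-(z + 1))
    rw [show -(z + 1) + 1 = -z by ring] at h2
    rw [wg_swap, h2, neg_zero]
  obtain ⟨M2, K2, h2⟩ := upper_end hL' hk hper' (fun z hz => by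
    have h3 := hharm (-z) (by simpa using hz.ne')
    exact h3.comp (by fun_prop : AnalyticAt ℂ (fun z : ℂ => -z) z))
  refine ⟨max M1 M2, max K1 K2, fun z hz => ?_⟩
  rcases le_total 0 z.im with h3 | h3
  · rw [abs_of_nonneg h3] at hz
    exact (h1 z ((le_max_left _ _).trans hz)).trans
      (mul_le_mul_of_nonneg_right (le_max_left _ _) (norm_nonneg _))
  · rw [abs_of_nonpos h3] at hz
    have h4 := h2 (-z) (by rw [neg_im]; exact (le_max_right _ _).trans hz)
    simp only [neg_neg, neg_zero] at h4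
    exact h4.trans (mul_le_mul_of_nonneg_right (le_max_right _ _) (norm_nonneg _))

end Pool.Agent.Work.MP_78b16e_an
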