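import Pool.Agent.Work.MP_78b16e_an.Loc
import Pool.Agent.Work.MP_78b16e_an.PotA

/-! Covering theorem: images of discs meeting the Julia set cover all non exceptional points. -/

set_option autoImplicit false

namespace Pool.Agent.Work.MP_78b16e_an

open Metric Filter Topology

theorem norm_perp (x : ℂ × ℂ) : ‖perp x‖ = ‖x‖ := by
  simp [perp, Prod.norm_def, max_comm]

theorem lagrange_wg (y x : ℂ × ℂ) :
    ‖wg y x‖ ^ 2 + ‖wg y (perp x)‖ ^ 2 =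
      (‖y.1‖ ^ 2 + ‖y.2‖ ^ 2) * (‖x.1‖ ^ 2 + ‖x.2‖ ^ 2) := by
  simp only [Complex.sq_norm, Complex.normSq_apply, wg, perp, Complex.sub_re, Complex.sub_im,
    Complex.mul_re, Complex.mul_im, Complex.neg_re, Complex.neg_im, Complex.conj_re,
    Complex.conj_im]
  ring

theorem norm_sq_le (x : ℂ × ℂ) : ‖x‖ ^ 2 ≤ ‖x.1‖ ^ 2 + ‖x.2‖ ^ 2 := by
  rcases max_cases ‖x.1‖ ‖x.2‖ with h | h
  · rw [Prod.norm_def, h.1]; nlinarith [norm_nonneg x.2, sq_nonneg ‖x.2‖]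
  · rw [Prod.norm_def, h.1]; nlinarith [norm_nonneg x.1, sq_nonneg ‖x.1‖]

theorem le_norm_sq (x : ℂ × ℂ) : ‖x.1‖ ^ 2 + ‖x.2‖ ^ 2 ≤ 2 * ‖x‖ ^ 2 := by
  have h1 : ‖x.1‖ ≤ ‖x‖ := norm_fst_le x
  have h2 : ‖x.2‖ ≤ ‖x‖ := norm_snd_le x
  nlinarith [norm_nonneg x.1, norm_nonneg x.2, norm_nonneg x]

theorem norm_wg_perp (x : ℂ × ℂ) : ‖wg x (perp x)‖ = ‖x.1‖ ^ 2 + ‖x.2‖ ^ 2 := by
  rw [wg_perp, Complex.norm_real, Real.norm_eq_abs, abs_of_nonneg (by positivity)]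

/-- in a small projective disc there is a point not too close to a given point -/
theorem choose_far {x y : ℂ × ℂ} (hx : x ≠ 0) {τ : ℝ} (h0 : 0 < τ) (h1 : τ ≤ 1) :
    ∃ w, w ≠ 0 ∧ ‖wg x w‖ ≤ 4 * τ * (‖x‖ * ‖w‖) ∧ τ / 2 * (‖y‖ * ‖w‖) ≤ ‖wg w y‖ := by
  have hxn : 0 < ‖x‖ := norm_pos_iff.2 hx
  have key : ∀ s : ℂ, ‖s‖ = τ → x + s • perp x ≠ 0 ∧
      ‖wg x (x + s • perp x)‖ ≤ 4 * τ * (‖x‖ * ‖x + s • perp x‖) ∧
      ‖x + s • perp x‖ ≤ 2 * ‖x‖ := by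
    intro s hs
    set w := x + s • perp x with hw
    have e1 : wg x w = s * wg x (perp x) := by
      rw [hw, wg_add_right, wg_self, wg_smul_right]; ring
    have e2 : wg w (perp x) = wg x (perp x) := by
      rw [hw, wg_add_left, wg_smul_left, wg_self]; ring
    have e3 : ‖wg x (perp x)‖ ≤ 2 * ‖w‖ * ‖x‖ := by
      rw [← e2]
      refine (norm_wg_le _ _).trans ?_
      rw [norm_perp]
    have e4 : ‖x‖ ^ 2 ≤ ‖wg x (perp x)‖ := by rw [norm_wg_perp]; exact norm_sq_le x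
    have e5 : ‖x‖ ≤ 2 * ‖w‖ := by
      have : ‖x‖ * ‖x‖ ≤ 2 * ‖w‖ * ‖x‖ := by nlinarith
      exact le_of_mul_le_mul_right this hxn
    refine ⟨?_, ?_, ?_⟩
    · intro h
      rw [h, norm_zero] at e5
      linarith
    · rw [e1, norm_mul, hs]
      have e6 : ‖wg x (perp x)‖ ≤ 2 * ‖x‖ ^ 2 := by rw [norm_wg_perp]; exact le_norm_sq x
      calc τ * ‖wg x (perp x)‖ ≤ τ * (2 * ‖x‖ ^ 2) := by gcongr
        _ = τ * (2 * ‖x‖ * ‖x‖) := by ring
        _ ≤ τ * (2 * ‖x‖ * (2 * ‖w‖)) := by gcongr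
        _ = 4 * τ * (‖x‖ * ‖w‖) := by ring
    · calc ‖w‖ ≤ ‖x‖ + ‖s • perp x‖ := norm_add_le _ _
        _ = ‖x‖ + τ * ‖x‖ := by rw [norm_smul, hs, norm_perp]
        _ ≤ 2 * ‖x‖ := by nlinarith
  have hlag := lagrange_wg y x
  have hl2 : ‖y‖ ^ 2 * ‖x‖ ^ 2 ≤ ‖wg y x‖ ^ 2 + ‖wg y (perp x)‖ ^ 2 := by
    rw [hlag]
    exact mul_le_mul (norm_sq_le y) (norm_sq_le x) (by positivity) (by positivity)
  have hpar := parallelogram_law_with_norm ℝ (wg y x) ((τ : ℂ) * wg y (perp x))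
  have hτn : ‖(τ : ℂ)‖ = τ := by
    rw [Complex.norm_real, Real.norm_eq_abs, abs_of_pos h0]
  have hn : ‖(τ : ℂ) * wg y (perp x)‖ = τ * ‖wg y (perp x)‖ := by
    rw [norm_mul, hτn]
  rw [hn] at hpar
  have hM : 0 ≤ τ * (‖y‖ * ‖x‖) := by positivity
  have hbig : τ * (‖y‖ * ‖x‖) ≤ ‖wg y x + (τ : ℂ) * wg y (perp x)‖ ∨
      τ * (‖y‖ * ‖x‖) ≤ ‖wg y x - (τ : ℂ) * wg y (perp x)‖ := by
    by_contra hcon
    rw [not_or] at hcon
    obtain ⟨c1, c2⟩ := hcon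
    rw [not_le] at c1 c2
    have d1 : ‖wg y x + (τ : ℂ) * wg y (perp x)‖ * ‖wg y x + (τ : ℂ) * wg y (perp x)‖ <
        (τ * (‖y‖ * ‖x‖)) * (τ * (‖y‖ * ‖x‖)) :=
      mul_self_lt_mul_self (norm_nonneg _) c1
    have d2 : ‖wg y x - (τ : ℂ) * wg y (perp x)‖ * ‖wg y x - (τ : ℂ) * wg y (perp x)‖ <
        (τ * (‖y‖ * ‖x‖)) * (τ * (‖y‖ * ‖x‖)) :=
      mul_self_lt_mul_self (norm_nonneg _) c2
    have d3 : τ ^ 2 * (‖y‖ ^ 2 * ‖x‖ ^ 2) ≤
        ‖wg y x‖ ^ 2 + τ ^ 2 * ‖wg y (perp x)‖ ^ 2 := by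
      have t1 : τ ^ 2 ≤ 1 := by nlinarith
      have t2 : 0 ≤ τ ^ 2 := by positivity
      nlinarith [sq_nonneg ‖wg y x‖, mul_le_mul_of_nonneg_left hl2 t2]
    nlinarith
  rcases hbig with hb | hb
  · obtain ⟨k1, k2, k3⟩ := key (τ : ℂ) hτn
    refine ⟨_, k1, k2, ?_⟩
    have e : wg (x + (τ : ℂ) • perp x) y = -(wg y x + (τ : ℂ) * wg y (perp x)) := by
      rw [wg_swap, wg_add_right, wg_smul_right]
    rw [e, norm_neg]
    refine le_trans ?_ hb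
    calc τ / 2 * (‖y‖ * ‖x + (τ : ℂ) • perp x‖) ≤ τ / 2 * (‖y‖ * (2 * ‖x‖)) := by gcongr
      _ = τ * (‖y‖ * ‖x‖) := by ring
  · obtain ⟨k1, k2, k3⟩ := key (-(τ : ℂ)) (by rw [norm_neg]; exact hτn)
    refine ⟨_, k1, k2, ?_⟩
    have e : wg (x + (-(τ : ℂ)) • perp x) y = -(wg y x - (τ : ℂ) * wg y (perp x)) := by
      rw [wg_swap, wg_add_right, wg_smul_right]; ring
    rw [e, norm_neg]
    refine le_trans ?_ hb
    calc τ / 2 * (‖y‖ * ‖x + (-(τ : ℂ)) • perp x‖) ≤ τ / 2 * (‖y‖ * (2 * ‖x‖)) := by gcongr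
      _ = τ * (‖y‖ * ‖x‖) := by ring

/-- radii of the discs covered by the iterates -/
noncomputable def rho (c : ℝ) (d : ℕ) : ℕ → ℝ → ℝ
  | 0, r => r
  | n + 1, r => rho c d n (c * r ^ (d - 1))

theorem rho_pos {c : ℝ} (hc : 0 < c) (d : ℕ) (n : ℕ) : ∀ {r : ℝ}, 0 < r → 0 < rho c d n r := by
  induction n with
  | zero => intro r hr; exact hr
  | succ n ih => intro r hr; exact ih (by positivity)

theorem rho_le_one {c : ℝ} (hc : 0 < c) (hc1 : c ≤ 1) (d : ℕ) (n : ℕ) :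
    ∀ {r : ℝ}, 0 < r → r ≤ 1 → rho c d n r ≤ 1 := by
  induction n with
  | zero => intro r _ hr; exact hr
  | succ n ih =>
    intro r hr hr1
    exact ih (by positivity) (mul_le_one₀ hc1 (by positivity) (pow_le_one₀ hr.le hr1))

theorem log_rho {c : ℝ} (hc : 0 < c) (hc1 : c ≤ 1) {d : ℕ} (hd : 2 ≤ d) (n : ℕ) :
    ∀ {r : ℝ}, 0 < r → r ≤ 1 →
      - Real.log (rho c d n r) ≤ ((d : ℝ) - 1) ^ n * (- Real.log r + n * (- Real.log c)) := by
  have hL : 0 ≤ - Real.log c := by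
    have := Real.log_nonpos hc.le hc1; linarith
  have hd1 : (1 : ℝ) ≤ (d : ℝ) - 1 := by
    have : (2 : ℝ) ≤ d := by exact_mod_cast hd
    linarith
  induction n with
  | zero => intro r hr hr1; simp [rho]
  | succ n ih =>
    intro r hr hr1
    have h1 : 0 < c * r ^ (d - 1) := by positivity
    have h2 : c * r ^ (d - 1) ≤ 1 := mul_le_one₀ hc1 (by positivity) (pow_le_one₀ hr.le hr1)
    have h3 := ih h1 h2
    have h4 : Real.log (c * r ^ (d - 1)) = Real.log c + ((d : ℝ) - 1) * Real.log r := by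
      rw [Real.log_mul hc.ne' (by positivity), Real.log_pow, Nat.cast_sub (by omega)]
      simp
    rw [h4] at h3
    have h5 : (0 : ℝ) ≤ ((d : ℝ) - 1) ^ n := by positivity
    have hlr : 0 ≤ - Real.log r := by
      have := Real.log_nonpos hr.le hr1; linarith
    change - Real.log (rho c d n (c * r ^ (d - 1))) ≤ _
    refine h3.trans ?_
    rw [pow_succ, mul_assoc]
    refine mul_le_mul_of_nonneg_left ?_ h5
    push_cast
    nlinarith [mul_nonneg (by positivity : (0:ℝ) ≤ (n : ℝ) + 1) hL,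
      mul_nonneg (mul_nonneg (by positivity : (0:ℝ) ≤ (n : ℝ) + 1) hL) (by linarith : (0:ℝ) ≤ (d:ℝ) - 1 - 1)]

theorem IsLift.iter_hom {d : ℕ} {A : ℂ × ℂ → ℂ × ℂ} (hA : IsLift d A) (n : ℕ) (c : ℂ)
    (v : ℂ × ℂ) : A^[n] (c • v) = c ^ (d ^ n) • A^[n] v := (hA.iterate n).hom c v

theorem IsLift.iter_nz {d : ℕ} {A : ℂ × ℂ → ℂ × ℂ} (hA : IsLift d A) (n : ℕ) {v : ℂ × ℂ}
    (hv : v ≠ 0) : A^[n] v ≠ 0 := (hA.iterate n).nz v hv

theorem Dyn.iter_g {g : ℂ × ℂ → ℝ} {d : ℕ} {A : ℂ × ℂ → ℂ × ℂ} (h : Dyn g d A) (n : ℕ)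
    {v : ℂ × ℂ} (hv : v ≠ 0) : g (A^[n] v) = (d : ℝ) ^ n * g v := by
  induction n with
  | zero => simp
  | succ n ih =>
    rw [Function.iterate_succ_apply', h.inv _ (h.lift.iter_nz n hv), ih, pow_succ]
    ring

theorem iter_disc {d : ℕ} {A : ℂ × ℂ → ℂ × ℂ} (hA : IsLift d A) {K : Set (ℂ × ℂ)} {c : ℝ}
    (hc0 : 0 < c) (hc1 : c ≤ 1)
    (h : ∀ (x w : ℂ × ℂ) (r : ℝ), x ∈ K → x ≠ 0 → w ≠ 0 → 0 < r → r ≤ 1 →
      ‖wg (A x) w‖ < c * r ^ (d - 1) * (‖A x‖ * ‖w‖) →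
      ∃ v, v ≠ 0 ∧ ‖wg x v‖ < r * (‖x‖ * ‖v‖) ∧ wg (A v) w = 0) (n : ℕ) :
    ∀ (x w : ℂ × ℂ) (r : ℝ), x ≠ 0 → (∀ i < n, A^[i] x ∈ K) → w ≠ 0 → 0 < r → r ≤ 1 →
      ‖wg (A^[n] x) w‖ < rho c d n r * (‖A^[n] x‖ * ‖w‖) →
      ∃ v, v ≠ 0 ∧ ‖wg x v‖ < r * (‖x‖ * ‖v‖) ∧ wg (A^[n] v) w = 0 := by
  induction n with
  | zero =>
    intro x w r hx _ hw hr hr1 hlt
    exact ⟨w, hw, hlt, by simp [wg_self]⟩
  | succ n ih =>
    intro x w r hx hK hw hr hr1 hlt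
    have h1 : 0 < c * r ^ (d - 1) := by positivity
    have h2 : c * r ^ (d - 1) ≤ 1 := mul_le_one₀ hc1 (by positivity) (pow_le_one₀ hr.le hr1)
    rw [Function.iterate_succ_apply] at hlt
    obtain ⟨w', hw', h3, h4⟩ := ih (A x) w (c * r ^ (d - 1)) (hA.nz x hx)
      (fun i hi => by
        have := hK (i + 1) (by omega)
        rwa [Function.iterate_succ_apply] at this) hw h1 h2 hlt
    obtain ⟨v, hv, h5, h6⟩ := h x w' r (by simpa using hK 0 (by omega)) hx hw' hr hr1 h3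
    refine ⟨v, hv, h5, ?_⟩
    have h7 : wg w' (A v) = 0 := by rw [wg_swap, h6, neg_zero]
    obtain ⟨κ, hκ⟩ := (wg_eq_zero_iff hw' _).1 h7
    rw [Function.iterate_succ_apply, hκ, hA.iter_hom, wg_smul_left, h4, mul_zero]

theorem asym {d : ℕ} (hd : 2 ≤ d) (C a L : ℝ) {ε : ℝ} (hε : 0 < ε) :
    ∃ n₀ : ℕ, ∀ n ≥ n₀, C + ((d : ℝ) - 1) ^ n * (a + n * L) ≤ (d : ℝ) ^ n * ε := by
  have hd2 : (2 : ℝ) ≤ d := by exact_mod_cast hd
  have hd0 : (0 : ℝ) < d := by linarith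
  set q : ℝ := ((d : ℝ) - 1) / d with hq
  have hq0 : 0 ≤ q := by rw [hq]; apply div_nonneg <;> linarith
  have hq1 : q < 1 := by rw [hq, div_lt_one hd0]; linarith
  have hi0 : (0 : ℝ) ≤ 1 / d := by positivity
  have hi1 : (1 : ℝ) / d < 1 := by rw [div_lt_one hd0]; linarith
  have t1 : Tendsto (fun n : ℕ => C * (1 / (d : ℝ)) ^ n + (a * q ^ n + L * (n * q ^ n))) atTop
      (𝓝 (C * 0 + (a * 0 + L * 0))) :=
    ((tendsto_pow_atTop_nhds_zero_of_lt_one hi0 hi1).const_mul C).add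
      (((tendsto_pow_atTop_nhds_zero_of_lt_one hq0 hq1).const_mul a).add
        ((tendsto_self_mul_const_pow_of_lt_one hq0 hq1).const_mul L))
  have t2 : ∀ᶠ n : ℕ in atTop, C * (1 / (d : ℝ)) ^ n + (a * q ^ n + L * (n * q ^ n)) < ε :=
    t1.eventually_lt_const (by simpa using hε)
  obtain ⟨n₀, hn₀⟩ := eventually_atTop.1 t2
  refine ⟨n₀, fun n hn => ?_⟩
  have h := hn₀ n hn
  have hdn : (0 : ℝ) < (d : ℝ) ^ n := by positivity
  have e : C + ((d : ℝ) - 1) ^ n * (a + n * L) =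
      (d : ℝ) ^ n * (C * (1 / (d : ℝ)) ^ n + (a * q ^ n + L * (n * q ^ n))) := by
    rw [hq, div_pow, div_pow, one_pow]
    field_simp
  rw [e]
  exact mul_le_mul_of_nonneg_left h.le hdn.le

theorem deep_of_K {g : ℂ × ℂ → ℝ} {d : ℕ} {A : ℂ × ℂ → ℂ × ℂ} (hD : Dyn g d A) {y : ℂ × ℂ}
    (hy : y ≠ 0) {K : Set (ℂ × ℂ)} (hK : IsClosed K)
    (hcone : ∀ (c : ℂ) (x : ℂ × ℂ), x ∈ K → c • x ∈ K) (hTR : ∀ x ∈ K, x ≠ 0 → ¬ TR d A x)
    {x : ℂ × ℂ} (hx : x ≠ 0) (hxK : ∀ i, A^[i] x ∈ K) {r : ℝ} (hr : 0 < r) {ε : ℝ}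
    (hε : 0 < ε) :
    ∃ n₀ : ℕ, ∀ n ≥ n₀, ∃ v, v ≠ 0 ∧ ‖wg x v‖ < r * (‖x‖ * ‖v‖) ∧
      wg (A^[n] v) y ≠ 0 ∧ (d : ℝ) ^ n * (g v - ε) ≤ Real.log ‖wg (A^[n] v) y‖ := by
  obtain ⟨c, hc0, hc1, hrad⟩ := rad_K hD.two hD.lift hK hcone hTR
  obtain ⟨C, hC0, hC⟩ := hD.pot.bdd
  set r₁ : ℝ := min r 1 with hr₁
  have hr₁0 : 0 < r₁ := lt_min hr one_pos
  have hr₁1 : r₁ ≤ 1 := min_le_right _ _
  have hr₁r : r₁ ≤ r := min_le_left _ _
  obtain ⟨n₀, hn₀⟩ := asym hD.two (C + Real.log 16 - Real.log ‖y‖) (- Real.log r₁)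
    (- Real.log c) hε
  refine ⟨n₀, fun n hn => ?_⟩
  have hρ0 := rho_pos hc0 d n hr₁0
  have hρ1 := rho_le_one hc0 hc1 d n hr₁0 hr₁1
  have hxn : A^[n] x ≠ 0 := hD.lift.iter_nz n hx
  obtain ⟨w, hw, hw1, hw2⟩ := choose_far (y := y) hxn (τ := rho c d n r₁ / 8) (by positivity)
    (by linarith)
  have hyn : 0 < ‖y‖ := norm_pos_iff.2 hy
  have hwn : 0 < ‖w‖ := norm_pos_iff.2 hw
  have hxnn : 0 < ‖A^[n] x‖ := norm_pos_iff.2 hxn
  have hlt : ‖wg (A^[n] x) w‖ < rho c d n r₁ * (‖A^[n] x‖ * ‖w‖) := by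
    refine hw1.trans_lt ?_
    have : 0 < rho c d n r₁ * (‖A^[n] x‖ * ‖w‖) := by positivity
    linarith
  obtain ⟨v, hv, hv1, hv2⟩ := iter_disc hD.lift hc0 hc1 hrad n x w r₁ hx (fun i _ => hxK i) hw
    hr₁0 hr₁1 hlt
  refine ⟨v, hv, hv1.trans_le (mul_le_mul_of_nonneg_right hr₁r (by positivity)), ?_⟩
  have hv3 : wg w (A^[n] v) = 0 := by rw [wg_swap, hv2, neg_zero]
  obtain ⟨κ, hκ⟩ := (wg_eq_zero_iff hw _).1 hv3
  have hAv : A^[n] v ≠ 0 := hD.lift.iter_nz n hv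
  have hAvn : 0 < ‖A^[n] v‖ := norm_pos_iff.2 hAv
  have hlow : rho c d n r₁ / 16 * (‖y‖ * ‖A^[n] v‖) ≤ ‖wg (A^[n] v) y‖ := by
    rw [hκ, wg_smul_left, norm_mul, norm_smul]
    calc rho c d n r₁ / 16 * (‖y‖ * (‖κ‖ * ‖w‖))
        = ‖κ‖ * (rho c d n r₁ / 8 / 2 * (‖y‖ * ‖w‖)) := by ring
      _ ≤ ‖κ‖ * ‖wg w y‖ := by gcongr
  have hpos : 0 < rho c d n r₁ / 16 * (‖y‖ * ‖A^[n] v‖) := by positivity
  refine ⟨?_, ?_⟩
  · intro h
    rw [h, norm_zero] at hlow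
    linarith
  · have hlog := Real.log_le_log hpos hlow
    rw [Real.log_mul (by positivity) (by positivity), Real.log_mul (by positivity) (by positivity),
      Real.log_div (by positivity) (by norm_num)] at hlog
    have h1 := hC (A^[n] v) hAv
    rw [hD.iter_g n hv] at h1
    have h2 := (abs_le.1 h1).2
    have h3 := log_rho hc0 hc1 hD.two n hr₁0 hr₁1
    have h4 := hn₀ n hn
    linarith

theorem deep_point {g : ℂ × ℂ → ℝ} {d : ℕ} {A : ℂ × ℂ → ℂ × ℂ} (hD : Dyn g d A) {y : ℂ × ℂ}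
    (hy : Tgt d A y) {x : ℂ × ℂ} (hx : x ≠ 0) {r : ℝ} (hr : 0 < r) {ε : ℝ} (hε : 0 < ε) :
    ∃ n₀ : ℕ, ∀ n ≥ n₀, ∃ v, v ≠ 0 ∧ ‖wg x v‖ < r * (‖x‖ * ‖v‖) ∧
      wg (A^[n] v) y ≠ 0 ∧ (d : ℝ) ^ n * (g v - ε) ≤ Real.log ‖wg (A^[n] v) y‖ := by
  obtain ⟨hy0, hcase⟩ := hy
  rcases hcase with hno | ⟨p, hp, hyp⟩
  · exact deep_of_K hD hy0 isClosed_univ (fun _ _ _ => Set.mem_univ _) (fun x _ hx => hno x hx)
      hx (fun _ => Set.mem_univ _) hr hε
  · obtain ⟨hp0, ⟨k, hk⟩, hfix, huniq⟩ := hp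
    obtain ⟨C, hC0, hC⟩ := hD.pot.bdd
    have hpn : 0 < ‖p‖ := norm_pos_iff.2 hp0
    have hyn : 0 < ‖y‖ := norm_pos_iff.2 hy0
    obtain ⟨κ, hκ⟩ := (wg_eq_zero_iff hp0 (A p)).1 (by rw [wg_swap, hfix, neg_zero])
    have hκ0 : κ ≠ 0 := by
      rintro rfl
      exact hD.lift.nz p hp0 (by rw [hκ, zero_smul])
    have hκn : 0 < ‖κ‖ := norm_pos_iff.2 hκ0
    -- contraction towards `p`
    have hcontr : ∀ v, ‖wg (A v) p‖ = ‖k‖ / ‖κ‖ * ‖wg v p‖ ^ d := by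
      intro v
      have := hk v
      rw [hκ, wg_smul_right] at this
      have h2 : ‖κ‖ * ‖wg (A v) p‖ = ‖k‖ * ‖wg v p‖ ^ d := by
        rw [← norm_mul, this, norm_mul, norm_pow]
      field_simp
      linarith
    have hlowA : ∀ v, v ≠ 0 → ‖v‖ ^ d ≤ Real.exp (((d : ℝ) + 1) * C) * ‖A v‖ := by
      intro v hv
      have hvn : 0 < ‖v‖ := norm_pos_iff.2 hv
      have hAv := hD.lift.nz v hv
      have hAvn : 0 < ‖A v‖ := norm_pos_iff.2 hAv
      have h1 := (abs_le.1 (hC (A v) hAv)).2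
      have h2 := (abs_le.1 (hC v hv)).1
      rw [hD.inv v hv] at h1
      have hd0 : (0 : ℝ) ≤ d := by positivity
      have h3 : (d : ℝ) * Real.log ‖v‖ ≤ ((d : ℝ) + 1) * C + Real.log ‖A v‖ := by nlinarith
      have h4 := Real.exp_le_exp.2 h3
      rw [Real.exp_add, Real.exp_log hAvn, ← Real.log_pow, Real.exp_log (by positivity)] at h4
      exact h4
    set E : ℝ := ‖k‖ / ‖κ‖ * Real.exp (((d : ℝ) + 1) * C) with hE
    have hE0 : 0 ≤ E := by positivity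
    have hypn : 0 < ‖wg y p‖ := norm_pos_iff.2 hyp
    set δ : ℝ := min (1 / (E + 1)) (‖wg y p‖ / (2 * ‖y‖)) with hδ
    have hδ0 : 0 < δ := lt_min (by positivity) (by positivity)
    have hδ1 : δ ≤ 1 := (min_le_left _ _).trans (by
      rw [div_le_one (by positivity)]; linarith)
    have hδE : E * δ < 1 := by
      have h1 : δ ≤ 1 / (E + 1) := min_le_left _ _
      calc E * δ ≤ E * (1 / (E + 1)) := by gcongr
        _ = E / (E + 1) := by ring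
        _ < 1 := by rw [div_lt_one (by positivity)]; linarith
    have hδy : δ * ‖y‖ ≤ ‖wg y p‖ / 2 := by
      have h1 : δ ≤ ‖wg y p‖ / (2 * ‖y‖) := min_le_right _ _
      calc δ * ‖y‖ ≤ ‖wg y p‖ / (2 * ‖y‖) * ‖y‖ := by gcongr
        _ = ‖wg y p‖ / 2 := by field_simp
    have hinv : ∀ v, v ≠ 0 → ‖wg v p‖ < δ * ‖v‖ → ‖wg (A v) p‖ < δ * ‖A v‖ := by
      intro v hv hlt
      have hAvn : 0 < ‖A v‖ := norm_pos_iff.2 (hD.lift.nz v hv)
      have hd2 := hD.two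
      have e1 : δ ^ d ≤ δ * δ := by
        calc δ ^ d ≤ δ ^ 2 := pow_le_pow_of_le_one hδ0.le hδ1 hd2
          _ = δ * δ := by ring
      calc ‖wg (A v) p‖ = ‖k‖ / ‖κ‖ * ‖wg v p‖ ^ d := hcontr v
        _ ≤ ‖k‖ / ‖κ‖ * (δ * ‖v‖) ^ d := by gcongr
        _ = ‖k‖ / ‖κ‖ * (δ ^ d * ‖v‖ ^ d) := by rw [mul_pow]
        _ ≤ ‖k‖ / ‖κ‖ * (δ * δ * (Real.exp (((d : ℝ) + 1) * C) * ‖A v‖)) := by
            have := hlowA v hv
            gcongr
        _ = (E * δ) * (δ * ‖A v‖) := by rw [hE]; ring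
        _ < 1 * (δ * ‖A v‖) := by
            apply mul_lt_mul_of_pos_right hδE (by positivity)
        _ = δ * ‖A v‖ := one_mul _
    by_cases hent : ∃ n₁, ‖wg (A^[n₁] x) p‖ < δ * ‖A^[n₁] x‖
    · obtain ⟨n₁, hn₁⟩ := hent
      have hall : ∀ n, n₁ ≤ n → ‖wg (A^[n] x) p‖ < δ * ‖A^[n] x‖ := by
        intro n hn
        induction n, hn using Nat.le_induction with
        | base => exact hn₁
        | succ n _ ih =>
          rw [Function.iterate_succ_apply']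
          exact hinv _ (hD.lift.iter_nz n hx) ih
      obtain ⟨n₀, hn₀⟩ := asym hD.two (C - Real.log (‖wg y p‖ / (2 * ‖p‖))) 0 0 hε
      refine ⟨max n₀ n₁, fun n hn => ⟨x, hx, ?_, ?_⟩⟩
      · rw [wg_self, norm_zero]
        have : 0 < ‖x‖ := norm_pos_iff.2 hx
        positivity
      · set w := A^[n] x with hw
        have hw0 : w ≠ 0 := hD.lift.iter_nz n hx
        have hwn : 0 < ‖w‖ := norm_pos_iff.2 hw0
        have hwp := hall n ((le_max_right _ _).trans hn)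
        have hdec := wg_decomp y p w
        have hnorm : ‖wg y p‖ * ‖w‖ ≤ ‖wg w p‖ * ‖y‖ + ‖wg y w‖ * ‖p‖ := by
          calc ‖wg y p‖ * ‖w‖ = ‖wg y p • w‖ := (norm_smul _ _).symm
            _ = ‖wg w p • y + wg y w • p‖ := by rw [hdec]
            _ ≤ _ := (norm_add_le _ _).trans (by rw [norm_smul, norm_smul])
        have h1 : ‖wg w p‖ * ‖y‖ ≤ ‖wg y p‖ / 2 * ‖w‖ := by
          calc ‖wg w p‖ * ‖y‖ ≤ δ * ‖w‖ * ‖y‖ := by gcongr
            _ = δ * ‖y‖ * ‖w‖ := by ring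
            _ ≤ _ := by gcongr
        have h2 : ‖wg y p‖ / (2 * ‖p‖) * ‖w‖ ≤ ‖wg w y‖ := by
          rw [wg_swap w y, norm_neg]
          have h3 : ‖wg y p‖ / 2 * ‖w‖ ≤ ‖wg y w‖ * ‖p‖ := by linarith
          rw [div_mul_eq_mul_div, div_le_iff₀ (by positivity)]
          linarith
        have hpos : 0 < ‖wg y p‖ / (2 * ‖p‖) * ‖w‖ := by positivity
        refine ⟨?_, ?_⟩
        · intro h
          rw [h, norm_zero] at h2
          linarith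
        · have hlog := Real.log_le_log hpos h2
          rw [Real.log_mul (by positivity) (by positivity)] at hlog
          have h4 := (abs_le.1 (hC w hw0)).2
          rw [hw, hD.iter_g n hx] at h4
          have h5 := hn₀ n ((le_max_left _ _).trans hn)
          simp only [mul_zero, add_zero] at h5
          rw [← hw] at h4
          linarith
    · push Not at hent
      refine deep_of_K hD hy0 (K := {v | δ * ‖v‖ ≤ ‖wg v p‖}) ?_ ?_ ?_ hx ?_ hr hε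
      · refine isClosed_le (by fun_prop) ?_
        refine Continuous.norm ?_
        unfold wg
        fun_prop
      · intro c v hv
        simp only [Set.mem_ofPred_eq] at hv ⊢
        rw [wg_smul_left, norm_mul, norm_smul]
        calc δ * (‖c‖ * ‖v‖) = ‖c‖ * (δ * ‖v‖) := by ring
          _ ≤ ‖c‖ * ‖wg v p‖ := by gcongr
      · intro v hv hv0 hTR
        simp only [Set.mem_ofPred_eq] at hv
        rw [huniq v hv0 hTR, norm_zero] at hv
        have : 0 < ‖v‖ := norm_pos_iff.2 hv0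
        have : 0 < δ * ‖v‖ := by positivity
        linarith
      · intro i
        exact hent i

theorem plucker (x c c' b : ℂ × ℂ) :
    wg x c' * wg c b - wg x c * wg c' b = wg x b * wg c c' := by
  simp only [wg]; ring

/-- a curve which is nowhere immersed near a point is projectively constant there -/
theorem par_const {c : ℂ → ℂ × ℂ} {t₀ : ℂ} (hc : AnalyticAt ℂ c t₀) (h0 : c t₀ ≠ 0)
    (hW : ∀ᶠ t in 𝓝 t₀, wg (c t) (deriv c t) = 0) : ∀ᶠ t in 𝓝 t₀, wg (c t₀) (c t) = 0 := by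
  set x := c t₀ with hx
  set b := perp x with hb
  have hxb : wg x b ≠ 0 := wg_perp_ne h0
  have e1 : ∀ᶠ t in 𝓝 t₀, wg (c t) b ≠ 0 :=
    (analyticAt_wg hc analyticAt_const).continuousAt.eventually_ne hxb
  have e2 : ∀ᶠ t in 𝓝 t₀, DifferentiableAt ℂ c t :=
    hc.eventually_analyticAt.mono fun t ht => ht.differentiableAt
  obtain ⟨s, hs, hball⟩ := Metric.eventually_nhds_iff_ball.1 (e1.and (e2.and hW))
  have hder : ∀ t ∈ ball t₀ s, HasDerivAt (fun z => wg x (c z) / wg (c z) b) 0 t := by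
    intro t ht
    obtain ⟨h1, h2, h3⟩ := hball t ht
    have k1 := hasDerivAt_wg (hasDerivAt_const t x) h2.hasDerivAt
    have k2 := hasDerivAt_wg h2.hasDerivAt (hasDerivAt_const t b)
    refine (k1.div k2 h1).congr_deriv ?_
    have hp := plucker x (c t) (deriv c t) b
    rw [h3, mul_zero] at hp
    simp only [wg_zero_left, wg_zero_right, zero_add, add_zero]
    rw [hp, zero_div]
  have hconst : ∀ t ∈ ball t₀ s, wg x (c t) / wg (c t) b = 0 := by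
    intro t ht
    have h1 := (convex_ball t₀ s).is_const_of_fderivWithin_eq_zero (𝕜 := ℂ)
      (f := fun z => wg x (c z) / wg (c z) b)
      (fun z hz => (hder z hz).differentiableAt.differentiableWithinAt)
      (fun z hz => by
        rw [fderivWithin_of_isOpen isOpen_ball hz]
        have := (hder z hz).hasFDerivAt.fderiv
        rw [this]
        ext
        simp) ht (mem_ball_self hs)
    rw [h1, ← hx, wg_self, zero_div]
  refine Metric.eventually_nhds_iff_ball.2 ⟨s, hs, fun t ht => ?_⟩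
  have h1 := hconst t ht
  exact (div_eq_zero_iff.1 h1).resolve_right (hball t ht).1

/-- the image of a small disc under an immersed curve contains a projective disc -/
theorem image_disc {c : ℂ → ℂ × ℂ} {t₁ : ℂ} (hc : AnalyticAt ℂ c t₁) (h0 : c t₁ ≠ 0)
    (hW : wg (c t₁) (deriv c t₁) ≠ 0) {U : Set ℂ} (hU : U ∈ 𝓝 t₁) :
    ∃ r' > 0, ∀ v : ℂ × ℂ, v ≠ 0 → ‖wg (c t₁) v‖ < r' * (‖c t₁‖ * ‖v‖) →
      ∃ t ∈ U, wg (c t) v = 0 := by
  set x := c t₁ with hx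
  set b := perp x with hb
  have hxb : wg x b ≠ 0 := wg_perp_ne h0
  have hxn : 0 < ‖x‖ := norm_pos_iff.2 h0
  set E : ℂ → ℂ := fun z => wg x (c z) / wg (c z) b with hE
  have hEa : AnalyticAt ℂ E t₁ :=
    (analyticAt_wg analyticAt_const hc).div (analyticAt_wg hc analyticAt_const) hxb
  have hEd : HasDerivAt E (wg x (deriv c t₁) / wg x b) t₁ :=
    coord_deriv hc.differentiableAt (by rw [← hx, wg_self]) hxb
  have hEs : HasStrictDerivAt E (wg x (deriv c t₁) / wg x b) t₁ := by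
    have := hEa.hasStrictDerivAt
    rwa [hEd.deriv] at this
  have hE0 : E t₁ = 0 := by
    show wg x (c t₁) / wg (c t₁) b = 0
    rw [← hx, wg_self, zero_div]
  have hmap := hEs.map_nhds_eq (div_ne_zero hW hxb)
  rw [hE0] at hmap
  have e1 : {t | wg (c t) b ≠ 0} ∈ 𝓝 t₁ :=
    (analyticAt_wg hc analyticAt_const).continuousAt.eventually_ne hxb
  have himg : E '' (U ∩ {t | wg (c t) b ≠ 0}) ∈ 𝓝 (0 : ℂ) := by
    rw [← hmap]
    exact image_mem_map (inter_mem hU e1)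
  obtain ⟨r'', hr'', hsub⟩ := Metric.mem_nhds_iff.1 himg
  refine ⟨min (1 / 2) (r'' / 2), lt_min (by norm_num) (by positivity), fun v hv hlt => ?_⟩
  have hvn : 0 < ‖v‖ := norm_pos_iff.2 hv
  have hP : 0 < ‖x‖ * ‖v‖ := by positivity
  have l1 : ‖wg x v‖ < 1 / 2 * (‖x‖ * ‖v‖) :=
    hlt.trans_le (mul_le_mul_of_nonneg_right (min_le_left _ _) hP.le)
  have l2 : ‖wg x v‖ < r'' / 2 * (‖x‖ * ‖v‖) :=
    hlt.trans_le (mul_le_mul_of_nonneg_right (min_le_right _ _) hP.le)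
  have hlag := lagrange_wg v x
  have hl2 : (‖x‖ * ‖v‖) ^ 2 ≤ ‖wg x v‖ ^ 2 + ‖wg v b‖ ^ 2 := by
    rw [wg_swap x v, norm_neg, hlag, mul_pow, mul_comm (‖x‖ ^ 2)]
    exact mul_le_mul (norm_sq_le v) (norm_sq_le x) (by positivity) (by positivity)
  have hvb : 1 / 2 * (‖x‖ * ‖v‖) ≤ ‖wg v b‖ := by
    by_contra hcon
    rw [not_le] at hcon
    nlinarith [norm_nonneg (wg x v), norm_nonneg (wg v b)]
  have hvb0 : 0 < ‖wg v b‖ := lt_of_lt_of_le (by positivity) hvb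
  have hvb1 : wg v b ≠ 0 := norm_pos_iff.1 hvb0
  have hmem : wg x v / wg v b ∈ ball (0 : ℂ) r'' := by
    rw [mem_ball_zero_iff, norm_div, div_lt_iff₀ hvb0]
    calc ‖wg x v‖ < r'' / 2 * (‖x‖ * ‖v‖) := l2
      _ = r'' * (1 / 2 * (‖x‖ * ‖v‖)) := by ring
      _ ≤ r'' * ‖wg v b‖ := by gcongr
  obtain ⟨t, ⟨htU, htb⟩, hEt⟩ := hsub hmem
  refine ⟨t, htU, ?_⟩
  have htb' : wg (c t) b ≠ 0 := htb
  change wg x (c t) / wg (c t) b = wg x v / wg v b at hEt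
  rw [div_eq_div_iff htb' hvb1] at hEt
  have key := plucker x (c t) v b
  have h7 : wg x b * wg (c t) v = 0 := by rw [← key, hEt]; ring
  exact (mul_eq_zero.1 h7).resolve_left hxb

theorem cov {g : ℂ × ℂ → ℝ} {d : ℕ} {A : ℂ × ℂ → ℂ × ℂ} (hD : Dyn g d A) {y : ℂ × ℂ}
    (hy : Tgt d A y) {c : ℂ → ℂ × ℂ} {t₀ : ℂ} {r : ℝ} (hr : 0 < r)
    (hc : DifferentiableOn ℂ c (ball t₀ r)) (hnz : ∀ t ∈ ball t₀ r, c t ≠ 0)
    (hh : ¬ HarmAt (fun t => g (c t)) t₀) :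
    ∃ n₀ : ℕ, ∀ n ≥ n₀, ∃ t ∈ ball t₀ r, wg (A^[n] (c t)) y = 0 := by
  by_contra hcon
  push Not at hcon
  obtain ⟨φ, hφ, hφn⟩ := extraction_of_frequently_atTop
    (P := fun n => ∀ t ∈ ball t₀ r, wg (A^[n] (c t)) y ≠ 0)
    (Filter.frequently_atTop.2 fun a => by
      obtain ⟨n, hn, h⟩ := hcon a
      exact ⟨n, hn, h⟩)
  have hca : ∀ t ∈ ball t₀ r, AnalyticAt ℂ c t := fun t ht =>
    hc.analyticAt (isOpen_ball.mem_nhds ht)
  have hgc : ContinuousOn (fun t => g (c t)) (ball t₀ r) :=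
    hD.pot.cont.comp hc.continuousOn fun t ht => hnz t ht
  obtain ⟨C, hC0, hC⟩ := hD.pot.bdd
  have hy0 : y ≠ 0 := hy.1
  have hyn : 0 < ‖y‖ := norm_pos_iff.2 hy0
  have hd2 : (2 : ℝ) ≤ d := by exact_mod_cast hD.two
  have hd1 : (1 : ℝ) < d := by linarith
  have hdiff : ∀ k, DifferentiableOn ℂ (fun t => wg (A^[φ k] (c t)) y) (ball t₀ r) := by
    intro k t ht
    have h1 : DifferentiableAt ℂ (fun t => A^[φ k] (c t)) t :=
      ((hD.lift.iterate (φ k)).differentiable _).comp t (hca t ht).differentiableAt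
    exact (hasDerivAt_wg h1.hasDerivAt (hasDerivAt_const t y)).differentiableAt.differentiableWithinAt
  choose e he1 he2 using fun k => exists_log_ball (hdiff k) (hφn k)
  set q : ℕ → ℂ → ℂ := fun k t => Complex.exp (e k t / (d : ℂ) ^ (φ k)) with hq
  have hnq : ∀ k, ∀ t ∈ ball t₀ r,
      ‖q k t‖ = Real.exp (Real.log ‖wg (A^[φ k] (c t)) y‖ / (d : ℝ) ^ (φ k)) := by
    intro k t ht
    have h1 : ‖wg (A^[φ k] (c t)) y‖ = Real.exp (e k t).re := by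
      rw [he2 k t ht, Complex.norm_exp]
    rw [h1, Real.log_exp]
    simp only [hq]
    rw [Complex.norm_exp]
    congr 1
    rw [show ((d : ℂ) ^ (φ k)) = (((d : ℝ) ^ (φ k) : ℝ) : ℂ) by push_cast; rfl, Complex.div_ofReal_re]
  set C' : ℝ := Real.log 2 + Real.log ‖y‖ + C with hC'
  have hup : ∀ k, ∀ t ∈ ball t₀ r, ‖q k t‖ ≤ Real.exp (g (c t) + C' / (d : ℝ) ^ (φ k)) := by
    intro k t ht
    rw [hnq k t ht, Real.exp_le_exp, div_le_iff₀ (by positivity), add_mul,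
      div_mul_cancel₀ _ (by positivity)]
    have hA := hD.lift.iter_nz (φ k) (hnz t ht)
    have hAn : 0 < ‖A^[φ k] (c t)‖ := norm_pos_iff.2 hA
    have h1 : 0 < ‖wg (A^[φ k] (c t)) y‖ := norm_pos_iff.2 (hφn k t ht)
    have h2 := Real.log_le_log h1 (norm_wg_le (A^[φ k] (c t)) y)
    rw [Real.log_mul (by positivity) (by positivity), Real.log_mul (by positivity)
      (by positivity)] at h2
    have h3 := (abs_le.1 (hC _ hA)).1
    rw [hD.iter_g _ (hnz t ht)] at h3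
    rw [hC']
    linarith
  -- Montel
  obtain ⟨M, hM⟩ : ∃ M, ∀ t ∈ closedBall t₀ (r / 2), g (c t) ≤ M := by
    obtain ⟨M, hM⟩ := (isCompact_closedBall t₀ (r / 2)).bddAbove_image
      (hgc.mono (closedBall_subset_ball (by linarith)))
    exact ⟨M, fun t ht => hM ⟨t, ht, rfl⟩⟩
  have hρ : 0 < r / 2 := by linarith
  have hsub : ball t₀ (r / 2) ⊆ ball t₀ r := ball_subset_ball (by linarith)
  have hqd : ∀ k, DifferentiableOn ℂ (q k) (ball t₀ (r / 2)) := fun k =>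
    (((he1 k).mono hsub).div_const _).cexp
  obtain ⟨ψ, Q, hψ, hQd, hlim⟩ := montel (F := q) (M := Real.exp (M + |C'|)) hρ hqd (by
    intro k t ht
    refine (hup k t (hsub ht)).trans (Real.exp_le_exp.2 (add_le_add (hM t (ball_subset_closedBall ht)) ?_))
    have h1 : C' / (d : ℝ) ^ (φ k) ≤ |C'| / (d : ℝ) ^ (φ k) := by
      gcongr
      exact le_abs_self _
    refine h1.trans (div_le_self (abs_nonneg _) (one_le_pow₀ hd1.le)))
  have hQc : ContinuousOn Q (ball t₀ (r / 2)) := hQd.continuousOn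
  -- the upper bound for the limit
  have hQup : ∀ t ∈ ball t₀ (r / 2), ‖Q t‖ ≤ Real.exp (g (c t)) := by
    intro t ht
    have h1 : Tendsto (fun k => ‖q (ψ k) t‖) atTop (𝓝 ‖Q t‖) :=
      (hlim.tendsto_at ht).norm
    have h2 : Tendsto (fun k => Real.exp (g (c t) + C' / (d : ℝ) ^ (φ (ψ k)))) atTop
        (𝓝 (Real.exp (g (c t)))) := by
      have h3 : Tendsto (fun k => (d : ℝ) ^ (φ (ψ k))) atTop atTop :=
        (tendsto_pow_atTop_atTop_of_one_lt hd1).comp (hφ.tendsto_atTop.comp hψ.tendsto_atTop)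
      have h4 : Tendsto (fun k => g (c t) + C' / (d : ℝ) ^ (φ (ψ k))) atTop (𝓝 (g (c t) + 0)) :=
        (h3.const_div_atTop C').const_add _
      rw [add_zero] at h4
      exact (Real.continuous_exp.tendsto _).comp h4
    exact le_of_tendsto_of_tendsto' h1 h2 fun k => hup _ t (hsub ht)
  -- the lower bound for the limit at immersed points
  have hQlow : ∀ t₁ ∈ ball t₀ (r / 2), wg (c t₁) (deriv c t₁) ≠ 0 →
      Real.exp (g (c t₁)) ≤ ‖Q t₁‖ := by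
    intro t₁ ht₁ hW
    by_contra hlt
    rw [not_le] at hlt
    obtain ⟨b', hb'1, hb'2⟩ := exists_between hlt
    obtain ⟨b, hb1, hb2⟩ := exists_between hb'2
    have hb0 : 0 < b := lt_of_le_of_lt (norm_nonneg _) (hb'1.trans hb1)
    set ε : ℝ := (g (c t₁) - Real.log b) / 2 with hε
    have hε0 : 0 < ε := by
      have : Real.log b < g (c t₁) := by
        rw [Real.log_lt_iff_lt_exp hb0]; exact hb2
      rw [hε]; linarith
    have hn : ball t₀ (r / 2) ∈ 𝓝 t₁ := isOpen_ball.mem_nhds ht₁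
    have ev1 : ∀ᶠ t in 𝓝 t₁, ‖Q t‖ < b' :=
      ((hQc.continuousAt hn).norm).eventually_lt_const hb'1
    have ev2 : ∀ᶠ t in 𝓝 t₁, Real.log b < g (c t) - ε := by
      have h1 : ContinuousAt (fun t => g (c t) - ε) t₁ :=
        ((hgc.mono hsub).continuousAt hn).sub continuousAt_const
      refine h1.eventually_const_lt ?_
      show Real.log b < g (c t₁) - ε
      have : Real.log b < g (c t₁) := by
        rw [Real.log_lt_iff_lt_exp hb0]; exact hb2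
      rw [hε]; linarith
    obtain ⟨V, hV, hunif⟩ := Metric.tendstoLocallyUniformlyOn_iff.1 hlim (b - b') (by linarith)
      t₁ ht₁
    rw [isOpen_ball.nhdsWithin_eq ht₁] at hV
    have hU : {t | ‖Q t‖ < b' ∧ Real.log b < g (c t) - ε ∧ t ∈ V ∧ t ∈ ball t₀ (r / 2)} ∈ 𝓝 t₁ := by
      filter_upwards [ev1, ev2, hV, hn] with t h1 h2 h3 h4 using ⟨h1, h2, h3, h4⟩
    obtain ⟨r', hr', himg⟩ := image_disc (hca t₁ (hsub ht₁)) (hnz t₁ (hsub ht₁)) hW hU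
    obtain ⟨n₀, hn₀⟩ := deep_point hD hy (hnz t₁ (hsub ht₁)) hr' hε0
    have htop : ∀ᶠ k in atTop, n₀ ≤ φ (ψ k) :=
      (hφ.tendsto_atTop.comp hψ.tendsto_atTop).eventually_ge_atTop n₀
    obtain ⟨k, hk1, hk2⟩ := (hunif.and htop).exists
    obtain ⟨v, hv0, hv1, hv2, hv3⟩ := hn₀ _ hk2
    obtain ⟨t, ⟨ht1, ht2, ht3, ht4⟩, htv⟩ := himg v hv0 hv1
    have hct : c t ≠ 0 := hnz t (hsub ht4)
    obtain ⟨κ, hκ⟩ := (wg_eq_zero_iff hct v).1 htv
    have hκ0 : κ ≠ 0 := by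
      rintro rfl; rw [zero_smul] at hκ; exact hv0 hκ
    have hκn : 0 < ‖κ‖ := norm_pos_iff.2 hκ0
    have hfn : 0 < ‖wg (A^[φ (ψ k)] (c t)) y‖ := norm_pos_iff.2 (hφn _ t (hsub ht4))
    rw [hκ, hD.lift.iter_hom, wg_smul_left, norm_mul, norm_pow,
      Real.log_mul (by positivity) (by positivity), Real.log_pow, hD.pot.smul κ _ hκ0 hct] at hv3
    push_cast at hv3
    have hql : ‖q (ψ k) t‖ < b := by
      have h1 := hk1 t ht3
      rw [dist_eq_norm] at h1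
      calc ‖q (ψ k) t‖ ≤ ‖Q t‖ + ‖Q t - q (ψ k) t‖ := by
            have := norm_sub_norm_le (q (ψ k) t) (Q t)
            rw [norm_sub_rev] at this
            linarith
        _ < b' + (b - b') := by linarith
        _ = b := by ring
    rw [hnq _ t (hsub ht4), ← Real.lt_log_iff_exp_lt hb0] at hql
    have hdn : (0 : ℝ) < (d : ℝ) ^ φ (ψ k) := by positivity
    have h5 := hql.trans ht2
    rw [div_lt_iff₀ hdn] at h5
    nlinarith
  -- the curve is immersed off `t₀`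
  have ht₀ : t₀ ∈ ball t₀ (r / 2) := mem_ball_self hρ
  have hWa : AnalyticAt ℂ (fun t => wg (c t) (deriv c t)) t₀ :=
    analyticAt_wg (hca t₀ (hsub ht₀)) (hca t₀ (hsub ht₀)).deriv
  rcases hWa.eventually_eq_zero_or_eventually_ne_zero with hW0 | hW1
  · apply hh
    have hpar := par_const (hca t₀ (hsub ht₀)) (hnz t₀ (hsub ht₀)) hW0
    have h1 := harmAt_par hD.pot (hca t₀ (hsub ht₀)) (analyticAt_const (v := c t₀))
      (hnz t₀ (hsub ht₀)) (hnz t₀ (hsub ht₀))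
      (hpar.mono fun t ht => by rw [wg_swap, ht, neg_zero])
    have h2 : HarmAt (fun _ : ℂ => g (c t₀)) t₀ := by
      have := harmAt_re (e := fun _ => ((g (c t₀) : ℝ) : ℂ)) (z := t₀) analyticAt_const
      simpa using this
    refine (h1.add h2).congr (Eventually.of_forall fun t => ?_)
    simp
  · apply hh
    have hn : ball t₀ (r / 2) ∈ 𝓝 t₀ := isOpen_ball.mem_nhds ht₀
    have ev : ∀ᶠ t in 𝓝[≠] t₀, ‖Q t‖ = Real.exp (g (c t)) := by
      filter_upwards [hW1, mem_nhdsWithin_of_mem_nhds hn] with t h1 h2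
      exact le_antisymm (hQup t h2) (hQlow t h2 h1)
    have c1 : ContinuousAt (fun t => ‖Q t‖) t₀ := (hQc.continuousAt hn).norm
    have c2 : ContinuousAt (fun t => Real.exp (g (c t))) t₀ :=
      Real.continuous_exp.continuousAt.comp ((hgc.mono hsub).continuousAt hn)
    have e0 : ‖Q t₀‖ = Real.exp (g (c t₀)) := by
      have t1 : Tendsto (fun t => ‖Q t‖) (𝓝[≠] t₀) (𝓝 ‖Q t₀‖) := c1.tendsto.mono_left
        nhdsWithin_le_nhds
      have t2 : Tendsto (fun t => Real.exp (g (c t))) (𝓝[≠] t₀) (𝓝 (Real.exp (g (c t₀)))) :=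
        c2.tendsto.mono_left nhdsWithin_le_nhds
      exact tendsto_nhds_unique (t1.congr' ev) t2 |>.symm ▸ rfl
    have ev' : ∀ᶠ t in 𝓝 t₀, ‖Q t‖ = Real.exp (g (c t)) := by
      rw [eventually_nhdsWithin_iff] at ev
      filter_upwards [ev] with t ht
      by_cases h : t = t₀
      · rw [h]; exact e0
      · exact ht h
    have hQa : AnalyticAt ℂ Q t₀ := hQd.analyticAt hn
    have hQ0 : Q t₀ ≠ 0 := by
      rw [← norm_pos_iff, e0]; exact Real.exp_pos _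
    refine (harmAt_log hQa hQ0).congr ?_
    filter_upwards [ev'] with t ht
    rw [ht, Real.log_exp]

end Pool.Agent.Work.MP_78b16e_an
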