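import Mathlib

/-!
Common definitions for the proof of S05099 (right reversible semigroups of rational functions).
Points of the projective line are nonzero vectors of `ℂ × ℂ` up to scaling.
-/

set_option autoImplicit false

namespace Pool.Agent.Work.MP_78b16e_an

open Polynomial Metric

/-- Wedge product; nonzero vectors `x`, `y` define the same point of the projective line
iff `wg x y = 0`. -/
def wg (x y : ℂ × ℂ) : ℂ := x.1 * y.2 - x.2 * y.1

/-- The standard complement of a vector. -/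
noncomputable def perp (x : ℂ × ℂ) : ℂ × ℂ := (-(starRingEnd ℂ) x.2, (starRingEnd ℂ) x.1)

/-- Value at `v` of the homogenisation in degree `d` of the polynomial `p`. -/
noncomputable def hform (d : ℕ) (p : ℂ[X]) (v : ℂ × ℂ) : ℂ :=
  ∑ i ∈ Finset.range (d + 1), p.coeff i * v.1 ^ i * v.2 ^ (d - i)

/-- `A` is a homogeneous polynomial map of degree `d` without zeros outside the origin. -/
structure IsLift (d : ℕ) (A : ℂ × ℂ → ℂ × ℂ) : Prop where
  form : ∃ p q : ℂ[X], ∀ v, A v = (hform d p v, hform d q v)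
  nz : ∀ v, v ≠ 0 → A v ≠ 0

/-- Composition of rational functions, as in the frozen statement. -/
noncomputable def rcomp (f g : RatFunc ℂ) : RatFunc ℂ :=
  Polynomial.aeval g (RatFunc.num f) / Polynomial.aeval g (RatFunc.denom f)

/-- Degree of a rational function, as in the frozen statement. -/
noncomputable def rdeg (f : RatFunc ℂ) : ℕ :=
  max (RatFunc.num f).natDegree (RatFunc.denom f).natDegree

/-- The standard lift of a rational function. -/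
noncomputable def rlift (f : RatFunc ℂ) (v : ℂ × ℂ) : ℂ × ℂ :=
  (hform (rdeg f) f.num v, hform (rdeg f) f.denom v)

/-- Special rational functions, as in the frozen statement. -/
def Special (f : RatFunc ℂ) : Prop :=
  ((∃ (ω₁ ω₂ a b : ℂ) (θ : ℂ → ℂ),
      LinearIndependent ℝ ![ω₁, ω₂] ∧
      (∃ m₁ n₁ m₂ n₂ : ℤ, a * ω₁ = (m₁ : ℂ) * ω₁ + (n₁ : ℂ) * ω₂ ∧
          a * ω₂ = (m₂ : ℂ) * ω₁ + (n₂ : ℂ) * ω₂) ∧
      MeromorphicOn θ Set.univ ∧
      (∀ z : ℂ, θ (z + ω₁) = θ z ∧ θ (z + ω₂) = θ z) ∧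
      (∃ z : ℂ, DifferentiableAt ℂ θ z ∧ deriv θ z ≠ 0) ∧
      (∀ᶠ z in Filter.codiscrete ℂ,
        RatFunc.eval (RingHom.id ℂ) (θ z) f = θ (a * z + b))) ∨
   (∃ μ : RatFunc ℂ, rdeg μ = 1 ∧ ∃ n : ℕ,
      (rcomp μ f = rcomp (RatFunc.X ^ n) μ ∨
       rcomp μ f = rcomp (RatFunc.X ^ n)⁻¹ μ ∨
       rcomp μ f = rcomp (algebraMap (Polynomial ℂ) (RatFunc ℂ)
          (Polynomial.Chebyshev.T ℂ (n : ℤ))) μ ∨
       rcomp μ f = rcomp (-(algebraMap (Polynomial ℂ) (RatFunc ℂ)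
          (Polynomial.Chebyshev.T ℂ (n : ℤ)))) μ)))

/-- `A` is totally ramified at `x` (one preimage of `A x`, of multiplicity `d`). -/
def TR (d : ℕ) (A : ℂ × ℂ → ℂ × ℂ) (x : ℂ × ℂ) : Prop :=
  ∃ k : ℂ, ∀ v, wg (A v) (A x) = k * (wg v x) ^ d

def NoTR (d : ℕ) (A : ℂ × ℂ → ℂ × ℂ) : Prop := ∀ x, x ≠ 0 → ¬ TR d A x

/-- `p` is a fixed totally ramified point, and there is no other totally ramified point. -/
def OneTR (d : ℕ) (A : ℂ × ℂ → ℂ × ℂ) (p : ℂ × ℂ) : Prop :=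
  p ≠ 0 ∧ TR d A p ∧ wg (A p) p = 0 ∧ ∀ x, x ≠ 0 → TR d A x → wg x p = 0

/-- `y` is not an exceptional point. -/
def Tgt (d : ℕ) (A : ℂ × ℂ → ℂ × ℂ) (y : ℂ × ℂ) : Prop :=
  y ≠ 0 ∧ (NoTR d A ∨ ∃ p, OneTR d A p ∧ wg y p ≠ 0)

/-- A continuous logarithmically homogeneous function (a potential). -/
structure IsPot (g : ℂ × ℂ → ℝ) : Prop where
  cont : ContinuousOn g {0}ᶜ
  smul : ∀ (c : ℂ) (v : ℂ × ℂ), c ≠ 0 → v ≠ 0 → g (c • v) = Real.log ‖c‖ + g v

/-- `g` is the Green function (up to normalisation) of the rational function `A`. -/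
def Compat (g : ℂ × ℂ → ℝ) (A : RatFunc ℂ) : Prop :=
  ∃ κ : ℝ, ∀ v, v ≠ 0 → g (rlift A v) = (rdeg A : ℝ) * g v + κ

/-- A lift together with its normalised Green function. -/
structure Dyn (g : ℂ × ℂ → ℝ) (d : ℕ) (A : ℂ × ℂ → ℂ × ℂ) : Prop where
  lift : IsLift d A
  two : 2 ≤ d
  pot : IsPot g
  inv : ∀ v, v ≠ 0 → g (A v) = (d : ℝ) * g v

/-- `u` is harmonic near `z`: locally the real part of a holomorphic function. -/
def HarmAt (u : ℂ → ℝ) (z : ℂ) : Prop :=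
  ∃ r > 0, ∃ e : ℂ → ℂ, DifferentiableOn ℂ e (ball z r) ∧ ∀ y ∈ ball z r, u y = (e y).re

def HarmOn (u : ℂ → ℝ) (U : Set ℂ) : Prop := ∀ z ∈ U, HarmAt u z

/-- Linearisation data at a repelling fixed point. -/
structure Lin (g : ℂ × ℂ → ℝ) (D : ℕ) (B : ℂ × ℂ → ℂ × ℂ) (lam : ℂ) (ψ : ℂ → ℂ × ℂ)
    (p : ℂ → ℂ) : Prop where
  dyn : Dyn g D B
  one : 1 < ‖lam‖
  diff : Differentiable ℂ ψ
  nz : ∀ z, ψ z ≠ 0
  imm : wg (ψ 0) (deriv ψ 0) ≠ 0
  pdiff : Differentiable ℂ p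
  eqn : ∀ z, B (ψ z) = Complex.exp (p z) • ψ (lam * z)

/-- Translations preserving `u` modulo harmonic functions. -/
def TT (u : ℂ → ℝ) : Set ℂ := {τ | HarmOn (fun z => u (z + τ) - u z) Set.univ}

end Pool.Agent.Work.MP_78b16e_an
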