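import Pool.Agent.Work.MP_78b16e_an.ExcE
import Pool.Agent.Work.MP_78b16e_an.PotA

/-! Totally ramified points; nonspecial functions; the polynomial case of Part A. -/

set_option autoImplicit false

namespace Pool.Agent.Work.MP_78b16e_an

open Polynomial

theorem TR_of_smul {d : ℕ} {A B : ℂ × ℂ → ℂ × ℂ} {c : ℂ} (hc : c ≠ 0) (h : ∀ v, B v = c • A v)
    {x : ℂ × ℂ} (hB : TR d B x) : TR d A x := by
  have h1 := hB.smul c⁻¹
  have h2 : (fun v => c⁻¹ • B v) = A := by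
    funext v
    rw [h, smul_smul, inv_mul_cancel₀ hc, one_smul]
  rwa [h2] at h1

theorem iterate_mem {S : Set (RatFunc ℂ)} (hc : ∀ f ∈ S, ∀ g ∈ S, rcomp f g ∈ S)
    {F : RatFunc ℂ} (hF : F ∈ S) (n : ℕ) (hn : 1 ≤ n) : (rcomp F)^[n] RatFunc.X ∈ S := by
  induction n, hn using Nat.le_induction with
  | base => rw [Function.iterate_one, rcomp_X]; exact hF
  | succ n _ ih => rw [Function.iterate_succ_apply']; exact hc F hF _ ih

/-- in the situation of case 2 all elements are polynomials with the same point at infinity -/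
theorem common_point (S : Set (RatFunc ℂ)) (hc : ∀ f ∈ S, ∀ g ∈ S, rcomp f g ∈ S)
    (hd : ∀ f ∈ S, 2 ≤ rdeg f)
    (hTR : ∀ C ∈ S, ∃ x, x ≠ 0 ∧ TR (rdeg C) (rlift C) x)
    (F : RatFunc ℂ) (hF : F ∈ S) (hns : ¬ Special F) :
    ∃ p, p ≠ 0 ∧ ∀ A ∈ S, TR (rdeg A) (rlift A) p ∧ wg (rlift A p) p = 0 := by
  have hF2 := hd F hF
  have hF1 : 1 ≤ rdeg F := by omega
  have hLF := rlift_isLift F
  have h3 : ((fun v => (1 : ℂ) • rlift F v)^[3]) = (rlift F)^[3] := by
    congr 1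
    funext v
    rw [one_smul]
  set F3 : RatFunc ℂ := (rcomp F)^[3] RatFunc.X with hF3
  have hF3S : F3 ∈ S := iterate_mem hc hF 3 (by omega)
  obtain ⟨hF3d, c, hc0, hF3l⟩ := rlift_iterate F hF1 3
  rw [← hF3] at hF3d hF3l
  have hF3TR : ∀ x, TR (rdeg F3) (rlift F3) x → TR (rdeg F ^ 3) ((rlift F)^[3]) x := by
    intro x hx
    rw [hF3d] at hx
    exact TR_of_smul hc0 hF3l hx
  rcases exc_of_nonspecial F hF2 hns (one_ne_zero) with h | ⟨p, hp, hpre⟩
  · exfalso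
    rw [h3] at h
    obtain ⟨x, hx, hx2⟩ := hTR F3 hF3S
    exact h x hx (hF3TR x hx2)
  rw [h3] at hp
  obtain ⟨hp0, hp1, hp2, hp3⟩ := hp
  refine ⟨p, hp0, fun A hA => ?_⟩
  have hLA := rlift_isLift A
  have hA1 : 1 ≤ rdeg A := by have := hd A hA; omega
  have hLF3 := rlift_isLift F3
  have hF31 : 1 ≤ rdeg F3 := by have := hd F3 hF3S; omega
  -- F3 fixes p
  have hF3p : ∀ x, wg x p = 0 → wg (rlift F3 x) p = 0 := by
    intro x hx
    obtain ⟨a, ha⟩ := (wg_eq_zero_iff hp0 x).1 (by rw [wg_swap, hx, neg_zero])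
    rw [ha, hLF3.hom, wg_smul_left, hF3l, wg_smul_left, hp2, mul_zero, mul_zero]
  have hW : rcomp A F3 ∈ S := hc A hA F3 hF3S
  obtain ⟨cW, hcW, hWl⟩ := rlift_rcomp A F3 hF31
  have hWd := rdeg_rcomp A F3 hF31
  -- TR points of A ∘ F3
  have step1 : ∀ x, x ≠ 0 → TR (rdeg (rcomp A F3)) (rlift (rcomp A F3)) x →
      wg x p = 0 ∧ TR (rdeg A) (rlift A) p := by
    intro x hx hxT
    rw [hWd] at hxT
    have h4 : TR (rdeg A * rdeg F3) (rlift A ∘ rlift F3) x := TR_of_smul hcW hWl hxT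
    obtain ⟨h5, h6⟩ := TR.of_comp hA1 hF31 hLA hLF3 hx h4
    have h7 := hp3 x hx (hF3TR x h5)
    refine ⟨h7, ?_⟩
    exact h6.congr hLA (hLF3.nz x hx) hp0 (hF3p x h7)
  obtain ⟨x, hx, hxT⟩ := hTR _ hW
  obtain ⟨-, hATR⟩ := step1 x hx hxT
  refine ⟨hATR, ?_⟩
  have hW2 : rcomp F3 (rcomp A F3) ∈ S := hc _ hF3S _ hW
  have hW1 : 1 ≤ rdeg (rcomp A F3) := by have := hd _ hW; omega
  obtain ⟨cV, hcV, hVl⟩ := rlift_rcomp F3 (rcomp A F3) hW1
  have hVd := rdeg_rcomp F3 (rcomp A F3) hW1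
  obtain ⟨y, hy, hyT⟩ := hTR _ hW2
  rw [hVd] at hyT
  have h4 : TR (rdeg F3 * rdeg (rcomp A F3)) (rlift F3 ∘ rlift (rcomp A F3)) y :=
    TR_of_smul hcV hVl hyT
  obtain ⟨h5, h6⟩ := TR.of_comp hF31 hW1 hLF3 (rlift_isLift _) hy h4
  obtain ⟨h7, -⟩ := step1 y hy h5
  have h8 := hp3 _ ((rlift_isLift _).nz y hy) (hF3TR _ h6)
  rw [hWl, wg_smul_left] at h8
  have h9 : wg (rlift A (rlift F3 y)) p = 0 := by
    rcases mul_eq_zero.1 h8 with h | h
    · exact absurd h hcW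
    · exact h
  obtain ⟨a, ha⟩ := (wg_eq_zero_iff hp0 (rlift F3 y)).1 (by rw [wg_swap, hF3p y h7, neg_zero])
  have ha0 := ne_zero_of_smul ha (hLF3.nz y hy)
  rw [ha, hLA.hom, wg_smul_left] at h9
  rcases mul_eq_zero.1 h9 with h | h
  · exact absurd h (pow_ne_zero _ ha0)
  · exact h

/-- the diagonal linear maps are uniformly bi-Lipschitz -/
theorem diag_bound {p q : ℂ × ℂ} (hpq : wg p q = 1) {g : ℂ × ℂ → ℝ} (hg : IsPot g) :
    ∃ C : ℝ, ∀ η : ℂ, ‖η‖ = 1 → ∀ w : ℂ × ℂ, w ≠ 0 →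
      |g ((η * wg w q) • p + (wg p w) • q) - g w| ≤ C := by
  obtain ⟨C0, hC0, hC0'⟩ := hg.bdd
  have hp : p ≠ 0 := by
    rintro rfl
    rw [wg_zero_left] at hpq
    exact zero_ne_one hpq
  have hq : q ≠ 0 := by
    rintro rfl
    rw [wg_zero_right] at hpq
    exact zero_ne_one hpq
  have hpn : 0 < ‖p‖ := norm_pos_iff.2 hp
  have hqn : 0 < ‖q‖ := norm_pos_iff.2 hq
  set K : ℝ := 4 * ‖p‖ * ‖q‖ with hK
  have hKpos : 0 < K := by positivity
  have hle : ∀ η : ℂ, ‖η‖ = 1 → ∀ w : ℂ × ℂ,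
      ‖(η * wg w q) • p + (wg p w) • q‖ ≤ K * ‖w‖ := by
    intro η hη w
    calc ‖(η * wg w q) • p + (wg p w) • q‖ ≤ ‖(η * wg w q) • p‖ + ‖(wg p w) • q‖ :=
          norm_add_le _ _
      _ = ‖wg w q‖ * ‖p‖ + ‖wg p w‖ * ‖q‖ := by
          rw [norm_smul, norm_smul, norm_mul, hη, one_mul]
      _ ≤ (2 * ‖w‖ * ‖q‖) * ‖p‖ + (2 * ‖p‖ * ‖w‖) * ‖q‖ := by
          gcongr
          · exact norm_wg_le w q
          · exact norm_wg_le p w
      _ = K * ‖w‖ := by rw [hK]; ring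
  have hinv : ∀ η : ℂ, ‖η‖ = 1 → ∀ w : ℂ × ℂ,
      w = (η⁻¹ * wg ((η * wg w q) • p + (wg p w) • q) q) • p +
        (wg p ((η * wg w q) • p + (wg p w) • q)) • q := by
    intro η hη w
    have hη0 : η ≠ 0 := by
      rintro rfl
      simp at hη
    rw [wg_add_left, wg_smul_left, wg_smul_left, wg_self, mul_zero, add_zero, hpq, mul_one,
      wg_add_right, wg_smul_right, wg_self, mul_zero, zero_add, wg_smul_right, hpq, mul_one,
      inv_mul_cancel_left₀ hη0]
    exact coords hpq w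
  refine ⟨2 * C0 + |Real.log K|, fun η hη w hw => ?_⟩
  set w' : ℂ × ℂ := (η * wg w q) • p + (wg p w) • q with hw'
  have hη' : ‖η⁻¹‖ = 1 := by rw [norm_inv, hη, inv_one]
  have h1 : ‖w'‖ ≤ K * ‖w‖ := hle η hη w
  have h2 : ‖w‖ ≤ K * ‖w'‖ := by
    have h3 := hle η⁻¹ hη' w'
    rw [← hinv η hη w] at h3
    exact h3
  have hw'0 : w' ≠ 0 := by
    intro h0
    rw [h0, norm_zero, mul_zero] at h2
    exact hw (norm_le_zero_iff.1 h2)
  have hwn : 0 < ‖w‖ := norm_pos_iff.2 hw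
  have hw'n : 0 < ‖w'‖ := norm_pos_iff.2 hw'0
  have h4 : Real.log ‖w'‖ ≤ Real.log K + Real.log ‖w‖ := by
    rw [← Real.log_mul hKpos.ne' hwn.ne']
    exact Real.log_le_log hw'n h1
  have h5 : Real.log ‖w‖ ≤ Real.log K + Real.log ‖w'‖ := by
    rw [← Real.log_mul hKpos.ne' hw'n.ne']
    exact Real.log_le_log hwn h2
  have h6 := abs_le.1 (hC0' w hw)
  have h7 := abs_le.1 (hC0' w' hw'0)
  have h8 := le_abs_self (Real.log K)
  rw [abs_le]
  constructor <;> linarith [h6.1, h6.2, h7.1, h7.2]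

/-- bounded distortion of a potential under a lift -/
theorem pot_lift_bound {g : ℂ × ℂ → ℝ} (hg : IsPot g) {m : ℕ} (hm : 1 ≤ m)
    {G : ℂ × ℂ → ℂ × ℂ} (hG : IsLift m G) :
    ∃ C : ℝ, ∀ w : ℂ × ℂ, w ≠ 0 → |g (G w) - m * g w| ≤ C := by
  have hm0 : (m : ℝ) ≠ 0 := by exact_mod_cast (by omega : m ≠ 0)
  have hg' : IsPot (fun v => (1 / (m : ℝ)) * g (G v)) := by
    constructor
    · apply ContinuousOn.mul continuousOn_const
      apply hg.cont.comp hG.differentiable.continuous.continuousOn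
      intro v hv
      exact hG.nz v hv
    · intro c v hc hv
      show (1 / (m : ℝ)) * g (G (c • v)) = _
      rw [hG.hom, hg.smul _ _ (pow_ne_zero _ hc) (hG.nz v hv), norm_pow, Real.log_pow]
      field_simp
  obtain ⟨C1, -, hC1⟩ := hg.bdd
  obtain ⟨C2, -, hC2⟩ := hg'.bdd
  refine ⟨m * (C1 + C2), fun w hw => ?_⟩
  have h1 := hC1 w hw
  have h2 := hC2 w hw
  have h3 : g (G w) - m * g w = m * (((1 / (m : ℝ)) * g (G w) - Real.log ‖w‖) -
      (g w - Real.log ‖w‖)) := by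
    field_simp
    ring
  rw [h3, abs_mul, Nat.abs_cast]
  apply mul_le_mul_of_nonneg_left _ (Nat.cast_nonneg m)
  calc |((1 / (m : ℝ)) * g (G w) - Real.log ‖w‖) - (g w - Real.log ‖w‖)| ≤
      |((1 / (m : ℝ)) * g (G w) - Real.log ‖w‖)| + |g w - Real.log ‖w‖| := abs_sub _ _
    _ ≤ C2 + C1 := add_le_add h2 h1
    _ = C1 + C2 := add_comm _ _

theorem inv_iterate {g : ℂ × ℂ → ℝ} {d : ℕ} {A : ℂ × ℂ → ℂ × ℂ} (hA : IsLift d A)
    (h : ∀ v, v ≠ 0 → g (A v) = (d : ℝ) * g v) (n : ℕ) :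
    ∀ v, v ≠ 0 → A^[n] v ≠ 0 ∧ g (A^[n] v) = (d : ℝ) ^ n * g v := by
  induction n with
  | zero => intro v hv; simpa using hv
  | succ n ih =>
    intro v hv
    obtain ⟨h1, h2⟩ := ih v hv
    rw [Function.iterate_succ_apply']
    refine ⟨hA.nz _ h1, ?_⟩
    rw [h _ h1, h2, pow_succ]
    ring

/-- Part A, case 2: every element of the semigroup has a totally ramified point. -/
theorem partA_case2 (S : Set (RatFunc ℂ)) (hc : ∀ f ∈ S, ∀ g ∈ S, rcomp f g ∈ S)
    (hd : ∀ f ∈ S, 2 ≤ rdeg f)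
    (hrev : ∀ A ∈ S, ∀ B ∈ S, ∃ P ∈ S, ∃ Q ∈ S, rcomp P A = rcomp Q B)
    (hTR : ∀ C ∈ S, ∃ x, x ≠ 0 ∧ TR (rdeg C) (rlift C) x)
    (F : RatFunc ℂ) (hF : F ∈ S) (hns : ¬ Special F) :
    ∃ g, IsPot g ∧ ∀ A ∈ S, Compat g A := by
  obtain ⟨p, hp, hpA⟩ := common_point S hc hd hTR F hF hns
  have hF2 := hd F hF
  have hF1 : 1 ≤ rdeg F := by omega
  have hLF := rlift_isLift F
  set d := rdeg F with hdd
  obtain ⟨q, f, hpq, hfd, hPF, hcen⟩ := exists_centered hF2 hLF hp (hpA F hF).1 (hpA F hF).2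
  have hq : q ≠ 0 := by
    rintro rfl
    rw [wg_zero_right] at hpq
    exact zero_ne_one hpq
  -- the polynomial is not a monomial
  have hnm : ∃ j < d, f.coeff j ≠ 0 := by
    by_contra hcon
    push Not at hcon
    obtain ⟨h1, h2⟩ := TR_of_monomial hF1 hLF hpq (hpA F hF).2 hfd hPF hcon
    exact hns (special_of_two_fixed hF2 hp hq (by rw [hpq]; exact one_ne_zero) (hpA F hF).1 h1
      (hpA F hF).2 h2)
  obtain ⟨g, hg, hginv⟩ := exists_green hF2 hLF
  refine ⟨g, hg, fun G hG => ?_⟩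
  have hG2 := hd G hG
  have hG1 : 1 ≤ rdeg G := by omega
  have hLG := rlift_isLift G
  set m := rdeg G with hm
  obtain ⟨g1, hg1d, hPG⟩ := PF.exists hG1 hLG hpq (hpA G hG).1 (hpA G hG).2
  -- affine maps
  have key : ∀ n, 1 ≤ n → ∃ a b : ℂ, a ≠ 0 ∧ ∀ t, (fun z => f.eval z)^[n] (g1.eval t) =
      a * g1.eval ((fun z => f.eval z)^[n] t) + b := by
    intro n hn
    set Fn : RatFunc ℂ := (rcomp F)^[n] RatFunc.X with hFn
    have hFnS : Fn ∈ S := iterate_mem hc hF n hn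
    have hFnd : rdeg Fn = d ^ n := (rlift_iterate F hF1 n).1
    have hFn1 : 1 ≤ rdeg Fn := by have := hd Fn hFnS; omega
    have hPFn : PF p q (rlift Fn) (f.comp^[n] X) := PF.iterate hF1 hPF n
    have hPA : PF p q (rlift (rcomp Fn G)) ((f.comp^[n] X).comp g1) := PF.rcomp hG1 hPFn hPG
    have hPB : PF p q (rlift (rcomp G Fn)) (g1.comp (f.comp^[n] X)) := PF.rcomp hFn1 hPG hPFn
    have hAS : rcomp Fn G ∈ S := hc _ hFnS _ hG
    have hBS : rcomp G Fn ∈ S := hc _ hG _ hFnS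
    obtain ⟨U, hU, V, hV, hUV⟩ := hrev _ hAS _ hBS
    have hU1 : 1 ≤ rdeg U := by have := hd U hU; omega
    have hV1 : 1 ≤ rdeg V := by have := hd V hV; omega
    obtain ⟨u, hud, hPU⟩ := PF.exists hU1 (rlift_isLift U) hpq (hpA U hU).1 (hpA U hU).2
    obtain ⟨w, hwd, hPV⟩ := PF.exists hV1 (rlift_isLift V) hpq (hpA V hV).1 (hpA V hV).2
    have hA1 : 1 ≤ rdeg (rcomp Fn G) := by have := hd _ hAS; omega
    have hB1 : 1 ≤ rdeg (rcomp G Fn) := by have := hd _ hBS; omega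
    have h1 := PF.rcomp hA1 hPU hPA
    have h2 := PF.rcomp hB1 hPV hPB
    rw [hUV] at h1
    have h3 := PF.unique hpq h1 h2
    have hN1 : ((f.comp^[n] X).comp g1).natDegree = d ^ n * m := by
      rw [natDegree_comp, natDegree_iterate_comp, natDegree_X, mul_one, hfd, hg1d]
    have hN2 : (g1.comp (f.comp^[n] X)).natDegree = d ^ n * m := by
      rw [natDegree_comp, natDegree_iterate_comp, natDegree_X, mul_one, hfd, hg1d, mul_comm]
    have hNpos : 1 ≤ d ^ n * m := Nat.one_le_iff_ne_zero.2 (by positivity)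
    have hdeg : w.natDegree = u.natDegree := by
      have h4 := congrArg natDegree h3
      rw [natDegree_comp (p := u), natDegree_comp (p := w), hN1, hN2] at h4
      exact (Nat.eq_of_mul_eq_mul_right hNpos h4).symm
    obtain ⟨a, b, ha, hab⟩ := poly_left_factor hNpos (by omega : 1 ≤ u.natDegree) hN2 hN1
      hdeg rfl h3.symm
    refine ⟨a, b, ha, fun t => ?_⟩
    have h5 := congrArg (fun P => P.eval t) hab
    simp only [eval_comp, iterate_comp_eval, eval_X, eval_add, eval_mul, eval_C] at h5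
    exact h5
  have hab : ∀ n : ℕ, ∃ ab : ℂ × ℂ, 1 ≤ n → (ab.1 ≠ 0 ∧ ∀ t, (fun z => f.eval z)^[n] (g1.eval t) =
      ab.1 * g1.eval ((fun z => f.eval z)^[n] t) + ab.2) := by
    intro n
    by_cases hn : 1 ≤ n
    · obtain ⟨a, b, h1, h2⟩ := key n hn
      exact ⟨(a, b), fun _ => ⟨h1, h2⟩⟩
    · exact ⟨0, fun h => absurd h hn⟩
  choose ab hab' using hab
  have hseq := unimodular_sequence hF2 (by omega : 1 ≤ g1.natDegree) hfd hcen hnm
    (fun n => (ab n).1) (fun n => (ab n).2) (fun n hn => (hab' n hn).1)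
    (fun n hn => (hab' n hn).2)
  have hcomm : ∀ n, 1 ≤ n → ∃ η : ℂ, ‖η‖ = 1 ∧ ∀ t, (fun z => f.eval z)^[n] (g1.eval t) =
      η * g1.eval ((fun z => f.eval z)^[n] t) := by
    intro n hn
    obtain ⟨h1, h2⟩ := hseq n hn
    refine ⟨(ab n).1, h2, fun t => ?_⟩
    have h3 := (hab' n hn).2 t
    have h4 : (ab n).2 = 0 := h1
    rw [h4, add_zero] at h3
    exact h3
  -- bounds
  obtain ⟨C1, hC1⟩ := diag_bound hpq hg
  obtain ⟨C2, hC2⟩ := pot_lift_bound hg hG1 hLG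
  set h : ℂ × ℂ → ℝ := fun v => g (rlift G v) - m * g v with hh
  have main : ∀ n, 1 ≤ n → ∃ c : ℝ, ∀ v, wg p v ≠ 0 → |(d : ℝ) ^ n * h v - c| ≤ C1 + C2 := by
    intro n hn
    obtain ⟨η, hη, hηc⟩ := hcomm n hn
    obtain ⟨γ, hγ, hγ'⟩ := hPG
    -- iterated lift of F
    have hFn : ∃ β : ℂ, β ≠ 0 ∧ ∀ t : ℂ, (rlift F)^[n] (t • p + q) =
        β • ((fun z => f.eval z)^[n] t • p + q) := by
      clear hηc hn
      induction n with
      | zero => exact ⟨1, one_ne_zero, fun t => by simp⟩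
      | succ n ih =>
        obtain ⟨β, hβ, hβ'⟩ := ih
        obtain ⟨δ, hδ, hδ'⟩ := hPF
        refine ⟨β ^ d * δ, mul_ne_zero (pow_ne_zero _ hβ) hδ, fun t => ?_⟩
        rw [Function.iterate_succ_apply', Function.iterate_succ_apply', hβ', hLF.hom, hδ',
          smul_smul]
    obtain ⟨β, hβ, hβ'⟩ := hFn
    have hLFn : IsLift (d ^ n) ((rlift F)^[n]) := hLF.iterate n
    set c : ℂ := γ ^ (d ^ n) * β / (β ^ m * γ) with hcdef
    have hc0 : c ≠ 0 := div_ne_zero (mul_ne_zero (pow_ne_zero _ hγ) hβ)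
      (mul_ne_zero (pow_ne_zero _ hβ) hγ)
    refine ⟨Real.log ‖c‖, fun v hv => ?_⟩
    have hv0 : v ≠ 0 := by
      rintro rfl
      rw [wg_zero_right] at hv
      exact hv rfl
    set b : ℂ := wg p v with hb
    set t : ℂ := wg v q / b with ht
    have hvt : v = b • (t • p + q) := coords_affine hpq hv
    set w : ℂ × ℂ := rlift G ((rlift F)^[n] v) with hw
    have hFv := (inv_iterate hLF hginv n v hv0)
    have hw0 : w ≠ 0 := hLG.nz _ hFv.1
    have hwe : w = (b ^ (d ^ n * m) * (β ^ m * γ)) •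
        (g1.eval ((fun z => f.eval z)^[n] t) • p + q) := by
      rw [hw]
      conv_lhs => rw [hvt]
      rw [hLFn.hom, hβ', hLG.hom, hLG.hom, hγ', smul_smul, smul_smul, ← pow_mul]
      congr 1
      ring
    have hlhs : (rlift F)^[n] (rlift G v) = c • ((η * wg w q) • p + (wg p w) • q) := by
      have h1 : (rlift F)^[n] (rlift G v) = (b ^ (m * d ^ n) * (γ ^ (d ^ n) * β)) •
          ((η * g1.eval ((fun z => f.eval z)^[n] t)) • p + q) := by
        conv_lhs => rw [hvt]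
        rw [hLG.hom, hLFn.hom, hγ', hLFn.hom, hβ', hηc t, smul_smul, smul_smul, ← pow_mul]
        congr 1
        ring
      have h2 : wg w q = (b ^ (d ^ n * m) * (β ^ m * γ)) *
          g1.eval ((fun z => f.eval z)^[n] t) := by
        rw [hwe, wg_smul_left, wg_add_left, wg_self, wg_smul_left, hpq]
        ring
      have h3 : wg p w = (b ^ (d ^ n * m) * (β ^ m * γ)) := by
        rw [hwe, wg_smul_right, wg_add_right, wg_smul_right, wg_self, hpq]
        ring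
      rw [h1, h2, h3, smul_add, smul_add, smul_smul, smul_smul, smul_smul, hcdef]
      have h4 : b ^ (m * d ^ n) * (γ ^ (d ^ n) * β) =
          γ ^ (d ^ n) * β / (β ^ m * γ) * (b ^ (d ^ n * m) * (β ^ m * γ)) := by
        have h5 : β ^ m * γ ≠ 0 := mul_ne_zero (pow_ne_zero _ hβ) hγ
        field_simp
        rw [mul_comm m (d ^ n)]
      rw [h4]
      congr 2
      ring
    have hLw : (η * wg w q) • p + (wg p w) • q ≠ 0 := by
      intro h0
      have h1 := (inv_iterate hLF hginv n (rlift G v) (hLG.nz v hv0)).1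
      rw [hlhs, h0, smul_zero] at h1
      exact h1 rfl
    have h1 := (inv_iterate hLF hginv n (rlift G v) (hLG.nz v hv0)).2
    rw [hlhs, hg.smul c _ hc0 hLw] at h1
    have h2 := hC1 η hη w hw0
    have h3 := hC2 _ hFv.1
    rw [← hw, hFv.2] at h3
    have h4 : (d : ℝ) ^ n * h v - Real.log ‖c‖ =
        (g ((η * wg w q) • p + (wg p w) • q) - g w) + (g w - m * ((d : ℝ) ^ n * g v)) := by
      rw [hh]
      show (d : ℝ) ^ n * (g (rlift G v) - m * g v) - Real.log ‖c‖ = _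
      linarith
    rw [h4]
    exact (abs_add_le _ _).trans (add_le_add h2 h3)
  have hconst : ∀ v v', wg p v ≠ 0 → wg p v' ≠ 0 → h v = h v' := by
    intro v v' hv hv'
    by_contra hne
    have hpos : 0 < |h v - h v'| := abs_pos.2 (sub_ne_zero.2 hne)
    have hd1 : (1 : ℝ) < d := by exact_mod_cast (by omega : 1 < d)
    obtain ⟨n, hn⟩ := pow_unbounded_of_one_lt (2 * (C1 + C2) / |h v - h v'|) hd1
    have hn1 : (2 * (C1 + C2) / |h v - h v'|) < (d : ℝ) ^ (n + 1) := by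
      refine hn.trans_le (pow_le_pow_right₀ hd1.le (Nat.le_succ n))
    obtain ⟨c, hc'⟩ := main (n + 1) (by omega)
    have h1 := abs_le.1 (hc' v hv)
    have h2 := abs_le.1 (hc' v' hv')
    rw [div_lt_iff₀ hpos] at hn1
    have h3 : (d : ℝ) ^ (n + 1) * |h v - h v'| = |(d : ℝ) ^ (n + 1) * h v - (d : ℝ) ^ (n + 1) * h v'| := by
      rw [← mul_sub, abs_mul, abs_of_pos (by positivity : (0:ℝ) < (d : ℝ) ^ (n + 1))]
    rw [h3] at hn1
    have h4 : |(d : ℝ) ^ (n + 1) * h v - (d : ℝ) ^ (n + 1) * h v'| ≤ 2 * (C1 + C2) := by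
      rw [abs_le]
      constructor <;> linarith [h1.1, h1.2, h2.1, h2.2]
    linarith
  have hqv : wg p q ≠ 0 := by rw [hpq]; exact one_ne_zero
  refine ⟨h q, fun v hv => ?_⟩
  have hgoal : h v = h q := by
    by_cases hv' : wg p v = 0
    · -- continuity
      have hcont : ContinuousAt h v := by
        have h1 : ContinuousAt g v := hg.cont.continuousAt (isOpen_compl_singleton.mem_nhds hv)
        have h2 : ContinuousAt g (rlift G v) :=
          hg.cont.continuousAt (isOpen_compl_singleton.mem_nhds (hLG.nz v hv))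
        have h3 : ContinuousAt (fun v => g (rlift G v)) v :=
          ContinuousAt.comp (g := g) h2 hLG.differentiable.continuous.continuousAt
        exact h3.sub (h1.const_mul _)
      have hlim : Filter.Tendsto (fun ε : ℂ => v + ε • q) (nhdsWithin 0 {0}ᶜ) (nhds v) := by
        have h1 : Continuous (fun ε : ℂ => v + ε • q) := by fun_prop
        have h2 := h1.tendsto 0
        simp only [zero_smul, add_zero] at h2
        exact h2.mono_left nhdsWithin_le_nhds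
      have h1 := hcont.tendsto.comp hlim
      have h2 : Filter.Tendsto (h ∘ fun ε : ℂ => v + ε • q) (nhdsWithin 0 {0}ᶜ) (nhds (h q)) := by
        apply tendsto_const_nhds.congr'
        filter_upwards [self_mem_nhdsWithin] with ε hε
        apply hconst q _ hqv
        rw [wg_add_right, wg_smul_right, hv', hpq, zero_add, mul_one]
        exact hε
      exact tendsto_nhds_unique h1 h2
    · exact hconst v q hv' hqv
  have h1 : g (rlift G v) - m * g v = h q := hgoal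
  linarith

end Pool.Agent.Work.MP_78b16e_an
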