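import Pool.Agent.Work.MP_78b16e_an.Alg

/-! Totally ramified points. -/

set_option autoImplicit false

namespace Pool.Agent.Work.MP_78b16e_an

open Polynomial

/-- a binary form of degree `d` -/
structure IsForm (d : ℕ) (f : ℂ × ℂ → ℂ) : Prop where
  hom : ∀ (c : ℂ) (v : ℂ × ℂ), f (c • v) = c ^ d * f v
  line : ∀ x y : ℂ × ℂ, ∃ Q : ℂ[X], ∀ t : ℂ, f (x + t • y) = Q.eval t

theorem IsLift.isForm {d : ℕ} {A : ℂ × ℂ → ℂ × ℂ} (hA : IsLift d A) (w : ℂ × ℂ) :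
    IsForm d (fun v => wg (A v) w) := by
  refine ⟨fun c v => ?_, fun x y => ?_⟩
  · show wg (A (c • v)) w = c ^ d * wg (A v) w
    rw [hA.hom, wg_smul_left]
  · obtain ⟨p, q, -, -, h⟩ := hA.line x y
    refine ⟨p * C w.2 - q * C w.1, fun t => ?_⟩
    show wg (A (x + t • y)) w = _
    rw [h t]
    simp [wg]

theorem exists_wg_eq_one {y : ℂ × ℂ} (hy : y ≠ 0) : ∃ y', wg y' y = 1 := by
  refine ⟨(-(wg y (perp y))⁻¹) • perp y, ?_⟩
  rw [wg_smul_left, wg_swap (perp y) y]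
  have := wg_perp_ne hy
  field_simp

theorem eq_of_wg_one {y y' : ℂ × ℂ} (h : wg y' y = 1) (v : ℂ × ℂ) :
    v = (wg v y) • y' + (wg y' v) • y := by
  have := wg_decomp y' y v
  rw [h, one_smul] at this
  exact this

/-- a form with a single zero is a power of a linear form -/
theorem IsForm.single {d : ℕ} (hd : 1 ≤ d) {f : ℂ × ℂ → ℂ} (hf : IsForm d f) {y : ℂ × ℂ}
    (hy : y ≠ 0) (h : ∀ v, v ≠ 0 → f v = 0 → wg v y = 0) :
    ∃ k : ℂ, ∀ v, f v = k * (wg v y) ^ d := by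
  obtain ⟨y', hy'⟩ := exists_wg_eq_one hy
  obtain ⟨Q, hQ⟩ := hf.line y' y
  have hw : ∀ t : ℂ, wg (y' + t • y) y = 1 := by
    intro t
    rw [wg_add_left, wg_smul_left, wg_self, hy']; ring
  have hne : ∀ t : ℂ, y' + t • y ≠ 0 := by
    intro t h0
    have := hw t
    rw [h0, wg_zero_left] at this
    exact zero_ne_one this
  have hnr : ∀ t : ℂ, Q.eval t ≠ 0 := by
    intro t h0
    have h1 := h _ (hne t) ((hQ t).trans h0)
    rw [hw t] at h1
    exact one_ne_zero h1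
  have hdeg : Q.natDegree = 0 := by
    by_contra hcon
    have hd0 : Q.degree ≠ 0 := by
      intro h1
      exact hcon (natDegree_eq_of_degree_eq_some h1)
    obtain ⟨z, hz⟩ := IsAlgClosed.exists_root Q hd0
    exact hnr z hz
  obtain ⟨k, hk⟩ := natDegree_eq_zero.1 hdeg
  have hQk : ∀ t : ℂ, f (y' + t • y) = k := by
    intro t
    rw [hQ t, ← hk, eval_C]
  have hfy : f y = 0 := by
    obtain ⟨R, hR⟩ := hf.line y y'
    have hRk : R = C k * X ^ d := by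
      apply Polynomial.eq_of_infinite_eval_eq
      apply Set.Infinite.mono (s := {0}ᶜ)
      · intro s hs
        have hs0 : s ≠ 0 := hs
        have h1 : y + s • y' = s • (y' + s⁻¹ • y) := by
          rw [smul_add, smul_smul, mul_inv_cancel₀ hs0, one_smul, add_comm]
        have h2 := hR s
        rw [h1, hf.hom, hQk] at h2
        show R.eval s = (C k * X ^ d).eval s
        rw [← h2, eval_mul, eval_C, eval_pow, eval_X, mul_comm]
      · exact (Set.finite_singleton (0 : ℂ)).infinite_compl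
    have h3 := hR 0
    rw [zero_smul, add_zero, hRk] at h3
    rw [h3, eval_mul, eval_pow, eval_X, zero_pow (by omega), mul_zero]
  refine ⟨k, fun v => ?_⟩
  by_cases ha : wg v y = 0
  · have hv := eq_of_wg_one hy' v
    rw [ha, zero_smul, zero_add] at hv
    rw [ha, zero_pow (by omega), mul_zero, hv, hf.hom, hfy, mul_zero]
  · have hv := eq_of_wg_one hy' v
    have hv2 : v = (wg v y) • (y' + ((wg v y)⁻¹ * wg y' v) • y) := by
      rw [smul_add, smul_smul, ← mul_assoc, mul_inv_cancel₀ ha, one_mul]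
      exact hv
    have h4 : f v = (wg v y) ^ d * k := by
      conv_lhs => rw [hv2]
      rw [hf.hom, hQk]
    rw [h4, mul_comm]

theorem IsForm.exists_zero {d : ℕ} (hd : 1 ≤ d) {f : ℂ × ℂ → ℂ} (hf : IsForm d f) :
    ∃ v, v ≠ 0 ∧ f v = 0 := by
  by_contra hcon
  push Not at hcon
  have hy : ((1 : ℂ), (0 : ℂ)) ≠ 0 := by simp [Prod.ext_iff]
  obtain ⟨k, hk⟩ := hf.single hd hy (fun v hv h0 => absurd h0 (hcon v hv))
  refine hcon _ hy ?_
  rw [hk, wg_self, zero_pow (by omega), mul_zero]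

/-- a lift of positive degree is surjective on the projective line -/
theorem IsLift.surj {d : ℕ} (hd : 1 ≤ d) {A : ℂ × ℂ → ℂ × ℂ} (hA : IsLift d A) (w : ℂ × ℂ) :
    ∃ v, v ≠ 0 ∧ wg (A v) w = 0 := (hA.isForm w).exists_zero hd

theorem TR.coeff {d : ℕ} (hd : 1 ≤ d) {A : ℂ × ℂ → ℂ × ℂ} (hA : IsLift d A) {x : ℂ × ℂ}
    (hx : x ≠ 0) (h : TR d A x) : ∃ k : ℂ, k ≠ 0 ∧ ∀ v, wg (A v) (A x) = k * (wg v x) ^ d := by
  obtain ⟨k, hk⟩ := h
  refine ⟨k, ?_, hk⟩
  rintro rfl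
  have hAx := hA.nz x hx
  obtain ⟨w, hw⟩ := exists_wg_eq_one hAx
  have hw0 : w ≠ 0 := by
    rintro rfl
    rw [wg_zero_left] at hw
    exact zero_ne_one hw
  obtain ⟨v, hv, hv2⟩ := hA.surj hd w
  have h1 : wg (A v) (A x) = 0 := by rw [hk, zero_mul]
  have h2 : wg w (A x) = 0 := by
    apply wg_trans (hA.nz v hv) _ h1
    rw [wg_swap, hv2, neg_zero]
  rw [hw] at h2
  exact one_ne_zero h2

theorem TR.eq_zero_iff {d : ℕ} (hd : 1 ≤ d) {A : ℂ × ℂ → ℂ × ℂ} (hA : IsLift d A) {x : ℂ × ℂ}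
    (hx : x ≠ 0) (h : TR d A x) (v : ℂ × ℂ) : wg (A v) (A x) = 0 ↔ wg v x = 0 := by
  obtain ⟨k, hk, hk2⟩ := h.coeff hd hA hx
  rw [hk2]
  constructor
  · intro h1
    rcases mul_eq_zero.1 h1 with h1 | h1
    · exact absurd h1 hk
    · exact pow_eq_zero_iff (by omega) |>.1 h1
  · intro h1
    rw [h1, zero_pow (by omega), mul_zero]

theorem ne_zero_of_smul {c : ℂ} {x y : ℂ × ℂ} (h : y = c • x) (hy : y ≠ 0) : c ≠ 0 := by
  rintro rfl
  exact hy (by rw [h, zero_smul])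

theorem TR.congr {d : ℕ} {A : ℂ × ℂ → ℂ × ℂ} (hA : IsLift d A) {x y : ℂ × ℂ}
    (hx : x ≠ 0) (hy : y ≠ 0) (hxy : wg x y = 0) (h : TR d A x) : TR d A y := by
  obtain ⟨c, hc⟩ := (wg_eq_zero_iff hx y).1 hxy
  have hc0 := ne_zero_of_smul hc hy
  obtain ⟨k, hk⟩ := h
  refine ⟨k, fun v => ?_⟩
  rw [hc, hA.hom, wg_smul_right, hk, wg_smul_right, mul_pow]
  ring

theorem TR.smul {d : ℕ} {A : ℂ × ℂ → ℂ × ℂ} {x : ℂ × ℂ} (h : TR d A x) (c : ℂ) :
    TR d (fun v => c • A v) x := by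
  obtain ⟨k, hk⟩ := h
  refine ⟨c * c * k, fun v => ?_⟩
  show wg (c • A v) (c • A x) = _
  rw [wg_smul_left, wg_smul_right, hk]
  ring

theorem TR.comp {d e : ℕ} {A B : ℂ × ℂ → ℂ × ℂ} {x : ℂ × ℂ} (hB : TR e B x) (hA : TR d A (B x)) :
    TR (d * e) (A ∘ B) x := by
  obtain ⟨k, hk⟩ := hB
  obtain ⟨l, hl⟩ := hA
  refine ⟨l * k ^ d, fun v => ?_⟩
  show wg (A (B v)) (A (B x)) = _
  rw [hl, hk, mul_pow, ← pow_mul, mul_comm e d, mul_assoc]

theorem TR.of_comp {d e : ℕ} (hd : 1 ≤ d) (he : 1 ≤ e) {A B : ℂ × ℂ → ℂ × ℂ} (hA : IsLift d A)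
    (hB : IsLift e B) {x : ℂ × ℂ} (hx : x ≠ 0) (h : TR (d * e) (A ∘ B) x) :
    TR e B x ∧ TR d A (B x) := by
  have hde : 1 ≤ d * e := Nat.one_le_iff_ne_zero.2 (by positivity)
  have hz := h.eq_zero_iff hde (hA.comp hB) hx
  have hBx := hB.nz x hx
  constructor
  · obtain ⟨k, hk⟩ := (hB.isForm (B x)).single he hx (fun v hv h0 => by
      obtain ⟨c, hc⟩ := (wg_eq_zero_iff hBx (B v)).1 (by rw [wg_swap, h0, neg_zero])
      apply (hz v).1
      show wg (A (B v)) (A (B x)) = 0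
      rw [hc, hA.hom, wg_smul_left, wg_self, mul_zero])
    exact ⟨k, hk⟩
  · obtain ⟨k, hk⟩ := (hA.isForm (A (B x))).single hd hBx (fun w hw h0 => by
      obtain ⟨v, hv, hv2⟩ := hB.surj he w
      have hBv := hB.nz v hv
      obtain ⟨c, hc⟩ := (wg_eq_zero_iff hw (B v)).1 (by rw [wg_swap, hv2, neg_zero])
      have h1 : wg v x = 0 := by
        apply (hz v).1
        show wg (A (B v)) (A (B x)) = 0
        rw [hc, hA.hom, wg_smul_left]
        exact mul_eq_zero_of_right _ h0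
      obtain ⟨c', hc'⟩ := (wg_eq_zero_iff hx v).1 (by rw [wg_swap, h1, neg_zero])
      have h2 : wg (B v) (B x) = 0 := by
        rw [hc', hB.hom, wg_smul_left, wg_self, mul_zero]
      exact wg_trans hBv (by rw [wg_swap, hv2, neg_zero]) h2)
    exact ⟨k, hk⟩

/-- at most two totally ramified points -/
theorem TR_le_two {d : ℕ} (hd : 2 ≤ d) {A : ℂ × ℂ → ℂ × ℂ} (hA : IsLift d A) {x y z : ℂ × ℂ}
    (hx : x ≠ 0) (hy : y ≠ 0) (hz : z ≠ 0) (h1 : TR d A x) (h2 : TR d A y) (h3 : TR d A z) :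
    wg x y = 0 ∨ wg x z = 0 ∨ wg y z = 0 := by
  by_contra hcon
  push Not at hcon
  obtain ⟨hxy, hxz, hyz⟩ := hcon
  have hd1 : 1 ≤ d := by omega
  obtain ⟨k1, hk1, hk1'⟩ := h1.coeff hd1 hA hx
  obtain ⟨k2, hk2, hk2'⟩ := h2.coeff hd1 hA hy
  obtain ⟨k3, hk3, hk3'⟩ := h3.coeff hd1 hA hz
  have hab : wg (A x) (A y) ≠ 0 := by
    intro h
    exact hxy ((h2.eq_zero_iff hd1 hA hy x).1 h)
  have key : ∀ v, wg (A x) (A y) * (k3 * wg v z ^ d) + wg (A y) (A z) * (k1 * wg v x ^ d) +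
      wg (A z) (A x) * (k2 * wg v y ^ d) = 0 := by
    intro v
    rw [← hk1', ← hk2', ← hk3']
    simp only [wg]
    ring
  -- restrict to the line `x + t y`
  let P : ℂ[X] := C (wg (A x) (A y) * k3) * (C (wg x z) + C (wg y z) * X) ^ d +
    C (wg (A y) (A z) * k1 * (wg y x) ^ d) * X ^ d + C (wg (A z) (A x) * (k2 * wg x y ^ d))
  have hP : P = 0 := by
    apply Polynomial.funext
    intro t
    have h := key (x + t • y)
    simp only [wg_add_left, wg_smul_left, wg_self, add_zero, mul_zero, zero_add] at h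
    simp only [P, eval_add, eval_mul, eval_C, eval_pow, eval_X, eval_zero]
    rw [← h]
    ring
  have hP1 : (derivative P).eval 0 = 0 := by rw [hP]; simp
  simp only [P, derivative_add, derivative_mul, derivative_C, derivative_pow, derivative_X,
    zero_mul, zero_add, mul_one, eval_add, eval_mul, eval_C, eval_pow, eval_X, add_zero,
    mul_zero] at hP1
  rw [zero_pow (by omega)] at hP1
  simp only [mul_zero, add_zero] at hP1
  have h4 : (d : ℂ) ≠ 0 := by exact_mod_cast (by omega : d ≠ 0)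
  have h5 : wg (A x) (A y) * k3 * ((d : ℂ) * wg x z ^ (d - 1) * wg y z) = 0 := by
    rw [← hP1]
  have h6 : wg (A x) (A y) * k3 * ((d : ℂ) * wg x z ^ (d - 1) * wg y z) ≠ 0 :=
    mul_ne_zero (mul_ne_zero hab hk3) (mul_ne_zero (mul_ne_zero h4 (pow_ne_zero _ hxz)) hyz)
  exact h6 h5

end Pool.Agent.Work.MP_78b16e_an
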