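import Pool.Agent.Work.MP_78b16e_an.ExcA

/-! Two totally ramified points force the function to be special. -/

set_option autoImplicit false

namespace Pool.Agent.Work.MP_78b16e_an

open Polynomial

theorem hform_X_pow_eq (n : ℕ) (v : ℂ × ℂ) : hform n (X ^ n) v = v.1 ^ n := by
  unfold hform
  rw [Finset.sum_eq_single n]
  · simp
  · intro b _ hb
    rw [coeff_X_pow, if_neg hb, zero_mul, zero_mul]
  · intro h
    exact absurd (Finset.mem_range.2 (Nat.lt_succ_self n)) h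

theorem hform_one_eq (n : ℕ) (v : ℂ × ℂ) : hform n 1 v = v.2 ^ n := by
  unfold hform
  rw [Finset.sum_eq_single 0]
  · simp
  · intro b _ hb
    rw [coeff_one, if_neg hb, zero_mul, zero_mul]
  · intro h
    exact absurd (Finset.mem_range.2 (Nat.succ_pos n)) h

theorem X_pow_num (n : ℕ) : (RatFunc.X ^ n : RatFunc ℂ).num = X ^ n := by
  rw [← RatFunc.algebraMap_X, ← map_pow, RatFunc.num_algebraMap]

theorem X_pow_denom (n : ℕ) : (RatFunc.X ^ n : RatFunc ℂ).denom = 1 := by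
  rw [← RatFunc.algebraMap_X, ← map_pow, RatFunc.denom_algebraMap]

theorem X_pow_inv_eq (n : ℕ) : ((RatFunc.X ^ n : RatFunc ℂ)⁻¹) =
    algebraMap ℂ[X] (RatFunc ℂ) 1 / algebraMap ℂ[X] (RatFunc ℂ) (X ^ n) := by
  rw [map_one, map_pow, RatFunc.algebraMap_X, one_div]

theorem X_pow_inv_num (n : ℕ) : ((RatFunc.X ^ n : RatFunc ℂ)⁻¹).num = 1 := by
  rw [X_pow_inv_eq, RatFunc.num_div]
  simp

theorem X_pow_inv_denom (n : ℕ) : ((RatFunc.X ^ n : RatFunc ℂ)⁻¹).denom = X ^ n := by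
  rw [X_pow_inv_eq, RatFunc.denom_div _ (pow_ne_zero _ X_ne_zero)]
  simp

theorem rlift_X_pow (n : ℕ) (v : ℂ × ℂ) : rlift (RatFunc.X ^ n) v = (v.1 ^ n, v.2 ^ n) := by
  have h : rdeg (RatFunc.X ^ n) = n := by
    unfold rdeg
    rw [X_pow_num, X_pow_denom]; simp
  unfold rlift
  rw [h, X_pow_num, X_pow_denom, hform_X_pow_eq, hform_one_eq]

theorem rlift_X_pow_inv (n : ℕ) (v : ℂ × ℂ) :
    rlift ((RatFunc.X ^ n)⁻¹) v = (v.2 ^ n, v.1 ^ n) := by
  have h : rdeg ((RatFunc.X ^ n)⁻¹) = n := by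
    unfold rdeg
    rw [X_pow_inv_num, X_pow_inv_denom]; simp
  unfold rlift
  rw [h, X_pow_inv_num, X_pow_inv_denom, hform_X_pow_eq, hform_one_eq]

theorem rcomp_eq_of_lift {μ F f : RatFunc ℂ} (hF : 1 ≤ rdeg F) (hμ : 1 ≤ rdeg μ)
    (h : ∀ v, wg (rlift μ (rlift F v)) (rlift f (rlift μ v)) = 0) :
    rcomp μ F = rcomp f μ := by
  apply eq_of_infinite
  apply Set.Infinite.mono (s := Set.univ) _ Set.infinite_univ
  intro z _
  obtain ⟨c1, -, h1⟩ := rlift_rcomp μ F hF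
  obtain ⟨c2, -, h2⟩ := rlift_rcomp f μ hμ
  show wg (rlift (rcomp μ F) (z, 1)) (rlift (rcomp f μ) (z, 1)) = 0
  rw [h1, h2, wg_smul_left, wg_smul_right, h, mul_zero, mul_zero]

theorem special_of_pow {F : RatFunc ℂ} (hF : 1 ≤ rdeg F) {L : ℂ × ℂ → ℂ × ℂ} (hL : IsLift 1 L)
    (n : ℕ) (h : ∀ v, wg (L (rlift F v)) ((L v).1 ^ n, (L v).2 ^ n) = 0) : Special F := by
  obtain ⟨μ, hμ, c, hc, hμL⟩ := exists_ratFunc (le_refl 1) hL
  refine Or.inr ⟨μ, hμ, n, Or.inl ?_⟩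
  apply rcomp_eq_of_lift hF (by omega)
  intro v
  rw [rlift_X_pow, hμL, hμL, wg_smul_left]
  have h1 : (((c • L v).1 ^ n, (c • L v).2 ^ n) : ℂ × ℂ) = (c ^ n) • ((L v).1 ^ n, (L v).2 ^ n) := by
    ext <;> simp [mul_pow]
  rw [h1, wg_smul_right, h, mul_zero, mul_zero]

theorem special_of_pow_inv {F : RatFunc ℂ} (hF : 1 ≤ rdeg F) {L : ℂ × ℂ → ℂ × ℂ}
    (hL : IsLift 1 L) (n : ℕ)
    (h : ∀ v, wg (L (rlift F v)) ((L v).2 ^ n, (L v).1 ^ n) = 0) : Special F := by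
  obtain ⟨μ, hμ, c, hc, hμL⟩ := exists_ratFunc (le_refl 1) hL
  refine Or.inr ⟨μ, hμ, n, Or.inr (Or.inl ?_)⟩
  apply rcomp_eq_of_lift hF (by omega)
  intro v
  rw [rlift_X_pow_inv, hμL, hμL, wg_smul_left]
  have h1 : (((c • L v).2 ^ n, (c • L v).1 ^ n) : ℂ × ℂ) = (c ^ n) • ((L v).2 ^ n, (L v).1 ^ n) := by
    ext <;> simp [mul_pow]
  rw [h1, wg_smul_right, h, mul_zero, mul_zero]

/-- the linear map with coordinates `s * wg v x` and `wg v y` -/
theorem isLift_linear {x y : ℂ × ℂ} {s : ℂ} (hs : s ≠ 0) (hxy : wg x y ≠ 0) :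
    IsLift 1 (fun v => (s * wg v x, wg v y)) := by
  constructor
  · refine ⟨C (s * x.2) * X - C (s * x.1), C y.2 * X - C y.1, fun v => ?_⟩
    ext
    · simp [hform, wg, Finset.sum_range_succ]; ring
    · simp [hform, wg, Finset.sum_range_succ]; ring
  · intro v hv h0
    have h1 : s * wg v x = 0 := congrArg Prod.fst h0
    have h2 : wg v y = 0 := congrArg Prod.snd h0
    have h3 : wg v x = 0 := by
      rcases mul_eq_zero.1 h1 with h | h
      · exact absurd h hs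
      · exact h
    exact hxy (wg_trans hv (by rw [wg_swap, h3, neg_zero]) h2)

theorem exists_root_pow {n : ℕ} (hn : 1 ≤ n) {a : ℂ} (ha : a ≠ 0) : ∃ s : ℂ, s ≠ 0 ∧ s ^ n = a := by
  obtain ⟨s, hs⟩ := IsAlgClosed.exists_pow_nat_eq a (by omega : 0 < n)
  refine ⟨s, ?_, hs⟩
  rintro rfl
  rw [zero_pow (by omega)] at hs
  exact ha hs.symm

/-- two fixed totally ramified points -/
theorem special_of_two_fixed {F : RatFunc ℂ} (hF : 2 ≤ rdeg F) {x y : ℂ × ℂ} (hx : x ≠ 0)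
    (hy : y ≠ 0) (hxy : wg x y ≠ 0) (h1 : TR (rdeg F) (rlift F) x) (h2 : TR (rdeg F) (rlift F) y)
    (hfx : wg (rlift F x) x = 0) (hfy : wg (rlift F y) y = 0) : Special F := by
  have hA := rlift_isLift F
  obtain ⟨k1, hk1, hk1'⟩ := h1.coeff (by omega) hA hx
  obtain ⟨k2, hk2, hk2'⟩ := h2.coeff (by omega) hA hy
  obtain ⟨a, ha⟩ := (wg_eq_zero_iff hx (rlift F x)).1 (by rw [wg_swap, hfx, neg_zero])
  obtain ⟨b, hb⟩ := (wg_eq_zero_iff hy (rlift F y)).1 (by rw [wg_swap, hfy, neg_zero])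
  have ha0 := ne_zero_of_smul ha (hA.nz x hx)
  have hb0 := ne_zero_of_smul hb (hA.nz y hy)
  have hα : ∀ v, wg (rlift F v) x = (k1 / a) * (wg v x) ^ rdeg F := by
    intro v
    have := hk1' v
    rw [ha, wg_smul_right] at this
    field_simp
    rw [← this]
    ring
  have hβ : ∀ v, wg (rlift F v) y = (k2 / b) * (wg v y) ^ rdeg F := by
    intro v
    have := hk2' v
    rw [hb, wg_smul_right] at this
    field_simp
    rw [← this]
    ring
  obtain ⟨s, hs, hsp⟩ := exists_root_pow (n := rdeg F - 1) (by omega)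
    (a := (k1 / a) / (k2 / b)) (by positivity)
  refine special_of_pow (by omega) (isLift_linear hs hxy) (rdeg F) (fun v => ?_)
  show wg (s * wg (rlift F v) x, wg (rlift F v) y) ((s * wg v x) ^ rdeg F, (wg v y) ^ rdeg F) = 0
  have h3 : s ^ rdeg F = s * s ^ (rdeg F - 1) := by
    rw [← pow_succ']; congr 1; omega
  rw [hα, hβ, mul_pow, h3, hsp]
  simp only [wg]
  field_simp
  ring

/-- a cycle of two totally ramified points -/
theorem special_of_cycle {F : RatFunc ℂ} (hF : 2 ≤ rdeg F) {x y : ℂ × ℂ} (hx : x ≠ 0)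
    (hy : y ≠ 0) (hxy : wg x y ≠ 0) (h1 : TR (rdeg F) (rlift F) x) (h2 : TR (rdeg F) (rlift F) y)
    (hfx : wg (rlift F x) y = 0) (hfy : wg (rlift F y) x = 0) : Special F := by
  have hA := rlift_isLift F
  obtain ⟨k1, hk1, hk1'⟩ := h1.coeff (by omega) hA hx
  obtain ⟨k2, hk2, hk2'⟩ := h2.coeff (by omega) hA hy
  obtain ⟨a, ha⟩ := (wg_eq_zero_iff hy (rlift F x)).1 (by rw [wg_swap, hfx, neg_zero])
  obtain ⟨b, hb⟩ := (wg_eq_zero_iff hx (rlift F y)).1 (by rw [wg_swap, hfy, neg_zero])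
  have ha0 := ne_zero_of_smul ha (hA.nz x hx)
  have hb0 := ne_zero_of_smul hb (hA.nz y hy)
  have hα : ∀ v, wg (rlift F v) y = (k1 / a) * (wg v x) ^ rdeg F := by
    intro v
    have := hk1' v
    rw [ha, wg_smul_right] at this
    field_simp
    rw [← this]
    ring
  have hβ : ∀ v, wg (rlift F v) x = (k2 / b) * (wg v y) ^ rdeg F := by
    intro v
    have := hk2' v
    rw [hb, wg_smul_right] at this
    field_simp
    rw [← this]
    ring
  obtain ⟨s, hs, hsp⟩ := exists_root_pow (n := rdeg F + 1) (by omega)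
    (a := (k1 / a) / (k2 / b)) (by positivity)
  refine special_of_pow_inv (by omega) (isLift_linear hs hxy) (rdeg F) (fun v => ?_)
  show wg (s * wg (rlift F v) x, wg (rlift F v) y) ((wg v y) ^ rdeg F, (s * wg v x) ^ rdeg F) = 0
  rw [hα, hβ, mul_pow]
  have h3 : s ^ rdeg F * s = (k1 / a) / (k2 / b) := by
    rw [← pow_succ]; exact hsp
  have h4 : s * (k2 / b * wg v y ^ rdeg F) * (s ^ rdeg F * wg v x ^ rdeg F) =
      (s ^ rdeg F * s) * (k2 / b * wg v y ^ rdeg F * wg v x ^ rdeg F) := by ring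
  simp only [wg] at *
  rw [h4, h3]
  field_simp
  ring

end Pool.Agent.Work.MP_78b16e_an
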