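import Pool.Agent.Work.MP_78b16e_an.ExcB

/-! The third iterate of a nonspecial rational function. -/

set_option autoImplicit false

namespace Pool.Agent.Work.MP_78b16e_an

open Polynomial

theorem TR_iter3 {d : ℕ} (hd : 1 ≤ d) {A : ℂ × ℂ → ℂ × ℂ} (hA : IsLift d A) {x : ℂ × ℂ}
    (hx : x ≠ 0) : TR (d ^ 3) (A^[3]) x ↔ TR d A x ∧ TR d A (A x) ∧ TR d A (A (A x)) := by
  have h1 : A^[3] = A ∘ (A ∘ A) := rfl
  have h2 : d ^ 3 = d * (d * d) := by ring
  rw [h1, h2]
  constructor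
  · intro h
    have hAA := hA.comp hA
    obtain ⟨h3, h4⟩ := TR.of_comp hd (by nlinarith) hA hAA hx h
    obtain ⟨h5, h6⟩ := TR.of_comp hd hd hA hA hx h3
    exact ⟨h5, h6, h4⟩
  · rintro ⟨h3, h4, h5⟩
    exact TR.comp (TR.comp h3 h4) h5

/-- third iterate of a nonspecial rational function -/
theorem exc_of_nonspecial (F : RatFunc ℂ) (hF : 2 ≤ rdeg F) (hns : ¬ Special F)
    {c : ℂ} (hc : c ≠ 0) :
    NoTR (rdeg F ^ 3) ((fun v => c • rlift F v)^[3]) ∨
    ∃ p, OneTR (rdeg F ^ 3) ((fun v => c • rlift F v)^[3]) p ∧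
      ∀ v, v ≠ 0 → wg (rlift F v) p = 0 → wg v p = 0 := by
  set A : ℂ × ℂ → ℂ × ℂ := fun v => c • rlift F v with hAdef
  have hF1 : 1 ≤ rdeg F := by omega
  have hL := rlift_isLift F
  have hA : IsLift (rdeg F) A := hL.smul hc
  have hTR : ∀ x, TR (rdeg F) A x → TR (rdeg F) (rlift F) x := by
    intro x h
    have h1 := h.smul c⁻¹
    have h2 : (fun v => c⁻¹ • A v) = rlift F := by
      funext v
      rw [hAdef]
      show c⁻¹ • (c • rlift F v) = rlift F v
      rw [smul_smul, inv_mul_cancel₀ hc, one_smul]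
    rwa [h2] at h1
  have hwg : ∀ x y, wg (A x) y = 0 → wg (rlift F x) y = 0 := by
    intro x y h
    have h1 : wg (A x) y = c * wg (rlift F x) y := wg_smul_left _ _ _
    rw [h1] at h
    rcases mul_eq_zero.1 h with h | h
    · exact absurd h hc
    · exact h
  have hwg' : ∀ x y, wg (rlift F x) y = 0 → wg (A x) y = 0 := by
    intro x y h
    have h1 : wg (A x) y = c * wg (rlift F x) y := wg_smul_left _ _ _
    rw [h1, h, mul_zero]
  by_cases hno : NoTR (rdeg F ^ 3) (A^[3])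
  · exact Or.inl hno
  right
  unfold NoTR at hno
  push Not at hno
  obtain ⟨x, hx, hx3⟩ := hno
  obtain ⟨h1, h2, h3⟩ := (TR_iter3 hF1 hA hx).1 hx3
  have hAx := hA.nz x hx
  have hAAx := hA.nz _ hAx
  -- no two fixed totally ramified points
  have nofix : ∀ y z, y ≠ 0 → z ≠ 0 → TR (rdeg F) A y → TR (rdeg F) A z →
      wg (A y) y = 0 → wg (A z) z = 0 → wg y z = 0 := by
    intro y z hy hz hy1 hz1 hy2 hz2
    by_contra hcon
    exact hns (special_of_two_fixed hF hy hz hcon (hTR y hy1) (hTR z hz1) (hwg _ _ hy2)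
      (hwg _ _ hz2))
  -- there is a fixed totally ramified point
  have hfix : ∃ p, p ≠ 0 ∧ TR (rdeg F) A p ∧ wg (A p) p = 0 := by
    rcases TR_le_two hF hA hx hAx hAAx h1 h2 h3 with h | h | h
    · exact ⟨x, hx, h1, by rw [wg_swap, h, neg_zero]⟩
    · by_cases hxy : wg x (A x) = 0
      · exact ⟨x, hx, h1, by rw [wg_swap, hxy, neg_zero]⟩
      · exfalso
        exact hns (special_of_cycle hF hx hAx hxy (hTR x h1) (hTR _ h2)
          (hwg _ _ (wg_self _)) (hwg _ _ (by rw [wg_swap, h, neg_zero])))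
    · exact ⟨A x, hAx, h2, by rw [wg_swap, h, neg_zero]⟩
  obtain ⟨p, hp, hp1, hp2⟩ := hfix
  have hAp := hA.nz p hp
  have hAAp := hA.nz _ hAp
  have hpre : ∀ v, v ≠ 0 → wg (A v) p = 0 → wg v p = 0 := by
    intro v _ h
    apply (hp1.eq_zero_iff hF1 hA hp v).1
    exact wg_trans hp h (by rw [wg_swap, hp2, neg_zero])
  have hp3 : wg (A (A p)) p = 0 := by
    obtain ⟨a, ha⟩ := (wg_eq_zero_iff hp (A p)).1 (by rw [wg_swap, hp2, neg_zero])
    rw [ha, hA.hom, wg_smul_left, hp2, mul_zero]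
  have hp4 : wg (A (A (A p))) p = 0 := by
    obtain ⟨a, ha⟩ := (wg_eq_zero_iff hp (A (A p))).1 (by rw [wg_swap, hp3, neg_zero])
    rw [ha, hA.hom, wg_smul_left, hp2, mul_zero]
  refine ⟨p, ⟨hp, ?_, hp4, ?_⟩, fun v hv h => hpre v hv (hwg' _ _ h)⟩
  · rw [TR_iter3 hF1 hA hp]
    refine ⟨hp1, hp1.congr hA hp hAp (by rw [wg_swap, hp2, neg_zero]), ?_⟩
    exact hp1.congr hA hp hAAp (by rw [wg_swap, hp3, neg_zero])
  · intro y hy hy3
    obtain ⟨hy1, hy2, -⟩ := (TR_iter3 hF1 hA hy).1 hy3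
    have hAy := hA.nz y hy
    by_contra hcon
    rcases TR_le_two hF hA hp hy hAy hp1 hy1 hy2 with h | h | h
    · exact hcon (by rw [wg_swap, h, neg_zero])
    · exact hcon (hpre y hy (by rw [wg_swap, h, neg_zero]))
    · exact hcon (nofix y p hy hp hy1 hp1 (by rw [wg_swap, h, neg_zero]) hp2)

end Pool.Agent.Work.MP_78b16e_an
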