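import Mathlib

/-! Polynomials in one variable: left factors are unique up to affine maps; the scaling sequence. -/

set_option autoImplicit false

namespace Pool.Agent.Work.MP_78b16e_an

open Polynomial

theorem poly_comp_split (X' P : ℂ[X]) :
    X'.comp P = X'.eraseLead.comp P + C X'.leadingCoeff * P ^ X'.natDegree := by
  conv_lhs => rw [← eraseLead_add_C_mul_X_pow X']
  rw [add_comp, mul_comp, C_comp, X_pow_comp]

theorem poly_left_factor {X' Y' P Q : ℂ[X]} {N k : ℕ} (hN : 1 ≤ N) (hk : 1 ≤ k)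
    (hP : P.natDegree = N) (hQ : Q.natDegree = N) (hX : X'.natDegree = k) (hY : Y'.natDegree = k)
    (h : X'.comp P = Y'.comp Q) : ∃ a b : ℂ, a ≠ 0 ∧ Q = C a * P + C b := by
  have hP0 : P ≠ 0 := by rintro rfl; simp at hP; omega
  have hQ0 : Q ≠ 0 := by rintro rfl; simp at hQ; omega
  have hX0 : X' ≠ 0 := by rintro rfl; simp at hX; omega
  have hlp : P.leadingCoeff ≠ 0 := leadingCoeff_ne_zero.2 hP0
  have hlq : Q.leadingCoeff ≠ 0 := leadingCoeff_ne_zero.2 hQ0
  have hlx : X'.leadingCoeff ≠ 0 := leadingCoeff_ne_zero.2 hX0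
  have hlead : X'.leadingCoeff * P.leadingCoeff ^ k = Y'.leadingCoeff * Q.leadingCoeff ^ k := by
    have h1 := congrArg leadingCoeff h
    rw [leadingCoeff_comp (by omega), leadingCoeff_comp (by omega), hX, hY] at h1
    exact h1
  set c : ℂ := P.leadingCoeff / Q.leadingCoeff with hc
  have hc0 : c ≠ 0 := div_ne_zero hlp hlq
  have hxc : X'.leadingCoeff * c ^ k = Y'.leadingCoeff := by
    rw [hc, div_pow]
    field_simp
    rw [hlead, mul_comm]
  set Q1 : ℂ[X] := C c * Q with hQ1
  have hQ1n : Q1.natDegree = N := by rw [hQ1, natDegree_C_mul hc0, hQ]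
  have hQ1l : Q1.coeff N = P.coeff N := by
    rw [hQ1, coeff_C_mul]
    have h1 : Q.coeff N = Q.leadingCoeff := by rw [leadingCoeff, hQ]
    have h2 : P.coeff N = P.leadingCoeff := by rw [leadingCoeff, hP]
    rw [h1, h2, hc]
    field_simp
  -- the difference of the leading powers has small degree
  have hdiff : (P ^ k - Q1 ^ k).natDegree ≤ (k - 1) * N := by
    have h1 : C X'.leadingCoeff * (P ^ k - Q1 ^ k) =
        Y'.eraseLead.comp Q - X'.eraseLead.comp P := by
      have h2 := poly_comp_split X' P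
      have h3 := poly_comp_split Y' Q
      rw [hX] at h2
      rw [hY] at h3
      have h4 : C X'.leadingCoeff * Q1 ^ k = C Y'.leadingCoeff * Q ^ k := by
        rw [hQ1, mul_pow, ← C_pow, ← mul_assoc, ← C_mul, hxc]
      rw [mul_sub, h4]
      have h5 : C X'.leadingCoeff * P ^ k = X'.comp P - X'.eraseLead.comp P := by
        rw [h2]; ring
      have h6 : C Y'.leadingCoeff * Q ^ k = Y'.comp Q - Y'.eraseLead.comp Q := by
        rw [h3]; ring
      rw [h5, h6, h]
      ring
    have h7 : (C X'.leadingCoeff * (P ^ k - Q1 ^ k)).natDegree = (P ^ k - Q1 ^ k).natDegree :=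
      natDegree_C_mul hlx
    rw [← h7, h1]
    apply (natDegree_sub_le _ _).trans
    rw [natDegree_comp, natDegree_comp, hP, hQ]
    have h8 := eraseLead_natDegree_le X'
    have h9 := eraseLead_natDegree_le Y'
    rw [hX] at h8
    rw [hY] at h9
    exact max_le (Nat.mul_le_mul_right _ h9) (Nat.mul_le_mul_right _ h8)
  set S : ℂ[X] := ∑ i ∈ Finset.range k, P ^ i * Q1 ^ (k - 1 - i) with hS
  have hSmul : S * (P - Q1) = P ^ k - Q1 ^ k := geom_sum₂_mul P Q1 k
  have hScoeff : S.coeff ((k - 1) * N) = k * (P.coeff N) ^ (k - 1) := by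
    rw [hS, finsetSum_coeff]
    have h1 : ∀ i ∈ Finset.range k, (P ^ i * Q1 ^ (k - 1 - i)).coeff ((k - 1) * N) =
        (P.coeff N) ^ (k - 1) := by
      intro i hi
      have hi' : i ≤ k - 1 := by have := Finset.mem_range.1 hi; omega
      have h2 : (k - 1) * N = i * N + (k - 1 - i) * N := by
        rw [← add_mul]; congr 1; omega
      rw [h2, coeff_mul_add_eq_of_natDegree_le (natDegree_pow_le_of_le _ hP.le)
        (natDegree_pow_le_of_le _ hQ1n.le), coeff_pow_of_natDegree_le hP.le,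
        coeff_pow_of_natDegree_le hQ1n.le, hQ1l, ← pow_add]
      congr 1; omega
    rw [Finset.sum_congr rfl h1, Finset.sum_const, Finset.card_range, nsmul_eq_mul]
  have hPN : P.coeff N ≠ 0 := by
    have h2 : P.coeff N = P.leadingCoeff := by rw [leadingCoeff, hP]
    rw [h2]; exact hlp
  have hSc0 : S.coeff ((k - 1) * N) ≠ 0 := by
    rw [hScoeff]
    exact mul_ne_zero (by exact_mod_cast (by omega : k ≠ 0)) (pow_ne_zero _ hPN)
  have hS0 : S ≠ 0 := by
    intro h1
    rw [h1, coeff_zero] at hSc0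
    exact hSc0 rfl
  have hSdeg : (k - 1) * N ≤ S.natDegree := le_natDegree_of_ne_zero hSc0
  have hfin : (P - Q1).natDegree = 0 := by
    by_cases h0 : P - Q1 = 0
    · rw [h0, natDegree_zero]
    · have h1 : (S * (P - Q1)).natDegree = S.natDegree + (P - Q1).natDegree :=
        natDegree_mul hS0 h0
      rw [hSmul] at h1
      omega
  obtain ⟨b, hb⟩ := natDegree_eq_zero.1 hfin
  refine ⟨c⁻¹, -(c⁻¹ * b), inv_ne_zero hc0, ?_⟩
  have h1 : Q = C c⁻¹ * Q1 := by
    rw [hQ1, ← mul_assoc, ← C_mul, inv_mul_cancel₀ hc0, C_1, one_mul]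
  have h2 : Q1 = P - C b := by rw [hb]; ring
  rw [h1, h2, C_neg, C_mul]
  ring

/-- a centered polynomial that commutes with affine maps up to affine maps -/
theorem centered_affine {f : ℂ[X]} {d : ℕ} (hd : 2 ≤ d) (hf : f.natDegree = d)
    (hcen : f.coeff (d - 1) = 0) {η τ μ ν : ℂ} (hη : η ≠ 0)
    (h : ∀ z, f.eval (η * z + τ) = μ * f.eval z + ν) : τ = 0 := by
  have hfd : f.coeff d ≠ 0 := by
    have h1 : f.coeff d = f.leadingCoeff := by rw [leadingCoeff, hf]
    rw [h1, leadingCoeff_ne_zero]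
    rintro rfl
    simp at hf
    omega
  have h1 : (taylor τ f).comp (C η * X) = C μ * f + C ν := by
    apply Polynomial.funext
    intro z
    rw [eval_comp, taylor_eval, eval_mul, eval_C, eval_X, h z]
    simp
  have h2 := congrArg (fun p => coeff p (d - 1)) h1
  simp only [coeff_add, coeff_C_mul, hcen, mul_zero, zero_add] at h2
  rw [comp_C_mul_X_coeff, taylor_coeff, coeff_C, if_neg (by omega)] at h2
  rcases mul_eq_zero.1 h2 with h3 | h3
  · have h4 : (hasseDeriv (d - 1) f).natDegree < 2 := by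
      have := natDegree_hasseDeriv_le f (d - 1)
      omega
    rw [eval_eq_sum_range' h4, Finset.sum_range_succ, Finset.sum_range_one, hasseDeriv_coeff,
      hasseDeriv_coeff] at h3
    have h5 : 0 + (d - 1) = d - 1 := by omega
    have h6 : 1 + (d - 1) = d := by omega
    rw [h5, h6, hcen, mul_zero, zero_mul, zero_add, pow_one] at h3
    have h7 : (d.choose (d - 1) : ℂ) ≠ 0 := by
      have : 0 < d.choose (d - 1) := Nat.choose_pos (by omega)
      exact_mod_cast this.ne'
    rcases mul_eq_zero.1 h3 with h8 | h8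
    · exact absurd h8 (mul_ne_zero h7 hfd)
    · exact h8
  · exact absurd h3 (pow_ne_zero _ hη)

theorem norm_eq_one_of_scaling {f : ℂ[X]} {d : ℕ} (hf : f.natDegree = d) (hd : 1 ≤ d)
    (hnm : ∃ j < d, f.coeff j ≠ 0) {η μ : ℂ} (hη : η ≠ 0)
    (h : ∀ z, f.eval (η * z) = μ * f.eval z) : ‖η‖ = 1 := by
  have hfd : f.coeff d ≠ 0 := by
    have h1 : f.coeff d = f.leadingCoeff := by rw [leadingCoeff, hf]
    rw [h1, leadingCoeff_ne_zero]
    rintro rfl
    simp at hf
    omega
  have h1 : f.comp (C η * X) = C μ * f := by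
    apply Polynomial.funext
    intro z
    rw [eval_comp, eval_mul, eval_C, eval_X, h z, eval_mul, eval_C]
  have h2 : ∀ n, f.coeff n ≠ 0 → η ^ n = μ := by
    intro n hn
    have h3 := congrArg (fun p => coeff p n) h1
    simp only [coeff_C_mul] at h3
    rw [comp_C_mul_X_coeff, mul_comm] at h3
    exact mul_right_cancel₀ hn h3
  obtain ⟨j, hj, hj2⟩ := hnm
  have h4 := h2 j hj2
  have h5 := h2 d hfd
  have h6 : η ^ (d - j) = 1 := by
    have h7 : η ^ d = η ^ (d - j) * η ^ j := by rw [← pow_add]; congr 1; omega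
    rw [h5, ← h4] at h7
    have h8 : η ^ j ≠ 0 := pow_ne_zero _ hη
    have h9 : (η ^ (d - j) - 1) * η ^ j = 0 := by rw [sub_mul, ← h7, one_mul, sub_self]
    rcases mul_eq_zero.1 h9 with h10 | h10
    · exact sub_eq_zero.1 h10
    · exact absurd h10 h8
  exact Complex.norm_eq_one_of_pow_eq_one h6 (by omega)

/-- surjectivity of a nonconstant polynomial -/
theorem poly_surj {f : ℂ[X]} (hf : 1 ≤ f.natDegree) (w : ℂ) : ∃ z, f.eval z = w := by
  have h1 : (f - C w).degree ≠ 0 := by
    intro h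
    have h2 : (f - C w).natDegree = 0 := natDegree_eq_of_degree_eq_some h
    rw [natDegree_sub_C] at h2
    omega
  obtain ⟨z, hz⟩ := IsAlgClosed.exists_root _ h1
  refine ⟨z, ?_⟩
  have h3 : (f - C w).eval z = 0 := hz
  rw [eval_sub, eval_C, sub_eq_zero] at h3
  exact h3

theorem poly_iterate_surj {f : ℂ[X]} (hf : 1 ≤ f.natDegree) (n : ℕ) :
    Function.Surjective (fun z => f.eval z)^[n] :=
  Function.Surjective.iterate (fun w => poly_surj hf w) n

theorem unimodular_sequence {f g : ℂ[X]} {d : ℕ} (hd : 2 ≤ d) (hg : 1 ≤ g.natDegree)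
    (hf : f.natDegree = d) (hcen : f.coeff (d - 1) = 0) (hnm : ∃ j < d, f.coeff j ≠ 0)
    (η τ : ℕ → ℂ) (hη : ∀ n, 1 ≤ n → η n ≠ 0)
    (h : ∀ n, 1 ≤ n → ∀ t, (fun z => f.eval z)^[n] (g.eval t) =
      η n * g.eval ((fun z => f.eval z)^[n] t) + τ n) :
    ∀ n, 1 ≤ n → τ n = 0 ∧ ‖η n‖ = 1 := by
  have h1 : ∀ n, 1 ≤ n → ∀ z, f.eval (η n * z + τ n) =
      (η (n + 1) / η 1) * f.eval z + (τ (n + 1) - η (n + 1) / η 1 * τ 1) := by
    intro n hn z
    obtain ⟨s, hs⟩ := poly_surj hg z
    obtain ⟨t, ht⟩ := poly_iterate_surj (f := f) (by omega) n s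
    have h2 := h n hn t
    have h3 := h (n + 1) (by omega) t
    rw [Function.iterate_succ_apply', Function.iterate_succ_apply', h2, ht, hs] at h3
    have h4 := h 1 (le_refl 1) s
    rw [Function.iterate_one] at h4
    have h5 : g.eval (f.eval s) = (f.eval z - τ 1) / η 1 := by
      rw [eq_div_iff (hη 1 (le_refl 1))]
      rw [hs] at h4
      rw [h4]
      ring
    rw [h3]
    show η (n + 1) * g.eval (f.eval s) + τ (n + 1) = _
    rw [h5]
    ring
  have h2 : ∀ n, 1 ≤ n → τ n = 0 := by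
    intro n hn
    exact centered_affine hd hf hcen (hη n hn) (h1 n hn)
  intro n hn
  refine ⟨h2 n hn, ?_⟩
  apply norm_eq_one_of_scaling hf (by omega) hnm (hη n hn) (μ := η (n + 1) / η 1)
  intro z
  have h3 := h1 n hn z
  rw [h2 n hn, h2 (n + 1) (by omega), h2 1 (le_refl 1)] at h3
  simpa using h3

end Pool.Agent.Work.MP_78b16e_an
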