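import Pool.Agent.Work.MP_78b16e_an.ExcC
import Pool.Agent.Work.MP_78b16e_an.ExcD

/-! Functions with a fixed totally ramified point are polynomials in suitable coordinates. -/

set_option autoImplicit false

namespace Pool.Agent.Work.MP_78b16e_an

open Polynomial

/-- polynomial normal form in the basis `p`, `q` -/
def PF (p q : ℂ × ℂ) (A : ℂ × ℂ → ℂ × ℂ) (P : ℂ[X]) : Prop :=
  ∃ β : ℂ, β ≠ 0 ∧ ∀ t : ℂ, A (t • p + q) = β • (P.eval t • p + q)

theorem coords {p q : ℂ × ℂ} (hpq : wg p q = 1) (v : ℂ × ℂ) :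
    v = (wg v q) • p + (wg p v) • q := eq_of_wg_one hpq v

theorem coords_affine {p q : ℂ × ℂ} (hpq : wg p q = 1) {v : ℂ × ℂ} (hv : wg p v ≠ 0) :
    v = (wg p v) • ((wg v q / wg p v) • p + q) := by
  have h := coords hpq v
  rw [smul_add, smul_smul, mul_div_cancel₀ _ hv]
  exact h

theorem PF.exists {d : ℕ} (hd : 1 ≤ d) {A : ℂ × ℂ → ℂ × ℂ} (hA : IsLift d A) {p q : ℂ × ℂ}
    (hpq : wg p q = 1) (hTR : TR d A p) (hfix : wg (A p) p = 0) :
    ∃ P : ℂ[X], P.natDegree = d ∧ PF p q A P := by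
  have hp : p ≠ 0 := by
    rintro rfl
    rw [wg_zero_left] at hpq
    exact zero_ne_one hpq
  obtain ⟨k, hk, hk'⟩ := hTR.coeff hd hA hp
  obtain ⟨s, hs⟩ := (wg_eq_zero_iff hp (A p)).1 (by rw [wg_swap, hfix, neg_zero])
  have hs0 := ne_zero_of_smul hs (hA.nz p hp)
  obtain ⟨p1, q1, hp1, hq1, hl⟩ := hA.line q p
  set α : ℂ[X] := p1 * C q.2 - q1 * C q.1 with hα
  have hαe : ∀ t, α.eval t = wg (A (q + t • p)) q := by
    intro t
    rw [hl t, hα]
    simp [wg]
  have hαd : α.natDegree ≤ d := by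
    rw [hα]
    apply (natDegree_sub_le _ _).trans
    apply max_le
    · exact (natDegree_mul_C_le _ _).trans hp1
    · exact (natDegree_mul_C_le _ _).trans hq1
  set β : ℂ := -(k / s) * (-1) ^ d with hβ
  have hβ0 : β ≠ 0 := by
    rw [hβ]
    exact mul_ne_zero (neg_ne_zero.2 (div_ne_zero hk hs0)) (pow_ne_zero _ (by norm_num))
  have hβe : ∀ t : ℂ, wg p (A (q + t • p)) = β := by
    intro t
    have h1 := hk' (q + t • p)
    rw [hs, wg_smul_right, wg_add_left, wg_smul_left, wg_self, mul_zero, add_zero,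
      wg_swap q p, hpq] at h1
    rw [wg_swap p, hβ]
    have h2 : wg (A (q + t • p)) p = k / s * (-1) ^ d := by
      rw [div_mul_eq_mul_div, eq_div_iff hs0, ← h1]
      ring
    rw [h2]
    ring
  have hαc : α.coeff d ≠ 0 := by
    obtain ⟨r1, r2, -, -, hr⟩ := hA.line p q
    have hR : (r1 * C q.2 - r2 * C q.1) = reflect d α := by
      apply Polynomial.eq_of_infinite_eval_eq
      apply Set.Infinite.mono (s := {0}ᶜ)
      · intro τ hτ
        have hτ0 : τ ≠ 0 := hτ
        show (r1 * C q.2 - r2 * C q.1).eval τ = (reflect d α).eval τ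
        have h1 : (r1 * C q.2 - r2 * C q.1).eval τ = wg (A (p + τ • q)) q := by
          rw [hr τ]; simp [wg]
        have h2 : p + τ • q = τ • (q + τ⁻¹ • p) := by
          rw [smul_add, smul_smul, mul_inv_cancel₀ hτ0, one_smul, add_comm]
        rw [h1, h2, hA.hom, wg_smul_left, ← hαe]
        have : Invertible (τ⁻¹) := invertibleOfNonzero (inv_ne_zero hτ0)
        have h3 := eval₂_reflect_mul_pow (RingHom.id ℂ) (τ⁻¹) d α hαd
        rw [invOf_eq_inv, inv_inv] at h3
        change (reflect d α).eval τ * (τ⁻¹) ^ d = α.eval (τ⁻¹) at h3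
        rw [← h3, inv_pow]
        field_simp
      · exact (Set.finite_singleton (0 : ℂ)).infinite_compl
    have h1 : (r1 * C q.2 - r2 * C q.1).eval 0 = s := by
      have h2 : (r1 * C q.2 - r2 * C q.1).eval 0 = wg (A (p + (0 : ℂ) • q)) q := by
        rw [hr 0]; simp [wg]
      rw [h2, zero_smul, add_zero, hs, wg_smul_left, hpq, mul_one]
    rw [hR, ← coeff_zero_eq_eval_zero, coeff_reflect, revAt_le (Nat.zero_le d), Nat.sub_zero] at h1
    rw [h1]
    exact hs0
  refine ⟨C β⁻¹ * α, ?_, β, hβ0, fun t => ?_⟩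
  · rw [natDegree_C_mul (inv_ne_zero hβ0)]
    exact le_antisymm hαd (le_natDegree_of_ne_zero hαc)
  · have h1 := coords hpq (A (q + t • p))
    rw [hβe t, ← hαe t] at h1
    rw [add_comm (t • p) q, h1, smul_add, smul_smul, eval_mul, eval_C, ← mul_assoc,
      mul_inv_cancel₀ hβ0, one_mul]

theorem PF.smul {p q : ℂ × ℂ} {A : ℂ × ℂ → ℂ × ℂ} {P : ℂ[X]} (h : PF p q A P) {c : ℂ}
    (hc : c ≠ 0) {B : ℂ × ℂ → ℂ × ℂ} (hB : ∀ v, B v = c • A v) : PF p q B P := by
  obtain ⟨β, hβ, hβ'⟩ := h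
  refine ⟨c * β, mul_ne_zero hc hβ, fun t => ?_⟩
  rw [hB, hβ', smul_smul]

theorem PF.comp {p q : ℂ × ℂ} {d : ℕ} {A B : ℂ × ℂ → ℂ × ℂ} (hA : IsLift d A) {P Q : ℂ[X]}
    (h1 : PF p q A P) (h2 : PF p q B Q) : PF p q (fun v => A (B v)) (P.comp Q) := by
  obtain ⟨β, hβ, hβ'⟩ := h1
  obtain ⟨γ, hγ, hγ'⟩ := h2
  refine ⟨γ ^ d * β, mul_ne_zero (pow_ne_zero _ hγ) hβ, fun t => ?_⟩
  show A (B (t • p + q)) = _
  rw [hγ', hA.hom, hβ', smul_smul, eval_comp]

theorem PF.unique {p q : ℂ × ℂ} (hpq : wg p q = 1) {A : ℂ × ℂ → ℂ × ℂ} {P Q : ℂ[X]}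
    (h1 : PF p q A P) (h2 : PF p q A Q) : P = Q := by
  obtain ⟨β, hβ, hβ'⟩ := h1
  obtain ⟨γ, hγ, hγ'⟩ := h2
  have h3 : ∀ t, β • (P.eval t • p + q) = γ • (Q.eval t • p + q) := by
    intro t; rw [← hβ', ← hγ']
  have h4 : β = γ := by
    have h5 := congrArg (wg p) (h3 0)
    rw [wg_smul_right, wg_smul_right, wg_add_right, wg_add_right, wg_smul_right, wg_smul_right,
      wg_self, hpq, mul_zero, mul_zero, zero_add, mul_one, mul_one] at h5
    exact h5
  apply Polynomial.funext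
  intro t
  have h5 := congrArg (fun v => wg v q) (h3 t)
  simp only [wg_smul_left, wg_add_left, wg_self, hpq, mul_one, add_zero] at h5
  rw [h4] at h5
  exact mul_left_cancel₀ (h4 ▸ hβ) h5

theorem PF.rcomp {p q : ℂ × ℂ} {A B : RatFunc ℂ} (hB : 1 ≤ rdeg B) {P Q : ℂ[X]}
    (h1 : PF p q (rlift A) P) (h2 : PF p q (rlift B) Q) :
    PF p q (rlift (rcomp A B)) (P.comp Q) := by
  obtain ⟨c, hc, hc'⟩ := rlift_rcomp A B hB
  exact (PF.comp (rlift_isLift A) h1 h2).smul hc hc'

theorem PF.iterate {p q : ℂ × ℂ} {A : RatFunc ℂ} (hA : 1 ≤ rdeg A) {P : ℂ[X]}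
    (h : PF p q (rlift A) P) (n : ℕ) :
    PF p q (rlift ((_root_.Pool.Agent.Work.MP_78b16e_an.rcomp A)^[n] RatFunc.X))
      (P.comp^[n] X) := by
  induction n with
  | zero =>
    refine ⟨1, one_ne_zero, fun t => ?_⟩
    have h1 : rlift RatFunc.X (t • p + q) = t • p + q := by
      have := rlift_X_pow 1 (t • p + q)
      rw [pow_one] at this
      rw [this, pow_one, pow_one]
    rw [Function.iterate_zero, Function.iterate_zero, id, id, h1, eval_X, one_smul]
  | succ n ih =>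
    rw [Function.iterate_succ_apply', Function.iterate_succ_apply']
    apply PF.rcomp _ h ih
    rw [(rlift_iterate A hA n).1]
    exact Nat.one_le_pow _ _ hA

theorem taylor_coeff_pred {f : ℂ[X]} {d : ℕ} (hd : 1 ≤ d) (hf : f.natDegree = d) (σ : ℂ) :
    (taylor σ f).coeff (d - 1) = f.coeff (d - 1) + d * f.coeff d * σ := by
  rw [taylor_coeff]
  have h4 : (hasseDeriv (d - 1) f).natDegree < 2 := by
    have := natDegree_hasseDeriv_le f (d - 1)
    omega
  have h5 : 0 + (d - 1) = d - 1 := by omega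
  have h6 : 1 + (d - 1) = d := by omega
  have h7 : d.choose (d - 1) = d := by
    have h8 := Nat.choose_symm (n := d) (k := 1) hd
    rw [h8, Nat.choose_one_right]
  rw [eval_eq_sum_range' h4, Finset.sum_range_succ, Finset.sum_range_one, hasseDeriv_coeff,
    hasseDeriv_coeff, h5, h6, h7, Nat.choose_self, Nat.cast_one, one_mul, pow_zero, mul_one,
    pow_one]

/-- centered coordinates -/
theorem exists_centered {d : ℕ} (hd : 2 ≤ d) {A : ℂ × ℂ → ℂ × ℂ} (hA : IsLift d A) {p : ℂ × ℂ}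
    (hp : p ≠ 0) (hTR : TR d A p) (hfix : wg (A p) p = 0) :
    ∃ (q : ℂ × ℂ) (f : ℂ[X]), wg p q = 1 ∧ f.natDegree = d ∧ PF p q A f ∧ f.coeff (d - 1) = 0 := by
  obtain ⟨q', hq'⟩ := exists_wg_eq_one hp
  have hq0 : wg p (-q') = 1 := by
    rw [← hq', ← neg_one_smul ℂ q', wg_smul_right, wg_swap p q']
    ring
  obtain ⟨f, hfd, β, hβ, hβ'⟩ := PF.exists (by omega) hA hq0 hTR hfix
  have hlc : f.coeff d ≠ 0 := by
    have h1 : f.coeff d = f.leadingCoeff := by rw [leadingCoeff, hfd]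
    rw [h1, leadingCoeff_ne_zero]
    rintro rfl
    simp at hfd
    omega
  have hd0 : (d : ℂ) ≠ 0 := by exact_mod_cast (by omega : d ≠ 0)
  set σ : ℂ := -(f.coeff (d - 1)) / (d * f.coeff d) with hσ
  refine ⟨-q' + σ • p, taylor σ f - C σ, ?_, ?_, ⟨β, hβ, fun t => ?_⟩, ?_⟩
  · rw [wg_add_right, wg_smul_right, wg_self, mul_zero, add_zero, hq0]
  · rw [natDegree_sub_C, natDegree_taylor, hfd]
  · have h1 : t • p + (-q' + σ • p) = (t + σ) • p + -q' := by
      rw [add_smul]; abel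
    rw [h1, hβ', eval_sub, taylor_eval, eval_C, sub_smul]
    congr 1
    abel
  · rw [coeff_sub, taylor_coeff_pred (by omega) hfd, coeff_C, if_neg (by omega), sub_zero, hσ]
    field_simp
    ring

/-- if the polynomial is a monomial then there is a second fixed totally ramified point -/
theorem TR_of_monomial {d : ℕ} (hd : 1 ≤ d) {A : ℂ × ℂ → ℂ × ℂ} (hA : IsLift d A) {p q : ℂ × ℂ}
    (hpq : wg p q = 1) (hfix : wg (A p) p = 0) {f : ℂ[X]} (hf : f.natDegree = d)
    (hPF : PF p q A f) (hmon : ∀ j, j < d → f.coeff j = 0) :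
    TR d A q ∧ wg (A q) q = 0 := by
  obtain ⟨β, hβ, hβ'⟩ := hPF
  have hp : p ≠ 0 := by
    rintro rfl
    rw [wg_zero_left] at hpq
    exact zero_ne_one hpq
  have hq : q ≠ 0 := by
    rintro rfl
    rw [wg_zero_right] at hpq
    exact zero_ne_one hpq
  have hfe : f = C (f.coeff d) * X ^ d := by
    ext j
    rw [coeff_C_mul, coeff_X_pow]
    rcases lt_trichotomy j d with h | h | h
    · rw [hmon j h, if_neg (by omega), mul_zero]
    · rw [h, if_pos rfl, mul_one]
    · rw [if_neg (by omega), mul_zero, coeff_eq_zero_of_natDegree_lt (by omega)]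
  have hlc : f.coeff d ≠ 0 := by
    have h1 : f.coeff d = f.leadingCoeff := by rw [leadingCoeff, hf]
    rw [h1, leadingCoeff_ne_zero]
    rintro rfl
    simp at hf
    omega
  have hAq : A q = β • q := by
    have h1 := hβ' 0
    rw [zero_smul, zero_add, ← coeff_zero_eq_eval_zero, hmon 0 (by omega), zero_smul,
      zero_add] at h1
    exact h1
  have hAq2 : wg (A q) q = 0 := by rw [hAq, wg_smul_left, wg_self, mul_zero]
  refine ⟨?_, hAq2⟩
  obtain ⟨k, hk⟩ := (hA.isForm (A q)).single hd hq (fun v hv h0 => by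
    rw [hAq, wg_smul_right] at h0
    have h1 : wg (A v) q = 0 := by
      rcases mul_eq_zero.1 h0 with h | h
      · exact absurd h hβ
      · exact h
    by_cases hb : wg p v = 0
    · exfalso
      obtain ⟨a, ha⟩ := (wg_eq_zero_iff hp v).1 hb
      have hAv : wg p (A v) = 0 := by
        rw [ha, hA.hom, wg_smul_right, wg_swap, hfix, neg_zero, mul_zero]
      have h2 := wg_trans (hA.nz v hv) hAv h1
      rw [hpq] at h2
      exact one_ne_zero h2
    · have h2 := coords_affine hpq hb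
      rw [h2, hA.hom, hβ', wg_smul_left, wg_smul_left, wg_add_left, wg_self, add_zero,
        wg_smul_left, hpq, mul_one] at h1
      have h3 : f.eval (wg v q / wg p v) = 0 := by
        rcases mul_eq_zero.1 h1 with h | h
        · exact absurd h (pow_ne_zero _ hb)
        · rcases mul_eq_zero.1 h with h | h
          · exact absurd h hβ
          · exact h
      rw [hfe, eval_mul, eval_C, eval_pow, eval_X] at h3
      rcases mul_eq_zero.1 h3 with h | h
      · exact absurd h hlc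
      · have h4 := pow_eq_zero_iff (by omega : d ≠ 0) |>.1 h
        rcases div_eq_zero_iff.1 h4 with h5 | h5
        · exact h5
        · exact absurd h5 hb)
  exact ⟨k, hk⟩

end Pool.Agent.Work.MP_78b16e_an
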