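import Pool.Agent.Work.MP_78b16e_an.Loc

/-! Koenigs linearisation in one variable, and a Taylor remainder lemma.  (owner: helper71) -/

set_option autoImplicit false

namespace Pool.Agent.Work.MP_78b16e_an

open Metric Filter Topology

/-- quadratic remainder of an analytic function vanishing at `0` -/
theorem quad_bound {k : ℂ → ℂ} (hk : AnalyticAt ℂ k 0) (hk0 : k 0 = 0) :
    ∃ C > 0, ∃ r > 0, ∀ t ∈ ball (0 : ℂ) r, ‖k t - deriv k 0 * t‖ ≤ C * ‖t‖ ^ 2 := by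
  obtain ⟨q, hq⟩ := hk
  have h1 := hq.isBigO_sub_partialSum_pow 2
  obtain ⟨C, hC, h2⟩ := h1.exists_pos
  obtain ⟨r, hr, h3⟩ := Metric.eventually_nhds_iff_ball.1 h2.bound
  refine ⟨C, hC, r, hr, fun t ht => ?_⟩
  have h4 := h3 t ht
  have h5 : q.partialSum 2 t = deriv k 0 * t := by
    rw [FormalMultilinearSeries.partialSum, Finset.sum_range_succ, Finset.sum_range_one]
    have h6 : q 0 (fun _ => t) = 0 := by
      have := hq.coeff_zero (fun _ => t)
      rw [this, hk0]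
    rw [h6, zero_add, q.apply_eq_pow_smul_coeff, hq.deriv, pow_one, smul_eq_mul, mul_comm]
    rfl
  rw [zero_add, h5] at h4
  simpa using h4

/-- Taylor polynomial and remainder -/
theorem taylor_rem {l : ℂ → ℂ} (hl : AnalyticAt ℂ l 0) (K : ℕ) :
    ∃ p : ℂ → ℂ, Differentiable ℂ p ∧ ∃ C > 0, ∃ r > 0, ∀ t ∈ ball (0 : ℂ) r,
      ‖l t - p t‖ ≤ C * ‖t‖ ^ K := by
  obtain ⟨q, hq⟩ := hl
  have h1 := hq.isBigO_sub_partialSum_pow K
  obtain ⟨C, hC, h2⟩ := h1.exists_pos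
  obtain ⟨r, hr, h3⟩ := Metric.eventually_nhds_iff_ball.1 h2.bound
  refine ⟨q.partialSum K, ?_, C, hC, r, hr, fun t ht => ?_⟩
  · have : q.partialSum K = fun t => ∑ i ∈ Finset.range K, t ^ i • q.coeff i := by
      funext t
      rw [FormalMultilinearSeries.partialSum]
      exact Finset.sum_congr rfl fun i _ => q.apply_eq_pow_smul_coeff
    rw [this]
    fun_prop
  · have h4 := h3 t ht
    rw [zero_add] at h4
    simpa using h4

/-- the Koenigs function of an attracting germ -/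
theorem koenigs_fun {k : ℂ → ℂ} (hk : AnalyticAt ℂ k 0) (hk0 : k 0 = 0) {μ : ℂ}
    (hμ : deriv k 0 = μ) (hμ0 : μ ≠ 0) (hμ1 : ‖μ‖ < 1) :
    ∃ Φ : ℂ → ℂ, AnalyticAt ℂ Φ 0 ∧ Φ 0 = 0 ∧ deriv Φ 0 = 1 ∧
      ∀ᶠ t in 𝓝 (0 : ℂ), Φ (k t) = μ * Φ t := by
  have hμn : 0 < ‖μ‖ := norm_pos_iff.2 hμ0
  obtain ⟨C, hC, r₀, hr₀, hquad⟩ := quad_bound hk hk0
  rw [hμ] at hquad
  -- choose `s` with `|μ| < s < 1`, `s ^ 2 < |μ|`
  obtain ⟨s, hs1, hs2⟩ : ∃ s : ℝ, ‖μ‖ < s ∧ s ^ 2 < ‖μ‖ := by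
    have h1 : Tendsto (fun x : ℝ => x ^ 2) (𝓝[>] ‖μ‖) (𝓝 (‖μ‖ ^ 2)) :=
      ((continuous_pow 2).tendsto _).mono_left nhdsWithin_le_nhds
    have h2 : ‖μ‖ ^ 2 < ‖μ‖ := by nlinarith
    obtain ⟨s, h3, h4⟩ := ((h1.eventually_lt_const h2).and self_mem_nhdsWithin).exists
    exact ⟨s, h4, h3⟩
  have hspos : 0 < s := hμn.trans hs1
  have hs_lt : s < 1 := by nlinarith
  -- a ball on which `k` is an `s`-contraction towards `0`
  obtain ⟨r₁, hr₁, hball⟩ := Metric.eventually_nhds_iff_ball.1 hk.eventually_analyticAt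
  set r := min (min r₀ r₁) ((s - ‖μ‖) / C) with hr
  have hrpos : 0 < r := lt_min (lt_min hr₀ hr₁) (div_pos (by linarith) hC)
  have hrr₀ : r ≤ r₀ := (min_le_left _ _).trans (min_le_left _ _)
  have hrr₁ : r ≤ r₁ := (min_le_left _ _).trans (min_le_right _ _)
  have hrC : C * r ≤ s - ‖μ‖ := by
    have : r ≤ (s - ‖μ‖) / C := min_le_right _ _
    rw [le_div_iff₀ hC] at this
    linarith
  have hcontr : ∀ t ∈ ball (0 : ℂ) r, ‖k t‖ ≤ s * ‖t‖ := by
    intro t ht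
    have h1 := hquad t (ball_subset_ball hrr₀ ht)
    rw [mem_ball_zero_iff] at ht
    calc ‖k t‖ ≤ ‖k t - μ * t‖ + ‖μ * t‖ := by simpa using norm_add_le (k t - μ * t) (μ * t)
      _ ≤ C * ‖t‖ ^ 2 + ‖μ‖ * ‖t‖ := by rw [norm_mul]; gcongr
      _ ≤ s * ‖t‖ := by
        have h2 : C * ‖t‖ ≤ s - ‖μ‖ := by
          calc C * ‖t‖ ≤ C * r := by gcongr
            _ ≤ _ := hrC
        nlinarith [norm_nonneg t]
  have hiter : ∀ n : ℕ, ∀ t ∈ ball (0 : ℂ) r, k^[n] t ∈ ball (0 : ℂ) r ∧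
      ‖k^[n] t‖ ≤ s ^ n * ‖t‖ := by
    intro n
    induction n with
    | zero => intro t ht; exact ⟨ht, by simp⟩
    | succ n ih =>
      intro t ht
      obtain ⟨h1, h2⟩ := ih t ht
      rw [Function.iterate_succ_apply']
      have h3 := hcontr _ h1
      refine ⟨?_, ?_⟩
      · rw [mem_ball_zero_iff] at h1 ⊢
        calc ‖k (k^[n] t)‖ ≤ s * ‖k^[n] t‖ := h3
          _ ≤ 1 * ‖k^[n] t‖ := by gcongr
          _ < r := by rw [one_mul]; exact h1
      · calc ‖k (k^[n] t)‖ ≤ s * ‖k^[n] t‖ := h3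
          _ ≤ s * (s ^ n * ‖t‖) := by gcongr
          _ = s ^ (n + 1) * ‖t‖ := by ring
  have hkd : DifferentiableOn ℂ k (ball 0 r) := fun t ht =>
    (hball t (ball_subset_ball hrr₁ ht)).differentiableAt.differentiableWithinAt
  have hkid : ∀ n : ℕ, DifferentiableOn ℂ (k^[n]) (ball 0 r) := by
    intro n
    induction n with
    | zero => exact differentiableOn_id
    | succ n ih =>
      rw [Function.iterate_succ']
      exact hkd.comp ih fun t ht => (hiter n t ht).1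
  -- the series
  set F : ℕ → ℂ → ℂ := fun n t => (μ ^ (n + 1))⁻¹ * (k^[n + 1] t - μ * k^[n] t) with hF
  have hFb : ∀ n : ℕ, ∀ t ∈ ball (0 : ℂ) r,
      ‖F n t‖ ≤ (C / ‖μ‖) * (s ^ 2 / ‖μ‖) ^ n * ‖t‖ ^ 2 := by
    intro n t ht
    obtain ⟨h1, h2⟩ := hiter n t ht
    have h3 := hquad _ (ball_subset_ball hrr₀ h1)
    rw [hF]
    show ‖(μ ^ (n + 1))⁻¹ * (k^[n + 1] t - μ * k^[n] t)‖ ≤ _
    rw [Function.iterate_succ_apply', norm_mul, norm_inv, norm_pow]
    calc (‖μ‖ ^ (n + 1))⁻¹ * ‖k (k^[n] t) - μ * k^[n] t‖ ≤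
        (‖μ‖ ^ (n + 1))⁻¹ * (C * (s ^ n * ‖t‖) ^ 2) := by
          gcongr
          exact h3.trans (by gcongr)
      _ = _ := by
          rw [div_pow, pow_succ]
          field_simp
          ring
  have hgeo : Summable fun n : ℕ => (C / ‖μ‖) * (s ^ 2 / ‖μ‖) ^ n * r ^ 2 := by
    have h1 : s ^ 2 / ‖μ‖ < 1 := (div_lt_one hμn).2 hs2
    exact ((summable_geometric_of_lt_one (by positivity) h1).mul_left _).mul_right _
  have hgeo' : Summable fun n : ℕ => (C / ‖μ‖) * (s ^ 2 / ‖μ‖) ^ n := by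
    have h1 : s ^ 2 / ‖μ‖ < 1 := (div_lt_one hμn).2 hs2
    exact (summable_geometric_of_lt_one (by positivity) h1).mul_left _
  have hFd : ∀ n, DifferentiableOn ℂ (F n) (ball 0 r) := fun n =>
    ((hkid (n + 1)).sub ((hkid n).const_mul μ)).const_mul _
  have hFs : ∀ t ∈ ball (0 : ℂ) r, Summable fun n => F n t := by
    intro t ht
    refine Summable.of_norm_bounded hgeo fun n => (hFb n t ht).trans ?_
    rw [mem_ball_zero_iff] at ht
    gcongr
  set Φ : ℂ → ℂ := fun t => t + ∑' n, F n t with hΦ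
  have hΦd : DifferentiableOn ℂ Φ (ball 0 r) := by
    refine differentiableOn_id.add
      (Complex.differentiableOn_tsum_of_summable_norm hgeo hFd isOpen_ball fun n t ht =>
        (hFb n t ht).trans ?_)
    rw [mem_ball_zero_iff] at ht
    gcongr
  -- partial sums
  have hpart : ∀ (N : ℕ) (t : ℂ), t + ∑ n ∈ Finset.range N, F n t = (μ ^ N)⁻¹ * k^[N] t := by
    intro N t
    induction N with
    | zero => simp
    | succ N ih =>
      rw [Finset.sum_range_succ, ← add_assoc, ih]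
      show (μ ^ N)⁻¹ * k^[N] t + (μ ^ (N + 1))⁻¹ * (k^[N + 1] t - μ * k^[N] t) = _
      rw [pow_succ]
      field_simp
      ring
  have hlim : ∀ t ∈ ball (0 : ℂ) r,
      Tendsto (fun N : ℕ => (μ ^ N)⁻¹ * k^[N] t) atTop (𝓝 (Φ t)) := by
    intro t ht
    have h1 := ((hFs t ht).hasSum.tendsto_sum_nat).const_add t
    exact h1.congr fun N => hpart N t
  refine ⟨Φ, hΦd.analyticAt (isOpen_ball.mem_nhds (mem_ball_self hrpos)), ?_, ?_, ?_⟩
  · have h1 := hlim 0 (mem_ball_self hrpos)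
    have h2 : ∀ N : ℕ, (μ ^ N)⁻¹ * k^[N] 0 = 0 := by
      intro N
      rw [Function.iterate_fixed hk0, mul_zero]
    exact tendsto_nhds_unique h1 (tendsto_const_nhds.congr fun N => (h2 N).symm)
  · -- derivative
    set M := ∑' n : ℕ, (C / ‖μ‖) * (s ^ 2 / ‖μ‖) ^ n with hM
    have hM0 : 0 ≤ M := tsum_nonneg fun n => by positivity
    have hbound : ∀ t ∈ ball (0 : ℂ) r, ‖Φ t - t‖ ≤ M * ‖t‖ ^ 2 := by
      intro t ht
      have h1 : Φ t - t = ∑' n, F n t := by rw [hΦ]; ring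
      rw [h1]
      calc ‖∑' n, F n t‖ ≤ ∑' n : ℕ, (C / ‖μ‖) * (s ^ 2 / ‖μ‖) ^ n * ‖t‖ ^ 2 :=
            tsum_of_norm_bounded (hgeo'.mul_right _).hasSum fun n => hFb n t ht
        _ = M * ‖t‖ ^ 2 := by rw [hM, tsum_mul_right]
    have h0 : Φ 0 = 0 := by
      have := hbound 0 (mem_ball_self hrpos)
      simpa using this
    have hder : HasDerivAt Φ 1 0 := by
      rw [hasDerivAt_iff_isLittleO]
      have h1 : (fun t : ℂ => Φ t - Φ 0 - (t - 0) • (1 : ℂ)) =O[𝓝 0] fun t => ‖t‖ ^ 2 := by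
        refine Asymptotics.IsBigO.of_bound M ?_
        filter_upwards [ball_mem_nhds (0 : ℂ) hrpos] with t ht
        rw [h0, sub_zero, sub_zero, smul_eq_mul, mul_one, norm_pow, norm_norm]
        exact hbound t ht
      refine h1.trans_isLittleO ?_
      rw [Asymptotics.isLittleO_iff]
      intro c hc
      filter_upwards [ball_mem_nhds (0 : ℂ) hc] with t ht
      rw [mem_ball_zero_iff] at ht
      rw [norm_pow, norm_norm, sub_zero, pow_two]
      gcongr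
    exact hder.deriv
  · filter_upwards [ball_mem_nhds (0 : ℂ) hrpos] with t ht
    have h1 := hlim _ (hiter 1 t ht).1
    rw [Function.iterate_one] at h1
    have h2 : Tendsto (fun N : ℕ => μ * ((μ ^ (N + 1))⁻¹ * k^[N + 1] t)) atTop
        (𝓝 (μ * Φ t)) := ((hlim t ht).comp (tendsto_add_atTop_nat 1)).const_mul μ
    refine tendsto_nhds_unique h1 (h2.congr fun N => ?_)
    rw [Function.iterate_succ_apply, pow_succ]
    field_simp

/-- Koenigs linearisation of a repelling germ -/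
theorem koenigs_germ {f : ℂ → ℂ} (hf : AnalyticAt ℂ f 0) (hf0 : f 0 = 0) {lam : ℂ}
    (hlam : deriv f 0 = lam) (hl : 1 < ‖lam‖) :
    ∃ φ : ℂ → ℂ, AnalyticAt ℂ φ 0 ∧ φ 0 = 0 ∧ deriv φ 0 ≠ 0 ∧
      ∀ᶠ z in 𝓝 (0 : ℂ), f (φ z) = φ (lam * z) := by
  have hl0 : lam ≠ 0 := by
    intro h; rw [h, norm_zero] at hl; linarith
  have hf' : deriv f 0 ≠ 0 := by rw [hlam]; exact hl0
  -- local inverse
  obtain ⟨k, hka, hk0, hkd, hkr, -⟩ := exists_local_inverse hf hf'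
  rw [hf0] at hka hk0 hkd hkr
  rw [hlam] at hkd
  obtain ⟨Φ, hΦ, hΦ0, hΦ', hΦk⟩ := koenigs_fun hka hk0 hkd (inv_ne_zero hl0) (by
    rw [norm_inv]; exact inv_lt_one_of_one_lt₀ hl)
  have hΦ'0 : deriv Φ 0 ≠ 0 := by rw [hΦ']; exact one_ne_zero
  -- inverse of `Φ`
  obtain ⟨φ, hφa, hφ0, hφd, hφr, hφl⟩ := exists_local_inverse hΦ hΦ'0
  rw [hΦ0] at hφa hφ0 hφd hφr
  rw [hΦ'] at hφd
  refine ⟨φ, hφa, hφ0, by rw [hφd]; simp, ?_⟩
  -- t = φ (lam z)
  have ht : Tendsto (fun z => φ (lam * z)) (𝓝 0) (𝓝 0) := by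
    have h1 : Tendsto (fun z : ℂ => lam * z) (𝓝 0) (𝓝 0) := by
      have : Continuous (fun z : ℂ => lam * z) := by fun_prop
      simpa using this.tendsto 0
    have h2 := hφa.continuousAt.tendsto
    rw [hφ0] at h2
    exact h2.comp h1
  have hkt : Tendsto (fun z => k (φ (lam * z))) (𝓝 0) (𝓝 0) := by
    have h2 := hka.continuousAt.tendsto
    rw [hk0] at h2
    exact h2.comp ht
  have hlz : Tendsto (fun z : ℂ => lam * z) (𝓝 0) (𝓝 0) := by
    have : Continuous (fun z : ℂ => lam * z) := by fun_prop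
    simpa using this.tendsto 0
  filter_upwards [ht.eventually hΦk, ht.eventually hkr, hkt.eventually hφl,
    hlz.eventually hφr] with z h1 h2 h3 h4
  -- Φ (k t) = lam⁻¹ * Φ t = z
  rw [h4, ← mul_assoc, inv_mul_cancel₀ hl0, one_mul] at h1
  rw [h1] at h3
  rw [h3, h2]

end Pool.Agent.Work.MP_78b16e_an
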