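import Pool.Agent.Work.MP_78b16e_an.Loc

/-! Jacobians, immersions, first properties of the linearisation.  (owner: helper71) -/

set_option autoImplicit false

namespace Pool.Agent.Work.MP_78b16e_an

open Metric Filter Topology

/-! ### Jacobians -/

theorem jac_comp {A B : ℂ × ℂ → ℂ × ℂ} (hA : Differentiable ℂ A) (hB : Differentiable ℂ B)
    (v : ℂ × ℂ) : jac (A ∘ B) v = jac A (B v) * jac B v := by
  have h : fderiv ℂ (A ∘ B) v = (fderiv ℂ A (B v)).comp (fderiv ℂ B v) :=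
    fderiv_comp v (hA _) (hB _)
  unfold jac
  rw [h, ContinuousLinearMap.comp_apply, ContinuousLinearMap.comp_apply, wg_linear]

theorem IsLift.jac_ne_iff {d : ℕ} (hd : 1 ≤ d) {A : ℂ × ℂ → ℂ × ℂ} (hA : IsLift d A) {v : ℂ × ℂ}
    (hv : v ≠ 0) : jac A v ≠ 0 ↔ ∃ b, wg (A v) (fderiv ℂ A v b) ≠ 0 := by
  have hd0 : (d : ℂ) ≠ 0 := by
    exact_mod_cast (by omega : d ≠ 0)
  constructor
  · intro h
    refine ⟨perp v, fun h' => ?_⟩
    have := hA.euler_jac v (perp v)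
    rw [h', mul_zero] at this
    exact (mul_ne_zero h (wg_perp_ne hv)) this.symm
  · rintro ⟨b, hb⟩ h
    have := hA.euler_jac v b
    rw [h, zero_mul] at this
    exact (mul_ne_zero hd0 hb) this

theorem IsLift.jac_smul {d : ℕ} {A : ℂ × ℂ → ℂ × ℂ} (hA : IsLift d A) (c : ℂ) (v : ℂ × ℂ) :
    jac A (c • v) * c ^ 2 = c ^ (2 * d) * jac A v := by
  have h1 : HasFDerivAt (fun w : ℂ × ℂ => c • w) (c • ContinuousLinearMap.id ℂ (ℂ × ℂ)) v :=
    (hasFDerivAt_id v).const_smul c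
  have h2 : HasFDerivAt (fun w : ℂ × ℂ => A (c • w))
      ((fderiv ℂ A (c • v)).comp (c • ContinuousLinearMap.id ℂ (ℂ × ℂ))) v :=
    (hA.differentiable (c • v)).hasFDerivAt.comp v h1
  have h3 : HasFDerivAt (fun w : ℂ × ℂ => A (c • w)) (c ^ d • fderiv ℂ A v) v := by
    have : (fun w : ℂ × ℂ => A (c • w)) = fun w => c ^ d • A w := funext fun w => hA.hom c w
    rw [this]
    exact (hA.differentiable v).hasFDerivAt.const_smul (c ^ d)
  have h4 := h2.unique h3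
  have e1 : ∀ b, c • fderiv ℂ A (c • v) b = c ^ d • fderiv ℂ A v b := by
    intro b
    have := congrArg (fun L : ℂ × ℂ →L[ℂ] ℂ × ℂ => L b) h4
    simpa using this
  have e2 : wg (c • fderiv ℂ A (c • v) (1, 0)) (c • fderiv ℂ A (c • v) (0, 1)) =
      wg (c ^ d • fderiv ℂ A v (1, 0)) (c ^ d • fderiv ℂ A v (0, 1)) := by
    rw [e1, e1]
  rw [wg_smul_left, wg_smul_right, wg_smul_left, wg_smul_right] at e2
  unfold jac
  linear_combination e2

theorem IsLift.jac_smul_ne {d : ℕ} {A : ℂ × ℂ → ℂ × ℂ} (hA : IsLift d A) {c : ℂ} (hc : c ≠ 0)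
    {v : ℂ × ℂ} (h : jac A (c • v) ≠ 0) : jac A v ≠ 0 := by
  intro h'
  have := hA.jac_smul c v
  rw [h', mul_zero] at this
  exact (mul_ne_zero h (pow_ne_zero 2 hc)) this

/-! ### immersions -/

theorem imm_smul {f : ℂ → ℂ} {c : ℂ → ℂ × ℂ} {z : ℂ} (hf : DifferentiableAt ℂ f z)
    (hc : DifferentiableAt ℂ c z) :
    wg (f z • c z) (deriv (fun y => f y • c y) z) = f z ^ 2 * wg (c z) (deriv c z) := by
  have h : HasDerivAt (fun y => f y • c y) (f z • deriv c z + deriv f z • c z) z :=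
    hf.hasDerivAt.smul hc.hasDerivAt
  rw [h.deriv, wg_add_right, wg_smul_left, wg_smul_right, wg_smul_left, wg_smul_right, wg_self]
  ring

theorem deriv_lift_comp {d : ℕ} {A : ℂ × ℂ → ℂ × ℂ} (hA : IsLift d A) {c : ℂ → ℂ × ℂ} {z : ℂ}
    (hc : DifferentiableAt ℂ c z) :
    deriv (fun y => A (c y)) z = fderiv ℂ A (c z) (deriv c z) :=
  ((hA.differentiable (c z)).hasFDerivAt.comp_hasDerivAt z hc.hasDerivAt).deriv

theorem imm_comp {d : ℕ} {A : ℂ × ℂ → ℂ × ℂ} (hA : IsLift d A) {c : ℂ → ℂ × ℂ} {z : ℂ}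
    (hc : DifferentiableAt ℂ c z) :
    (d : ℂ) * wg (A (c z)) (deriv (fun y => A (c y)) z) =
      jac A (c z) * wg (c z) (deriv c z) := by
  rw [deriv_lift_comp hA hc, hA.euler_jac]

section lin

variable {g : ℂ × ℂ → ℝ} {D : ℕ} {B : ℂ × ℂ → ℂ × ℂ} {lam : ℂ} {ψ : ℂ → ℂ × ℂ} {p : ℂ → ℂ}

theorem Lin.lam_ne (hL : Lin g D B lam ψ p) : lam ≠ 0 := by
  have := hL.one
  rintro rfl
  simp at this
  linarith

theorem Lin.iter (hL : Lin g D B lam ψ p) (n : ℕ) :
    ∃ Q : ℂ → ℂ, Differentiable ℂ Q ∧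
      ∀ z, B^[n] (ψ z) = Complex.exp (Q z) • ψ (lam ^ n * z) := by
  induction n with
  | zero => exact ⟨fun _ => 0, differentiable_const _, fun z => by simp⟩
  | succ n ih =>
    obtain ⟨Q, hQ, h⟩ := ih
    refine ⟨fun z => (D : ℂ) ^ n * p z + Q (lam * z), ?_, fun z => ?_⟩
    · have := hL.pdiff
      exact (this.const_mul _).add (hQ.comp (differentiable_id.const_mul lam))
    · rw [Function.iterate_succ_apply, hL.eqn, (hL.dyn.lift.iterate n).hom, h, smul_smul,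
        ← Complex.exp_nat_mul, ← Complex.exp_add, pow_succ, mul_assoc]
      push_cast
      rfl

/-- the immersion property away from `0` -/
theorem Lin.tendsto_zero (hL : Lin g D B lam ψ p) (z₁ : ℂ) :
    Tendsto (fun n : ℕ => (lam ^ n)⁻¹ * z₁) atTop (𝓝 0) := by
  have h1 : ‖lam⁻¹‖ < 1 := by
    rw [norm_inv]
    exact inv_lt_one_of_one_lt₀ hL.one
  have h2 := (tendsto_pow_atTop_nhds_zero_of_norm_lt_one h1).mul_const z₁
  rw [zero_mul] at h2
  refine h2.congr fun n => ?_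
  rw [inv_pow]

theorem Lin.imm_near (hL : Lin g D B lam ψ p) :
    ∀ᶠ z in 𝓝 (0 : ℂ), wg (ψ z) (deriv ψ z) ≠ 0 :=
  (analyticAt_wg (hL.diff.analyticAt 0) ((hL.diff.analyticAt 0).deriv)).continuousAt.eventually_ne
    hL.imm

theorem Lin.imm_of (hL : Lin g D B lam ψ p) (z₁ : ℂ)
    (h : ∀ n : ℕ, jac (B^[n]) (ψ ((lam ^ n)⁻¹ * z₁)) ≠ 0) :
    wg (ψ z₁) (deriv ψ z₁) ≠ 0 := by
  obtain ⟨n, hn⟩ := ((hL.tendsto_zero z₁).eventually hL.imm_near).exists
  obtain ⟨Q, hQ, hQe⟩ := hL.iter n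
  have hlam := hL.lam_ne
  set w := (lam ^ n)⁻¹ * z₁ with hw
  have hwz : lam ^ n * w = z₁ := by
    rw [hw, ← mul_assoc, mul_inv_cancel₀ (pow_ne_zero n hlam), one_mul]
  have hD0 : ((D ^ n : ℕ) : ℂ) ≠ 0 := by
    have := hL.dyn.two
    exact_mod_cast pow_ne_zero n (by omega : D ≠ 0)
  -- both sides of the functional equation
  have e1 := imm_comp (hL.dyn.lift.iterate n) (hL.diff w)
  have e2 : (fun y => B^[n] (ψ y)) = fun y => Complex.exp (Q y) • ψ (lam ^ n * y) :=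
    funext hQe
  have hc : DifferentiableAt ℂ (fun y => ψ (lam ^ n * y)) w :=
    (hL.diff.comp (differentiable_id.const_mul (lam ^ n))) w
  have e3 : wg (Complex.exp (Q w) • ψ (lam ^ n * w))
      (deriv (fun y => Complex.exp (Q y) • ψ (lam ^ n * y)) w) =
      Complex.exp (Q w) ^ 2 * wg (ψ (lam ^ n * w)) (deriv (fun y => ψ (lam ^ n * y)) w) :=
    imm_smul (f := fun y => Complex.exp (Q y)) (c := fun y => ψ (lam ^ n * y))
      (hQ w).cexp hc
  have e4 : deriv (fun y => ψ (lam ^ n * y)) w = lam ^ n • deriv ψ (lam ^ n * w) :=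
    deriv_comp_mul_left (lam ^ n) ψ w
  intro h0
  rw [e2] at e1
  rw [hQe w, e3, e4, wg_smul_right, hwz, h0] at e1
  have : jac (B^[n]) (ψ w) * wg (ψ w) (deriv ψ w) = 0 := by
    rw [← e1]; ring
  exact (mul_ne_zero (h n) hn) this

/-- scaling relation for the potential `u = g ∘ ψ` -/
theorem Lin.scale (hL : Lin g D B lam ψ p) (n : ℕ) :
    ∃ e : ℂ → ℂ, Differentiable ℂ e ∧
      ∀ z, g (ψ (lam ^ n * z)) = (D : ℝ) ^ n * g (ψ z) + (e z).re := by
  obtain ⟨Q, hQ, h⟩ := hL.iter n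
  refine ⟨fun z => - Q z, hQ.neg, fun z => ?_⟩
  have hB : g (B^[n] (ψ z)) = (D : ℝ) ^ n * g (ψ z) := by
    rcases Nat.eq_zero_or_pos n with rfl | hi
    · simp
    · have := (hL.dyn.iterate n hi).inv (ψ z) (hL.nz z)
      rw [this]; push_cast; ring
  rw [h, hL.dyn.pot.smul _ _ (Complex.exp_ne_zero _) (hL.nz _), Complex.norm_exp,
    Real.log_exp] at hB
  rw [Complex.neg_re]
  linarith

theorem Lin.continuous (hL : Lin g D B lam ψ p) : Continuous (fun z => g (ψ z)) := by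
  have := hL.dyn.pot.cont.comp hL.diff.continuous.continuousOn
    (s := Set.univ) (fun t _ => hL.nz t)
  exact continuousOn_univ.1 this

end lin

end Pool.Agent.Work.MP_78b16e_an
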