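import Pool.Agent.Work.MP_78b16e_an.Basic
import Pool.Agent.Work.MP_78b16e_an.LinB
import Pool.Agent.Work.MP_78b16e_an.KoenA

/-! Koenigs linearisation with a global lift.  (owner: helper71) -/

set_option autoImplicit false

namespace Pool.Agent.Work.MP_78b16e_an

open Metric Filter Topology

/-- solving `β (λ z) = D β z + r z` for a remainder `r` of high order -/
theorem solve_cohom {r : ℂ → ℂ} {δ C : ℝ} {D K : ℕ} {lam : ℂ} (hδ : 0 < δ)
    (hl : 1 < ‖lam‖) (hK : (D : ℝ) < ‖lam‖ ^ K) (hK1 : 1 ≤ K)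
    (hr : DifferentiableOn ℂ r (ball 0 δ)) (hC : 0 < C)
    (hb : ∀ t ∈ ball (0 : ℂ) δ, ‖r t‖ ≤ C * ‖t‖ ^ K) :
    ∃ β : ℂ → ℂ, DifferentiableOn ℂ β (ball 0 δ) ∧ β 0 = 0 ∧
      ∀ z, lam * z ∈ ball (0 : ℂ) δ → β (lam * z) = D * β z + r z := by
  have hl0 : lam ≠ 0 := by
    intro h; rw [h, norm_zero] at hl; linarith
  have hpos : 0 < ‖lam‖ := by linarith
  set F : ℕ → ℂ → ℂ := fun n z => (D : ℂ) ^ n * r ((lam ^ (n + 1))⁻¹ * z) with hF
  have hin : ∀ (n : ℕ), ∀ z ∈ ball (0 : ℂ) δ, (lam ^ (n + 1))⁻¹ * z ∈ ball (0 : ℂ) δ := by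
    intro n z hz
    rw [mem_ball_zero_iff] at hz ⊢
    rw [norm_mul, norm_inv, norm_pow]
    have h1 : (‖lam‖ ^ (n + 1))⁻¹ ≤ 1 := inv_le_one_of_one_le₀ (one_le_pow₀ hl.le)
    calc (‖lam‖ ^ (n + 1))⁻¹ * ‖z‖ ≤ 1 * ‖z‖ := by gcongr
      _ < δ := by rw [one_mul]; exact hz
  have hFb : ∀ (n : ℕ), ∀ z ∈ ball (0 : ℂ) δ,
      ‖F n z‖ ≤ C * (δ / ‖lam‖) ^ K * ((D : ℝ) / ‖lam‖ ^ K) ^ n := by
    intro n z hz
    have h1 := hb _ (hin n z hz)
    rw [mem_ball_zero_iff] at hz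
    show ‖(D : ℂ) ^ n * r ((lam ^ (n + 1))⁻¹ * z)‖ ≤ _
    rw [norm_mul, norm_pow, Complex.norm_natCast]
    calc (D : ℝ) ^ n * ‖r ((lam ^ (n + 1))⁻¹ * z)‖ ≤
        (D : ℝ) ^ n * (C * ‖(lam ^ (n + 1))⁻¹ * z‖ ^ K) := by gcongr
      _ ≤ (D : ℝ) ^ n * (C * ((‖lam‖ ^ (n + 1))⁻¹ * δ) ^ K) := by
          rw [norm_mul, norm_inv, norm_pow]
          gcongr
      _ = _ := by
          rw [div_pow, div_pow, mul_pow, inv_pow, pow_succ]
          field_simp
          ring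
  have hq : (D : ℝ) / ‖lam‖ ^ K < 1 := (div_lt_one (by positivity)).2 hK
  have hsum : Summable fun n : ℕ => C * (δ / ‖lam‖) ^ K * ((D : ℝ) / ‖lam‖ ^ K) ^ n :=
    (summable_geometric_of_lt_one (by positivity) hq).mul_left _
  have hFd : ∀ n, DifferentiableOn ℂ (F n) (ball 0 δ) := by
    intro n
    have h1 : DifferentiableOn ℂ (fun z : ℂ => (lam ^ (n + 1))⁻¹ * z) (ball 0 δ) :=
      (differentiable_id.const_mul _).differentiableOn
    exact (hr.comp h1 (hin n)).const_mul _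
  have hr0 : r 0 = 0 := by
    have := hb 0 (mem_ball_self hδ)
    rw [norm_zero, zero_pow (by omega), mul_zero] at this
    exact norm_le_zero_iff.1 this
  refine ⟨fun z => ∑' n, F n z,
    Complex.differentiableOn_tsum_of_summable_norm hsum hFd isOpen_ball hFb, ?_, ?_⟩
  · show ∑' n, F n 0 = 0
    have : ∀ n, F n 0 = 0 := by
      intro n
      show (D : ℂ) ^ n * r ((lam ^ (n + 1))⁻¹ * 0) = 0
      rw [mul_zero, hr0, mul_zero]
    simp [this]
  · intro z hz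
    have hz' : z ∈ ball (0 : ℂ) δ := by
      rw [mem_ball_zero_iff] at hz ⊢
      rw [norm_mul] at hz
      nlinarith [norm_nonneg z]
    have hs : Summable fun n => F n (lam * z) :=
      Summable.of_norm_bounded hsum fun n => hFb n _ hz
    show ∑' n, F n (lam * z) = D * ∑' n, F n z + r z
    rw [hs.tsum_eq_zero_add]
    have h0 : F 0 (lam * z) = r z := by
      show (D : ℂ) ^ 0 * r ((lam ^ (0 + 1))⁻¹ * (lam * z)) = r z
      rw [pow_zero, one_mul, zero_add, pow_one, ← mul_assoc, inv_mul_cancel₀ hl0, one_mul]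
    have h1 : ∀ n, F (n + 1) (lam * z) = D * F n z := by
      intro n
      show (D : ℂ) ^ (n + 1) * r ((lam ^ (n + 1 + 1))⁻¹ * (lam * z)) =
        D * ((D : ℂ) ^ n * r ((lam ^ (n + 1))⁻¹ * z))
      have : (lam ^ (n + 1 + 1))⁻¹ * (lam * z) = (lam ^ (n + 1))⁻¹ * z := by
        rw [pow_succ lam (n + 1)]
        field_simp
      rw [this, pow_succ]
      ring
    rw [h0]
    simp only [h1]
    rw [tsum_mul_left]
    ring

/-- local linearisation with polynomial-like factor -/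
theorem koenigs_local {D : ℕ} {B : ℂ × ℂ → ℂ × ℂ} (hB : IsLift D B) {a : ℂ × ℂ}
    (ha : a ≠ 0) (hfix : B a = a) {lam : ℂ} (hl : 1 < ‖lam‖)
    (hder : ∀ b, wg a (fderiv ℂ B a b) = lam * wg a b) :
    ∃ (δ : ℝ) (ψ : ℂ → ℂ × ℂ) (p : ℂ → ℂ), 0 < δ ∧ DifferentiableOn ℂ ψ (ball 0 δ) ∧
      Differentiable ℂ p ∧ (∀ z ∈ ball (0 : ℂ) δ, ψ z ≠ 0) ∧ ψ 0 = a ∧
      wg (ψ 0) (deriv ψ 0) ≠ 0 ∧
      ∀ z, lam * z ∈ ball (0 : ℂ) δ → B (ψ z) = Complex.exp (p z) • ψ (lam * z) := by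
  set b := perp a with hb
  have hw0 : wg a b ≠ 0 := wg_perp_ne ha
  set w0 := wg a b with hw0def
  have hline : Differentiable ℂ (fun t : ℂ => B (a + t • b)) := by
    have h1 : Differentiable ℂ (fun t : ℂ => a + t • b) := by fun_prop
    exact hB.differentiable.comp h1
  have hline' : HasDerivAt (fun t : ℂ => B (a + t • b)) (fderiv ℂ B a b) 0 := by
    have h1 : HasDerivAt (fun t : ℂ => a + t • b) b 0 := by
      simpa using ((hasDerivAt_id (0 : ℂ)).smul_const b).const_add a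
    have h2 : HasFDerivAt B (fderiv ℂ B a) (a + (0 : ℂ) • b) := by
      rw [zero_smul, add_zero]; exact (hB.differentiable a).hasFDerivAt
    exact h2.comp_hasDerivAt (0 : ℂ) h1
  let X : ℂ → ℂ := fun t => wg (B (a + t • b)) b / w0
  let Y : ℂ → ℂ := fun t => wg a (B (a + t • b)) / w0
  have hXa : ∀ t, AnalyticAt ℂ X t := fun t =>
    (analyticAt_wg (hline.analyticAt t) analyticAt_const).div analyticAt_const hw0
  have hYa : ∀ t, AnalyticAt ℂ Y t := fun t =>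
    (analyticAt_wg analyticAt_const (hline.analyticAt t)).div analyticAt_const hw0
  have hX0 : X 0 = 1 := by
    show wg (B (a + (0 : ℂ) • b)) b / w0 = 1
    rw [zero_smul, add_zero, hfix, ← hw0def, div_self hw0]
  have hY0 : Y 0 = 0 := by
    show wg a (B (a + (0 : ℂ) • b)) / w0 = 0
    rw [zero_smul, add_zero, hfix, wg_self, zero_div]
  have hYd : HasDerivAt Y lam 0 := by
    have h1 := (hasDerivAt_wg (hasDerivAt_const (0 : ℂ) a) hline').div_const w0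
    refine h1.congr_deriv ?_
    rw [wg_zero_left, zero_add, hder, mul_div_assoc, ← hw0def, div_self hw0, mul_one]
  have hdec : ∀ t, B (a + t • b) = X t • a + Y t • b := by
    intro t
    have h1 := wg_decomp a b (B (a + t • b))
    have h2 : B (a + t • b) = w0⁻¹ • (w0 • B (a + t • b)) := by
      rw [smul_smul, inv_mul_cancel₀ hw0, one_smul]
    rw [h2, hw0def, h1, smul_add, smul_smul, smul_smul]
    congr 2
    · show _ = wg (B (a + t • b)) b / w0
      rw [div_eq_inv_mul]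
    · show _ = wg a (B (a + t • b)) / w0
      rw [div_eq_inv_mul]
  -- the germ
  have hX0' : X 0 ≠ 0 := by rw [hX0]; exact one_ne_zero
  let f : ℂ → ℂ := fun t => Y t / X t
  have hfa : AnalyticAt ℂ f 0 := (hYa 0).div (hXa 0) hX0'
  have hf0 : f 0 = 0 := by
    show Y 0 / X 0 = 0
    rw [hY0, zero_div]
  have hfd : deriv f 0 = lam := by
    have h1 := hYd.div (hXa 0).differentiableAt.hasDerivAt hX0'
    have h2 : deriv f 0 = (lam * X 0 - Y 0 * deriv X 0) / X 0 ^ 2 := h1.deriv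
    rw [h2, hX0, hY0]; simp
  obtain ⟨φ, hφ, hφ0, hφd, hφe⟩ := koenigs_germ hfa hf0 hfd hl
  -- logarithm of `X (φ z)`
  have hXφ : AnalyticAt ℂ (fun z => X (φ z)) 0 :=
    AnalyticAt.comp (g := X) (f := φ) (hXa _) hφ
  let l : ℂ → ℂ := fun z => Complex.log (X (φ z))
  have hla : AnalyticAt ℂ l 0 := by
    refine hXφ.clog ?_
    show X (φ 0) ∈ Complex.slitPlane
    rw [hφ0, hX0]
    exact Complex.one_mem_slitPlane
  obtain ⟨K₀, hK₀⟩ := pow_unbounded_of_one_lt (D : ℝ) hl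
  set K := K₀ + 1 with hKdef
  have hK : (D : ℝ) < ‖lam‖ ^ K := hK₀.trans_le (pow_le_pow_right₀ hl.le (Nat.le_succ _))
  obtain ⟨p, hp, C, hC, r₁, hr₁, hrem⟩ := taylor_rem hla K
  -- choose the radius
  have hXne : ∀ᶠ z in 𝓝 (0 : ℂ), X (φ z) ≠ 0 :=
    hXφ.continuousAt.eventually_ne (by show X (φ 0) ≠ 0; rw [hφ0]; exact hX0')
  obtain ⟨δ, hδ, hball⟩ := Metric.eventually_nhds_iff_ball.1
    ((((hφ.eventually_analyticAt.and hla.eventually_analyticAt).and hφe).and hXne).and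
      (ball_mem_nhds (0 : ℂ) hr₁))
  have hrd : DifferentiableOn ℂ (fun z => l z - p z) (ball 0 δ) := fun z hz =>
    (((hball z hz).1.1.1.2.differentiableAt).sub (hp z)).differentiableWithinAt
  obtain ⟨β, hβd, hβ0, hβe⟩ := solve_cohom hδ hl hK (by omega) hrd hC
    (fun t ht => hrem t (hball t ht).2)
  have hφdiff : DifferentiableOn ℂ φ (ball 0 δ) := fun z hz =>
    (hball z hz).1.1.1.1.differentiableAt.differentiableWithinAt
  have hcd : DifferentiableOn ℂ (fun z => a + φ z • b) (ball 0 δ) := by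
    exact (differentiableOn_const a).add (hφdiff.smul_const b)
  have hwb : ∀ z, wg (a + φ z • b) b = w0 := by
    intro z
    rw [wg_add_left, wg_smul_left, wg_self, mul_zero, add_zero]
  refine ⟨δ, fun z => Complex.exp (β z) • (a + φ z • b), p, hδ, hβd.cexp.smul hcd, hp,
    fun z _ => ?_, ?_, ?_, fun z hz => ?_⟩
  · refine smul_ne_zero (Complex.exp_ne_zero _) fun h => ?_
    have := hwb z
    rw [h, wg_zero_left] at this
    exact hw0 this.symm
  · show Complex.exp (β 0) • (a + φ 0 • b) = a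
    rw [hβ0, hφ0, Complex.exp_zero, zero_smul, add_zero, one_smul]
  · have hβ1 : DifferentiableAt ℂ β 0 := hβd.differentiableAt (ball_mem_nhds _ hδ)
    have hφ1 : HasDerivAt (fun z => a + φ z • b) (deriv φ 0 • b) 0 :=
      (hφ.differentiableAt.hasDerivAt.smul_const b).const_add a
    have h1 := imm_smul (f := fun z => Complex.exp (β z)) (c := fun z => a + φ z • b) (z := 0)
      hβ1.cexp hφ1.differentiableAt
    show wg (Complex.exp (β 0) • (a + φ 0 • b))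
      (deriv (fun z => Complex.exp (β z) • (a + φ z • b)) 0) ≠ 0
    rw [h1, hφ1.deriv, hφ0, zero_smul, add_zero, wg_smul_right]
    exact mul_ne_zero (pow_ne_zero 2 (Complex.exp_ne_zero _)) (mul_ne_zero hφd hw0)
  · have hz' : z ∈ ball (0 : ℂ) δ := by
      rw [mem_ball_zero_iff] at hz ⊢
      rw [norm_mul] at hz
      nlinarith [norm_nonneg z]
    have hzb := hball z hz'
    have hXz : X (φ z) ≠ 0 := hzb.1.2
    have hfφ : f (φ z) = φ (lam * z) := hzb.1.1.2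
    show B (Complex.exp (β z) • (a + φ z • b)) =
      Complex.exp (p z) • Complex.exp (β (lam * z)) • (a + φ (lam * z) • b)
    rw [hB.hom, hdec, smul_smul, ← Complex.exp_add, hβe z hz, ← Complex.exp_nat_mul]
    have h1 : Complex.exp (p z + (D * β z + (l z - p z))) =
        Complex.exp (D * β z) * X (φ z) := by
      have : p z + (D * β z + (l z - p z)) = D * β z + l z := by ring
      rw [this, Complex.exp_add]
      congr 1
      exact Complex.exp_log hXz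
    have h2 : X (φ z) • a + Y (φ z) • b = X (φ z) • (a + φ (lam * z) • b) := by
      rw [← hfφ, smul_add, smul_smul]
      congr 2
      show Y (φ z) = X (φ z) * (Y (φ z) / X (φ z))
      field_simp
    rw [h1, h2, smul_smul]

theorem koenigs {D : ℕ} {B : ℂ × ℂ → ℂ × ℂ} (hB : IsLift D B) (hD : 2 ≤ D) {a : ℂ × ℂ}
    (ha : a ≠ 0) (hfix : B a = a) {lam : ℂ} (hl : 1 < ‖lam‖)
    (hder : ∀ b, wg a (fderiv ℂ B a b) = lam * wg a b) :
    ∃ (ψ : ℂ → ℂ × ℂ) (p : ℂ → ℂ), Differentiable ℂ ψ ∧ Differentiable ℂ p ∧ (∀ z, ψ z ≠ 0) ∧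
      ψ 0 = a ∧ wg (ψ 0) (deriv ψ 0) ≠ 0 ∧
      ∀ z, B (ψ z) = Complex.exp (p z) • ψ (lam * z) := by
  have _ := hD
  have hl0 : lam ≠ 0 := by
    intro h; rw [h, norm_zero] at hl; linarith
  have hpos : 0 < ‖lam‖ := by linarith
  obtain ⟨δ, ψ₀, p, hδ, hψ₀d, hp, hψ₀nz, hψ₀a, hψ₀i, hψ₀e⟩ :=
    koenigs_local hB ha hfix hl hder
  -- recursive extension
  let Ψ : ℕ → ℂ → ℂ × ℂ := fun n =>
    Nat.rec ψ₀ (fun _ Ψn z => Complex.exp (-(p (lam⁻¹ * z))) • B (Ψn (lam⁻¹ * z))) n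
  have hΨ0 : Ψ 0 = ψ₀ := rfl
  have hΨs : ∀ n z, Ψ (n + 1) z = Complex.exp (-(p (lam⁻¹ * z))) • B (Ψ n (lam⁻¹ * z)) :=
    fun n z => rfl
  have hin : ∀ (n : ℕ) (z : ℂ), z ∈ ball (0 : ℂ) (δ * ‖lam‖ ^ (n + 1)) →
      lam⁻¹ * z ∈ ball (0 : ℂ) (δ * ‖lam‖ ^ n) := by
    intro n z hz
    rw [mem_ball_zero_iff] at hz ⊢
    rw [norm_mul, norm_inv, inv_mul_lt_iff₀ hpos]
    calc ‖z‖ < δ * ‖lam‖ ^ (n + 1) := hz
      _ = ‖lam‖ * (δ * ‖lam‖ ^ n) := by ring
  have hmain : ∀ n : ℕ, DifferentiableOn ℂ (Ψ n) (ball 0 (δ * ‖lam‖ ^ n)) ∧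
      (∀ z ∈ ball (0 : ℂ) (δ * ‖lam‖ ^ n), Ψ n z ≠ 0) ∧
      (∀ z ∈ ball (0 : ℂ) (δ * ‖lam‖ ^ n), Ψ (n + 1) z = Ψ n z) := by
    intro n
    induction n with
    | zero =>
      rw [pow_zero, mul_one]
      refine ⟨hψ₀d, hψ₀nz, fun z hz => ?_⟩
      have h1 : lam * (lam⁻¹ * z) = z := by rw [← mul_assoc, mul_inv_cancel₀ hl0, one_mul]
      have h2 := hψ₀e (lam⁻¹ * z) (by rw [h1]; exact hz)
      rw [hΨs, hΨ0, h2, h1, smul_smul, ← Complex.exp_add, neg_add_cancel, Complex.exp_zero,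
        one_smul]
    | succ n ih =>
      obtain ⟨h1, h2, h3⟩ := ih
      refine ⟨?_, fun z hz => ?_, fun z hz => ?_⟩
      · have h4 : DifferentiableOn ℂ (fun z : ℂ => lam⁻¹ * z) (ball 0 (δ * ‖lam‖ ^ (n + 1))) :=
          (differentiable_id.const_mul _).differentiableOn
        have h5 : DifferentiableOn ℂ (fun z => Ψ n (lam⁻¹ * z))
            (ball 0 (δ * ‖lam‖ ^ (n + 1))) := h1.comp h4 (hin n)
        have h6 : DifferentiableOn ℂ (fun z => B (Ψ n (lam⁻¹ * z)))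
            (ball 0 (δ * ‖lam‖ ^ (n + 1))) := hB.differentiable.comp_differentiableOn h5
        have h7 : DifferentiableOn ℂ (fun z => p (lam⁻¹ * z))
            (ball 0 (δ * ‖lam‖ ^ (n + 1))) := hp.comp_differentiableOn h4
        exact h7.neg.cexp.smul h6
      · rw [hΨs]
        exact smul_ne_zero (Complex.exp_ne_zero _) (hB.nz _ (h2 _ (hin n z hz)))
      · rw [hΨs (n + 1), h3 _ (hin n z hz), ← hΨs n]
  -- consistency
  have hmono : ∀ (n m : ℕ), n ≤ m → ∀ z ∈ ball (0 : ℂ) (δ * ‖lam‖ ^ n), Ψ m z = Ψ n z := by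
    intro n m hnm
    induction m, hnm using Nat.le_induction with
    | base => intro z _; rfl
    | succ m hnm ih =>
      intro z hz
      have h1 : z ∈ ball (0 : ℂ) (δ * ‖lam‖ ^ m) := by
        refine ball_subset_ball ?_ hz
        have := pow_le_pow_right₀ hl.le hnm
        gcongr
      rw [(hmain m).2.2 z h1, ih z hz]
  have hex : ∀ z : ℂ, ∃ n : ℕ, z ∈ ball (0 : ℂ) (δ * ‖lam‖ ^ n) := by
    intro z
    obtain ⟨n, hn⟩ := pow_unbounded_of_one_lt (‖z‖ / δ) hl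
    refine ⟨n, ?_⟩
    rw [mem_ball_zero_iff]
    rw [div_lt_iff₀ hδ] at hn
    linarith
  choose N hN using hex
  let ψ : ℂ → ℂ × ℂ := fun z => Ψ (N z) z
  have hψn : ∀ (n : ℕ), ∀ z ∈ ball (0 : ℂ) (δ * ‖lam‖ ^ n), ψ z = Ψ n z := by
    intro n z hz
    show Ψ (N z) z = Ψ n z
    rcases le_total n (N z) with h | h
    · exact hmono n (N z) h z hz
    · exact (hmono (N z) n h z (hN z)).symm
  have hψd : Differentiable ℂ ψ := by
    intro z
    have h1 : ball (0 : ℂ) (δ * ‖lam‖ ^ N z) ∈ 𝓝 z := isOpen_ball.mem_nhds (hN z)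
    have h2 : ψ =ᶠ[𝓝 z] Ψ (N z) := by
      filter_upwards [h1] with y hy using hψn _ y hy
    exact ((hmain (N z)).1.differentiableAt h1).congr_of_eventuallyEq h2
  have h0 : ψ =ᶠ[𝓝 0] ψ₀ := by
    have h1 : ball (0 : ℂ) (δ * ‖lam‖ ^ 0) ∈ 𝓝 (0 : ℂ) :=
      ball_mem_nhds _ (by positivity)
    filter_upwards [h1] with y hy using hψn 0 y hy
  refine ⟨ψ, p, hψd, hp, fun z => ?_, ?_, ?_, fun z => ?_⟩
  · exact (hmain (N z)).2.1 z (hN z)
  · rw [h0.self_of_nhds, hψ₀a]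
  · rw [h0.deriv_eq, h0.self_of_nhds]
    exact hψ₀i
  · set n := N z with hn
    have hz := hN z
    have hz' : lam * z ∈ ball (0 : ℂ) (δ * ‖lam‖ ^ (n + 1)) := by
      rw [mem_ball_zero_iff] at hz ⊢
      rw [norm_mul]
      calc ‖lam‖ * ‖z‖ < ‖lam‖ * (δ * ‖lam‖ ^ n) := by gcongr
        _ = δ * ‖lam‖ ^ (n + 1) := by ring
    rw [hψn (n + 1) _ hz', hψn n z hz, hΨs, ← mul_assoc, inv_mul_cancel₀ hl0, one_mul, smul_smul,
      ← Complex.exp_add, add_neg_cancel, Complex.exp_zero, one_smul]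

end Pool.Agent.Work.MP_78b16e_an
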