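import Pool.Agent.Work.MP_78b16e_an.RepA

/-! Existence of a repelling periodic point outside the postcritical set. -/

set_option autoImplicit false

namespace Pool.Agent.Work.MP_78b16e_an

open Metric Filter Topology

theorem mult_eq {B : ℂ × ℂ → ℂ × ℂ} (hB : Differentiable ℂ B) {x b a : ℂ × ℂ}
    {μ lam t r z : ℂ} (hμ : μ ≠ 0) (ha : a = μ • (x + (t + r * z) • b)) (hfix : B a = a)
    (hlam : ∀ b', wg a (fderiv ℂ B a b') = lam * wg a b') {σ : ℂ → ℂ}
    (hσ : DifferentiableAt ℂ σ z) {H : ℂ → ℂ × ℂ}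
    (hH : H =ᶠ[𝓝 z] fun y => σ y • B (μ • (x + (t + r * y) • b))) :
    HasDerivAt (fun y => wg (x + (t + r * y) • b) (H y)) (r * (lam - 1) * wg (H z) b) z := by
  have h1 : HasDerivAt (fun y : ℂ => x + (t + r * y) • b) (r • b) z := by
    have h2 : HasDerivAt (fun y : ℂ => t + r * y) r z := by
      simpa using ((hasDerivAt_id z).const_mul r).const_add t
    exact (h2.smul_const b).const_add x
  have h3 : HasDerivAt (fun y : ℂ => μ • (x + (t + r * y) • b)) (μ • (r • b)) z :=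
    h1.const_smul μ
  have h4 : HasDerivAt (fun y : ℂ => B (μ • (x + (t + r * y) • b)))
      (fderiv ℂ B a (μ • (r • b))) z := by
    have h5 : HasFDerivAt B (fderiv ℂ B a) (μ • (x + (t + r * z) • b)) := by
      rw [← ha]; exact (hB a).hasFDerivAt
    exact h5.comp_hasDerivAt z h3
  have h6 := (hσ.hasDerivAt.smul h4).congr_of_eventuallyEq hH
  rw [← ha, hfix] at h6
  have hHz : H z = σ z • a := by
    rw [hH.self_of_nhds]
    show σ z • B (μ • (x + (t + r * z) • b)) = σ z • a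
    rw [← ha, hfix]
  have h7 := hasDerivAt_wg h1 h6
  refine h7.congr_deriv ?_
  have h8 : x + (t + r * z) • b = μ⁻¹ • a := by
    rw [ha, smul_smul, inv_mul_cancel₀ hμ, one_smul]
  rw [hHz, h8]
  simp only [wg_smul_left, wg_smul_right, wg_add_right, hlam, wg_self]
  rw [wg_swap b a]
  field_simp
  ring

theorem exists_repelling {g : ℂ × ℂ → ℝ} {d : ℕ} {A : ℂ × ℂ → ℂ × ℂ} (hD : Dyn g d A)
    (hE : NoTR d A ∨ ∃ p, OneTR d A p) :
    ∃ (a : ℂ × ℂ) (k : ℕ) (lam : ℂ), a ≠ 0 ∧ 1 ≤ k ∧ 1 < ‖lam‖ ∧ A^[k] a = a ∧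
      (∀ b, wg a (fderiv ℂ (A^[k]) a b) = lam * wg a b) ∧
      Tgt d A a ∧
      ∀ (v : ℂ × ℂ) (n : ℕ), v ≠ 0 → wg (A^[n] v) a = 0 →
        ∃ b, wg (A^[n] v) (fderiv ℂ (A^[n]) v b) ≠ 0 := by
  have hdN : ∀ n : ℕ, ((d ^ n : ℕ) : ℂ) ≠ 0 := by
    intro n
    have := hD.two
    exact_mod_cast pow_ne_zero n (by omega : d ≠ 0)
  obtain ⟨S, hSf, hS0, hS⟩ := exists_crit_finite hD
  obtain ⟨z₀, hz₀, hTgt, hSx⟩ := exists_base hD hE hSf hS0
  set x : ℂ × ℂ := (z₀, 1) with hx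
  set b : ℂ × ℂ := (1, 0) with hb
  have hx0 : x ≠ 0 := vec_one_ne z₀
  have hxb : wg x b ≠ 0 := by simp [hx, hb, wg]
  have hbn : ‖b‖ = 1 := by simp [hb, Prod.norm_def]
  have hJ : ¬ HarmAt (fun t => g (x + t • b)) 0 := by
    intro h
    apply hz₀
    have h1 : HarmAt (fun z => g (x + (z - z₀) • b)) z₀ := by
      have h2 : AnalyticAt ℂ (fun z : ℂ => z - z₀) z₀ := analyticAt_id.sub analyticAt_const
      have h3 : HarmAt (fun t => g (x + t • b)) ((fun z : ℂ => z - z₀) z₀) := by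
        simpa using h
      exact HarmAt.comp (u := fun t => g (x + t • b)) (h := fun z => z - z₀) (z := z₀) h3 h2
    refine h1.congr (Eventually.of_forall fun z => ?_)
    simp [hx, hb]
  obtain ⟨n, t, r, s, h, M, hn1, hr0, ht, hr, hsd, hs0, hHM, hhd, hh0, hhM, hlim, z₁, hz₁, hz₁n⟩ :=
    exists_rescale hD hxb hJ
  have hha : ∀ z ∈ ball (0 : ℂ) 1, AnalyticAt ℂ h z := fun z hz =>
    hhd.analyticAt (isOpen_ball.mem_nhds hz)
  -- a nonharmonic point where the limit curve is immersed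
  obtain ⟨z₂, hz₂, hz₂n, hz₂i⟩ : ∃ z₂ ∈ ball (0 : ℂ) 1, ¬ HarmAt (fun z => g (h z)) z₂ ∧
      wg (h z₂) (deriv h z₂) ≠ 0 := by
    have h1 := immersed_of_nonharm hD.pot (hha z₁ hz₁) (hh0 z₁ hz₁) hz₁n
    rw [eventually_nhdsWithin_iff] at h1
    obtain ⟨ε, hε, h2⟩ := Metric.eventually_nhds_iff_ball.1
      (h1.and (isOpen_ball.eventually_mem hz₁))
    have hcont : ContinuousOn (fun z => g (h z)) (ball z₁ ε) :=
      hD.pot.cont.comp (hhd.continuousOn.mono fun y hy => (h2 y hy).2)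
        fun y hy => hh0 y (h2 y hy).2
    obtain ⟨y, hy1, hy2, hy3⟩ := exists_nonharm_ne hε hcont hz₁n hε
    exact ⟨y, (h2 y hy2).2, hy3, (h2 y hy2).1 hy1⟩
  obtain ⟨δ, hδ, hδball⟩ := Metric.eventually_nhds_iff_ball.1
    (((analyticAt_wg (hha z₂ hz₂) (hha z₂ hz₂).deriv).continuousAt.eventually_ne hz₂i).and
      (isOpen_ball.eventually_mem hz₂))
  obtain ⟨m, hm⟩ := cov hD hTgt hδ (hhd.mono fun y hy => (hδball y hy).2)
    (fun y hy => hh0 y (hδball y hy).2) hz₂n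
  obtain ⟨w, hw, hwx⟩ := hm m le_rfl
  have hw1 : w ∈ ball (0 : ℂ) 1 := (hδball w hw).2
  have hwi : wg (h w) (deriv h w) ≠ 0 := (hδball w hw).1
  have hjac : jac (A^[m]) (h w) ≠ 0 := by
    intro hj
    obtain ⟨ζ, hζ, j, -, h1⟩ := crit_hit hD.lift hS0 hS (hh0 w hw1) hj hwx
    exact hSx ζ hζ j h1
  have hAm : Continuous (A^[m]) := (hD.lift.iterate m).continuous
  -- the limit function
  set Φ : ℂ → ℂ := fun z => wg x (A^[m] (h z)) with hΦ
  have hHder : ∀ z ∈ ball (0 : ℂ) 1, HasDerivAt (fun z => A^[m] (h z))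
      (fderiv ℂ (A^[m]) (h z) (deriv h z)) z := fun z hz =>
    ((hD.lift.iterate m).differentiable _).hasFDerivAt.comp_hasDerivAt z
      (hha z hz).differentiableAt.hasDerivAt
  have hΦder : ∀ z ∈ ball (0 : ℂ) 1, HasDerivAt Φ
      (wg x (fderiv ℂ (A^[m]) (h z) (deriv h z))) z := by
    intro z hz
    have h1 := hasDerivAt_wg (hasDerivAt_const z x) (hHder z hz)
    rw [wg_zero_left, zero_add] at h1
    exact h1
  have hΦd : DifferentiableOn ℂ Φ (ball 0 1) := fun z hz =>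
    (hΦder z hz).differentiableAt.differentiableWithinAt
  have hΦw : Φ w = 0 := by
    show wg x (A^[m] (h w)) = 0
    rw [wg_swap, hwx, neg_zero]
  have hΦw' : deriv Φ w ≠ 0 := by
    rw [(hΦder w hw1).deriv]
    obtain ⟨κ, hκ⟩ := (wg_eq_zero_iff (hD.lift.iter_nz m (hh0 w hw1)) x).1 hwx
    have hκ0 : κ ≠ 0 := by
      rintro rfl; rw [zero_smul] at hκ; exact hx0 hκ
    rw [hκ, wg_smul_left]
    refine mul_ne_zero hκ0 fun h1 => ?_
    have h2 := (hD.lift.iterate m).euler_jac (h w) (deriv h w)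
    rw [h1, mul_zero] at h2
    exact (mul_ne_zero hjac hwi) h2.symm
  -- the approximating functions
  set H : ℕ → ℂ → ℂ × ℂ := fun j z => A^[m] (s j z • A^[n j] (x + (t j + r j * z) • b)) with hH
  set Φj : ℕ → ℂ → ℂ := fun j z => wg (x + (t j + r j * z) • b) (H j z) with hΦj
  have hΦjd : ∀ j, DifferentiableOn ℂ (Φj j) (ball 0 1) := by
    intro j z hz
    have hb1 : DifferentiableAt ℂ (fun z : ℂ => x + (t j + r j * z) • b) z := by fun_prop
    have h1 : DifferentiableAt ℂ (fun z => s j z • A^[n j] (x + (t j + r j * z) • b)) z :=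
      ((hsd j).differentiableAt (isOpen_ball.mem_nhds hz)).smul
        (((hD.lift.iterate (n j)).differentiable _).comp z hb1)
    have h2 : DifferentiableAt ℂ (H j) z :=
      ((hD.lift.iterate m).differentiable _).comp z h1
    exact (hasDerivAt_wg hb1.hasDerivAt h2.hasDerivAt).differentiableAt.differentiableWithinAt
  have hsmall : ∀ ε > 0, ∀ᶠ j in atTop, ∀ z ∈ ball (0 : ℂ) 1, ‖t j + r j * z‖ < ε := by
    intro ε hε
    have h1 : ∀ᶠ j in atTop, ‖t j‖ < ε / 2 := by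
      have := ht.norm
      rw [norm_zero] at this
      exact this.eventually_lt_const (by linarith)
    have h2 : ∀ᶠ j in atTop, r j < ε / 2 := hr.eventually_lt_const (by linarith)
    filter_upwards [h1, h2] with j h3 h4 z hz
    rw [mem_ball_zero_iff] at hz
    calc ‖t j + r j * z‖ ≤ ‖t j‖ + ‖(r j : ℂ) * z‖ := norm_add_le _ _
      _ = ‖t j‖ + r j * ‖z‖ := by
          rw [norm_mul, Complex.norm_real, Real.norm_eq_abs, abs_of_pos (hr0 j)]
      _ ≤ ‖t j‖ + r j * 1 := by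
          have := hr0 j
          gcongr
      _ < ε := by linarith
  have hΦlim : TendstoLocallyUniformlyOn Φj Φ atTop (ball 0 1) := by
    rw [tendstoLocallyUniformlyOn_iff_forall_isCompact isOpen_ball]
    intro K hK hKc
    rw [Metric.tendstoUniformlyOn_iff]
    intro ε hε
    have hcomp : IsCompact (closedBall x 1 ×ˢ closedBall (0 : ℂ × ℂ) M) :=
      (isCompact_closedBall _ _).prod (isCompact_closedBall _ _)
    have hcont : Continuous fun p : (ℂ × ℂ) × (ℂ × ℂ) => wg p.1 (A^[m] p.2) := by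
      unfold wg
      fun_prop
    obtain ⟨η, hη, hunif⟩ := Metric.uniformContinuousOn_iff.1
      (hcomp.uniformContinuousOn_of_continuous hcont.continuousOn) ε hε
    have h1 := Metric.tendstoUniformlyOn_iff.1
      ((tendstoLocallyUniformlyOn_iff_forall_isCompact isOpen_ball).1 hlim K hK hKc) η hη
    filter_upwards [h1, hsmall (min η 1) (lt_min hη one_pos)] with j h2 h3 z hz
    have hz1 := hK hz
    have h4 := h3 z hz1
    have h5 : ‖(t j + r j * z) • b‖ < min η 1 := by rw [norm_smul, hbn, mul_one]; exact h4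
    have h6 : dist x (x + (t j + r j * z) • b) < min η 1 := by
      rw [dist_comm, dist_eq_norm, add_sub_cancel_left]; exact h5
    exact hunif (x, h z) ⟨mem_closedBall_self zero_le_one,
        mem_closedBall_zero_iff.2 (hhM z hz1)⟩
      (x + (t j + r j * z) • b, s j z • A^[n j] (x + (t j + r j * z) • b))
      ⟨mem_closedBall.2 (by rw [dist_comm]; exact (h6.trans_le (min_le_right _ _)).le),
        mem_closedBall_zero_iff.2 (hHM j z hz1)⟩
      (max_lt (h6.trans_le (min_le_left _ _)) (h2 z hz))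
  have hΦlim' : TendstoLocallyUniformlyOn (deriv ∘ Φj) (deriv Φ) atTop (ball 0 1) :=
    hΦlim.deriv (Eventually.of_forall hΦjd) isOpen_ball
  -- the radius
  set ν : ℝ := ‖deriv Φ w‖ / 2 with hν
  have hν0 : 0 < ν := by
    have := norm_pos_iff.2 hΦw'
    rw [hν]; linarith
  obtain ⟨s₁, hs₁, hs₁ball⟩ : ∃ s₁ > 0, ∀ z ∈ ball w s₁, ν < ‖deriv Φ z‖ ∧ (z ≠ w → Φ z ≠ 0) ∧
      z ∈ ball (0 : ℂ) 1 := by
    have h1 : ContinuousAt (fun z => ‖deriv Φ z‖) w :=
      ((hΦd.analyticAt (isOpen_ball.mem_nhds hw1)).deriv.continuousAt).norm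
    have h2 : ∀ᶠ z in 𝓝 w, ν < ‖deriv Φ z‖ := by
      refine h1.eventually_const_lt ?_
      show ν < ‖deriv Φ w‖
      rw [hν] at hν0 ⊢
      linarith
    have h3 : ∀ᶠ z in 𝓝[≠] w, Φ z ≠ 0 := by
      have h4 := (hΦder w hw1).differentiableAt.hasDerivAt
      exact h4.eventually_ne hΦw'
    rw [eventually_nhdsWithin_iff] at h3
    exact Metric.eventually_nhds_iff_ball.1
      (h2.and (h3.and (isOpen_ball.eventually_mem hw1)))
  set ρ : ℝ := s₁ / 2 with hρ
  have hρ0 : 0 < ρ := by rw [hρ]; linarith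
  have hcbs : closedBall w ρ ⊆ ball w s₁ := closedBall_subset_ball (by rw [hρ]; linarith)
  have hcb1 : closedBall w ρ ⊆ ball (0 : ℂ) 1 := fun z hz => (hs₁ball z (hcbs hz)).2.2
  obtain ⟨μ, hμ0, hμ⟩ : ∃ μ > 0, ∀ z ∈ sphere w ρ, μ ≤ ‖Φ z‖ := by
    have hne : (sphere w ρ).Nonempty := NormedSpace.sphere_nonempty.2 hρ0.le
    have hΦc : ContinuousOn (fun z => ‖Φ z‖) (sphere w ρ) :=
      (hΦd.continuousOn.mono (sphere_subset_closedBall.trans hcb1)).norm
    obtain ⟨y, hy, hmin⟩ := (isCompact_sphere w ρ).exists_isMinOn hne hΦc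
    refine ⟨‖Φ y‖, norm_pos_iff.2 ?_, fun z hz => hmin hz⟩
    refine (hs₁ball y (hcbs (sphere_subset_closedBall hy))).2.1 ?_
    rintro rfl
    rw [mem_sphere, dist_self] at hy
    exact hρ0.ne hy
  -- bound for the values
  obtain ⟨B₀, hB₀⟩ := (isCompact_closedBall (0 : ℂ × ℂ) M).exists_bound_of_continuousOn
    hAm.continuousOn
  set B : ℝ := 2 * |B₀| + 1 with hB
  have hBpos : 0 < B := by rw [hB]; positivity
  -- good neighbourhoods of `x`
  have hnear1 := eventually_not_post hD.lift hSf hS0 hx0 hSx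
  have hnear2 : ∀ᶠ a in 𝓝 x, a ≠ 0 ∧ (NoTR d A ∨ ∃ p, OneTR d A p ∧ wg a p ≠ 0) := by
    have h1 : ∀ᶠ a in 𝓝 x, a ≠ 0 := continuousAt_id.eventually_ne hx0
    rcases hTgt.2 with h2 | ⟨p, hp, hxp⟩
    · exact h1.mono fun a ha => ⟨ha, Or.inl h2⟩
    · have h3 : Continuous fun a => wg a p := by unfold wg; fun_prop
      filter_upwards [h1, h3.continuousAt.eventually_ne hxp] with a ha ha'
        using ⟨ha, Or.inr ⟨p, hp, ha'⟩⟩
  obtain ⟨ε₀, hε₀, hnear⟩ := Metric.eventually_nhds_iff_ball.1 (hnear1.and hnear2)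
  have hK := isCompact_closedBall w ρ
  have ev1 := Metric.tendstoUniformlyOn_iff.1
    ((tendstoLocallyUniformlyOn_iff_forall_isCompact isOpen_ball).1 hΦlim _ hcb1 hK) (μ / 8)
    (by positivity)
  have ev2 := Metric.tendstoUniformlyOn_iff.1
    ((tendstoLocallyUniformlyOn_iff_forall_isCompact isOpen_ball).1 hΦlim' _ hcb1 hK) (ν / 2)
    (by positivity)
  have ev3 : ∀ᶠ j in atTop, r j < ν / (8 * B) := hr.eventually_lt_const (by positivity)
  obtain ⟨j, hj1, hj2, hj3, hj4⟩ := (ev1.and (ev2.and (ev3.and (hsmall ε₀ hε₀)))).exists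
  have hder : ∀ z ∈ closedBall w ρ, ν / 2 < ‖deriv (Φj j) z‖ := by
    intro z hz
    have h1 := hj2 z hz
    rw [dist_eq_norm] at h1
    have h2 := (hs₁ball z (hcbs hz)).1
    have h3 := norm_sub_norm_le (deriv Φ z) (deriv (Φj j) z)
    change ‖deriv Φ z - deriv (Φj j) z‖ < ν / 2 at h1
    linarith
  have hwmem : w ∈ closedBall w ρ := mem_closedBall_self hρ0.le
  have hΦjw : ‖Φj j w‖ < μ / 8 := by
    have h1 := hj1 w hwmem
    rw [hΦw, dist_zero_left] at h1
    exact h1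
  -- solve the fixed point equation
  obtain ⟨z, hz, hzero⟩ : ∃ z ∈ closedBall w ρ, Φj j z = 0 := by
    have hdc : DiffContOnCl ℂ (Φj j) (ball w ρ) := by
      refine ((hΦjd j).mono ?_).diffContOnCl
      rw [closure_ball w hρ0.ne']
      exact hcb1
    have hsph : ∀ z ∈ sphere w ρ, 3 * μ / 4 ≤ ‖Φj j z - Φj j w‖ := by
      intro z hz
      have h1 := hj1 z (sphere_subset_closedBall hz)
      rw [dist_eq_norm] at h1
      have h2 := hμ z hz
      have h3 := norm_sub_norm_le (Φ z) (Φj j z)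
      have h4 := norm_sub_norm_le (Φj j z) (Φj j w)
      linarith
    have hne : ∃ᶠ z in 𝓝 w, Φj j z ≠ Φj j w := by
      have h1 : HasDerivAt (Φj j) (deriv (Φj j) w) w :=
        ((hΦjd j).differentiableAt (isOpen_ball.mem_nhds hw1)).hasDerivAt
      have h2 : deriv (Φj j) w ≠ 0 := by
        have := hder w hwmem
        exact norm_pos_iff.1 (by linarith)
      have h3 : ∀ᶠ z in 𝓝[≠] w, Φj j z ≠ Φj j w := h1.eventually_ne h2
      exact h3.frequently.filter_mono nhdsWithin_le_nhds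
    have h1 := hdc.ball_subset_image_closedBall hρ0 hsph hne
    have h2 : (0 : ℂ) ∈ ball (Φj j w) (3 * μ / 4 / 2) := by
      rw [mem_ball, dist_zero_left]
      linarith
    obtain ⟨z, hz, hz0⟩ := h1 h2
    exact ⟨z, hz, hz0⟩
  have hz1 : z ∈ ball (0 : ℂ) 1 := hcb1 hz
  set a₁ : ℂ × ℂ := x + (t j + r j * z) • b with ha₁
  have ha₁near : a₁ ∈ ball x ε₀ := by
    rw [mem_ball, dist_eq_norm, ha₁, add_sub_cancel_left, norm_smul, hbn, mul_one]
    exact hj4 z hz1
  obtain ⟨hpost, ha₁0, ha₁T⟩ := hnear a₁ ha₁near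
  set N : ℕ := m + n j with hN
  have hN1 : 1 ≤ N := by have := hn1 j; omega
  have hHs : ∀ y, H j y = (s j y) ^ (d ^ m) • A^[N] (x + (t j + r j * y) • b) := by
    intro y
    show A^[m] (s j y • A^[n j] (x + (t j + r j * y) • b)) = _
    rw [hD.lift.iter_hom, ← Function.iterate_add_apply]
  have hpar : wg a₁ (A^[N] a₁) = 0 := by
    have h1 : wg a₁ (H j z) = 0 := hzero
    rw [hHs, wg_smul_right] at h1
    exact (mul_eq_zero.1 h1).resolve_left (pow_ne_zero _ (hs0 j z))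
  obtain ⟨κ, hκ⟩ := (wg_eq_zero_iff ha₁0 _).1 hpar
  have hκ0 : κ ≠ 0 := by
    rintro rfl
    rw [zero_smul] at hκ
    exact hD.lift.iter_nz N ha₁0 hκ
  have hdN1 : 0 < d ^ N - 1 := by
    have h1 : 2 ^ 1 ≤ d ^ N := (Nat.pow_le_pow_left hD.two 1).trans
      (Nat.pow_le_pow_right (by have := hD.two; omega) hN1)
    omega
  obtain ⟨μ₁, hμ₁⟩ := IsAlgClosed.exists_pow_nat_eq (κ⁻¹) hdN1
  have hμ₁0 : μ₁ ≠ 0 := by
    rintro rfl
    rw [zero_pow hdN1.ne'] at hμ₁
    exact (inv_ne_zero hκ0) hμ₁.symm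
  set a : ℂ × ℂ := μ₁ • a₁ with ha
  have ha0 : a ≠ 0 := smul_ne_zero hμ₁0 ha₁0
  have hfix : A^[N] a = a := by
    rw [ha, hD.lift.iter_hom, hκ, smul_smul]
    congr 1
    have h1 : μ₁ ^ (d ^ N) = μ₁ ^ (d ^ N - 1) * μ₁ := by
      rw [← pow_succ, Nat.sub_add_cancel (by omega)]
    rw [h1, hμ₁]
    field_simp
  set lam : ℂ := jac (A^[N]) a / ((d ^ N : ℕ) : ℂ) with hlam
  have hmul : ∀ b', wg a (fderiv ℂ (A^[N]) a b') = lam * wg a b' := by
    intro b'
    have h1 := (hD.lift.iterate N).euler_jac a b'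
    rw [hfix] at h1
    rw [hlam, div_mul_eq_mul_div, ← h1, mul_div_cancel_left₀ _ (hdN N)]
  have hlam1 : 1 < ‖lam‖ := by
    have hσ : DifferentiableAt ℂ (fun y => (s j y) ^ (d ^ m) * (μ₁ ^ (d ^ N))⁻¹) z :=
      (((hsd j).differentiableAt (isOpen_ball.mem_nhds hz1)).pow _).mul_const _
    have h1 := mult_eq (B := A^[N]) (hD.lift.iterate N).differentiable (x := x) (b := b) (a := a)
      (μ := μ₁) (lam := lam) (t := t j) (r := r j) (z := z) hμ₁0 ha hfix hmul
      (σ := fun y => (s j y) ^ (d ^ m) * (μ₁ ^ (d ^ N))⁻¹) hσ (H := H j)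
      (Eventually.of_forall fun y => by
        show H j y = ((s j y) ^ (d ^ m) * (μ₁ ^ (d ^ N))⁻¹) •
          A^[N] (μ₁ • (x + (t j + r j * y) • b))
        rw [hHs, hD.lift.iter_hom, smul_smul, inv_mul_cancel_right₀ (pow_ne_zero _ hμ₁0)])
    have h2 : deriv (Φj j) z = r j * (lam - 1) * wg (H j z) b := h1.deriv
    have h3 := hder z hz
    rw [h2, norm_mul, norm_mul, Complex.norm_real, Real.norm_eq_abs, abs_of_pos (hr0 j)] at h3
    have h4 : ‖wg (H j z) b‖ ≤ B := by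
      have h5 : ‖H j z‖ ≤ B₀ := hB₀ _ (mem_closedBall_zero_iff.2 (hHM j z hz1))
      have h6 := norm_wg_le (H j z) b
      rw [hbn, mul_one] at h6
      have h7 := le_abs_self B₀
      rw [hB]; linarith
    by_contra hcon
    rw [not_lt] at hcon
    have h5 : ‖lam - 1‖ ≤ 2 := by
      have := norm_sub_le lam 1
      rw [norm_one] at this
      linarith
    have h6 : r j * ‖lam - 1‖ * ‖wg (H j z) b‖ ≤ ν / (8 * B) * 2 * B := by
      have := (hr0 j).le
      gcongr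
    have h7 : ν / (8 * B) * 2 * B = ν / 4 := by field_simp; norm_num
    linarith
  refine ⟨a, N, lam, ha0, hN1, hlam1, hfix, hmul, ⟨ha0, ?_⟩, ?_⟩
  · rcases ha₁T with h1 | ⟨p, hp, h1⟩
    · exact Or.inl h1
    · exact Or.inr ⟨p, hp, by rw [ha, wg_smul_left]; exact mul_ne_zero hμ₁0 h1⟩
  · intro v k hv hva
    refine ⟨perp v, fun h1 => ?_⟩
    have h2 := (hD.lift.iterate k).euler_jac v (perp v)
    rw [h1, mul_zero] at h2
    have h3 : jac (A^[k]) v = 0 := (mul_eq_zero.1 h2.symm).resolve_right (wg_perp_ne hv)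
    obtain ⟨ζ, hζ, i, -, h4⟩ := crit_hit hD.lift hS0 hS hv h3 hva
    rw [ha, wg_smul_right] at h4
    have h5 := (mul_eq_zero.1 h4).resolve_left hμ₁0
    exact hpost ζ hζ N hN1 (by rw [wg_swap, hpar, neg_zero]) i h5

end Pool.Agent.Work.MP_78b16e_an
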