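import Pool.Agent.Work.MP_78b16e_an.TransD

/-! The group of translations; zoom; non-discrete families give a translation; rigidity of
local symmetries.  (owner: helper71) -/

set_option autoImplicit false

namespace Pool.Agent.Work.MP_78b16e_an

open Metric Filter Topology

variable {g : ℂ × ℂ → ℝ} {D : ℕ} {B : ℂ × ℂ → ℂ × ℂ} {lam : ℂ} {ψ : ℂ → ℂ × ℂ} {p : ℂ → ℂ}

/-- `u = g ∘ ψ` is not harmonic at `0` -/
theorem Lin.not_harm (hL : Lin g D B lam ψ p) : ¬ HarmAt (fun z => g (ψ z)) 0 :=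
  hL.not_harm'

/-- extraction: frequently moving symmetries give a translation -/
theorem exists_translation_of_frequently (hL : Lin g D B lam ψ p) {δ : ℝ} (hδ : 0 < δ)
    {κ : ℕ → ℂ → ℂ} {ρ : ℕ → ℝ} (hd : ∀ j, DifferentiableOn ℂ (κ j) (ball 0 δ))
    (hid : ∀ ε > 0, ∀ᶠ j in atTop, ∀ z ∈ ball (0 : ℂ) δ, ‖κ j z - z‖ < ε)
    (hh : ∀ j, HarmOn (fun z => g (ψ (κ j z)) - ρ j * g (ψ z)) (ball 0 δ))
    (hρ : Tendsto ρ atTop (𝓝 1)) (hmove : ∃ᶠ j in atTop, κ j 0 ≠ 0) :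
    ∃ τ, τ ≠ 0 ∧ τ ∈ TT (fun z => g (ψ z)) := by
  obtain ⟨φ, hφ, hφm⟩ := extraction_of_frequently_atTop hmove
  exact exists_translation hL hδ (κ := fun j => κ (φ j)) (ρ := fun j => ρ (φ j))
    (fun j => hd _) (fun ε hε => hφ.tendsto_atTop.eventually (hid ε hε)) (fun j => hh _)
    (hρ.comp hφ.tendsto_atTop) hφm

/-- the limit curve of a normal family -/
theorem exists_limit_curve (hL : Lin g D B lam ψ p)
    (h : ℕ → ℂ → ℂ × ℂ) (ρ : ℕ → ℝ) {m : ℝ} (hm : 0 < m) (hρ : ∀ j, m ≤ ρ j ∧ ρ j ≤ 1)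
    (hd : ∀ j, Differentiable ℂ (h j)) (hnz : ∀ j z, h j z ≠ 0)
    (hg : ∀ j z, g (h j z) = ρ j * g (ψ z)) :
    ∃ (φ : ℕ → ℕ) (G : ℂ → ℂ × ℂ) (r : ℝ), StrictMono φ ∧ 0 < r ∧
      DifferentiableOn ℂ G (ball 0 1) ∧
      TendstoLocallyUniformlyOn (fun j => h (φ j)) G atTop (ball 0 1) ∧
      Tendsto (fun j => ρ (φ j)) atTop (𝓝 r) ∧
      ∀ z ∈ ball (0 : ℂ) 1, G z ≠ 0 ∧ g (G z) = r * g (ψ z) := by
  obtain ⟨C, hC0, hC⟩ := hL.dyn.pot.bdd
  obtain ⟨S, hS⟩ := (isCompact_closedBall (0 : ℂ) 1).exists_bound_of_continuousOn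
    hL.continuous.continuousOn
  have hS0 : 0 ≤ S := (norm_nonneg _).trans (hS 0 (by simp))
  have hb : ∀ j, ∀ y ∈ ball (0 : ℂ) 1, |Real.log ‖h j y‖| ≤ S + C := by
    intro j y hy
    have h1 := hC _ (hnz j y)
    rw [hg] at h1
    have h2 : |ρ j * g (ψ y)| ≤ S := by
      have h3 : |g (ψ y)| ≤ S := hS y (ball_subset_closedBall hy)
      rw [abs_mul, abs_of_nonneg (hm.le.trans (hρ j).1)]
      calc ρ j * |g (ψ y)| ≤ 1 * |g (ψ y)| := by
            gcongr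
            exact (hρ j).2
        _ ≤ S := by rw [one_mul]; exact h3
    have h4 : Real.log ‖h j y‖ = ρ j * g (ψ y) - (ρ j * g (ψ y) - Real.log ‖h j y‖) := by ring
    rw [h4]
    exact (abs_sub _ _).trans (add_le_add h2 h1)
  have hub : ∀ j, ∀ y ∈ ball (0 : ℂ) 1, ‖h j y‖ ≤ Real.exp (S + C) := by
    intro j y hy
    exact (Real.log_le_iff_le_exp (norm_pos_iff.2 (hnz j y))).1 ((le_abs_self _).trans (hb j y hy))
  have hlb : ∀ j, ∀ y ∈ ball (0 : ℂ) 1, Real.exp (-(S + C)) ≤ ‖h j y‖ := by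
    intro j y hy
    exact (Real.le_log_iff_exp_le (norm_pos_iff.2 (hnz j y))).1 (neg_le_of_abs_le (hb j y hy))
  obtain ⟨φ, G, hφ, hGd, hconv⟩ := montel one_pos (fun j => (hd j).differentiableOn) hub
  have hmem : ∀ j, ρ (φ j) ∈ Set.Icc m 1 := fun j => hρ _
  obtain ⟨r, hr, φ₂, hφ₂, hrlim⟩ := isCompact_Icc.tendsto_subseq hmem
  have hconv' : TendstoLocallyUniformlyOn (fun j => h (φ (φ₂ j))) G atTop (ball 0 1) := by
    intro u hu x hx
    obtain ⟨t, ht, h1⟩ := hconv u hu x hx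
    exact ⟨t, ht, hφ₂.tendsto_atTop.eventually h1⟩
  refine ⟨fun j => φ (φ₂ j), G, r, hφ.comp hφ₂, hm.trans_le hr.1, hGd, hconv', hrlim,
    fun z hz => ?_⟩
  have hpt : Tendsto (fun j => h (φ (φ₂ j)) z) atTop (𝓝 (G z)) := hconv'.tendsto_at hz
  have hGz : G z ≠ 0 := by
    have h1 : Real.exp (-(S + C)) ≤ ‖G z‖ := ge_of_tendsto' hpt.norm fun j => hlb _ z hz
    intro h2
    rw [h2, norm_zero] at h1
    exact absurd h1 (not_le.2 (Real.exp_pos _))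
  refine ⟨hGz, ?_⟩
  have hgc : ContinuousAt g (G z) :=
    hL.dyn.pot.cont.continuousAt (isOpen_compl_singleton.mem_nhds hGz)
  have h1 : Tendsto (fun j => g (h (φ (φ₂ j)) z)) atTop (𝓝 (g (G z))) := hgc.tendsto.comp hpt
  have h2 : Tendsto (fun j => g (h (φ (φ₂ j)) z)) atTop (𝓝 (r * g (ψ z))) := by
    have : Tendsto (fun j => ρ (φ (φ₂ j)) * g (ψ z)) atTop (𝓝 (r * g (ψ z))) :=
      hrlim.mul_const _
    refine this.congr fun j => ?_
    rw [hg]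
  exact tendsto_nhds_unique h1 h2

theorem nondiscrete (hL : Lin g D B lam ψ p) {z₁ : ℂ} (hz₁ : z₁ ≠ 0)
    (hpar : wg (ψ z₁) (ψ 0) = 0) (himm : wg (ψ z₁) (deriv ψ z₁) ≠ 0)
    (h : ℕ → ℂ → ℂ × ℂ) (ρ : ℕ → ℝ) {m : ℝ} (hm : 0 < m) (hρ : ∀ j, m ≤ ρ j ∧ ρ j ≤ 1)
    (hd : ∀ j, Differentiable ℂ (h j)) (hnz : ∀ j z, h j z ≠ 0)
    (hg : ∀ j z, g (h j z) = ρ j * g (ψ z))
    (hne : ∀ i j, i ≠ j → ∃ z, wg (h i z) (h j z) ≠ 0) :
    ∃ τ, τ ≠ 0 ∧ τ ∈ TT (fun z => g (ψ z)) := by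
  have hl := hL.lam_ne
  obtain ⟨φ, G, r, hφ, hr, hGd, hconv, hrlim, hG⟩ :=
    exists_limit_curve hL h ρ hm hρ hd hnz hg
  have hG0 : AnalyticAt ℂ G 0 := hGd.analyticAt (isOpen_ball.mem_nhds (mem_ball_self one_pos))
  -- homoclinic points
  have hw : Tendsto (fun i : ℕ => (lam ^ i)⁻¹ * z₁) atTop (𝓝 0) := hL.tendsto_zero z₁
  have hw0 : ∀ i : ℕ, (lam ^ i)⁻¹ * z₁ ≠ 0 := fun i =>
    mul_ne_zero (inv_ne_zero (pow_ne_zero i hl)) hz₁
  have hw' : Tendsto (fun i : ℕ => (lam ^ i)⁻¹ * z₁) atTop (𝓝[≠] 0) :=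
    tendsto_nhdsWithin_iff.2 ⟨hw, Eventually.of_forall hw0⟩
  -- the limit curve is immersed at some homoclinic point
  obtain ⟨i, hi1, hi2⟩ : ∃ i : ℕ, (lam ^ i)⁻¹ * z₁ ∈ ball (0 : ℂ) 1 ∧
      wg (G ((lam ^ i)⁻¹ * z₁)) (deriv G ((lam ^ i)⁻¹ * z₁)) ≠ 0 := by
    have hW : AnalyticAt ℂ (fun z => wg (G z) (deriv G z)) 0 := analyticAt_wg hG0 hG0.deriv
    rcases hW.eventually_eq_zero_or_eventually_ne_zero with h0 | h0
    · exfalso
      have h1 := par_of_wronski hG0 (hG 0 (mem_ball_self one_pos)).1 h0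
      have h2 := harmAt_par hL.dyn.pot hG0 (analyticAt_const (v := G 0))
        (hG 0 (mem_ball_self one_pos)).1 (hG 0 (mem_ball_self one_pos)).1 h1
      apply hL.not_harm
      have h3 : HarmAt (fun _ => g (G 0)) 0 := by
        have := harmAt_re (e := fun _ => ((g (G 0) : ℝ) : ℂ)) (z := 0) analyticAt_const
        simpa using this
      refine ((h2.add h3).const_mul r⁻¹).congr ?_
      filter_upwards [ball_mem_nhds (0 : ℂ) one_pos] with z hz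
      rw [(hG z hz).2]
      field_simp
      ring
    · exact ((hw.eventually (ball_mem_nhds (0 : ℂ) one_pos)).and (hw'.eventually h0)).exists
  set w := (lam ^ i)⁻¹ * z₁ with hwdef
  have hlw : lam ^ i * w = z₁ := by
    rw [hwdef, ← mul_assoc, mul_inv_cancel₀ (pow_ne_zero i hl), one_mul]
  -- uniform convergence near `w`
  obtain ⟨r₁, hr₁, hr₁b⟩ : ∃ r₁ > 0, closedBall w r₁ ⊆ ball (0 : ℂ) 1 :=
    Metric.nhds_basis_closedBall.mem_iff.1 (isOpen_ball.mem_nhds hi1)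
  have hballr₁ : ball w r₁ ⊆ ball (0 : ℂ) 1 := ball_subset_closedBall.trans hr₁b
  have hunif : ∀ ε > 0, ∀ᶠ j in atTop, ∀ z ∈ ball w r₁, ‖h (φ j) z - G z‖ < ε := by
    intro ε hε
    have h1 := (tendstoLocallyUniformlyOn_iff_forall_isCompact isOpen_ball).1 hconv _ hr₁b
      (isCompact_closedBall w r₁)
    have h2 := Metric.tendstoUniformlyOn_iff.1 h1 ε hε
    filter_upwards [h2] with j hj z hz
    have := hj z (ball_subset_closedBall hz)
    rwa [dist_comm, dist_eq_norm] at this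
  obtain ⟨δ, hδ, hδr, J, κ, hκd, hκid, hκ⟩ := kappa_seq (H := fun j => h (φ j)) hr₁
    (hGd.mono hballr₁) (fun j => (hd _).differentiableOn) hunif hi2
  -- harmonicity of `κ`
  have hκh : ∀ j, HarmOn (fun z => g (ψ (κ j z)) - ρ (φ (j + J)) / r * g (ψ z)) (ball w δ) := by
    intro j z hz
    have hκz : κ j z ∈ ball (0 : ℂ) 1 := hballr₁ (hκ j z hz).1
    have hκa : AnalyticAt ℂ (κ j) z := (hκd j).analyticAt (isOpen_ball.mem_nhds hz)
    have hGa : AnalyticAt ℂ G (κ j z) := hGd.analyticAt (isOpen_ball.mem_nhds hκz)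
    have h1 : AnalyticAt ℂ (fun y => G (κ j y)) z :=
      AnalyticAt.comp (g := G) (f := κ j) hGa hκa
    have h2 : ∀ᶠ y in 𝓝 z, wg (G (κ j y)) (h (φ (j + J)) y) = 0 := by
      filter_upwards [isOpen_ball.mem_nhds hz] with y hy using (hκ j y hy).2
    have h3 := harmAt_par hL.dyn.pot h1 ((hd (φ (j + J))).analyticAt z) (hG _ hκz).1
      (hnz _ _) h2
    refine (h3.const_mul r⁻¹).congr ?_
    filter_upwards [isOpen_ball.mem_nhds hz] with y hy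
    rw [(hG _ (hballr₁ (hκ j y hy).1)).2, hg]
    field_simp
  have htail : ∀ J : ℕ, Tendsto (fun j => j + J) atTop atTop := tendsto_add_atTop_nat
  have hρlim : Tendsto (fun j => ρ (φ (j + J)) / r) atTop (𝓝 1) := by
    have := (hrlim.comp (htail J)).div_const r
    rwa [div_self hr.ne'] at this
  -- the local map at `z₁`
  obtain ⟨η, hη, hηz, hη', hηp⟩ := exists_match (hL.diff.analyticAt 0) (hL.diff.analyticAt z₁)
    hL.imm himm (by rw [wg_swap, hpar, neg_zero])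
  have hηh : HarmAt (fun z => g (ψ (η z)) - g (ψ z)) z₁ := by
    have h1 : AnalyticAt ℂ (fun z => ψ (η z)) z₁ :=
      AnalyticAt.comp (g := ψ) (f := η) (hL.diff.analyticAt _) hη
    exact harmAt_par hL.dyn.pot h1 (hL.diff.analyticAt z₁) (hL.nz _) (hL.nz _) hηp
  -- the local map at `w`
  have hlin : AnalyticAt ℂ (fun z : ℂ => lam ^ i * z) w := by fun_prop
  have hθ : AnalyticAt ℂ (fun z => η (lam ^ i * z)) w :=
    AnalyticAt.comp (g := η) (f := fun z => lam ^ i * z) (by rw [hlw]; exact hη) hlin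
  have hθw : η (lam ^ i * w) = 0 := by
    rw [hlw, hηz]
  have hθd : HasDerivAt (fun z => η (lam ^ i * z)) (deriv η z₁ * (lam ^ i * 1)) w := by
    have h1 : HasDerivAt η (deriv η z₁) (lam ^ i * w) := by
      rw [hlw]; exact hη.differentiableAt.hasDerivAt
    exact h1.comp w ((hasDerivAt_id w).const_mul (lam ^ i))
  have hθ' : deriv (fun z => η (lam ^ i * z)) w ≠ 0 := by
    rw [hθd.deriv, mul_one]
    exact mul_ne_zero hη' (pow_ne_zero i hl)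
  have hθh : HarmAt (fun z => g (ψ (η (lam ^ i * z))) - (D : ℝ) ^ i * g (ψ z)) w := by
    obtain ⟨e, he, hsc⟩ := hL.scale i
    have h1 : HarmAt (fun z => g (ψ (η (lam ^ i * z))) - g (ψ (lam ^ i * z))) w :=
      HarmAt.comp (u := fun z => g (ψ (η z)) - g (ψ z)) (h := fun z => lam ^ i * z)
        (by rw [hlw]; exact hηh) hlin
    have h2 : HarmAt (fun z => (e z).re) w := harmAt_re (he.analyticAt w)
    refine (h1.add h2).congr (Eventually.of_forall fun y => ?_)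
    show g (ψ (η (lam ^ i * y))) - g (ψ (lam ^ i * y)) + (e y).re = _
    rw [hsc]; ring
  obtain ⟨k, hk, hkw, -, hkr, hkl⟩ := exists_local_inverse hθ hθ'
  rw [hθw] at hk hkw hkr
  obtain ⟨δ', hδ', J', hd', hid', hh'⟩ := conj_seq (u := fun z => g (ψ z)) hδ hκd hκid hκh
    hθ hk hkw hkr hθh
  have hρ' : Tendsto (fun j => ρ (φ (j + J' + J)) / r) atTop (𝓝 1) := hρlim.comp (htail J')
  by_cases hcase : ∃ᶠ j in atTop, η (lam ^ i * κ (j + J') (k 0)) ≠ 0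
  · exact exists_translation_of_frequently hL hδ'
      (κ := fun j y => η (lam ^ i * κ (j + J') (k y)))
      (ρ := fun j => ρ (φ (j + J' + J)) / r) hd' hid' hh' hρ' hcase
  -- all but finitely many fix `0`
  rw [not_frequently] at hcase
  have hfix : ∀ᶠ j in atTop, η (lam ^ i * κ (j + J') (k 0)) = 0 :=
    hcase.mono fun j hj => not_not.1 hj
  -- not equal to the identity for large `j`
  obtain ⟨s, hs, hsb⟩ := Metric.eventually_nhds_iff_ball.1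
    (hkl.and (ball_mem_nhds w hδ))
  -- smaller ball around `w` mapped into `ball w s`
  have hsmall : ∀ᶠ j in atTop, ∀ z ∈ ball w (s / 2), κ j z ∈ ball w s := by
    filter_upwards [hκid (s / 2) (half_pos hs)] with j hj z hz
    have h1 := hj z (hsb z (ball_subset_ball (by linarith) hz)).2
    rw [mem_ball, dist_eq_norm] at hz ⊢
    have : κ j z - w = (κ j z - z) + (z - w) := by ring
    rw [this]
    calc _ ≤ ‖κ j z - z‖ + ‖z - w‖ := norm_add_le _ _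
      _ < s := by linarith
  have hid_par : ∀ᶠ j in atTop, (∀ᶠ y in 𝓝 (0 : ℂ), η (lam ^ i * κ (j + J') (k y)) = y) →
      ∀ᶠ z in 𝓝 w, wg (G z) (h (φ (j + J' + J)) z) = 0 := by
    filter_upwards [(htail J').eventually hsmall] with j hj hidj
    -- pull back by `θ`
    have h1 : ∀ᶠ z in 𝓝 w, η (lam ^ i * κ (j + J') (k (η (lam ^ i * z)))) =
        η (lam ^ i * z) := by
      have : Tendsto (fun z => η (lam ^ i * z)) (𝓝 w) (𝓝 0) := by
        have h2 := hθ.continuousAt.tendsto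
        rwa [hθw] at h2
      exact this.eventually hidj
    filter_upwards [h1, hkl, ball_mem_nhds w (half_pos hs), ball_mem_nhds w hδ]
      with z e1 e2 e3 e4
    rw [e2] at e1
    have e5 := (hsb _ (hj z e3)).1
    rw [e1, e2] at e5
    have e6 := (hκ (j + J') z e4).2
    rw [← e5] at e6
    exact e6
  have hnotid : ∀ᶠ j in atTop, ¬ ∀ᶠ y in 𝓝 (0 : ℂ), η (lam ^ i * κ (j + J') (k y)) = y := by
    by_contra hcon
    have hfreq : ∃ᶠ j in atTop, ∀ᶠ y in 𝓝 (0 : ℂ), η (lam ^ i * κ (j + J') (k y)) = y := by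
      rw [Filter.Frequently]
      exact hcon
    have hfreq2 := hfreq.and_eventually hid_par
    obtain ⟨φ₃, hφ₃, h3⟩ := extraction_of_frequently_atTop hfreq2
    have p0 := (h3 0).2 (h3 0).1
    have p1 := (h3 1).2 (h3 1).1
    have hneq : φ (φ₃ 0 + J' + J) ≠ φ (φ₃ 1 + J' + J) := by
      intro h4
      have := hφ.injective h4
      have := hφ₃ (show (0 : ℕ) < 1 by norm_num)
      omega
    obtain ⟨z, hz⟩ := hne _ _ hneq
    apply hz
    refine par_of_eventually (hd _) (hd _) (x := w) ?_ z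
    filter_upwards [p0, p1, ball_mem_nhds w hr₁] with y y0 y1 y2
    have hGy : G y ≠ 0 := (hG y (hballr₁ y2)).1
    exact wg_trans hGy (by rw [wg_swap, y0, neg_zero]) y1
  -- choose good indices
  have hgood := hfix.and hnotid
  obtain ⟨J₃, hJ₃⟩ := eventually_atTop.1 hgood
  have hex : ∀ j, ∃ l : ℕ, ‖(lam ^ l)⁻¹‖ * (‖z₁‖ + 1) < δ' ∧
      η (lam ^ i * κ (j + J₃ + J') (k ((lam ^ l)⁻¹ * z₁))) ≠ (lam ^ l)⁻¹ * z₁ := by
    intro j
    obtain ⟨hf, hn⟩ := hJ₃ (j + J₃) (Nat.le_add_left _ _)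
    have ha : AnalyticAt ℂ (fun y => η (lam ^ i * κ (j + J₃ + J') (k y)) - y) 0 :=
      ((hd' (j + J₃)).analyticAt (isOpen_ball.mem_nhds (mem_ball_self hδ'))).sub analyticAt_id
    have h1 : ∀ᶠ y in 𝓝[≠] (0 : ℂ), η (lam ^ i * κ (j + J₃ + J') (k y)) - y ≠ 0 := by
      rcases ha.eventually_eq_zero_or_eventually_ne_zero with h2 | h2
      · exact absurd (h2.mono fun y hy => sub_eq_zero.1 hy) hn
      · exact h2
    have h2 : Tendsto (fun l : ℕ => ‖(lam ^ l)⁻¹‖ * (‖z₁‖ + 1)) atTop (𝓝 0) := by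
      have h3 : Tendsto (fun l : ℕ => ‖(lam ^ l)⁻¹ * 1‖ * (‖z₁‖ + 1)) atTop
          (𝓝 (‖(0 : ℂ)‖ * (‖z₁‖ + 1))) := ((hL.tendsto_zero 1).norm).mul_const _
      simpa using h3
    obtain ⟨l, hl1, hl2⟩ := ((h2.eventually_lt_const hδ').and (hw'.eventually h1)).exists
    exact ⟨l, hl1, fun h4 => hl2 (sub_eq_zero.2 h4)⟩
  choose l hl1 hl2 using hex
  -- the rescaled symmetries near `z₁`
  have hin : ∀ j, ∀ z ∈ ball z₁ 1, (lam ^ l j)⁻¹ * z ∈ ball (0 : ℂ) δ' := by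
    intro j z hz
    rw [mem_ball, dist_eq_norm] at hz
    rw [mem_ball_zero_iff, norm_mul]
    have h1 : ‖z‖ ≤ ‖z₁‖ + 1 := by
      have : ‖z‖ ≤ ‖z - z₁‖ + ‖z₁‖ := by simpa using norm_add_le (z - z₁) z₁
      linarith
    calc ‖(lam ^ l j)⁻¹‖ * ‖z‖ ≤ ‖(lam ^ l j)⁻¹‖ * (‖z₁‖ + 1) := by gcongr
      _ < δ' := hl1 j
  set κ₂ : ℕ → ℂ → ℂ := fun j z =>
    lam ^ l j * η (lam ^ i * κ (j + J₃ + J') (k ((lam ^ l j)⁻¹ * z))) with hκ₂
  have hκ₂d : ∀ j, DifferentiableOn ℂ (κ₂ j) (ball z₁ 1) := by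
    intro j
    have h1 : DifferentiableOn ℂ (fun z => (lam ^ l j)⁻¹ * z) (ball z₁ 1) :=
      (differentiable_id.const_mul _).differentiableOn
    exact ((hd' (j + J₃)).comp h1 (hin j)).const_mul _
  have hκ₂id : ∀ ε > 0, ∀ᶠ j in atTop, ∀ z ∈ ball z₁ 1, ‖κ₂ j z - z‖ < ε := by
    intro ε hε
    have hmm : 0 < ε * δ' / (4 * (‖z₁‖ + 1)) := by positivity
    filter_upwards [(htail J₃).eventually (hid' _ hmm)] with j hj z hz
    have h1 := near_id hδ' (hd' (j + J₃)) hj (hin j z hz)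
    have h2 : η (lam ^ i * κ (j + J₃ + J') (k 0)) = 0 :=
      (hJ₃ (j + J₃) (Nat.le_add_left _ _)).1
    rw [h2, sub_zero, sub_zero, sub_zero] at h1
    have h3 : κ₂ j z - z = lam ^ l j *
        (η (lam ^ i * κ (j + J₃ + J') (k ((lam ^ l j)⁻¹ * z))) - (lam ^ l j)⁻¹ * z) := by
      rw [hκ₂, mul_sub, ← mul_assoc (lam ^ l j) (lam ^ l j)⁻¹ z,
        mul_inv_cancel₀ (pow_ne_zero _ hl), one_mul]
    have hz' : ‖z‖ ≤ ‖z₁‖ + 1 := by
      rw [mem_ball, dist_eq_norm] at hz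
      have : ‖z‖ ≤ ‖z - z₁‖ + ‖z₁‖ := by simpa using norm_add_le (z - z₁) z₁
      linarith
    have hlpos : 0 < ‖lam ^ l j‖ := norm_pos_iff.2 (pow_ne_zero _ hl)
    rw [h3, norm_mul]
    calc ‖lam ^ l j‖ * ‖η (lam ^ i * κ (j + J₃ + J') (k ((lam ^ l j)⁻¹ * z))) -
          (lam ^ l j)⁻¹ * z‖ ≤
        ‖lam ^ l j‖ * (2 * (ε * δ' / (4 * (‖z₁‖ + 1))) / δ' * ‖(lam ^ l j)⁻¹ * z‖) := by
          gcongr
      _ = ε * ‖z‖ / (2 * (‖z₁‖ + 1)) := by
          rw [norm_mul, norm_inv]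
          field_simp
          ring
      _ < ε := by
          rw [div_lt_iff₀ (by positivity)]
          nlinarith [norm_nonneg z₁]
  have hκ₂h : ∀ j, HarmOn (fun z => g (ψ (κ₂ j z)) -
      ρ (φ (j + J₃ + J' + J)) / r * g (ψ z)) (ball z₁ 1) := by
    intro j z hz
    exact hL.scale_harm (κ := fun y => η (lam ^ i * κ (j + J₃ + J') (k y))) (l j)
      ((hd' (j + J₃)).analyticAt (isOpen_ball.mem_nhds (hin j z hz)))
      (hh' (j + J₃) _ (hin j z hz))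
  have hκ₂move : ∀ j, κ₂ j z₁ ≠ z₁ := by
    intro j h1
    apply hl2 j
    have h2 : lam ^ l j * η (lam ^ i * κ (j + J₃ + J') (k ((lam ^ l j)⁻¹ * z₁))) = z₁ := h1
    have h3 : (lam ^ l j)⁻¹ * (lam ^ l j *
        η (lam ^ i * κ (j + J₃ + J') (k ((lam ^ l j)⁻¹ * z₁)))) = (lam ^ l j)⁻¹ * z₁ := by
      rw [h2]
    rwa [← mul_assoc, inv_mul_cancel₀ (pow_ne_zero _ hl), one_mul] at h3
  -- conjugate by `η`
  obtain ⟨k₁, hk₁, hk₁z, -, hk₁r, hk₁l⟩ := exists_local_inverse hη hη'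
  rw [hηz] at hk₁ hk₁z hk₁r
  obtain ⟨δ₃, hδ₃, J₄, hd₃, hid₃, hh₃⟩ := conj_seq (u := fun z => g (ψ z)) one_pos hκ₂d hκ₂id
    hκ₂h hη hk₁ hk₁z hk₁r (c := 1) (by simpa using hηh)
  have hρ₃ : Tendsto (fun j => ρ (φ (j + J₄ + J₃ + J' + J)) / r) atTop (𝓝 1) := by
    have h1 : Tendsto (fun j => j + J₄ + J₃ + J') atTop atTop :=
      (htail J').comp ((htail J₃).comp (htail J₄))
    exact hρlim.comp h1
  refine exists_translation_of_frequently hL hδ₃ (κ := fun j y => η (κ₂ (j + J₄) (k₁ y)))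
    (ρ := fun j => ρ (φ (j + J₄ + J₃ + J' + J)) / r) hd₃ hid₃ hh₃ hρ₃ ?_
  have hkz : Tendsto (fun j => κ₂ (j + J₄) z₁) atTop (𝓝 z₁) := by
    rw [Metric.tendsto_nhds]
    intro ε hε
    filter_upwards [(htail J₄).eventually (hκ₂id ε hε)] with j hj
    rw [dist_eq_norm]
    exact hj z₁ (mem_ball_self one_pos)
  refine Eventually.frequently ?_
  filter_upwards [hkz.eventually hk₁l] with j hj h0
  rw [hk₁z] at h0
  rw [h0, hk₁z] at hj
  exact hκ₂move _ hj.symm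

theorem TT_line (hL : Lin g D B lam ψ p) {τ : ℂ} (hτ : τ ≠ 0)
    (h : τ ∈ TT (fun z => g (ψ z))) :
    ∃ c : ℂ, c ≠ 0 ∧ (∀ t : ℝ, (t : ℂ) * c ∈ TT (fun z => g (ψ z))) ∧
      (TT (fun z => g (ψ z)) = Set.univ ∨
        ∀ σ ∈ TT (fun z => g (ψ z)), ∃ t : ℝ, σ = (t : ℂ) * c) :=
  TT_line' hL hτ h

theorem rigid (hL : Lin g D B lam ψ p) {τ : ℂ} (hτ : τ ≠ 0)
    (h : τ ∈ TT (fun z => g (ψ z))) {η : ℂ → ℂ} (hη : AnalyticAt ℂ η 0)
    (hη' : deriv η 0 ≠ 0) {ρ : ℝ} (hρ : ρ ≠ 0)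
    (hh : HarmAt (fun z => g (ψ (η z)) - ρ * g (ψ z)) 0) :
    ∀ᶠ z in 𝓝 (0 : ℂ), η z = η 0 + deriv η 0 * z :=
  rigid' hL hτ h hη hη' hρ hh

end Pool.Agent.Work.MP_78b16e_an
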