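import Pool.Agent.Work.MP_78b16e_an.LinB
import Pool.Agent.Work.MP_78b16e_an.Alg
import Pool.Agent.Work.MP_78b16e_an.Exc
import Pool.Agent.Work.MP_78b16e_an.Rep
import Pool.Agent.Work.MP_78b16e_an.Koen
import Pool.Agent.Work.MP_78b16e_an.Trans
import Pool.Agent.Work.MP_78b16e_an.Class

/-! Part B: two rational functions with the same Green function, one of them nonspecial,
satisfy a relation `G^n ∘ F^q = G^(n+p)`.  (owner: helper71) -/

set_option autoImplicit false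

namespace Pool.Agent.Work.MP_78b16e_an

open Metric Filter Topology

section lin

variable {g : ℂ × ℂ → ℝ} {D : ℕ} {B : ℂ × ℂ → ℂ × ℂ} {lam : ℂ} {ψ : ℂ → ℂ × ℂ} {p : ℂ → ℂ}

/-- the normalised family -/
theorem Lin.family (hL : Lin g D B lam ψ p) {m : ℕ} {E : ℂ × ℂ → ℂ × ℂ} (hE : Dyn g m E) :
    ∃ (n : ℕ → ℕ) (P : ℕ → ℂ → ℂ) (ρ : ℕ → ℝ), (∀ i, Differentiable ℂ (P i)) ∧
      (∀ i, 1 / (m : ℝ) ≤ ρ i ∧ ρ i ≤ 1) ∧
      ∀ i z, g (Complex.exp (P i z) • E^[n i] (ψ ((lam ^ i)⁻¹ * z))) = ρ i * g (ψ z) := by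
  have hlam := hL.lam_ne
  choose Q hQ hQe using hL.iter
  have hm2 : 2 ≤ m := hE.two
  have hD2 : 2 ≤ D := hL.dyn.two
  refine ⟨fun i => Nat.log m (D ^ i),
    fun i z => -(((m : ℂ) ^ (Nat.log m (D ^ i)) / (D : ℂ) ^ i) * Q i ((lam ^ i)⁻¹ * z)),
    fun i => (m : ℝ) ^ (Nat.log m (D ^ i)) / (D : ℝ) ^ i, ?_, ?_, ?_⟩
  · intro i
    have : Differentiable ℂ (fun z => Q i ((lam ^ i)⁻¹ * z)) :=
      (hQ i).comp (differentiable_id.const_mul _)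
    exact (this.const_mul _).neg
  · intro i
    have hDpos : (0 : ℝ) < (D : ℝ) ^ i := by positivity
    have hmpos : (0 : ℝ) < (m : ℝ) := by positivity
    have hD0 : D ^ i ≠ 0 := pow_ne_zero i (by omega)
    constructor
    · rw [div_le_div_iff₀ hmpos hDpos, one_mul, ← pow_succ]
      have := (Nat.lt_pow_succ_log_self (by omega : 1 < m) (D ^ i)).le
      exact_mod_cast this
    · rw [div_le_one hDpos]
      have := Nat.pow_log_le_self m hD0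
      exact_mod_cast this
  · intro i z
    set n := Nat.log m (D ^ i) with hn
    set w := (lam ^ i)⁻¹ * z with hw
    have hwz : lam ^ i * w = z := by
      rw [hw, ← mul_assoc, mul_inv_cancel₀ (pow_ne_zero i hlam), one_mul]
    have hDpos : (0 : ℝ) < (D : ℝ) ^ i := by positivity
    -- g (B^i (ψ w)) in two ways
    have hB : g (B^[i] (ψ w)) = (D : ℝ) ^ i * g (ψ w) := by
      rcases Nat.eq_zero_or_pos i with rfl | hi
      · simp
      · have := (hL.dyn.iterate i hi).inv (ψ w) (hL.nz w)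
        rw [this]; push_cast; ring
    have hB' : g (B^[i] (ψ w)) = (Q i w).re + g (ψ z) := by
      rw [hQe i w, hwz, hL.dyn.pot.smul _ _ (Complex.exp_ne_zero _) (hL.nz z), Complex.norm_exp,
        Real.log_exp]
    have hEn : g (E^[n] (ψ w)) = (m : ℝ) ^ n * g (ψ w) := by
      rcases Nat.eq_zero_or_pos n with h0 | hi
      · rw [h0]; simp
      · have := (hE.iterate n hi).inv (ψ w) (hL.nz w)
        rw [this]; push_cast; ring
    rw [hE.pot.smul _ _ (Complex.exp_ne_zero _) (hE.lift.iterate_nz n (hL.nz w)),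
      Complex.norm_exp, Real.log_exp, hEn]
    have e1 : (-(((m : ℂ) ^ n / (D : ℂ) ^ i) * Q i w)).re =
        -((m : ℝ) ^ n / (D : ℝ) ^ i * (Q i w).re) := by
      have : ((m : ℂ) ^ n / (D : ℂ) ^ i) = (((m : ℝ) ^ n / (D : ℝ) ^ i : ℝ) : ℂ) := by
        push_cast; rfl
      rw [this, Complex.neg_re, Complex.re_ofReal_mul]
    rw [e1]
    have e2 : g (ψ w) = ((Q i w).re + g (ψ z)) / (D : ℝ) ^ i := by
      rw [← hB', hB]; field_simp
    rw [e2]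
    field_simp
    ring

end lin

/-! ### algebraic consequences of an identity along `ψ` -/

theorem infinite_of_curve {ψ : ℂ → ℂ × ℂ} (hψ : Differentiable ℂ ψ)
    (himm : wg (ψ 0) (deriv ψ 0) ≠ 0) {d₁ d₂ : ℕ} {R₁ R₂ : ℂ × ℂ → ℂ × ℂ} (h1 : IsLift d₁ R₁)
    (h2 : IsLift d₂ R₂) (h : ∀ z, wg (R₁ (ψ z)) (R₂ (ψ z)) = 0) :
    {z : ℂ | wg (R₁ (z, 1)) (R₂ (z, 1)) = 0}.Infinite := by
  have hnear : ∀ᶠ z in 𝓝 (0 : ℂ), wg (ψ z) (deriv ψ z) ≠ 0 :=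
    (analyticAt_wg (hψ.analyticAt 0) ((hψ.analyticAt 0).deriv)).continuousAt.eventually_ne himm
  have hfr : ∃ᶠ z in 𝓝 (0 : ℂ), (ψ z).2 ≠ 0 := by
    intro hcon
    have h0 : ∀ᶠ z in 𝓝 (0 : ℂ), (ψ z).2 = 0 := hcon.mono fun z hz => not_not.1 hz
    have h3 : (fun z => (ψ z).2) =ᶠ[𝓝 0] fun _ => (0 : ℂ) := h0
    have h4 : HasDerivAt (fun z => (ψ z).2) (deriv ψ 0).2 0 :=
      ((ContinuousLinearMap.snd ℂ ℂ ℂ).hasFDerivAt (x := ψ 0)).comp_hasDerivAt 0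
        (hψ 0).hasDerivAt
    have h5 : (deriv ψ 0).2 = 0 := by
      rw [← h4.deriv, h3.deriv_eq]; simp
    apply himm
    simp only [wg]
    rw [h5, h0.self_of_nhds]
    ring
  obtain ⟨w₀, hw2, hwi⟩ := (hfr.and_eventually hnear).exists
  let θ : ℂ → ℂ := fun w => (ψ w).1 / (ψ w).2
  have hA1 : AnalyticAt ℂ (fun w => (ψ w).1) w₀ := analyticAt_fst.comp (hψ.analyticAt w₀)
  have hA2 : AnalyticAt ℂ (fun w => (ψ w).2) w₀ := analyticAt_snd.comp (hψ.analyticAt w₀)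
  have hθ : AnalyticAt ℂ θ w₀ := hA1.div hA2 hw2
  have hd1 : HasDerivAt (fun w => (ψ w).1) (deriv ψ w₀).1 w₀ :=
    ((ContinuousLinearMap.fst ℂ ℂ ℂ).hasFDerivAt (x := ψ w₀)).comp_hasDerivAt w₀
      (hψ w₀).hasDerivAt
  have hd2 : HasDerivAt (fun w => (ψ w).2) (deriv ψ w₀).2 w₀ :=
    ((ContinuousLinearMap.snd ℂ ℂ ℂ).hasFDerivAt (x := ψ w₀)).comp_hasDerivAt w₀
      (hψ w₀).hasDerivAt
  have hdθ : deriv θ w₀ ≠ 0 := by
    have h6 := hd1.div hd2 hw2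
    have h7 : deriv θ w₀ = ((deriv ψ w₀).1 * (ψ w₀).2 - (ψ w₀).1 * (deriv ψ w₀).2) /
        (ψ w₀).2 ^ 2 := h6.deriv
    rw [h7]
    refine div_ne_zero (fun h8 => hwi ?_) (pow_ne_zero 2 hw2)
    simp only [wg]
    linear_combination -h8
  have hmap : map θ (𝓝 w₀) = 𝓝 (θ w₀) := hθ.hasStrictDerivAt.map_nhds_eq hdθ
  have hmem : {z : ℂ | wg (R₁ (z, 1)) (R₂ (z, 1)) = 0} ∈ 𝓝 (θ w₀) := by
    rw [← hmap, mem_map]
    have h9 : ∀ᶠ w in 𝓝 w₀, (ψ w).2 ≠ 0 := hA2.continuousAt.eventually_ne hw2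
    filter_upwards [h9] with w hw
    show wg (R₁ (θ w, 1)) (R₂ (θ w, 1)) = 0
    have h10 : ψ w = (ψ w).2 • (θ w, (1 : ℂ)) := by
      ext
      · show (ψ w).1 = (ψ w).2 * ((ψ w).1 / (ψ w).2)
        field_simp
      · show (ψ w).2 = (ψ w).2 * 1
        rw [mul_one]
    have h11 := h w
    rw [h10, h1.hom, h2.hom, wg_smul_left, wg_smul_right] at h11
    have h12 : (ψ w).2 ^ d₁ * (ψ w).2 ^ d₂ ≠ 0 :=
      mul_ne_zero (pow_ne_zero _ hw) (pow_ne_zero _ hw)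
    rw [← mul_assoc] at h11
    exact (mul_eq_zero.1 h11).resolve_left h12
  exact infinite_of_mem_nhds _ hmem

theorem scaled_iterate {d : ℕ} {R : ℂ × ℂ → ℂ × ℂ} (hR : IsLift d R) {c : ℂ} (hc : c ≠ 0)
    (n : ℕ) : ∃ c' : ℂ, c' ≠ 0 ∧ ∀ v, (fun v => c • R v)^[n] v = c' • R^[n] v := by
  induction n with
  | zero => exact ⟨1, one_ne_zero, fun v => by simp⟩
  | succ n ih =>
    obtain ⟨c', hc', h⟩ := ih
    refine ⟨c' * c ^ (d ^ n), mul_ne_zero hc' (pow_ne_zero _ hc), fun v => ?_⟩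
    rw [Function.iterate_succ_apply, h, (hR.iterate n).hom, smul_smul,
      Function.iterate_succ_apply]

theorem iterate_rep (f : RatFunc ℂ) (hf : 1 ≤ rdeg f) {c : ℂ} (hc : c ≠ 0) (n : ℕ) :
    ∃ c' : ℂ, c' ≠ 0 ∧
      ∀ v, (fun v => c • rlift f v)^[n] v = c' • rlift ((rcomp f)^[n] RatFunc.X) v := by
  obtain ⟨c₁, hc₁, h₁⟩ := scaled_iterate (rlift_isLift f) hc n
  obtain ⟨-, c₂, hc₂, h₂⟩ := rlift_iterate f hf n
  refine ⟨c₁ * c₂⁻¹, mul_ne_zero hc₁ (inv_ne_zero hc₂), fun v => ?_⟩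
  rw [h₁, h₂, smul_smul, mul_assoc, inv_mul_cancel₀ hc₂, mul_one]

theorem exists_norm {g : ℂ × ℂ → ℝ} (hg : IsPot g) (F : RatFunc ℂ) (hF : 2 ≤ rdeg F)
    (h : Compat g F) : ∃ c : ℂ, c ≠ 0 ∧ Dyn g (rdeg F) (fun v => c • rlift F v) := by
  obtain ⟨κ, hκ⟩ := h
  refine ⟨Complex.exp (-(κ : ℂ)), Complex.exp_ne_zero _,
    ⟨(rlift_isLift F).smul (Complex.exp_ne_zero _), hF, hg, fun v hv => ?_⟩⟩
  rw [hg.smul _ _ (Complex.exp_ne_zero _) ((rlift_isLift F).nz v hv), hκ v hv, Complex.norm_exp,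
    Real.log_exp, Complex.neg_re, Complex.ofReal_re]
  ring

end Pool.Agent.Work.MP_78b16e_an
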