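import Pool.Agent.Work.MP_78b16e_an.Defs

/-! Harmonic kit and Montel. -/

set_option autoImplicit false

namespace Pool.Agent.Work.MP_78b16e_an

open Metric Filter Topology InnerProductSpace

theorem harmAt_iff {u : ℂ → ℝ} {z : ℂ} : HarmAt u z ↔ HarmonicAt u z := by
  constructor
  · rintro ⟨r, hr, e, he, hu⟩
    have hz : z ∈ ball z r := mem_ball_self hr
    have ha : AnalyticAt ℂ e z := (he.analyticOnNhd isOpen_ball) z hz
    refine (harmonicAt_congr_nhds ?_).2 ha.harmonicAt_re
    filter_upwards [isOpen_ball.mem_nhds hz] with y hy using hu y hy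
  · intro h
    obtain ⟨ε, h₁ε, h₂ε⟩ := Metric.isOpen_iff.1 (isOpen_setOfPred_harmonicAt (f := u)) z h
    obtain ⟨F, h₁F, h₂F⟩ := InnerProductSpace.HarmonicOnNhd.exists_analyticOnNhd_ball_re_eq
      (fun _ hy ↦ h₂ε hy)
    exact ⟨ε, h₁ε, F, h₁F.differentiableOn, fun y hy => (h₂F hy).symm⟩

theorem HarmAt.add {u v : ℂ → ℝ} {z : ℂ} (hu : HarmAt u z) (hv : HarmAt v z) :
    HarmAt (fun y => u y + v y) z :=
  harmAt_iff.2 ((harmAt_iff.1 hu).add (harmAt_iff.1 hv))
theorem HarmAt.sub {u v : ℂ → ℝ} {z : ℂ} (hu : HarmAt u z) (hv : HarmAt v z) :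
    HarmAt (fun y => u y - v y) z :=
  harmAt_iff.2 ((harmAt_iff.1 hu).sub (harmAt_iff.1 hv))
theorem HarmAt.neg {u : ℂ → ℝ} {z : ℂ} (hu : HarmAt u z) : HarmAt (fun y => - u y) z :=
  harmAt_iff.2 (harmAt_iff.1 hu).neg
theorem HarmAt.const_mul {u : ℂ → ℝ} {z : ℂ} (c : ℝ) (hu : HarmAt u z) :
    HarmAt (fun y => c * u y) z :=
  harmAt_iff.2 ((harmAt_iff.1 hu).const_smul (c := c))
theorem HarmAt.congr {u v : ℂ → ℝ} {z : ℂ} (hu : HarmAt u z) (h : u =ᶠ[𝓝 z] v) :
    HarmAt v z :=
  harmAt_iff.2 ((harmonicAt_congr_nhds h).1 (harmAt_iff.1 hu))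
theorem HarmAt.eventually {u : ℂ → ℝ} {z : ℂ} (hu : HarmAt u z) :
    ∀ᶠ y in 𝓝 z, HarmAt u y := by
  filter_upwards [(harmAt_iff.1 hu).eventually] with y hy using harmAt_iff.2 hy
theorem HarmAt.continuousAt {u : ℂ → ℝ} {z : ℂ} (hu : HarmAt u z) : ContinuousAt u z :=
  (harmAt_iff.1 hu).1.continuousAt
/-- real part of an analytic function -/
theorem harmAt_re {e : ℂ → ℂ} {z : ℂ} (he : AnalyticAt ℂ e z) : HarmAt (fun y => (e y).re) z :=
  harmAt_iff.2 he.harmonicAt_re
/-- log of the norm of a nonvanishing analytic function -/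
theorem harmAt_log {f : ℂ → ℂ} {z : ℂ} (hf : AnalyticAt ℂ f z) (h0 : f z ≠ 0) :
    HarmAt (fun y => Real.log ‖f y‖) z :=
  harmAt_iff.2 (hf.harmonicAt_log_norm h0)
/-- composition with an analytic function -/
theorem HarmAt.comp {u : ℂ → ℝ} {h : ℂ → ℂ} {z : ℂ} (hu : HarmAt u (h z))
    (hh : AnalyticAt ℂ h z) : HarmAt (fun y => u (h y)) z := by
  obtain ⟨r, hr, e, he, hue⟩ := hu
  have hz : h z ∈ ball (h z) r := mem_ball_self hr
  have ha : AnalyticAt ℂ e (h z) := (he.analyticOnNhd isOpen_ball) _ hz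
  refine (harmAt_re (ha.comp hh)).congr ?_
  filter_upwards [hh.continuousAt.preimage_mem_nhds (isOpen_ball.mem_nhds hz)] with y hy
  exact (hue (h y) hy).symm

/-- gluing on a ball -/
theorem HarmOn.exists_ball {u : ℂ → ℝ} {z : ℂ} {R : ℝ} (hu : HarmOn u (ball z R)) :
    ∃ e : ℂ → ℂ, DifferentiableOn ℂ e (ball z R) ∧ ∀ y ∈ ball z R, u y = (e y).re := by
  obtain ⟨F, h₁F, h₂F⟩ := InnerProductSpace.HarmonicOnNhd.exists_analyticOnNhd_ball_re_eq
      (fun y hy ↦ harmAt_iff.1 (hu y hy))
  exact ⟨F, h₁F.differentiableOn, fun y hy => (h₂F hy).symm⟩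
/-- gluing on the plane -/
theorem HarmOn.exists_univ {u : ℂ → ℝ} (hu : HarmOn u Set.univ) :
    ∃ e : ℂ → ℂ, Differentiable ℂ e ∧ ∀ y, u y = (e y).re := by
  obtain ⟨F, h₁F, h₂F⟩ := InnerProductSpace.HarmonicOnNhd.exists_analyticOnNhd_univ_re_eq
      (fun y hy ↦ harmAt_iff.1 (hu y hy))
  exact ⟨F, fun y => (h₁F y (Set.mem_univ y)).differentiableAt, fun y => by rw [← h₂F]⟩

/-- holomorphic logarithm on a ball -/
theorem exists_log_ball {f : ℂ → ℂ} {z : ℂ} {R : ℝ} (hf : DifferentiableOn ℂ f (ball z R))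
    (h0 : ∀ y ∈ ball z R, f y ≠ 0) :
    ∃ e : ℂ → ℂ, DifferentiableOn ℂ e (ball z R) ∧ ∀ y ∈ ball z R, f y = Complex.exp (e y) := by
  by_cases hR : R ≤ 0
  · refine ⟨fun _ => 0, by fun_prop, fun y hy => ?_⟩
    rw [ball_eq_empty.2 hR] at hy
    exact absurd hy (Set.notMem_empty y)
  push Not at hR
  have hz : z ∈ ball z R := mem_ball_self hR
  have hda : ∀ y ∈ ball z R, DifferentiableAt ℂ f y := fun y hy =>
    hf.differentiableAt (isOpen_ball.mem_nhds hy)
  have hd : DifferentiableOn ℂ (fun y => deriv f y / f y) (ball z R) :=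
    (hf.deriv isOpen_ball).div hf h0
  obtain ⟨g, hg0, hg⟩ := hd.isExactOn_ball.with_val_at z (Complex.log (f z))
  refine ⟨g, fun y hy => (hg y hy).differentiableAt.differentiableWithinAt, ?_⟩
  have hconst : ∀ y ∈ ball z R, f y * Complex.exp (- g y) = f z * Complex.exp (- g z) := by
    intro y hy
    refine (convex_ball z R).is_const_of_fderivWithin_eq_zero (𝕜 := ℂ) 
      (f := fun y => f y * Complex.exp (- g y)) ?_ ?_ hy hz
    · intro w hw
      exact ((hda w hw).mul ((hg w hw).differentiableAt.neg.cexp)).differentiableWithinAt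
    · intro w hw
      have h1 : HasDerivAt (fun y => f y * Complex.exp (- g y)) 0 w := by
        have := (hda w hw).hasDerivAt.mul ((hg w hw).neg.cexp)
        refine this.congr_deriv ?_
        have := h0 w hw
        field_simp
        ring
      rw [fderivWithin_of_isOpen isOpen_ball hw]
      ext
      simp [h1.hasFDerivAt.fderiv]
  intro y hy
  have h1 := hconst y hy
  rw [hg0, Complex.exp_neg, Complex.exp_neg, Complex.exp_log (h0 z hz),
    mul_inv_cancel₀ (h0 z hz)] at h1
  have h2 := Complex.exp_ne_zero (g y)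
  field_simp at h1
  exact h1

theorem abs_circleAverage_sub_le {f g : ℂ → ℝ} {c : ℂ} {R ε : ℝ}
    (hf : CircleIntegrable f c R) (hg : CircleIntegrable g c R)
    (h : ∀ x ∈ sphere c |R|, |f x - g x| ≤ ε) :
    |Real.circleAverage f c R - Real.circleAverage g c R| ≤ ε := by
  rw [← Real.circleAverage_sub hf hg, abs_le]
  constructor
  · have h1 : Real.circleAverage (-(f - g)) c R ≤ ε := by
      refine Real.circleAverage_mono_on_of_le_circle (hf.sub hg).neg fun x hx => ?_
      have := (abs_le.1 (h x hx)).1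
      simp only [Pi.neg_apply, Pi.sub_apply]
      linarith
    have h2 : Real.circleAverage (-(f - g)) c R = - Real.circleAverage (f - g) c R := by
      have := Real.circleAverage_smul (a := (-1 : ℝ)) (f := f - g) (c := c) (R := R)
      simpa using this
    linarith
  · refine Real.circleAverage_mono_on_of_le_circle (hf.sub hg) fun x hx => ?_
    exact (abs_le.1 (h x hx)).2

theorem exists_poisson {v : ℂ → ℝ} {c : ℂ} {R : ℝ} (hR : 0 < R)
    (hv : ContinuousOn v (sphere c R)) :
    ∃ e : ℂ → ℂ, DifferentiableOn ℂ e (ball c R) ∧ ∀ w ∈ ball c R,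
      Real.circleAverage ((Complex.re ∘ herglotzRieszKernel c w) • v) c R = (e w).re := by
  lift R to NNReal using hR.le
  have hR' : 0 < R := by exact_mod_cast hR
  have hvc : ContinuousOn (fun z => (v z : ℂ)) (sphere c R) := by
    exact Complex.continuous_ofReal.comp_continuousOn hv
  have hvi : CircleIntegrable (fun z => (v z : ℂ)) c R := hvc.circleIntegrable (by positivity)
  have hps := hasFPowerSeriesOn_cauchy_integral hvi hR'
  have hd : DifferentiableOn ℂ (fun w => (2 * Real.pi * Complex.I : ℂ)⁻¹ •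
      ∮ z in C(c, R), (z - w)⁻¹ • (v z : ℂ)) (ball c R) := by
    have := hps.differentiableOn
    rwa [Metric.eball_coe] at this
  refine ⟨fun w => 2 * ((2 * Real.pi * Complex.I : ℂ)⁻¹ •
      ∮ z in C(c, R), (z - w)⁻¹ • (v z : ℂ)) - Real.circleAverage (fun z => (v z : ℂ)) c R,
      (hd.const_mul 2).sub (differentiableOn_const _), fun w hw => ?_⟩
  have habs : |(R : ℝ)| = R := abs_of_pos hR
  have hK : ContinuousOn (herglotzRieszKernel c w) (sphere c R) := by
    have := continuousOn_herglotzRieszKernel_sphere (c := c) (w := w) (R := R) hw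
    rwa [habs] at this
  have h1 : Real.circleAverage ((Complex.re ∘ herglotzRieszKernel c w) • v) c R
      = (Real.circleAverage (fun z => herglotzRieszKernel c w z * (v z : ℂ)) c R).re := by
    have := Complex.reCLM.circleAverage_comp_comm (c := c) (R := (R : ℝ))
      (f := fun z => herglotzRieszKernel c w z * (v z : ℂ))
      ((hK.mul hvc).circleIntegrable (by positivity))
    rw [Complex.reCLM_apply] at this
    rw [← this]
    congr 1
    funext z
    simp
  rw [h1]
  congr 1
  have hne : (R : ℝ) ≠ 0 := hR.ne'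
  have hsub : ∀ z ∈ sphere c (R : ℝ), z - w ≠ 0 := by
    intro z hz h
    rw [sub_eq_zero] at h
    subst h
    rw [mem_sphere] at hz
    rw [mem_ball] at hw
    linarith
  have hsubc : ∀ z ∈ sphere c (R : ℝ), z - c ≠ 0 := by
    intro z hz h
    rw [sub_eq_zero] at h
    subst h
    rw [mem_sphere, dist_self] at hz
    exact hne hz.symm
  have i1 : CircleIntegrable (fun z => (z - w)⁻¹ • (v z : ℂ)) c R := by
    refine ContinuousOn.circleIntegrable (by positivity) ?_
    exact ((continuousOn_id.sub continuousOn_const).inv₀ hsub).smul hvc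
  have i2 : CircleIntegrable (fun z => (z - c)⁻¹ • (v z : ℂ)) c R := by
    refine ContinuousOn.circleIntegrable (by positivity) ?_
    exact ((continuousOn_id.sub continuousOn_const).inv₀ hsubc).smul hvc
  rw [Real.circleAverage_eq_circleIntegral hne, Real.circleAverage_eq_circleIntegral hne]
  have h2 : (∮ z in C(c, R), (z - c)⁻¹ • (herglotzRieszKernel c w z * (v z : ℂ))) =
      2 * (∮ z in C(c, R), (z - w)⁻¹ • (v z : ℂ)) - ∮ z in C(c, R), (z - c)⁻¹ • (v z : ℂ) := by
    rw [← circleIntegral.integral_const_mul, ← circleIntegral.integral_sub _ i2]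
    · refine circleIntegral.integral_congr (by positivity) fun z hz => ?_
      have h3 := hsub z hz
      have h4 := hsubc z hz
      simp only [herglotzRieszKernel, smul_eq_mul]
      have h5 : z - c - (w - c) = z - w := by ring
      rw [h5]
      field_simp
      ring
    · exact IntervalIntegrable.const_mul i1 2
  rw [h2]
  simp only [smul_eq_mul]
  ring

/-- locally uniform limits of harmonic functions are harmonic -/
theorem harmOn_of_tendsto {u : ℕ → ℂ → ℝ} {v : ℂ → ℝ} {U : Set ℂ} (hU : IsOpen U)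
    (hu : ∀ᶠ n in atTop, HarmOn (u n) U) (h : TendstoLocallyUniformlyOn u v atTop U) :
    HarmOn v U := by
  have hvc : ContinuousOn v U := by
    refine h.continuousOn (hu.frequently.mono fun n hn => ?_)
    intro x hx
    exact (hn x hx).continuousAt.continuousWithinAt
  intro z hz
  obtain ⟨ρ, hρ, hsub⟩ := Metric.nhds_basis_closedBall.mem_iff.1 (hU.mem_nhds hz)
  have hsph : sphere z ρ ⊆ U := sphere_subset_closedBall.trans hsub
  obtain ⟨e, he, hev⟩ := exists_poisson hρ (hvc.mono hsph)
  refine ⟨ρ, hρ, e, he, fun w hw => ?_⟩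
  rw [← hev w hw]
  have hunif : TendstoUniformlyOn u v atTop (closedBall z ρ) :=
    (tendstoLocallyUniformlyOn_iff_forall_isCompact hU).1 h _ hsub (isCompact_closedBall z ρ)
  have habs : |ρ| = ρ := abs_of_pos hρ
  have hK : ContinuousOn (herglotzRieszKernel z w) (sphere z ρ) := by
    have := continuousOn_herglotzRieszKernel_sphere (c := z) (w := w) (R := ρ) hw
    rwa [habs] at this
  have hKre : ContinuousOn (Complex.re ∘ herglotzRieszKernel z w) (sphere z ρ) :=
    Complex.continuous_re.comp_continuousOn hK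
  obtain ⟨C, hC⟩ := (isCompact_sphere z ρ).exists_bound_of_continuousOn hKre
  have hC0 : 0 ≤ C := by
    have hmem : z + ρ ∈ sphere z ρ := by simp [habs]
    exact (norm_nonneg _).trans (hC _ hmem)
  -- both sides are limits of `u n w`
  have l1 : Tendsto (fun n => u n w) atTop (𝓝 (v w)) :=
    hunif.tendsto_at (ball_subset_closedBall hw)
  refine tendsto_nhds_unique l1 ?_
  rw [Metric.tendsto_nhds]
  intro ε hε
  have hε' : 0 < ε / (2 * (C + 1)) := by positivity
  filter_upwards [(Metric.tendstoUniformlyOn_iff.1 hunif) _ hε', hu] with n hn hun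
  have hrep := InnerProductSpace.HarmonicOnNhd.circleAverage_re_herglotzRieszKernel_smul
    (f := u n) (c := z) (R := ρ) (w := w) (fun y hy => harmAt_iff.1 (hun y (hsub hy))) hw
  rw [← hrep, Real.dist_eq]
  have hunc : ContinuousOn (u n) (sphere z ρ) := fun y hy =>
    (hun y (hsph hy)).continuousAt.continuousWithinAt
  refine lt_of_le_of_lt (abs_circleAverage_sub_le (ε := ε / 2)
    ((hKre.smul hunc).circleIntegrable hρ.le)
    ((hKre.smul (hvc.mono hsph)).circleIntegrable hρ.le) ?_) (by linarith)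
  intro x hx
  rw [habs] at hx
  have h1 := hn x (sphere_subset_closedBall hx)
  rw [dist_comm, Real.dist_eq] at h1
  have h2 := hC x hx
  rw [Real.norm_eq_abs] at h2
  simp only [Pi.smul_apply', smul_eq_mul]
  rw [← mul_sub, abs_mul]
  calc _ ≤ C * (ε / (2 * (C + 1))) := by
        exact mul_le_mul h2 h1.le (abs_nonneg _) hC0
    _ ≤ ε / 2 := by
        rw [mul_div_assoc', div_le_div_iff₀ (by positivity) (by positivity)]
        nlinarith

end Pool.Agent.Work.MP_78b16e_an
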