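import Pool.Agent.Work.MP_78b16e_an.HarmKit

set_option autoImplicit false

namespace Pool.Agent.Work.MP_78b16e_an

open Metric Filter Topology InnerProductSpace

/-- trigonometric approximation on a circle -/
theorem exists_trig_approx {u : ℂ → ℝ} {c : ℂ} {R : ℝ} (hR : 0 < R)
    (hu : ContinuousOn u (sphere c R)) {δ : ℝ} (hδ : 0 < δ) :
    ∃ P : ℂ → ℂ, Differentiable ℂ P ∧ ∀ z ∈ sphere c R, |u z - (P z).re| ≤ δ := by
  have : Fact (0 < 2 * Real.pi) := ⟨Real.two_pi_pos⟩
  let ι : AddCircle (2 * Real.pi) → ℂ := fun θ => c + R * (AddCircle.toCircle θ : ℂ)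
  have hι : Continuous ι := by
    have : Continuous (fun θ : AddCircle (2 * Real.pi) => (AddCircle.toCircle θ : ℂ)) :=
      continuous_subtype_val.comp AddCircle.continuous_toCircle
    exact continuous_const.add (continuous_const.mul this)
  have hιm : ∀ θ, ι θ ∈ sphere c R := by
    intro θ
    simp [ι, abs_of_pos hR]
  have hcont : Continuous (fun θ => (u (ι θ) : ℂ)) :=
    Complex.continuous_ofReal.comp (hu.comp_continuous hι hιm)
  let f : C(AddCircle (2 * Real.pi), ℂ) := ⟨fun θ => (u (ι θ) : ℂ), hcont⟩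
  have hf : f ∈ (Submodule.span ℂ (Set.range (fourier (T := 2 * Real.pi)))).topologicalClosure := by
    rw [span_fourier_closure_eq_top]
    exact Submodule.mem_top
  obtain ⟨g, hg, hfg⟩ := Metric.mem_closure_iff.1 hf δ hδ
  have key : ∃ P₁ P₂ : ℂ → ℂ, Differentiable ℂ P₁ ∧ Differentiable ℂ P₂ ∧
      ∀ θ, g θ = P₁ (ι θ) + (starRingEnd ℂ) (P₂ (ι θ)) := by
    refine Submodule.span_induction (p := fun (g : C(AddCircle (2 * Real.pi), ℂ)) _ =>
      ∃ P₁ P₂ : ℂ → ℂ, Differentiable ℂ P₁ ∧ Differentiable ℂ P₂ ∧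
      ∀ θ, g θ = P₁ (ι θ) + (starRingEnd ℂ) (P₂ (ι θ))) ?_ ?_ ?_ ?_ hg
    · rintro _ ⟨n, rfl⟩
      have hz : ∀ θ, (ι θ - c) / R = (AddCircle.toCircle θ : ℂ) := by
        intro θ
        have : (R : ℂ) ≠ 0 := by exact_mod_cast hR.ne'
        simp only [ι]
        field_simp
        ring
      obtain ⟨m, rfl | rfl⟩ := n.eq_nat_or_neg
      · refine ⟨fun z => ((z - c) / R) ^ m, fun _ => 0, by fun_prop, by fun_prop, fun θ => ?_⟩
        simp only [hz, map_zero, add_zero]
        rw [fourier_apply, AddCircle.toCircle_zsmul]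
        simp
      · refine ⟨fun _ => 0, fun z => ((z - c) / R) ^ m, by fun_prop, by fun_prop, fun θ => ?_⟩
        simp only [hz, zero_add]
        rw [fourier_neg, fourier_apply, AddCircle.toCircle_zsmul]
        simp
    · exact ⟨fun _ => 0, fun _ => 0, by fun_prop, by fun_prop, fun θ => by simp⟩
    · rintro a b - - ⟨P₁, P₂, h₁, h₂, h⟩ ⟨Q₁, Q₂, k₁, k₂, k⟩
      refine ⟨fun z => P₁ z + Q₁ z, fun z => P₂ z + Q₂ z, h₁.add k₁, h₂.add k₂, fun θ => ?_⟩
      simp only [ContinuousMap.add_apply, h, k, map_add]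
      ring
    · rintro t a - ⟨P₁, P₂, h₁, h₂, h⟩
      refine ⟨fun z => t * P₁ z, fun z => (starRingEnd ℂ t) * P₂ z, h₁.const_mul t,
        h₂.const_mul _, fun θ => ?_⟩
      simp only [ContinuousMap.smul_apply, h, map_mul, smul_eq_mul, Complex.conj_conj]
      ring
  obtain ⟨P₁, P₂, h₁, h₂, h⟩ := key
  refine ⟨fun z => P₁ z + P₂ z, h₁.add h₂, fun z hz => ?_⟩
  obtain ⟨θ, hθ⟩ : ∃ θ, ι θ = z := by
    have hR' : (R : ℂ) ≠ 0 := by exact_mod_cast hR.ne'
    have hw : ‖(z - c) / R‖ = 1 := by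
      rw [norm_div, ← dist_eq_norm, mem_sphere.1 hz]
      simp only [Complex.norm_real, Real.norm_eq_abs, abs_of_pos hR]
      field_simp
    let w : Circle := ⟨(z - c) / R, by simpa [Submonoid.unitSphere] using hw⟩
    refine ⟨AddCircle.homeomorphCircle'.symm w, ?_⟩
    have : AddCircle.toCircle (AddCircle.homeomorphCircle'.symm w) = w := by
      obtain ⟨x, hx⟩ := QuotientAddGroup.mk_surjective (AddCircle.homeomorphCircle'.symm w)
      have h3 : AddCircle.homeomorphCircle' (AddCircle.homeomorphCircle'.symm w) = w :=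
        AddCircle.homeomorphCircle'.apply_symm_apply w
      rw [← hx] at h3 ⊢
      have h4 := AddCircle.homeomorphCircle'_apply_mk x
      erw [AddCircle.toCircle_apply_mk]
      rw [div_self Real.two_pi_pos.ne', one_mul, ← h4]
      exact h3
    simp only [ι, this, w]
    field_simp
    ring
  have h5 : ‖f θ - g θ‖ ≤ δ := by
    rw [dist_eq_norm] at hfg
    exact (ContinuousMap.norm_coe_le_norm (f - g) θ).trans hfg.le
  have h6 : u z - (P₁ z + P₂ z).re = (f θ - g θ).re := by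
    rw [h θ, hθ]
    simp [f, hθ]
  simp only [h6]
  exact (Complex.abs_re_le_norm _).trans h5

theorem norm_sq_expand (w w₁ c : ℂ) : ‖w - c‖ ^ 2 =
    ‖w - w₁‖ ^ 2 + (2 * (starRingEnd ℂ) (w₁ - c) * (w - w₁)).re + ‖w₁ - c‖ ^ 2 := by
  simp only [← Complex.normSq_eq_norm_sq, Complex.normSq_apply, Complex.mul_re, Complex.mul_im,
    Complex.conj_re, Complex.conj_im, Complex.sub_re, Complex.sub_im, Complex.re_ofNat,
    Complex.im_ofNat]
  ring

/-- maximum principle for functions with an approximate mean value property, with one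
possible exceptional point -/
theorem mv_max {u : ℂ → ℝ} {c : ℂ} {R : ℝ} (hR : 0 < R) (hu : ContinuousOn u (closedBall c R))
    (h : ∀ x ∈ ball c R, x ≠ c → ∀ ε > 0, ∀ ρ > 0, ∃ r, 0 < r ∧ r < ρ ∧
      - (ε * r ^ 2) ≤ Real.circleAverage u x r - u x)
    {P : ℂ → ℂ} (hP : Differentiable ℂ P) {δ : ℝ}
    (hδ : ∀ z ∈ sphere c R, u z - (P z).re ≤ δ) :
    ∀ w ∈ ball c R, w ≠ c → u w - (P w).re ≤ δ := by
  intro w₀ hw₀ hw₀c
  by_contra hcon
  push Not at hcon
  have hn0 : 0 < ‖w₀ - c‖ := norm_pos_iff.2 (sub_ne_zero.2 hw₀c)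
  have hn1 : ‖w₀ - c‖ < R := by rwa [mem_ball, dist_eq_norm] at hw₀
  have hL0 : Real.log (‖w₀ - c‖ / R) ≤ 0 :=
    Real.log_nonpos (by positivity) ((div_le_one hR).2 hn1.le)
  have hden : 0 < R ^ 2 - Real.log (‖w₀ - c‖ / R) := by nlinarith
  obtain ⟨ε, hε, hεe⟩ : ∃ ε > 0, ε * (R ^ 2 - Real.log (‖w₀ - c‖ / R)) < u w₀ - (P w₀).re - δ := by
    refine ⟨(u w₀ - (P w₀).re - δ) / 2 / (R ^ 2 - Real.log (‖w₀ - c‖ / R)), ?_, ?_⟩
    · have : 0 < u w₀ - (P w₀).re - δ := by linarith
      positivity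
    · rw [div_mul_cancel₀ _ hden.ne']
      linarith
  let Φ : ℂ → ℝ := fun w => u w - (P w).re + ε * ‖w - c‖ ^ 2 + ε * Real.log (‖w - c‖ / R)
  have hΦ0 : δ + ε * R ^ 2 < Φ w₀ := by
    have : 0 ≤ ε * ‖w₀ - c‖ ^ 2 := by positivity
    simp only [Φ]
    nlinarith
  -- bound
  have hPre : Continuous (fun w => (P w).re) := Complex.continuous_re.comp hP.continuous
  obtain ⟨M, hM⟩ := (isCompact_closedBall c R).exists_bound_of_continuousOn
    (hu.sub hPre.continuousOn)
  obtain ⟨η, hη, hηe⟩ : ∃ η > 0, ∀ w, w ∈ closedBall c R → w ≠ c → ‖w - c‖ < η → Φ w < Φ w₀ := by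
    refine ⟨R * Real.exp (-((M + ε * R ^ 2 - Φ w₀) / ε + 1)), by positivity, ?_⟩
    intro w hw hwc hwη
    have hn : 0 < ‖w - c‖ := norm_pos_iff.2 (sub_ne_zero.2 hwc)
    have h1 : Real.log (‖w - c‖ / R) < -((M + ε * R ^ 2 - Φ w₀) / ε + 1) := by
      rw [Real.log_lt_iff_lt_exp (by positivity), div_lt_iff₀ hR]
      linarith
    have h2 : ε * Real.log (‖w - c‖ / R) < ε * -((M + ε * R ^ 2 - Φ w₀) / ε + 1) :=
      mul_lt_mul_of_pos_left h1 hε
    have h3 : ε * -((M + ε * R ^ 2 - Φ w₀) / ε + 1) = - (M + ε * R ^ 2 - Φ w₀) - ε := by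
      field_simp
      ring
    have h4 : u w - (P w).re ≤ M := (le_abs_self _).trans (hM w hw)
    have h5 : ‖w - c‖ ^ 2 ≤ R ^ 2 := by
      rw [mem_closedBall, dist_eq_norm] at hw
      gcongr
    have h6 : ε * ‖w - c‖ ^ 2 ≤ ε * R ^ 2 := by gcongr
    have h7 : Φ w = u w - (P w).re + ε * ‖w - c‖ ^ 2 + ε * Real.log (‖w - c‖ / R) := rfl
    rw [h7]
    linarith
  let S : Set ℂ := closedBall c R ∩ {w | η ≤ ‖w - c‖}
  have hS : IsCompact S := (isCompact_closedBall c R).inter_right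
    (isClosed_le continuous_const (by fun_prop))
  have hw₀S : w₀ ∈ S := by
    refine ⟨ball_subset_closedBall hw₀, ?_⟩
    by_contra hlt
    simp only [Set.mem_ofPred_eq, not_le] at hlt
    exact lt_irrefl _ (hηe w₀ (ball_subset_closedBall hw₀) hw₀c hlt)
  have hΦc : ContinuousOn Φ S := by
    have c1 : ContinuousOn (fun w => u w - (P w).re) S :=
      (hu.mono Set.inter_subset_left).sub hPre.continuousOn
    have c2 : ContinuousOn (fun w : ℂ => ε * ‖w - c‖ ^ 2) S := by fun_prop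
    have c3 : ContinuousOn (fun w : ℂ => ε * Real.log (‖w - c‖ / R)) S := by
      refine continuousOn_const.mul (ContinuousOn.log (by fun_prop) fun w hw => ?_)
      have : η ≤ ‖w - c‖ := hw.2
      exact (div_pos (lt_of_lt_of_le hη this) hR).ne'
    exact (c1.add c2).add c3
  obtain ⟨w₁, hw₁S, hmax⟩ := hS.exists_isMaxOn ⟨w₀, hw₀S⟩ hΦc
  have hle01 : Φ w₀ ≤ Φ w₁ := hmax hw₀S
  have hw₁n : η ≤ ‖w₁ - c‖ := hw₁S.2
  have hw₁p : 0 < ‖w₁ - c‖ := lt_of_lt_of_le hη hw₁n
  have hall : ∀ w ∈ closedBall c R, w ≠ c → Φ w ≤ Φ w₁ := by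
    intro w hw hwc
    by_cases hlt : ‖w - c‖ < η
    · exact (hηe w hw hwc hlt).le.trans hle01
    · exact hmax ⟨hw, not_lt.1 hlt⟩
  have hw₁R : ‖w₁ - c‖ < R := by
    refine lt_of_le_of_ne (by simpa [dist_eq_norm] using hw₁S.1) fun heq => ?_
    have h1 := hδ w₁ (by rw [mem_sphere, dist_eq_norm]; exact heq)
    have h2 : Φ w₁ = u w₁ - (P w₁).re + ε * R ^ 2 := by
      simp only [Φ, heq, div_self hR.ne', Real.log_one, mul_zero, add_zero]
    linarith
  have hw₁b : w₁ ∈ ball c R := by rwa [mem_ball, dist_eq_norm]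
  have hw₁c : w₁ ≠ c := sub_ne_zero.1 (norm_pos_iff.1 hw₁p)
  obtain ⟨r, hr, hrρ, hra⟩ := h w₁ hw₁b hw₁c (ε / 2) (by positivity)
    (min (R - ‖w₁ - c‖) ‖w₁ - c‖) (lt_min (by linarith) hw₁p)
  have hr1 : r < R - ‖w₁ - c‖ := hrρ.trans_le (min_le_left _ _)
  have hr2 : r < ‖w₁ - c‖ := hrρ.trans_le (min_le_right _ _)
  have habs : |r| = r := abs_of_pos hr
  have hsub : ∀ w ∈ closedBall w₁ r, w ∈ ball c R ∧ w ≠ c := by
    intro w hw
    rw [mem_closedBall, dist_eq_norm] at hw
    constructor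
    · rw [mem_ball, dist_eq_norm]
      calc ‖w - c‖ = ‖(w - w₁) + (w₁ - c)‖ := by ring_nf
        _ ≤ ‖w - w₁‖ + ‖w₁ - c‖ := norm_add_le _ _
        _ < R := by linarith
    · rintro rfl
      rw [norm_sub_rev] at hw
      linarith
  let H : ℂ → ℝ := fun w => - (P w).re + (ε * (2 * (starRingEnd ℂ) (w₁ - c) * (w - w₁) +
    (‖w₁ - c‖ ^ 2 + r ^ 2 : ℝ))).re + ε * Real.log ‖(w - c) / R‖
  have hRC : (R : ℂ) ≠ 0 := by exact_mod_cast hR.ne'
  have hHharm : ∀ w ∈ closedBall w₁ |r|, HarmonicAt H w := by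
    intro w hw
    rw [habs] at hw
    have hwc := (hsub w hw).2
    have a1 : HarmonicAt (fun w => - (P w).re) w := by
      have : AnalyticAt ℂ (fun w => - P w) w := (hP.analyticAt w).neg
      exact this.harmonicAt_re
    have a2 : HarmonicAt (fun w => (ε * (2 * (starRingEnd ℂ) (w₁ - c) * (w - w₁) +
        (‖w₁ - c‖ ^ 2 + r ^ 2 : ℝ))).re) w := by
      have : AnalyticAt ℂ (fun w => ε * (2 * (starRingEnd ℂ) (w₁ - c) * (w - w₁) +
        (‖w₁ - c‖ ^ 2 + r ^ 2 : ℝ))) w := by fun_prop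
      exact this.harmonicAt_re
    have a3 : HarmonicAt (fun w => ε * Real.log ‖(w - c) / R‖) w := by
      have : AnalyticAt ℂ (fun w => (w - c) / R) w := by
        have : AnalyticAt ℂ (fun w => (w - c) * (R : ℂ)⁻¹) w := by fun_prop
        simpa [div_eq_mul_inv] using this
      exact (this.harmonicAt_log_norm (div_ne_zero (sub_ne_zero.2 hwc) hRC)).const_smul (c := ε)
    exact (a1.add a2).add a3
  have hHavg := InnerProductSpace.HarmonicOnNhd.circleAverage_eq (f := H) (c := w₁) (R := r) hHharm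
  have hHw₁ : H w₁ = - (P w₁).re + ε * (‖w₁ - c‖ ^ 2 + r ^ 2) + ε * Real.log (‖w₁ - c‖ / R) := by
    simp only [H, sub_self, mul_zero, zero_add, ← Complex.ofReal_mul, Complex.ofReal_re,
      norm_div, Complex.norm_real, Real.norm_eq_abs, abs_of_pos hR]
  have hucirc : CircleIntegrable u w₁ r := by
    refine ContinuousOn.circleIntegrable hr.le (hu.mono fun w hw => ?_)
    exact ball_subset_closedBall (hsub w (sphere_subset_closedBall hw)).1
  have hHcirc : CircleIntegrable H w₁ r := by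
    refine ContinuousOn.circleIntegrable hr.le fun w hw => ?_
    exact (hHharm w (by rw [habs]; exact sphere_subset_closedBall hw)).1.continuousAt.continuousWithinAt
  have hsum := Real.circleAverage_add hucirc hHcirc
  have hle : Real.circleAverage (u + H) w₁ r ≤ Φ w₁ := by
    refine Real.circleAverage_mono_on_of_le_circle (hucirc.add hHcirc) fun w hw => ?_
    rw [habs] at hw
    have hw' := hsub w (sphere_subset_closedBall hw)
    have h1 := hall w (ball_subset_closedBall hw'.1) hw'.2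
    have h2 : (u + H) w = Φ w := by
      have h3 := norm_sq_expand w w₁ c
      rw [mem_sphere, dist_eq_norm] at hw
      rw [hw] at h3
      simp only [Pi.add_apply, H, Φ, h3, norm_div, Complex.norm_real, Real.norm_eq_abs,
        abs_of_pos hR, Complex.re_ofReal_mul, Complex.add_re, Complex.ofReal_re]
      ring
    rw [h2]
    exact h1
  have hΦ1 : Φ w₁ = u w₁ - (P w₁).re + ε * ‖w₁ - c‖ ^ 2 + ε * Real.log (‖w₁ - c‖ / R) := rfl
  rw [hsum, hHavg, hHw₁] at hle
  have hr2' : 0 < ε * r ^ 2 := by positivity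
  linarith

/-- a continuous function with an approximate mean value property (away from the centre) is
harmonic -/
theorem mv {u : ℂ → ℝ} {c : ℂ} {R : ℝ} (hR : 0 < R) (hu : ContinuousOn u (closedBall c R))
    (h : ∀ x ∈ ball c R, x ≠ c → ∀ ε > 0, ∀ ρ > 0, ∃ r, 0 < r ∧ r < ρ ∧
      |Real.circleAverage u x r - u x| ≤ ε * r ^ 2) : HarmOn u (ball c R) := by
  have hap : ∀ n : ℕ, ∃ P : ℂ → ℂ, Differentiable ℂ P ∧
      ∀ w ∈ ball c R, w ≠ c → |u w - (P w).re| ≤ 1 / ((n : ℝ) + 1) := by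
    intro n
    obtain ⟨P, hP, hPa⟩ := exists_trig_approx hR (hu.mono sphere_subset_closedBall)
      (δ := 1 / ((n : ℝ) + 1)) (by positivity)
    refine ⟨P, hP, fun w hw hwc => ?_⟩
    rw [abs_le]
    constructor
    · have h1 := mv_max (u := fun w => - u w) (P := fun w => - P w) hR hu.neg ?_ hP.neg
        (δ := 1 / ((n : ℝ) + 1)) ?_ w hw hwc
      · simp only [Complex.neg_re] at h1
        linarith
      · intro x hx hxc ε hε ρ hρ
        obtain ⟨r, hr, hrρ, hra⟩ := h x hx hxc ε hε ρ hρ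
        refine ⟨r, hr, hrρ, ?_⟩
        have h2 : Real.circleAverage (fun w => - u w) x r = - Real.circleAverage u x r := by
          have h3 := Real.circleAverage_smul (a := (-1 : ℝ)) (f := u) (c := x) (R := r)
          have h4 : Real.circleAverage (-u) x r = - Real.circleAverage u x r := by simpa using h3
          exact h4
        rw [h2]
        have := (abs_le.1 hra).2
        linarith
      · intro z hz
        have := (abs_le.1 (hPa z hz)).1
        simp only [Complex.neg_re]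
        linarith
    · refine mv_max hR hu ?_ hP (fun z hz => (abs_le.1 (hPa z hz)).2) w hw hwc
      intro x hx hxc ε hε ρ hρ
      obtain ⟨r, hr, hrρ, hra⟩ := h x hx hxc ε hε ρ hρ
      exact ⟨r, hr, hrρ, by linarith [(abs_le.1 hra).1]⟩
  choose P hP hPa using hap
  have hPa' : ∀ n, ∀ w ∈ ball c R, |u w - (P n w).re| ≤ 1 / ((n : ℝ) + 1) := by
    intro n w hw
    by_cases hwc : w = c
    · subst hwc
      have hc1 : ContinuousAt (fun y => |u y - (P n y).re|) w := by
        have h1 : ContinuousAt u w := hu.continuousAt (closedBall_mem_nhds w hR)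
        have h2 : ContinuousAt (fun y => (P n y).re) w :=
          Complex.continuous_re.continuousAt.comp (hP n).continuous.continuousAt
        exact (h1.sub h2).abs
      have hc2 : Tendsto (fun y => |u y - (P n y).re|) (𝓝[≠] w) (𝓝 |u w - (P n w).re|) :=
        hc1.tendsto.mono_left nhdsWithin_le_nhds
      refine le_of_tendsto hc2 ?_
      have hb : ball w R ∈ 𝓝[≠] w := mem_nhdsWithin_of_mem_nhds (ball_mem_nhds w hR)
      filter_upwards [hb, self_mem_nhdsWithin] with y hy hyw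
      exact hPa n y hy hyw
    · exact hPa n w hw hwc
  refine harmOn_of_tendsto (u := fun n w => (P n w).re) isOpen_ball ?_ ?_
  · exact Eventually.of_forall fun n w _ => harmAt_re ((hP n).analyticAt w)
  · refine TendstoUniformlyOn.tendstoLocallyUniformlyOn ?_
    rw [Metric.tendstoUniformlyOn_iff]
    intro ε hε
    obtain ⟨N, hN⟩ := exists_nat_one_div_lt hε
    filter_upwards [eventually_ge_atTop N] with n hn w hw
    rw [Real.dist_eq]
    refine lt_of_le_of_lt (hPa' n w hw) (lt_of_le_of_lt ?_ hN)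
    gcongr

/-- removable isolated singularities for continuous functions -/
theorem harmAt_of_punctured {u : ℂ → ℝ} {z : ℂ} {r : ℝ} (hr : 0 < r)
    (hc : ContinuousOn u (ball z r)) (h : HarmOn u (ball z r \ {z})) : HarmAt u z := by
  have hsub : closedBall z (r / 2) ⊆ ball z r := closedBall_subset_ball (by linarith)
  refine mv (c := z) (R := r / 2) (by positivity) (hc.mono hsub) ?_ z (mem_ball_self (by positivity))
  intro x hx hxz ε hε ρ hρ
  have hxn : 0 < ‖x - z‖ := norm_pos_iff.2 (sub_ne_zero.2 hxz)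
  have hxr : ‖x - z‖ < r / 2 := by rwa [mem_ball, dist_eq_norm] at hx
  set s : ℝ := min ρ (min (‖x - z‖) (r / 2)) / 2 with hs
  have hmin : 0 < min ρ (min (‖x - z‖) (r / 2)) := lt_min hρ (lt_min hxn (by positivity))
  have hs0 : 0 < s := by positivity
  have hs1 : s < ρ := by
    have : min ρ (min (‖x - z‖) (r / 2)) ≤ ρ := min_le_left _ _
    linarith
  have hs2 : s < ‖x - z‖ := by
    have : min ρ (min (‖x - z‖) (r / 2)) ≤ ‖x - z‖ := (min_le_right _ _).trans (min_le_left _ _)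
    linarith
  have hs3 : s < r / 2 := by
    have : min ρ (min (‖x - z‖) (r / 2)) ≤ r / 2 := (min_le_right _ _).trans (min_le_right _ _)
    linarith
  refine ⟨s, hs0, hs1, ?_⟩
  rw [InnerProductSpace.HarmonicOnNhd.circleAverage_eq (f := u) (c := x) (R := s)]
  · simp only [sub_self, abs_zero]
    positivity
  · intro y hy
    rw [abs_of_pos hs0, mem_closedBall, dist_eq_norm] at hy
    refine harmAt_iff.1 (h y ⟨?_, ?_⟩)
    · rw [mem_ball, dist_eq_norm]
      calc ‖y - z‖ = ‖(y - x) + (x - z)‖ := by ring_nf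
        _ ≤ ‖y - x‖ + ‖x - z‖ := norm_add_le _ _
        _ < r := by linarith
    · rintro rfl
      rw [norm_sub_rev] at hy
      linarith

/-- good scales: if `u` is continuous near `x` but not harmonic at `x` then there are arbitrarily
small discs near `x` on which `u` is `m`-close to a harmonic function, but on the concentric disc
of half radius it is not closer than `m / 40` to any harmonic function. -/
theorem good_scale {u : ℂ → ℝ} {x : ℂ} {R : ℝ} (hR : 0 < R) (hc : ContinuousOn u (ball x R))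
    (h : ¬ HarmAt u x) {ε : ℝ} (hε : 0 < ε) :
    ∃ (t : ℂ) (r m : ℝ) (e : ℂ → ℂ), ‖t - x‖ < ε ∧ 0 < r ∧ r < ε ∧ 0 < m ∧ m < ε ∧
      ball t r ⊆ ball x R ∧
      DifferentiableOn ℂ e (ball t r) ∧ (∀ y ∈ ball t r, |u y - (e y).re| ≤ m) ∧
      ∀ e' : ℂ → ℂ, DifferentiableOn ℂ e' (ball t (r / 2)) →
        ∃ y ∈ ball t (r / 2), m / 40 ≤ |u y - (e' y).re| := by
  by_contra hneg
  apply h
  have step : ∀ (t : ℂ) (r m : ℝ), ‖t - x‖ < ε → 0 < r → r < ε → 0 < m → m < ε →
      ball t r ⊆ ball x R →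
      (∃ e : ℂ → ℂ, DifferentiableOn ℂ e (ball t r) ∧ ∀ y ∈ ball t r, |u y - (e y).re| ≤ m) →
      ∃ e : ℂ → ℂ, DifferentiableOn ℂ e (ball t (r / 2)) ∧
        ∀ y ∈ ball t (r / 2), |u y - (e y).re| ≤ m / 40 := by
    intro t r m h1 h2 h3 h4 h5 h6 ⟨e, he, hem⟩
    by_contra hcon
    push Not at hcon
    refine hneg ⟨t, r, m, e, h1, h2, h3, h4, h5, h6, he, hem, fun e' he' => ?_⟩
    obtain ⟨y, hy, hy'⟩ := hcon e' he'
    exact ⟨y, hy, hy'.le⟩
  -- choose the starting scale
  have hux : ContinuousAt u x := hc.continuousAt (ball_mem_nhds x hR)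
  obtain ⟨r₁, hr₁, hr₁u⟩ := Metric.continuousAt_iff.1 hux (ε / 2) (by positivity)
  set r₀ : ℝ := min (min r₁ R) ε / 2 with hr₀def
  have hr₀ : 0 < r₀ := by
    have : 0 < min (min r₁ R) ε := lt_min (lt_min hr₁ hR) hε
    positivity
  have hr₀1 : r₀ < r₁ := by
    have : min (min r₁ R) ε ≤ r₁ := (min_le_left _ _).trans (min_le_left _ _)
    linarith
  have hr₀R : r₀ < R := by
    have : min (min r₁ R) ε ≤ R := (min_le_left _ _).trans (min_le_right _ _)
    linarith
  have hr₀ε : r₀ < ε := by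
    have : min (min r₁ R) ε ≤ ε := min_le_right _ _
    linarith
  have iter : ∀ t, ‖t - x‖ < r₀ / 2 → ∀ k : ℕ, ∃ e : ℂ → ℂ,
      DifferentiableOn ℂ e (ball t (r₀ / 2 / 2 ^ k)) ∧
        ∀ y ∈ ball t (r₀ / 2 / 2 ^ k), |u y - (e y).re| ≤ ε / 2 / 40 ^ k := by
    intro t ht k
    induction k with
    | zero =>
      refine ⟨fun _ => (u x : ℂ), by fun_prop, fun y hy => ?_⟩
      rw [pow_zero, div_one, mem_ball, dist_eq_norm] at hy
      have hyx : dist y x < r₁ := by
        rw [dist_eq_norm]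
        calc ‖y - x‖ = ‖(y - t) + (t - x)‖ := by ring_nf
          _ ≤ ‖y - t‖ + ‖t - x‖ := norm_add_le _ _
          _ < r₁ := by linarith
      have := hr₁u hyx
      rw [Real.dist_eq] at this
      simp only [Complex.ofReal_re, pow_zero, div_one]
      exact this.le
    | succ k ih =>
      have h2k : (1 : ℝ) ≤ 2 ^ k := one_le_pow₀ (by norm_num)
      have h40k : (1 : ℝ) ≤ 40 ^ k := one_le_pow₀ (by norm_num)
      have hle : r₀ / 2 / 2 ^ k ≤ r₀ / 2 := div_le_self (by positivity) h2k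
      have := step t (r₀ / 2 / 2 ^ k) (ε / 2 / 40 ^ k) (by linarith) (by positivity)
        (by linarith) (by positivity)
        (lt_of_le_of_lt (div_le_self (by positivity) h40k) (by linarith)) ?_ ih
      · have e1 : r₀ / 2 / 2 ^ (k + 1) = r₀ / 2 / 2 ^ k / 2 := by
          rw [pow_succ]; field_simp
        have e2 : ε / 2 / 40 ^ (k + 1) = ε / 2 / 40 ^ k / 40 := by
          rw [pow_succ]; field_simp
        rw [e1, e2]
        exact this
      · intro y hy
        rw [mem_ball, dist_eq_norm] at hy ⊢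
        calc ‖y - x‖ = ‖(y - t) + (t - x)‖ := by ring_nf
          _ ≤ ‖y - t‖ + ‖t - x‖ := norm_add_le _ _
          _ < R := by linarith
  have hsub : closedBall x (r₀ / 4) ⊆ ball x R := closedBall_subset_ball (by linarith)
  refine mv (c := x) (R := r₀ / 4) (by positivity) (hc.mono hsub) ?_ x
    (mem_ball_self (by positivity))
  intro t ht _ η hη ρ hρ
  rw [mem_ball, dist_eq_norm] at ht
  -- pick k
  have hlim1 : Tendsto (fun k : ℕ => r₀ / 4 * (1 / 2 : ℝ) ^ k) atTop (𝓝 (r₀ / 4 * 0)) :=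
    (tendsto_pow_atTop_nhds_zero_of_lt_one (by norm_num) (by norm_num)).const_mul _
  have hlim2 : Tendsto (fun k : ℕ => ε * (1 / 10 : ℝ) ^ k) atTop (𝓝 (ε * 0)) :=
    (tendsto_pow_atTop_nhds_zero_of_lt_one (by norm_num) (by norm_num)).const_mul _
  rw [mul_zero] at hlim1 hlim2
  have hηr : 0 < η * (r₀ / 4) ^ 2 := by positivity
  obtain ⟨k, hk1, hk2⟩ := ((hlim1.eventually_lt_const hρ).and
    (hlim2.eventually_lt_const hηr)).exists
  obtain ⟨e, he, heu⟩ := iter t (by linarith) k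
  set s : ℝ := r₀ / 4 * (1 / 2 : ℝ) ^ k with hs
  have hs0 : 0 < s := by positivity
  have hs1 : s < r₀ / 2 / 2 ^ k := by
    have : r₀ / 2 / 2 ^ k = r₀ / 2 * (1 / 2 : ℝ) ^ k := by
      rw [div_eq_mul_inv _ ((2 : ℝ) ^ k), one_div, inv_pow]
    rw [this, hs]
    have : 0 < (1 / 2 : ℝ) ^ k := by positivity
    nlinarith
  refine ⟨s, hs0, hk1, ?_⟩
  have habs : |s| = s := abs_of_pos hs0
  have hcb : closedBall t s ⊆ ball t (r₀ / 2 / 2 ^ k) := closedBall_subset_ball hs1
  have hharm : ∀ y ∈ closedBall t |s|, HarmonicAt (fun y => (e y).re) y := by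
    intro y hy
    rw [habs] at hy
    exact (he.analyticOnNhd isOpen_ball y (hcb hy)).harmonicAt_re
  have havg := InnerProductSpace.HarmonicOnNhd.circleAverage_eq (c := t) (R := s) hharm
  have hle : r₀ / 2 / 2 ^ k ≤ r₀ / 2 := div_le_self (by positivity) (one_le_pow₀ (by norm_num))
  have i1 : CircleIntegrable u t s := by
    refine ContinuousOn.circleIntegrable hs0.le (hc.mono fun y hy => ?_)
    have hy' := hcb (sphere_subset_closedBall hy)
    rw [mem_ball, dist_eq_norm] at hy' ⊢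
    calc ‖y - x‖ = ‖(y - t) + (t - x)‖ := by ring_nf
      _ ≤ ‖y - t‖ + ‖t - x‖ := norm_add_le _ _
      _ < R := by linarith
  have i2 : CircleIntegrable (fun y => (e y).re) t s := by
    refine ContinuousOn.circleIntegrable hs0.le fun y hy => ?_
    exact (hharm y (by rw [habs]; exact sphere_subset_closedBall hy)).1.continuousAt.continuousWithinAt
  have hd1 := abs_circleAverage_sub_le i1 i2 (ε := ε / 2 / 40 ^ k) (fun y hy => by
    rw [habs] at hy
    exact heu y (hcb (sphere_subset_closedBall hy)))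
  rw [havg] at hd1
  have hd2 := heu t (mem_ball_self (by positivity))
  have hd3 : |Real.circleAverage u t s - u t| ≤ ε / 40 ^ k := by
    calc |Real.circleAverage u t s - u t| =
        |(Real.circleAverage u t s - (e t).re) - (u t - (e t).re)| := by ring_nf
      _ ≤ |Real.circleAverage u t s - (e t).re| + |u t - (e t).re| := abs_sub _ _
      _ ≤ ε / 2 / 40 ^ k + ε / 2 / 40 ^ k := add_le_add hd1 hd2
      _ = ε / 40 ^ k := by ring
  refine hd3.trans ?_
  have e1 : ε / 40 ^ k = ε * (1 / 10 : ℝ) ^ k * (1 / 4 : ℝ) ^ k := by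
    rw [mul_assoc, ← mul_pow, div_eq_mul_inv, ← inv_pow]
    norm_num
  have e2 : η * s ^ 2 = η * (r₀ / 4) ^ 2 * (1 / 4 : ℝ) ^ k := by
    rw [hs, mul_pow, ← pow_mul, mul_comm k 2, pow_mul]
    norm_num
    ring
  rw [e1, e2]
  exact mul_le_mul_of_nonneg_right hk2.le (by positivity)

end Pool.Agent.Work.MP_78b16e_an
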