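import Pool.Agent.Work.MP_78b16e_an.Fam

/-! Part B: two rational functions with the same Green function, one of them nonspecial,
satisfy a relation `G^n ∘ F^q = G^(n+p)`.  (owner: helper71) -/

set_option autoImplicit false

namespace Pool.Agent.Work.MP_78b16e_an

open Metric Filter Topology

section lin

variable {g : ℂ × ℂ → ℝ} {D : ℕ} {B : ℂ × ℂ → ℂ × ℂ} {lam : ℂ} {ψ : ℂ → ℂ × ℂ} {p : ℂ → ℂ}

/-- the covering theorem transported by the linearisation -/
theorem Lin.cover (hL : Lin g D B lam ψ p) {d k : ℕ} {A : ℂ × ℂ → ℂ × ℂ} (hk : 1 ≤ k)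
    (hA : Dyn g d A) (hB : B = A^[k]) {y : ℂ × ℂ} (hy : Tgt d A y) (z : ℂ)
    (hz : ¬ HarmAt (fun t => g (ψ t)) z) {ε : ℝ} (hε : 0 < ε) :
    ∃ n₀ : ℕ, ∀ n ≥ n₀, ∃ t ∈ ball z ε, wg (ψ (lam ^ n * t)) y = 0 := by
  obtain ⟨n₀, h⟩ := cov hA hy hε (hL.diff.differentiableOn) (fun t _ => hL.nz t) hz
  refine ⟨n₀, fun n hn => ?_⟩
  have hkn : n₀ ≤ k * n := by nlinarith
  obtain ⟨t, ht, h1⟩ := h (k * n) hkn
  refine ⟨t, ht, ?_⟩
  obtain ⟨Q, -, hQ⟩ := hL.iter n
  have h2 : A^[k * n] (ψ t) = Complex.exp (Q t) • ψ (lam ^ n * t) := by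
    rw [← hQ, hB, Function.iterate_mul]
  rw [h2, wg_smul_left] at h1
  exact (mul_eq_zero.1 h1).resolve_left (Complex.exp_ne_zero _)

/-- existence of a nonharmonic point outside `0` -/
theorem Lin.exists_nonharm (hL : Lin g D B lam ψ p) :
    ∃ z : ℂ, z ≠ 0 ∧ ¬ HarmAt (fun t => g (ψ t)) z := by
  by_contra hcon
  push Not at hcon
  apply hL.not_harm
  have hc : ContinuousOn (fun t => g (ψ t)) (ball (0 : ℂ) 1) :=
    hL.dyn.pot.cont.comp hL.diff.continuous.continuousOn (fun t _ => hL.nz t)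
  exact harmAt_of_punctured one_pos hc (fun z hz => hcon z (fun h => hz.2 (by simpa using h)))

end lin

theorem partB (F G : RatFunc ℂ) (hF : 2 ≤ rdeg F) (hG : 2 ≤ rdeg G) (hns : ¬ Special F)
    {g : ℂ × ℂ → ℝ} (hg : IsPot g) (hgF : Compat g F) (hgG : Compat g G) :
    ∃ n q p : ℕ, 1 ≤ n ∧ 1 ≤ q ∧ 1 ≤ p ∧
      rcomp ((rcomp G)^[n] RatFunc.X) ((rcomp F)^[q] RatFunc.X) =
        (rcomp G)^[n + p] RatFunc.X := by
  obtain ⟨cF, hcF, hDF⟩ := exists_norm hg F hF hgF
  obtain ⟨cG, hcG, hDG⟩ := exists_norm hg G hG hgG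
  set L : ℂ × ℂ → ℂ × ℂ := fun v => cF • rlift F v with hLdef
  set E : ℂ × ℂ → ℂ × ℂ := fun v => cG • rlift G v with hEdef
  set A : ℂ × ℂ → ℂ × ℂ := L^[3] with hAdef
  have hDA : Dyn g (rdeg F ^ 3) A := hDF.iterate 3 (by norm_num)
  have hexc := exc_of_nonspecial F hF hns hcF
  have hexc' : NoTR (rdeg F ^ 3) A ∨ ∃ p, OneTR (rdeg F ^ 3) A p :=
    hexc.imp_right fun ⟨p, hp, _⟩ => ⟨p, hp⟩
  obtain ⟨a, k, lam, ha, hk, hlam, hfix, hder, hTgt, hpc⟩ := exists_repelling hDA hexc'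
  set B : ℂ × ℂ → ℂ × ℂ := A^[k] with hBdef
  set D : ℕ := (rdeg F ^ 3) ^ k with hDdef
  have hDB : Dyn g D B := hDA.iterate k hk
  obtain ⟨ψ, pp, hψ, hpp, hψnz, hψ0, hψi, heqn⟩ :=
    koenigs hDB.lift hDB.two ha hfix hlam hder
  have hL : Lin g D B lam ψ pp := ⟨hDB, hlam, hψ, hψnz, hψi, hpp, heqn⟩
  have hl0 : lam ≠ 0 := hL.lam_ne
  -- `L` iterates
  have hAn : ∀ n, A^[n] = L^[3 * n] := fun n => by rw [hAdef, ← Function.iterate_mul]
  have hBn : ∀ n, B^[n] = A^[k * n] := fun n => by rw [hBdef, ← Function.iterate_mul]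
  have hBL : ∀ n, B^[n] = L^[3 * k * n] := fun n => by
    rw [hBn, hAn, mul_assoc]
  have hD1 : ∀ n : ℕ, 1 ≤ (rdeg F ^ 3) ^ n := fun n =>
    Nat.one_le_pow _ _ (Nat.pos_of_ne_zero (pow_ne_zero 3 (by omega)))
  -- Jacobian at a preimage of `a`
  have hjac : ∀ (v : ℂ × ℂ) (n : ℕ), v ≠ 0 → wg (A^[n] v) a = 0 → jac (A^[n]) v ≠ 0 := by
    intro v n hv h
    exact ((hDA.lift.iterate n).jac_ne_iff (hD1 n) hv).2 (hpc v n hv h)
  -- fibres are noncritical
  have hN : ∀ z₁, wg (ψ z₁) (ψ 0) = 0 → wg (ψ z₁) (deriv ψ z₁) ≠ 0 := by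
    intro z₁ hz₁
    refine hL.imm_of z₁ fun n => ?_
    rw [hBn]
    refine hjac _ _ (hψnz _) ?_
    obtain ⟨Q, -, hQ⟩ := hL.iter n
    have h2 : A^[k * n] (ψ ((lam ^ n)⁻¹ * z₁)) =
        Complex.exp (Q ((lam ^ n)⁻¹ * z₁)) • ψ z₁ := by
      rw [← hBn, hQ, ← mul_assoc, mul_inv_cancel₀ (pow_ne_zero n hl0), one_mul]
    rw [h2, wg_smul_left, ← hψ0, hz₁, mul_zero]
  -- homoclinic point
  obtain ⟨t₀, ht₀, hnh⟩ := hL.exists_nonharm
  have hTgt0 : Tgt (rdeg F ^ 3) A (ψ 0) := by rw [hψ0]; exact hTgt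
  have hZ : ∃ z₁, z₁ ≠ 0 ∧ wg (ψ z₁) (ψ 0) = 0 := by
    have hε : 0 < ‖t₀‖ / 2 := by
      have := norm_pos_iff.2 ht₀
      linarith
    obtain ⟨n₀, h⟩ := hL.cover hk hDA hBdef hTgt0 t₀ hnh hε
    obtain ⟨t, ht, h1⟩ := h n₀ le_rfl
    refine ⟨lam ^ n₀ * t, mul_ne_zero (pow_ne_zero _ hl0) ?_, h1⟩
    rintro rfl
    rw [mem_ball, dist_eq_norm, zero_sub, norm_neg] at ht
    linarith
  have hC : ∀ z, ¬ HarmAt (fun y => g (ψ y)) z → ∀ ε > 0, ∃ n₀ : ℕ, ∀ n ≥ n₀,
      ∃ y ∈ ball z ε, wg (ψ (lam ^ n * y)) (ψ 0) = 0 := fun z hz ε hε =>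
    hL.cover hk hDA hBdef hTgt0 z hz hε
  -- the family
  obtain ⟨nn, P, ρ, hP, hρ, hfam⟩ := hL.family hDG
  by_cases hpar : ∃ i j, i < j ∧ ∀ z,
      wg (Complex.exp (P i z) • E^[nn i] (ψ ((lam ^ i)⁻¹ * z)))
        (Complex.exp (P j z) • E^[nn j] (ψ ((lam ^ j)⁻¹ * z))) = 0
  · -- algebraic relation
    obtain ⟨i, j, hij, hpar⟩ := hpar
    have hpar' : ∀ z, wg (E^[nn i] (ψ ((lam ^ i)⁻¹ * z))) (E^[nn j] (ψ ((lam ^ j)⁻¹ * z))) = 0 := by
      intro z
      have := hpar z
      rw [wg_smul_left, wg_smul_right] at this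
      exact (mul_eq_zero.1 ((mul_eq_zero.1 this).resolve_left
        (Complex.exp_ne_zero _))).resolve_left (Complex.exp_ne_zero _)
    obtain ⟨Q, -, hQ⟩ := hL.iter (j - i)
    have hrel : ∀ w, wg (E^[nn i] (B^[j - i] (ψ w))) (E^[nn j] (ψ w)) = 0 := by
      intro w
      have h1 := hpar' (lam ^ j * w)
      have e1 : (lam ^ j)⁻¹ * (lam ^ j * w) = w := by
        rw [← mul_assoc, inv_mul_cancel₀ (pow_ne_zero j hl0), one_mul]
      have e2 : (lam ^ i)⁻¹ * (lam ^ j * w) = lam ^ (j - i) * w := by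
        have : lam ^ j = lam ^ i * lam ^ (j - i) := by rw [← pow_add]; congr 1; omega
        rw [this, ← mul_assoc, ← mul_assoc, inv_mul_cancel₀ (pow_ne_zero i hl0), one_mul]
      rw [e1, e2] at h1
      rw [hQ w, (hDG.lift.iterate _).hom, wg_smul_left, h1, mul_zero]
    set q := 3 * k * (j - i) with hq
    obtain ⟨c₁, hc₁, h₁⟩ := iterate_rep G (by omega) hcG (nn i)
    obtain ⟨c₂, hc₂, h₂⟩ := iterate_rep G (by omega) hcG (nn j)
    obtain ⟨c₃, hc₃, h₃⟩ := iterate_rep F (by omega) hcF q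
    have hdF := rlift_iterate F (by omega) q
    have hdGi := rlift_iterate G (by omega) (nn i)
    have hdGj := rlift_iterate G (by omega) (nn j)
    have hFq1 : 1 ≤ rdeg ((rcomp F)^[q] RatFunc.X) := by
      rw [hdF.1]; exact Nat.one_le_pow _ _ (by omega)
    obtain ⟨c₄, hc₄, h₄⟩ := rlift_rcomp ((rcomp G)^[nn i] RatFunc.X)
      ((rcomp F)^[q] RatFunc.X) hFq1
    have hEq : rcomp ((rcomp G)^[nn i] RatFunc.X) ((rcomp F)^[q] RatFunc.X) =
        (rcomp G)^[nn j] RatFunc.X := by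
      apply eq_of_infinite
      refine infinite_of_curve hψ hψi (rlift_isLift _) (rlift_isLift _) fun z => ?_
      have h5 := hrel z
      rw [hBL, ← hq] at h5
      have h6 : L^[q] (ψ z) = c₃ • rlift ((rcomp F)^[q] RatFunc.X) (ψ z) := h₃ _
      have h7 : E^[nn i] (L^[q] (ψ z)) =
          c₁ • rlift ((rcomp G)^[nn i] RatFunc.X) (L^[q] (ψ z)) := h₁ _
      have h8 : E^[nn j] (ψ z) = c₂ • rlift ((rcomp G)^[nn j] RatFunc.X) (ψ z) := h₂ _
      rw [h8, h7, h6, (rlift_isLift _).hom, wg_smul_left, wg_smul_left, wg_smul_right] at h5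
      have h9 : wg (rlift ((rcomp G)^[nn i] RatFunc.X) (rlift ((rcomp F)^[q] RatFunc.X) (ψ z)))
          (rlift ((rcomp G)^[nn j] RatFunc.X) (ψ z)) = 0 := by
        have := (mul_eq_zero.1 ((mul_eq_zero.1 h5).resolve_left hc₁)).resolve_left
          (pow_ne_zero _ hc₃)
        exact (mul_eq_zero.1 this).resolve_left hc₂
      rw [h₄, wg_smul_left, h9, mul_zero]
    have hqpos : 1 ≤ q := by
      rw [hq]
      have : 1 ≤ j - i := by omega
      have : 1 ≤ 3 * k := by omega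
      exact Nat.mul_pos (by omega) (by omega)
    have hlt : nn i < nn j := by
      have h10 := congrArg rdeg hEq
      rw [rdeg_rcomp _ _ hFq1, hdF.1, hdGi.1, hdGj.1] at h10
      by_contra hle
      push Not at hle
      have h11 : rdeg G ^ nn j ≤ rdeg G ^ nn i := Nat.pow_le_pow_right (by omega) hle
      have h12 : 2 ≤ rdeg F ^ q := by
        calc 2 ≤ rdeg F := hF
          _ = rdeg F ^ 1 := (pow_one _).symm
          _ ≤ rdeg F ^ q := Nat.pow_le_pow_right (by omega) hqpos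
      have h13 : 1 ≤ rdeg G ^ nn i := Nat.one_le_pow _ _ (by omega)
      nlinarith
    refine ⟨nn i + 1, q, nn j - nn i, by omega, hqpos, by omega, ?_⟩
    have hGi1 : 1 ≤ rdeg ((rcomp G)^[nn i] RatFunc.X) := by
      rw [hdGi.1]; exact Nat.one_le_pow _ _ (by omega)
    rw [Function.iterate_succ_apply', rcomp_assoc _ _ _ hGi1 hFq1, hEq,
      ← Function.iterate_succ_apply' (rcomp G)]
    congr 2
    omega
  · exfalso
    obtain ⟨z₁, hz₁, hz₁p⟩ := hZ
    obtain ⟨τ, hτ, hτT⟩ := nondiscrete hL hz₁ hz₁p (hN z₁ hz₁p)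
      (fun i z => Complex.exp (P i z) • E^[nn i] (ψ ((lam ^ i)⁻¹ * z))) ρ
      (m := 1 / (rdeg G : ℝ)) (by positivity) hρ
      (fun i => by
        have h1 : Differentiable ℂ (fun z => E^[nn i] (ψ ((lam ^ i)⁻¹ * z))) :=
          (hDG.lift.iterate (nn i)).differentiable.comp
            (hψ.comp (differentiable_id.const_mul _))
        exact ((hP i).cexp).smul h1)
      (fun i z => smul_ne_zero (Complex.exp_ne_zero _)
        (hDG.lift.iterate_nz _ (hψnz _)))
      hfam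
      (by
        intro i j hij
        by_contra hcon
        push Not at hcon
        rcases lt_or_gt_of_ne hij with h | h
        · exact hpar ⟨i, j, h, hcon⟩
        · exact hpar ⟨j, i, h, fun z => by rw [wg_swap, hcon z, neg_zero]⟩)
    -- deck transformations
    have hDD : ∀ z₁, wg (ψ z₁) (ψ 0) = 0 →
        ∃ α : ℂ, α ≠ 0 ∧ ∀ z, wg (ψ (α * z + z₁)) (ψ z) = 0 := by
      intro z₁ hz
      obtain ⟨η, hη, hη0, hη', hηp⟩ := exists_match (hψ.analyticAt z₁) (hψ.analyticAt 0)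
        (hN z₁ hz) hψi hz
      have hηψ : AnalyticAt ℂ (fun z => ψ (η z)) 0 := by
        have : AnalyticAt ℂ ψ (η 0) := hψ.analyticAt _
        exact this.comp hη
      have hharm : HarmAt (fun z => g (ψ (η z)) - 1 * g (ψ z)) 0 := by
        have := harmAt_par hg hηψ (hψ.analyticAt 0) (hψnz _) (hψnz _) hηp
        simpa using this
      have haff := rigid hL hτ hτT hη hη' one_ne_zero hharm
      refine ⟨deriv η 0, hη', fun z => ?_⟩
      refine par_of_eventually (c₁ := fun z => ψ (deriv η 0 * z + z₁)) (c₂ := ψ)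
        (hψ.comp ((differentiable_id.const_mul _).add_const z₁)) hψ (x := 0) ?_ z
      filter_upwards [haff, hηp] with y h1 h2
      rw [h1, hη0, add_comm] at h2
      exact h2
    -- the symmetry coming from `F`
    have hFF : ∃ α β : ℂ, α ≠ 0 ∧ ∀ z, wg (ψ (α * z + β)) (rlift F (ψ z)) = 0 := by
      have hLa : L a ≠ 0 := hDF.lift.nz a ha
      -- `L a` is not exceptional
      have hTL : Tgt (rdeg F ^ 3) A (L a) := by
        refine ⟨hLa, ?_⟩
        rcases hexc with h | ⟨p, hp, hp'⟩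
        · exact Or.inl h
        · refine Or.inr ⟨p, hp, fun h => ?_⟩
          have h1 : wg (rlift F a) p = 0 := by
            rw [hLdef] at h
            simp only [wg_smul_left] at h
            exact (mul_eq_zero.1 h).resolve_left hcF
          have h2 := hp' a ha h1
          rcases hTgt.2 with h3 | ⟨p', hp1, hp2⟩
          · exact h3 p hp.1 hp.2.1
          · have h4 : wg p p' = 0 := hp1.2.2.2 p hp.1 hp.2.1
            exact hp2 (wg_trans hp.1 h2 h4)
      obtain ⟨β, hβ⟩ : ∃ β, wg (ψ β) (L a) = 0 := by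
        obtain ⟨n₀, h⟩ := hL.cover hk hDA hBdef hTL t₀ hnh one_pos
        obtain ⟨t, -, hβ⟩ := h n₀ le_rfl
        exact ⟨_, hβ⟩
      -- `L^(3k-1)` maps `L a` to `a`
      obtain ⟨N, hN'⟩ : ∃ N, 3 * k = N + 1 := ⟨3 * k - 1, by omega⟩
      have hBL1 : B = L^[N + 1] := by rw [← hN', ← hAn]
      have hBN : ∀ v, B v = L^[N] (L v) := by
        intro v
        rw [hBL1, Function.iterate_succ_apply]
      have hBN' : ∀ v, B v = L (L^[N] v) := by
        intro v
        rw [hBL1, Function.iterate_succ_apply']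
      -- `ψ` is immersed at `β`
      have himm : wg (ψ β) (deriv ψ β) ≠ 0 := by
        refine hL.imm_of β fun n => ?_
        set v := ψ ((lam ^ n)⁻¹ * β) with hv
        set x := L^[N] (ψ ((lam ^ (n + 1))⁻¹ * β)) with hx
        have hxnz : x ≠ 0 := hDF.lift.iterate_nz _ (hψnz _)
        have hLx : L x = Complex.exp (pp ((lam ^ (n + 1))⁻¹ * β)) • v := by
          rw [hx, ← hBN', heqn, hv]
          congr 2
          rw [pow_succ]
          field_simp
        -- A^[k (n+1)] x ∥ a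
        have hcomp : ∀ y, A^[k * (n + 1)] y = L^[N] (B^[n] (L y)) := by
          intro y
          rw [hAn, hBL, ← Function.iterate_succ_apply, ← Function.iterate_add_apply]
          congr 1
          have : 3 * (k * (n + 1)) = 3 * k * n + 3 * k := by ring
          rw [this]
          omega
        have hpar1 : wg (A^[k * (n + 1)] x) a = 0 := by
          rw [hcomp, hLx, (hDB.lift.iterate n).hom, (hDF.lift.iterate N).hom, wg_smul_left]
          obtain ⟨Q, -, hQ⟩ := hL.iter n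
          have h3 : B^[n] v = Complex.exp (Q ((lam ^ n)⁻¹ * β)) • ψ β := by
            rw [hv, hQ, ← mul_assoc, mul_inv_cancel₀ (pow_ne_zero n hl0), one_mul]
          have h4 : wg (L^[N] (B^[n] v)) (L^[N] (L a)) = 0 := by
            refine (hDF.lift.iterate N).par ?_ ?_
            · rw [h3]; exact smul_ne_zero (Complex.exp_ne_zero _) (hψnz _)
            · rw [h3, wg_smul_left, hβ, mul_zero]
          rw [← hBN, hfix] at h4
          rw [h4, mul_zero]
        have hj := hjac x (k * (n + 1)) hxnz hpar1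
        have hfun : A^[k * (n + 1)] = (L^[N]) ∘ ((B^[n]) ∘ L) := funext hcomp
        rw [hfun, jac_comp (hDF.lift.iterate N).differentiable
          ((hDB.lift.iterate n).differentiable.comp hDF.lift.differentiable),
          jac_comp (hDB.lift.iterate n).differentiable hDF.lift.differentiable] at hj
        have hj2 : jac (B^[n]) (L x) ≠ 0 := fun h => hj (by rw [h]; ring)
        rw [hLx] at hj2
        exact (hDB.lift.iterate n).jac_smul_ne (Complex.exp_ne_zero _) hj2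
      -- `L ∘ ψ` is immersed at `0`
      have hjL : jac L a ≠ 0 := by
        have hj := hjac a k ha (by rw [← hBdef, hfix, wg_self])
        have hfun : A^[k] = (L^[N]) ∘ L := funext hBN
        rw [hfun, jac_comp (hDF.lift.iterate N).differentiable hDF.lift.differentiable] at hj
        exact fun h => hj (by rw [h, mul_zero])
      have himmL : wg (L (ψ 0)) (deriv (fun y => L (ψ y)) 0) ≠ 0 := by
        intro h
        have := imm_comp hDF.lift (hψ 0)
        rw [h, mul_zero, hψ0] at this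
        rw [hψ0] at hψi
        exact mul_ne_zero hjL hψi this.symm
      have hLψ : Differentiable ℂ (fun y => L (ψ y)) := hDF.lift.differentiable.comp hψ
      obtain ⟨η, hη, hη0, hη', hηp⟩ := exists_match (hψ.analyticAt β) (hLψ.analyticAt 0)
        himm himmL (by rw [hψ0]; exact hβ)
      have hηψ : AnalyticAt ℂ (fun z => ψ (η z)) 0 := by
        have : AnalyticAt ℂ ψ (η 0) := hψ.analyticAt _
        exact this.comp hη
      have hharm : HarmAt (fun z => g (ψ (η z)) - (rdeg F : ℝ) * g (ψ z)) 0 := by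
        have := harmAt_par hg hηψ (hLψ.analyticAt 0) (hψnz _) (hDF.lift.nz _ (hψnz _)) hηp
        refine this.congr (Eventually.of_forall fun z => ?_)
        show g (ψ (η z)) - g (L (ψ z)) = _
        rw [hDF.inv _ (hψnz z)]
      have hd0 : (rdeg F : ℝ) ≠ 0 := by
        have : rdeg F ≠ 0 := by omega
        exact_mod_cast this
      have haff := rigid hL hτ hτT hη hη' hd0 hharm
      refine ⟨deriv η 0, β, hη', fun z => ?_⟩
      have h1 : wg (ψ (deriv η 0 * z + β)) (L (ψ z)) = 0 := by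
        refine par_of_eventually (c₁ := fun z => ψ (deriv η 0 * z + β)) (c₂ := fun z => L (ψ z))
          (hψ.comp ((differentiable_id.const_mul _).add_const β)) hLψ (x := 0) ?_ z
        filter_upwards [haff, hηp] with y h1 h2
        rw [h1, hη0, add_comm] at h2
        exact h2
      rw [hLdef] at h1
      simp only [wg_smul_right] at h1
      exact (mul_eq_zero.1 h1).resolve_left hcF
    exact hns (classify hL F hF hDD hFF hN hC ⟨z₁, hz₁, hz₁p⟩)

end Pool.Agent.Work.MP_78b16e_an
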