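import Pool.Agent.Work.MP_78b16e_an.Cov

/-! Preparations for the existence of a repelling periodic point: critical points, choice of the
base point, rescaling.  (owner: helper87) -/

set_option autoImplicit false

namespace Pool.Agent.Work.MP_78b16e_an

open Metric Filter Topology Polynomial

/-! ### nonharmonic points -/

theorem harmAt_const (k : ℝ) (z : ℂ) : HarmAt (fun _ => k) z := by
  have := harmAt_re (e := fun _ => ((k : ℝ) : ℂ)) (z := z) analyticAt_const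
  simpa using this

theorem immersed_of_nonharm {g : ℂ × ℂ → ℝ} (hg : IsPot g) {c : ℂ → ℂ × ℂ} {t₀ : ℂ}
    (hc : AnalyticAt ℂ c t₀) (h0 : c t₀ ≠ 0) (hh : ¬ HarmAt (fun t => g (c t)) t₀) :
    ∀ᶠ t in 𝓝[≠] t₀, wg (c t) (deriv c t) ≠ 0 := by
  have hWa : AnalyticAt ℂ (fun t => wg (c t) (deriv c t)) t₀ := analyticAt_wg hc hc.deriv
  rcases hWa.eventually_eq_zero_or_eventually_ne_zero with hW0 | hW1
  · exfalso
    apply hh
    have hpar := par_const hc h0 hW0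
    have h1 := harmAt_par hg hc (analyticAt_const (v := c t₀)) h0 h0
      (hpar.mono fun t ht => by rw [wg_swap, ht, neg_zero])
    refine (h1.add (harmAt_const (g (c t₀)) t₀)).congr (Eventually.of_forall fun t => ?_)
    simp
  · exact hW1

theorem exists_nonharm_ne {u : ℂ → ℝ} {x : ℂ} {R : ℝ} (hR : 0 < R)
    (hc : ContinuousOn u (ball x R)) (h : ¬ HarmAt u x) {ε : ℝ} (hε : 0 < ε) :
    ∃ y, y ≠ x ∧ dist y x < ε ∧ ¬ HarmAt u y := by
  by_contra hcon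
  push Not at hcon
  apply h
  have hm : 0 < min R ε := lt_min hR hε
  refine harmAt_of_punctured hm (hc.mono (ball_subset_ball (min_le_left _ _))) ?_
  intro y hy
  exact hcon y hy.2 (lt_of_lt_of_le hy.1 (min_le_right _ _))

theorem vec_one_ne (z : ℂ) : ((z, 1) : ℂ × ℂ) ≠ 0 := by
  intro h
  have := congrArg Prod.snd h
  simp at this

theorem continuous_chart {g : ℂ × ℂ → ℝ} (hg : IsPot g) : Continuous fun z : ℂ => g (z, 1) := by
  have h1 : ContinuousOn (fun z : ℂ => g (z, 1)) Set.univ :=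
    hg.cont.comp (by fun_prop) fun z _ => vec_one_ne z
  exact continuousOn_univ.1 h1

theorem exists_nonharm {g : ℂ × ℂ → ℝ} (hg : IsPot g) : ∃ z : ℂ, ¬ HarmAt (fun z => g (z, 1)) z := by
  by_contra hcon
  push Not at hcon
  obtain ⟨e, he, heu⟩ := HarmOn.exists_univ (u := fun z => g (z, 1)) fun z _ => hcon z
  obtain ⟨C, hC0, hC⟩ := hg.bdd
  have hF : Differentiable ℂ fun z => Complex.exp (-(e z)) := he.neg.cexp
  have hbound : ∀ z : ℂ, ‖Complex.exp (-(e z))‖ ≤ Real.exp C / ‖((z, 1) : ℂ × ℂ)‖ := by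
    intro z
    have hn : 0 < ‖((z, 1) : ℂ × ℂ)‖ := norm_pos_iff.2 (vec_one_ne z)
    rw [Complex.norm_exp, Complex.neg_re, ← heu z, le_div_iff₀ hn]
    have h1 := (abs_le.1 (hC _ (vec_one_ne z))).1
    calc Real.exp (-(g (z, 1))) * ‖((z, 1) : ℂ × ℂ)‖
        = Real.exp (-(g (z, 1)) + Real.log ‖((z, 1) : ℂ × ℂ)‖) := by
          rw [Real.exp_add, Real.exp_log hn]
      _ ≤ Real.exp C := Real.exp_le_exp.2 (by linarith)
  have hlim : Tendsto (fun z => Complex.exp (-(e z))) (cocompact ℂ) (𝓝 0) := by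
    rw [tendsto_zero_iff_norm_tendsto_zero]
    have h1 : Tendsto (fun z : ℂ => ‖z‖) (cocompact ℂ) atTop := tendsto_norm_cocompact_atTop
    have h2 : Tendsto (fun z : ℂ => ‖((z, 1) : ℂ × ℂ)‖) (cocompact ℂ) atTop :=
      tendsto_atTop_mono (fun z => norm_fst_le ((z, 1) : ℂ × ℂ)) h1
    exact squeeze_zero (fun _ => norm_nonneg _) hbound (h2.const_div_atTop _)
  have h3 := hF.eq_const_of_tendsto_cocompact hlim
  have h4 := congrFun h3 0
  simp at h4

theorem perfect_nonharm {g : ℂ × ℂ → ℝ} (hg : IsPot g) :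
    Perfect {z : ℂ | ¬ HarmAt (fun z => g (z, 1)) z} := by
  refine ⟨?_, ?_⟩
  · rw [← isOpen_compl_iff, isOpen_iff_mem_nhds]
    intro z hz
    simp only [Set.mem_compl_iff, Set.mem_ofPred_eq, not_not] at hz
    filter_upwards [hz.eventually] with y hy
    simpa using hy
  · intro x hx
    rw [accPt_iff_nhds]
    intro U hU
    obtain ⟨ε, hε, hb⟩ := Metric.mem_nhds_iff.1 hU
    obtain ⟨y, hy1, hy2, hy3⟩ := exists_nonharm_ne (R := 1) one_pos
      (continuous_chart hg).continuousOn hx hε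
    exact ⟨y, ⟨hb hy2, hy3⟩, hy1⟩

/-- a nonharmonic point outside a countable set -/
theorem exists_nonharm_notMem {g : ℂ × ℂ → ℝ} (hg : IsPot g) {P : Set ℂ} (hP : P.Countable) :
    ∃ z : ℂ, ¬ HarmAt (fun z => g (z, 1)) z ∧ z ∉ P := by
  by_contra hcon
  push Not at hcon
  have hne : {z : ℂ | ¬ HarmAt (fun z => g (z, 1)) z}.Nonempty := exists_nonharm hg
  obtain ⟨f, hf1, -, hf2⟩ := (perfect_nonharm hg).exists_nat_bool_injection hne
  have h1 : Set.range f ⊆ P := hf1.trans fun z hz => hcon z hz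
  have h2 : (Set.range f).Countable := hP.mono h1
  have h3 : Countable (ℕ → Bool) := by
    rw [Set.countable_coe_iff.symm] at h2
    exact (Set.rangeFactorization_injective.2 hf2).countable
  obtain ⟨F, hF⟩ := exists_surjective_nat (ℕ → Bool)
  obtain ⟨n, hn⟩ := hF fun n => !(F n n)
  have h4 := congrFun hn n
  simp at h4

/-! ### critical points -/

theorem fderiv_iterate_succ {d : ℕ} {A : ℂ × ℂ → ℂ × ℂ} (hA : IsLift d A) (n : ℕ) (v : ℂ × ℂ) :
    fderiv ℂ (A^[n + 1]) v = (fderiv ℂ A (A^[n] v)).comp (fderiv ℂ (A^[n]) v) := by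
  rw [Function.iterate_succ']
  exact fderiv_comp v (hA.differentiable _) ((hA.iterate n).differentiable _)

theorem jac_iterate_succ {d : ℕ} {A : ℂ × ℂ → ℂ × ℂ} (hA : IsLift d A) (n : ℕ) (v : ℂ × ℂ) :
    jac (A^[n + 1]) v = jac A (A^[n] v) * jac (A^[n]) v := by
  unfold jac
  rw [fderiv_iterate_succ hA]
  simp only [ContinuousLinearMap.comp_apply]
  rw [wg_linear (fderiv ℂ A (A^[n] v)) (fderiv ℂ (A^[n]) v (1, 0))]

theorem jac_iterate_zero {d : ℕ} {A : ℂ × ℂ → ℂ × ℂ} (hA : IsLift d A) (n : ℕ) {v : ℂ × ℂ}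
    (h : jac (A^[n]) v = 0) : ∃ i < n, jac A (A^[i] v) = 0 := by
  induction n with
  | zero =>
    exfalso
    have h1 : jac (A^[0]) v = 1 := by
      unfold jac
      rw [Function.iterate_zero, fderiv_id]
      simp [wg]
    rw [h1] at h
    exact one_ne_zero h
  | succ n ih =>
    rw [jac_iterate_succ hA] at h
    rcases mul_eq_zero.1 h with h | h
    · exact ⟨n, by omega, h⟩
    · obtain ⟨i, hi, h⟩ := ih h
      exact ⟨i, by omega, h⟩

theorem fderiv_smul_vec {d : ℕ} {A : ℂ × ℂ → ℂ × ℂ} (hA : IsLift d A) (s : ℂ) (v b : ℂ × ℂ) :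
    s • fderiv ℂ A (s • v) b = s ^ d • fderiv ℂ A v b := by
  have h1 : HasFDerivAt (fun w : ℂ × ℂ => A (s • w))
      ((fderiv ℂ A (s • v)).comp (s • ContinuousLinearMap.id ℂ (ℂ × ℂ))) v := by
    have h2 : HasFDerivAt (fun w : ℂ × ℂ => s • w) (s • ContinuousLinearMap.id ℂ (ℂ × ℂ)) v :=
      (hasFDerivAt_id (𝕜 := ℂ) v).const_smul s
    exact (hA.differentiable (s • v)).hasFDerivAt.comp v h2
  have h3 : HasFDerivAt (fun w : ℂ × ℂ => A (s • w)) (s ^ d • fderiv ℂ A v) v := by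
    have h4 : (fun w : ℂ × ℂ => A (s • w)) = fun w => s ^ d • A w := funext fun w => hA.hom s w
    rw [h4]
    exact (hA.differentiable v).hasFDerivAt.const_smul (s ^ d)
  have h5 := congrArg (fun L : ℂ × ℂ →L[ℂ] ℂ × ℂ => L b) (h1.unique h3)
  simpa using h5

theorem jac_smul_zero {d : ℕ} {A : ℂ × ℂ → ℂ × ℂ} (hA : IsLift d A) {s : ℂ} (hs : s ≠ 0)
    {v : ℂ × ℂ} (h : jac A (s • v) = 0) : jac A v = 0 := by
  unfold jac at h ⊢
  have h1 := fderiv_smul_vec hA s v (1, 0)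
  have h2 := fderiv_smul_vec hA s v (0, 1)
  have h3 : s ^ d * (s ^ d * wg (fderiv ℂ A v (1, 0)) (fderiv ℂ A v (0, 1))) = 0 := by
    rw [← wg_smul_right, ← wg_smul_left, ← h1, ← h2, wg_smul_left, wg_smul_right, h, mul_zero,
      mul_zero]
  have h4 : s ^ d ≠ 0 := pow_ne_zero _ hs
  exact (mul_eq_zero.1 ((mul_eq_zero.1 h3).resolve_left h4)).resolve_left h4

/-- the critical points form a finite set up to scaling -/
theorem exists_crit_finite {g : ℂ × ℂ → ℝ} {d : ℕ} {A : ℂ × ℂ → ℂ × ℂ} (hD : Dyn g d A) :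
    ∃ S : Set (ℂ × ℂ), S.Finite ∧ (∀ ζ ∈ S, ζ ≠ 0) ∧
      ∀ ζ, ζ ≠ 0 → jac A ζ = 0 → ∃ ζ' ∈ S, wg ζ' ζ = 0 := by
  have hd0 : (d : ℂ) ≠ 0 := by
    have := hD.two
    exact_mod_cast (by omega : d ≠ 0)
  obtain ⟨p, q, -, -, hpq⟩ := hD.lift.line (0, 1) (1, 0)
  have hκ : ∀ t : ℂ, ((0, 1) : ℂ × ℂ) + t • (1, 0) = (t, 1) := by
    intro t; ext <;> simp
  have hpq' : ∀ t : ℂ, A (t, 1) = (p.eval t, q.eval t) := by
    intro t; rw [← hκ t, hpq]
  set c : ℂ → ℂ × ℂ := fun t => A (t, 1) with hc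
  have hcd : Differentiable ℂ c := by
    intro t
    exact (hD.lift.differentiable (t, 1)).comp t (by fun_prop)
  set W : ℂ[X] := p * derivative q - q * derivative p with hW
  have hcder : ∀ t, HasDerivAt c ((derivative p).eval t, (derivative q).eval t) t := by
    intro t
    have h1 : c = fun t => (p.eval t, q.eval t) := funext hpq'
    rw [h1]
    exact (p.hasDerivAt t).prodMk (q.hasDerivAt t)
  have hWt : ∀ t, wg (c t) (deriv c t) = W.eval t := by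
    intro t
    rw [(hcder t).deriv, show c t = (p.eval t, q.eval t) from hpq' t]
    simp [wg, hW]
  have hcder2 : ∀ t, HasDerivAt c (fderiv ℂ A (t, 1) (1, 0)) t := by
    intro t
    have h1 : HasDerivAt (fun t : ℂ => ((t, 1) : ℂ × ℂ)) (1, 0) t :=
      (hasDerivAt_id t).prodMk (hasDerivAt_const t 1)
    exact (hD.lift.differentiable (t, 1)).hasFDerivAt.comp_hasDerivAt t h1
  have hJW : ∀ t, jac A (t, 1) = 0 → W.eval t = 0 := by
    intro t ht
    have h1 := hD.lift.euler_jac (t, 1) (1, 0)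
    rw [ht, zero_mul, ← (hcder2 t).deriv] at h1
    rw [← hWt]
    exact (mul_eq_zero.1 h1).resolve_left hd0
  have hW0 : W ≠ 0 := by
    intro h
    obtain ⟨z₀, hz₀⟩ := exists_nonharm hD.pot
    have h1 : ¬ HarmAt (fun t => g (c t)) z₀ := by
      intro h2
      apply hz₀
      refine (h2.const_mul ((d : ℝ)⁻¹)).congr (Eventually.of_forall fun t => ?_)
      show (d : ℝ)⁻¹ * g (A (t, 1)) = g (t, 1)
      rw [hD.inv _ (vec_one_ne t), ← mul_assoc, inv_mul_cancel₀, one_mul]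
      have := hD.two
      exact_mod_cast (by omega : d ≠ 0)
    have h2 := immersed_of_nonharm hD.pot (hcd.analyticAt z₀) (hD.lift.nz _ (vec_one_ne _)) h1
    have h3 : ∀ᶠ t in 𝓝[≠] z₀, False := by
      filter_upwards [h2] with t ht
      apply ht
      rw [hWt, h, eval_zero]
    exact h3.exists.elim fun _ h => h
  refine ⟨(fun z : ℂ => ((z, 1) : ℂ × ℂ)) '' {z | z ∈ W.roots} ∪ {(1, 0)}, ?_, ?_, ?_⟩
  · refine Set.Finite.union (Set.Finite.image _ ?_) (Set.finite_singleton _)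
    exact Multiset.finite_toSet W.roots
  · rintro ζ (⟨z, -, rfl⟩ | h)
    · exact vec_one_ne z
    · rw [Set.mem_singleton_iff] at h
      rw [h]
      intro h
      have := congrArg Prod.fst h
      simp at this
  · intro ζ hζ hJ
    by_cases h2 : ζ.2 = 0
    · refine ⟨(1, 0), Or.inr rfl, ?_⟩
      simp [wg, h2]
    · have h3 : ζ = ζ.2 • (ζ.1 / ζ.2, 1) := by
        ext
        · simp only [Prod.smul_mk, smul_eq_mul]
          field_simp
        · simp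
      have h4 : jac A (ζ.1 / ζ.2, 1) = 0 := jac_smul_zero hD.lift h2 (by rw [← h3]; exact hJ)
      refine ⟨(ζ.1 / ζ.2, 1), Or.inl ⟨ζ.1 / ζ.2, ?_, rfl⟩, ?_⟩
      · exact (mem_roots hW0).2 (hJW _ h4)
      · simp only [wg]
        field_simp
        ring

/-- postcritical relation -/
theorem crit_hit {d : ℕ} {A : ℂ × ℂ → ℂ × ℂ} (hA : IsLift d A) {S : Set (ℂ × ℂ)}
    (hS0 : ∀ ζ ∈ S, ζ ≠ 0)
    (hS : ∀ ζ, ζ ≠ 0 → jac A ζ = 0 → ∃ ζ' ∈ S, wg ζ' ζ = 0) {v w : ℂ × ℂ} (hv : v ≠ 0) {n : ℕ}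
    (hJ : jac (A^[n]) v = 0) (hw : wg (A^[n] v) w = 0) :
    ∃ ζ ∈ S, ∃ j, 1 ≤ j ∧ wg (A^[j] ζ) w = 0 := by
  obtain ⟨i, hi, h1⟩ := jac_iterate_zero hA n hJ
  obtain ⟨ζ, hζ, h2⟩ := hS _ (hA.iter_nz i hv) h1
  refine ⟨ζ, hζ, n - i, by omega, ?_⟩
  have h3 : wg (A^[n - i] ζ) (A^[n - i] (A^[i] v)) = 0 := (hA.iterate (n - i)).par (hS0 ζ hζ) h2
  rw [← Function.iterate_add_apply, Nat.sub_add_cancel hi.le] at h3
  exact wg_trans (hA.iter_nz n hv) h3 hw

theorem subsingleton_chart {w : ℂ × ℂ} (hw : w ≠ 0) : {z : ℂ | wg w (z, 1) = 0}.Subsingleton := by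
  intro z hz z' hz'
  simp only [Set.mem_ofPred_eq, wg, mul_one] at hz hz'
  by_cases h2 : w.2 = 0
  · exfalso
    apply hw
    rw [h2, zero_mul, sub_zero] at hz
    exact Prod.ext hz h2
  · have h3 : w.2 * z = w.2 * z' := by linear_combination hz' - hz
    exact mul_left_cancel₀ h2 h3

/-- choice of the base point -/
theorem exists_base {g : ℂ × ℂ → ℝ} {d : ℕ} {A : ℂ × ℂ → ℂ × ℂ} (hD : Dyn g d A)
    (hE : NoTR d A ∨ ∃ p, OneTR d A p) {S : Set (ℂ × ℂ)} (hSf : S.Finite)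
    (hS0 : ∀ ζ ∈ S, ζ ≠ 0) :
    ∃ z₀ : ℂ, ¬ HarmAt (fun z => g (z, 1)) z₀ ∧ Tgt d A (z₀, 1) ∧
      ∀ ζ ∈ S, ∀ j, wg (A^[j] ζ) (z₀, 1) ≠ 0 := by
  have hP : (⋃ ζ ∈ S, ⋃ j : ℕ, {z : ℂ | wg (A^[j] ζ) (z, 1) = 0}).Countable := by
    refine hSf.countable.biUnion fun ζ hζ => Set.countable_iUnion fun j => ?_
    exact (subsingleton_chart (hD.lift.iter_nz j (hS0 ζ hζ))).countable
  rcases hE with hE | ⟨p, hp⟩
  · obtain ⟨z₀, h1, h2⟩ := exists_nonharm_notMem hD.pot hP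
    refine ⟨z₀, h1, ⟨vec_one_ne z₀, Or.inl hE⟩, fun ζ hζ j h => h2 ?_⟩
    simp only [Set.mem_iUnion]
    exact ⟨ζ, hζ, j, h⟩
  · have hQ : {z : ℂ | wg p (z, 1) = 0}.Countable := (subsingleton_chart hp.1).countable
    obtain ⟨z₀, h1, h2⟩ := exists_nonharm_notMem hD.pot (hP.union hQ)
    refine ⟨z₀, h1, ⟨vec_one_ne z₀, Or.inr ⟨p, hp, fun h => h2 (Or.inr ?_)⟩⟩,
      fun ζ hζ j h => h2 (Or.inl ?_)⟩
    · show wg p (z₀, 1) = 0
      rw [wg_swap, h, neg_zero]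
    · simp only [Set.mem_iUnion]
      exact ⟨ζ, hζ, j, h⟩

theorem continuous_wg_right (w : ℂ × ℂ) : Continuous fun a => wg w a := by
  unfold wg; fun_prop

theorem eventually_not_post {d : ℕ} {A : ℂ × ℂ → ℂ × ℂ} (hA : IsLift d A) {S : Set (ℂ × ℂ)}
    (hSf : S.Finite) (hS0 : ∀ ζ ∈ S, ζ ≠ 0) {x : ℂ × ℂ} (hx : x ≠ 0)
    (h : ∀ ζ ∈ S, ∀ j, wg (A^[j] ζ) x ≠ 0) :
    ∀ᶠ a in 𝓝 x, ∀ ζ ∈ S, ∀ N, 1 ≤ N → wg (A^[N] a) a = 0 → ∀ i, wg (A^[i] ζ) a ≠ 0 := by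
  rw [eventually_all_finite hSf]
  intro ζ hζ
  have hζ0 := hS0 ζ hζ
  by_cases hper : ∃ (a₀ : ℂ × ℂ) (i₀ N₀ : ℕ), a₀ ≠ 0 ∧ 1 ≤ N₀ ∧ wg (A^[N₀] a₀) a₀ = 0 ∧
      wg (A^[i₀] ζ) a₀ = 0
  · obtain ⟨a₀, i₀, N₀, ha₀, hN₀, h1, h2⟩ := hper
    have h3 : wg (A^[i₀ + N₀] ζ) (A^[i₀] ζ) = 0 := by
      have h4 : wg (A^[N₀] (A^[i₀] ζ)) (A^[N₀] a₀) = 0 :=
        (hA.iterate N₀).par (hA.iter_nz i₀ hζ0) h2
      rw [← Function.iterate_add_apply, add_comm N₀ i₀] at h4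
      refine wg_trans (hA.iter_nz N₀ ha₀) h4 (wg_trans ha₀ h1 ?_)
      rw [wg_swap, h2, neg_zero]
    have h5 : ∀ i, ∃ i' < i₀ + N₀, wg (A^[i] ζ) (A^[i'] ζ) = 0 := by
      intro i
      induction i using Nat.strong_induction_on with
      | _ i ih =>
        by_cases hi : i < i₀ + N₀
        · exact ⟨i, hi, wg_self _⟩
        · obtain ⟨i', hi', h6⟩ := ih (i - N₀) (by omega)
          refine ⟨i', hi', ?_⟩
          have h7 : wg (A^[i - (i₀ + N₀)] (A^[i₀ + N₀] ζ)) (A^[i - (i₀ + N₀)] (A^[i₀] ζ)) = 0 :=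
            (hA.iterate _).par (hA.iter_nz _ hζ0) h3
          rw [← Function.iterate_add_apply, ← Function.iterate_add_apply,
            show i - (i₀ + N₀) + (i₀ + N₀) = i by omega,
            show i - (i₀ + N₀) + i₀ = i - N₀ by omega] at h7
          exact wg_trans (hA.iter_nz _ hζ0) h7 h6
    have h8 : ∀ᶠ a in 𝓝 x, ∀ i ∈ Set.Iio (i₀ + N₀), wg (A^[i] ζ) a ≠ 0 := by
      rw [eventually_all_finite (Set.finite_Iio _)]
      intro i _
      exact (continuous_wg_right _).continuousAt.eventually_ne (h ζ hζ i)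
    filter_upwards [h8] with a ha N hN haN i hi
    obtain ⟨i', hi', h9⟩ := h5 i
    apply ha i' hi'
    refine wg_trans (hA.iter_nz i hζ0) ?_ hi
    rw [wg_swap, h9, neg_zero]
  · push Not at hper
    have h1 : ∀ᶠ a in 𝓝 x, a ≠ 0 := continuousAt_id.eventually_ne hx
    filter_upwards [h1] with a ha N hN haN i
    exact hper a i N ha hN haN

/-! ### rescaling -/

theorem exists_rescale {g : ℂ × ℂ → ℝ} {d : ℕ} {A : ℂ × ℂ → ℂ × ℂ} (hD : Dyn g d A)
    {x b : ℂ × ℂ} (hxb : wg x b ≠ 0) (hJ : ¬ HarmAt (fun t => g (x + t • b)) 0) :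
    ∃ (n : ℕ → ℕ) (t : ℕ → ℂ) (r : ℕ → ℝ) (s : ℕ → ℂ → ℂ) (h : ℂ → ℂ × ℂ) (M : ℝ),
      (∀ j, 1 ≤ n j) ∧ (∀ j, 0 < r j) ∧ Tendsto t atTop (𝓝 0) ∧ Tendsto r atTop (𝓝 0) ∧
      (∀ j, DifferentiableOn ℂ (s j) (ball 0 1)) ∧ (∀ j z, s j z ≠ 0) ∧
      (∀ j, ∀ z ∈ ball (0 : ℂ) 1, ‖s j z • A^[n j] (x + (t j + r j * z) • b)‖ ≤ M) ∧
      DifferentiableOn ℂ h (ball 0 1) ∧ (∀ z ∈ ball (0 : ℂ) 1, h z ≠ 0) ∧
      (∀ z ∈ ball (0 : ℂ) 1, ‖h z‖ ≤ M) ∧
      TendstoLocallyUniformlyOn (fun j z => s j z • A^[n j] (x + (t j + r j * z) • b)) h atTop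
        (ball 0 1) ∧
      ∃ z ∈ ball (0 : ℂ) 1, ¬ HarmAt (fun z => g (h z)) z := by
  have hd2 : (2 : ℝ) ≤ d := by exact_mod_cast hD.two
  have hd1 : (1 : ℝ) < d := by linarith
  have hγ : ∀ t : ℂ, x + t • b ≠ 0 := by
    intro t ht
    apply hxb
    have : wg (x + t • b) b = wg x b := by
      rw [wg_add_left, wg_smul_left, wg_self, mul_zero, add_zero]
    rw [← this, ht, wg_zero_left]
  have hGc : ContinuousOn (fun t : ℂ => g (x + t • b)) (ball 0 1) :=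
    hD.pot.cont.comp (by fun_prop) fun t _ => hγ t
  have hεj : ∀ j : ℕ, (0 : ℝ) < 1 / ((j : ℝ) + 1) := fun j => by positivity
  choose t r m e ht hr0 hr1 hm0 hm1 hsub hed hem hbad using fun j : ℕ =>
    good_scale one_pos hGc hJ (hεj j)
  have hε1 : ∀ j : ℕ, 1 / ((j : ℝ) + 1) ≤ 1 := fun j => by
    rw [div_le_one (by positivity)]
    have : (0 : ℝ) ≤ j := by positivity
    linarith
  have hex : ∀ j, ∃ n : ℕ, 1 ≤ n ∧ 1 ≤ (d : ℝ) ^ n * m j ∧ (d : ℝ) ^ n * m j ≤ d := by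
    intro j
    have h1 : 1 ≤ 1 / m j := by
      rw [le_div_iff₀ (hm0 j), one_mul]
      exact (hm1 j).le.trans (hε1 j)
    obtain ⟨k, hk1, hk2⟩ := exists_nat_pow_near h1 hd1
    refine ⟨k + 1, by omega, ?_, ?_⟩
    · rw [div_lt_iff₀ (hm0 j)] at hk2
      exact hk2.le
    · rw [le_div_iff₀ (hm0 j)] at hk1
      calc (d : ℝ) ^ (k + 1) * m j = d * ((d : ℝ) ^ k * m j) := by ring
        _ ≤ d * 1 := by gcongr
        _ = d := mul_one _
  choose n hn1 hn2 hn3 using hex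
  obtain ⟨C, hC0, hC⟩ := hD.pot.bdd
  -- the rescaled maps
  set s : ℕ → ℂ → ℂ := fun j z => Complex.exp (-((d : ℂ) ^ (n j) * e j (t j + r j * z))) with hs
  set H : ℕ → ℂ → ℂ × ℂ := fun j z => s j z • A^[n j] (x + (t j + r j * z) • b) with hH
  have hmem : ∀ j, ∀ z ∈ ball (0 : ℂ) 1, t j + r j * z ∈ ball (t j) (r j) := by
    intro j z hz
    rw [mem_ball_zero_iff] at hz
    rw [mem_ball, dist_eq_norm, add_sub_cancel_left, norm_mul, Complex.norm_real,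
      Real.norm_eq_abs, abs_of_pos (hr0 j)]
    exact mul_lt_of_lt_one_right (hr0 j) hz
  have hs0 : ∀ j z, s j z ≠ 0 := fun j z => Complex.exp_ne_zero _
  have hsd : ∀ j, DifferentiableOn ℂ (s j) (ball 0 1) := by
    intro j
    have h1 : DifferentiableOn ℂ (fun z => e j (t j + r j * z)) (ball 0 1) :=
      (hed j).comp (by fun_prop) (hmem j)
    exact (h1.const_mul _).neg.cexp
  have hH0 : ∀ j z, H j z ≠ 0 := fun j z => smul_ne_zero (hs0 j z) (hD.lift.iter_nz _ (hγ _))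
  have hHd : ∀ j, DifferentiableOn ℂ (H j) (ball 0 1) := by
    intro j
    refine (hsd j).smul ?_
    exact (((hD.lift.iterate (n j)).differentiable).comp (f := fun z : ℂ => x + (t j + r j * z) • b)
      (by fun_prop)).differentiableOn
  have hgH : ∀ j z, g (H j z) =
      (d : ℝ) ^ (n j) * (g (x + (t j + r j * z) • b) - (e j (t j + r j * z)).re) := by
    intro j z
    simp only [hH]
    rw [hD.pot.smul _ _ (hs0 j z) (hD.lift.iter_nz _ (hγ _)), hD.iter_g _ (hγ _)]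
    simp only [hs]
    rw [Complex.norm_exp, Real.log_exp]
    rw [show ((d : ℂ) ^ (n j)) = (((d : ℝ) ^ (n j) : ℝ) : ℂ) by push_cast; rfl, Complex.neg_re,
      Complex.re_ofReal_mul]
    ring
  have hgHb : ∀ j, ∀ z ∈ ball (0 : ℂ) 1, |g (H j z)| ≤ d := by
    intro j z hz
    rw [hgH, abs_mul, abs_of_pos (by positivity : (0 : ℝ) < (d : ℝ) ^ (n j))]
    calc (d : ℝ) ^ (n j) * |g (x + (t j + r j * z) • b) - (e j (t j + r j * z)).re|
        ≤ (d : ℝ) ^ (n j) * m j := by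
          gcongr
          exact hem j _ (hmem j z hz)
      _ ≤ d := hn3 j
  have hHup : ∀ j, ∀ z ∈ ball (0 : ℂ) 1, ‖H j z‖ ≤ Real.exp (d + C) := by
    intro j z hz
    have h1 := (abs_le.1 (hC _ (hH0 j z))).1
    have h2 := (abs_le.1 (hgHb j z hz)).2
    have h3 : 0 < ‖H j z‖ := norm_pos_iff.2 (hH0 j z)
    rw [← Real.exp_log h3]
    exact Real.exp_le_exp.2 (by linarith)
  have hHlow : ∀ j, ∀ z ∈ ball (0 : ℂ) 1, Real.exp (-(d + C)) ≤ ‖H j z‖ := by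
    intro j z hz
    have h1 := (abs_le.1 (hC _ (hH0 j z))).2
    have h2 := (abs_le.1 (hgHb j z hz)).1
    have h3 : 0 < ‖H j z‖ := norm_pos_iff.2 (hH0 j z)
    rw [← Real.exp_log h3]
    exact Real.exp_le_exp.2 (by linarith)
  obtain ⟨φ, h, hφ, hhd, hlim⟩ := montel (F := H) one_pos hHd hHup
  have hhup : ∀ z ∈ ball (0 : ℂ) 1, ‖h z‖ ≤ Real.exp (d + C) := fun z hz =>
    le_of_tendsto' ((hlim.tendsto_at hz).norm) fun j => hHup _ z hz
  have hhlow : ∀ z ∈ ball (0 : ℂ) 1, Real.exp (-(d + C)) ≤ ‖h z‖ := fun z hz =>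
    ge_of_tendsto' ((hlim.tendsto_at hz).norm) fun j => hHlow _ z hz
  have hh0 : ∀ z ∈ ball (0 : ℂ) 1, h z ≠ 0 := fun z hz =>
    norm_pos_iff.1 ((Real.exp_pos _).trans_le (hhlow z hz))
  have ht0 : Tendsto t atTop (𝓝 0) :=
    squeeze_zero_norm (fun j => by simpa using (ht j).le) tendsto_one_div_add_atTop_nhds_zero_nat
  have hr00 : Tendsto r atTop (𝓝 0) :=
    squeeze_zero (fun j => (hr0 j).le) (fun j => (hr1 j).le) tendsto_one_div_add_atTop_nhds_zero_nat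
  refine ⟨n ∘ φ, t ∘ φ, r ∘ φ, s ∘ φ, h, Real.exp (d + C), fun j => hn1 _, fun j => hr0 _,
    ht0.comp hφ.tendsto_atTop, hr00.comp hφ.tendsto_atTop, fun j => hsd _, fun j z => hs0 _ _,
    fun j z hz => hHup _ z hz, hhd, hh0, hhup, hlim, ?_⟩
  by_contra hcon
  push Not at hcon
  obtain ⟨E, hEd, hE⟩ := HarmOn.exists_ball (u := fun z => g (h z)) (z := 0) (R := 1) hcon
  set K : Set (ℂ × ℂ) := {v | Real.exp (-(d + C)) ≤ ‖v‖ ∧ ‖v‖ ≤ Real.exp (d + C)} with hK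
  have hKc : IsCompact K := by
    refine (isCompact_closedBall (0 : ℂ × ℂ) (Real.exp (d + C))).of_isClosed_subset ?_ ?_
    · exact (isClosed_le continuous_const continuous_norm).inter
        (isClosed_le continuous_norm continuous_const)
    · intro v hv
      rw [mem_closedBall_zero_iff]
      exact hv.2
  have hKg : ContinuousOn g K := hD.pot.cont.mono fun v hv => by
    simp only [Set.mem_compl_iff, Set.mem_singleton_iff]
    exact norm_pos_iff.1 ((Real.exp_pos _).trans_le hv.1)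
  obtain ⟨δ, hδ, hunif⟩ := Metric.uniformContinuousOn_iff.1
    (hKc.uniformContinuousOn_of_continuous hKg) (1 / 40) (by norm_num)
  have hcb : closedBall (0 : ℂ) (1 / 2) ⊆ ball 0 1 := closedBall_subset_ball (by norm_num)
  have h1 := (tendstoLocallyUniformlyOn_iff_forall_isCompact isOpen_ball).1 hlim _ hcb
    (isCompact_closedBall _ _)
  obtain ⟨j, hj⟩ := (Metric.tendstoUniformlyOn_iff.1 h1 δ hδ).exists
  set k := φ j with hk
  have hclose : ∀ z ∈ ball (0 : ℂ) (1 / 2), |g (H k z) - (E z).re| < 1 / 40 := by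
    intro z hz
    have hz' : z ∈ closedBall (0 : ℂ) (1 / 2) := ball_subset_closedBall hz
    have hz1 := hcb hz'
    have h2 := hunif (h z) ⟨hhlow z hz1, hhup z hz1⟩ (H k z) ⟨hHlow k z hz1, hHup k z hz1⟩
      (hj z hz')
    rw [Real.dist_eq, abs_sub_comm] at h2
    rw [← hE z hz1]
    exact h2
  have hrk : (r k : ℂ) ≠ 0 := by exact_mod_cast (hr0 k).ne'
  have hback : ∀ y ∈ ball (t k) (r k / 2), (y - t k) / r k ∈ ball (0 : ℂ) (1 / 2) := by
    intro y hy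
    rw [mem_ball, dist_eq_norm] at hy
    rw [mem_ball_zero_iff, norm_div, Complex.norm_real, Real.norm_eq_abs, abs_of_pos (hr0 k),
      div_lt_iff₀ (hr0 k)]
    linarith
  have hb12 : ball (0 : ℂ) (1 / 2) ⊆ ball 0 1 := ball_subset_ball (by norm_num)
  obtain ⟨y, hy, hym⟩ := hbad k
    (fun y => e k y + (((d : ℝ) ^ (n k))⁻¹ : ℝ) * E ((y - t k) / r k)) (by
      refine ((hed k).mono (ball_subset_ball (by linarith [hr0 k]))).add ?_
      refine DifferentiableOn.const_mul ?_ _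
      exact hEd.comp (by fun_prop) fun y hy => hb12 (hback y hy))
  have h3 := hclose _ (hback y hy)
  rw [hgH] at h3
  have h4 : t k + (r k : ℂ) * ((y - t k) / r k) = y := by
    field_simp
    ring
  rw [h4] at h3
  have hDn : (0 : ℝ) < (d : ℝ) ^ (n k) := by positivity
  have h5 : g (x + y • b) - (e k y + (((d : ℝ) ^ (n k))⁻¹ : ℝ) * E ((y - t k) / r k)).re =
      ((d : ℝ) ^ (n k))⁻¹ * ((d : ℝ) ^ (n k) * (g (x + y • b) - (e k y).re) -
        (E ((y - t k) / r k)).re) := by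
    rw [Complex.add_re, Complex.re_ofReal_mul]
    field_simp
    ring
  rw [h5, abs_mul, abs_of_pos (inv_pos.2 hDn)] at hym
  have h6 : ((d : ℝ) ^ (n k))⁻¹ ≤ m k := by
    rw [inv_le_iff_one_le_mul₀ hDn, mul_comm]
    exact hn2 k
  have h7 : ((d : ℝ) ^ (n k))⁻¹ * |(d : ℝ) ^ (n k) * (g (x + y • b) - (e k y).re) -
        (E ((y - t k) / r k)).re| < ((d : ℝ) ^ (n k))⁻¹ * (1 / 40) :=
    mul_lt_mul_of_pos_left h3 (inv_pos.2 hDn)
  linarith

end Pool.Agent.Work.MP_78b16e_an
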