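import Pool.Agent.Work.MP_78b16e_an.LinB

/-! The group of translations preserving `u` modulo harmonic functions.  (owner: helper71) -/

set_option autoImplicit false

namespace Pool.Agent.Work.MP_78b16e_an

open Metric Filter Topology

variable {g : ℂ × ℂ → ℝ} {D : ℕ} {B : ℂ × ℂ → ℂ × ℂ} {lam : ℂ} {ψ : ℂ → ℂ × ℂ} {p : ℂ → ℂ}

theorem harmAt_zero (z : ℂ) : HarmAt (fun _ => 0) z := by
  have := harmAt_re (e := fun _ => (0 : ℂ)) (z := z) analyticAt_const
  simpa using this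

theorem Lin.D_ne (hL : Lin g D B lam ψ p) (n : ℕ) : (D : ℝ) ^ n ≠ 0 := by
  have := hL.dyn.two
  positivity

/-- `u = g ∘ ψ` is not harmonic at `0` -/
theorem Lin.not_harm' (hL : Lin g D B lam ψ p) : ¬ HarmAt (fun z => g (ψ z)) 0 := by
  intro h
  have hev := h.eventually
  -- harmonic everywhere
  have hall : HarmOn (fun z => g (ψ z)) Set.univ := by
    intro z _
    obtain ⟨n, hn⟩ := ((hL.tendsto_zero z).eventually hev).exists
    obtain ⟨e, he, hsc⟩ := hL.scale n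
    have hlin : AnalyticAt ℂ (fun y : ℂ => (lam ^ n)⁻¹ * y) z := by fun_prop
    have h1 : HarmAt (fun y => g (ψ ((lam ^ n)⁻¹ * y))) z :=
      HarmAt.comp (u := fun y => g (ψ y)) (h := fun y => (lam ^ n)⁻¹ * y) hn hlin
    have h2 : HarmAt (fun y => (e ((lam ^ n)⁻¹ * y)).re) z :=
      harmAt_re (e := fun y => e ((lam ^ n)⁻¹ * y))
        ((he.analyticAt _).comp hlin)
    refine ((h1.const_mul ((D : ℝ) ^ n)).add h2).congr (Eventually.of_forall fun y => ?_)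
    show (D : ℝ) ^ n * g (ψ ((lam ^ n)⁻¹ * y)) + (e ((lam ^ n)⁻¹ * y)).re = g (ψ y)
    rw [← hsc, ← mul_assoc, mul_inv_cancel₀ (pow_ne_zero n hL.lam_ne), one_mul]
  obtain ⟨e, he, hre⟩ := hall.exists_univ
  obtain ⟨C, hC0, hC⟩ := hL.dyn.pot.bdd
  set Φ : ℂ → ℂ × ℂ := fun z => Complex.exp (-e z) • ψ z with hΦ
  have hΦd : Differentiable ℂ Φ := (he.neg.cexp).smul hL.diff
  have hΦnz : ∀ z, Φ z ≠ 0 := fun z => smul_ne_zero (Complex.exp_ne_zero _) (hL.nz z)
  have hgΦ : ∀ z, g (Φ z) = 0 := by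
    intro z
    rw [hΦ]
    show g (Complex.exp (-e z) • ψ z) = 0
    rw [hL.dyn.pot.smul _ _ (Complex.exp_ne_zero _) (hL.nz z), Complex.norm_exp, Real.log_exp,
      Complex.neg_re, hre z]
    ring
  have hbd : Bornology.IsBounded (Set.range Φ) := by
    refine isBounded_iff_forall_norm_le.2 ⟨Real.exp C, ?_⟩
    rintro _ ⟨z, rfl⟩
    have h1 := hC _ (hΦnz z)
    rw [hgΦ, zero_sub, abs_neg] at h1
    have h2 : Real.log ‖Φ z‖ ≤ C := (le_abs_self _).trans h1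
    exact (Real.log_le_iff_le_exp (norm_pos_iff.2 (hΦnz z))).1 h2
  have hconst : ∀ z, Φ z = Φ 0 := fun z => hΦd.apply_eq_apply_of_bounded hbd z 0
  have hψ : ψ = fun z => Complex.exp (e z) • Φ 0 := by
    funext z
    rw [← hconst z]
    show ψ z = Complex.exp (e z) • Complex.exp (-e z) • ψ z
    rw [smul_smul, ← Complex.exp_add, add_neg_cancel, Complex.exp_zero, one_smul]
  apply hL.imm
  have := imm_smul (f := fun z => Complex.exp (e z)) (c := fun _ => Φ 0) (z := 0)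
    (he 0).cexp (differentiableAt_const _)
  rw [deriv_const, wg_zero_right, mul_zero] at this
  rw [hψ]
  exact this

/-! ### the group `TT` -/

theorem TT_zero (u : ℂ → ℝ) : (0 : ℂ) ∈ TT u := by
  intro z _
  refine (harmAt_zero z).congr (Eventually.of_forall fun y => ?_)
  simp

theorem harmAt_translate {u : ℂ → ℝ} {τ z : ℂ} (h : HarmAt u (z + τ)) :
    HarmAt (fun y => u (y + τ)) z :=
  HarmAt.comp (h := fun y => y + τ) h (by fun_prop)

theorem TT_add {u : ℂ → ℝ} {σ τ : ℂ} (hσ : σ ∈ TT u) (hτ : τ ∈ TT u) : σ + τ ∈ TT u := by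
  intro z _
  have h1 : HarmAt (fun y => u (y + σ + τ) - u (y + σ)) z :=
    harmAt_translate (u := fun y => u (y + τ) - u y) (hτ (z + σ) trivial)
  have h2 := hσ z trivial
  refine (h1.add h2).congr (Eventually.of_forall fun y => ?_)
  show u (y + σ + τ) - u (y + σ) + (u (y + σ) - u y) = u (y + (σ + τ)) - u y
  rw [add_assoc]; ring

theorem TT_neg {u : ℂ → ℝ} {σ : ℂ} (hσ : σ ∈ TT u) : -σ ∈ TT u := by
  intro z _
  have h1 : HarmAt (fun y => u (y + -σ + σ) - u (y + -σ)) z :=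
    harmAt_translate (u := fun y => u (y + σ) - u y) (hσ (z + -σ) trivial)
  refine h1.neg.congr (Eventually.of_forall fun y => ?_)
  show -(u (y + -σ + σ) - u (y + -σ)) = u (y + -σ) - u y
  rw [neg_add_cancel_right]; ring

theorem TT_nsmul {u : ℂ → ℝ} {σ : ℂ} (hσ : σ ∈ TT u) (n : ℕ) : (n : ℂ) * σ ∈ TT u := by
  induction n with
  | zero => simpa using TT_zero u
  | succ n ih =>
    have := TT_add ih hσ
    push_cast
    rwa [add_mul, one_mul]

theorem TT_zsmul {u : ℂ → ℝ} {σ : ℂ} (hσ : σ ∈ TT u) (n : ℤ) : (n : ℂ) * σ ∈ TT u := by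
  rcases Int.eq_nat_or_neg n with ⟨m, rfl | rfl⟩
  · simpa using TT_nsmul hσ m
  · have := TT_neg (TT_nsmul hσ m)
    push_cast
    rwa [neg_mul]

theorem TT_lam (hL : Lin g D B lam ψ p) {σ : ℂ} (hσ : σ ∈ TT (fun z => g (ψ z))) (n : ℕ) :
    lam ^ n * σ ∈ TT (fun z => g (ψ z)) := by
  obtain ⟨e, he, hsc⟩ := hL.scale n
  have hl := pow_ne_zero n hL.lam_ne
  intro z _
  have hlin : AnalyticAt ℂ (fun y : ℂ => (lam ^ n)⁻¹ * y) z := by fun_prop
  have hlin2 : AnalyticAt ℂ (fun y : ℂ => (lam ^ n)⁻¹ * y + σ) z := by fun_prop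
  have h1 : HarmAt (fun y => g (ψ ((lam ^ n)⁻¹ * y + σ)) - g (ψ ((lam ^ n)⁻¹ * y))) z :=
    HarmAt.comp (u := fun y => g (ψ (y + σ)) - g (ψ y)) (h := fun y => (lam ^ n)⁻¹ * y)
      (hσ _ trivial) hlin
  have h2 : HarmAt (fun y => (e ((lam ^ n)⁻¹ * y)).re) z :=
    harmAt_re (e := fun y => e ((lam ^ n)⁻¹ * y)) ((he.analyticAt _).comp hlin)
  have h3 : HarmAt (fun y => (e ((lam ^ n)⁻¹ * y + σ)).re) z :=
    harmAt_re (e := fun y => e ((lam ^ n)⁻¹ * y + σ)) ((he.analyticAt _).comp hlin2)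
  refine ((h1.const_mul ((D : ℝ) ^ n)).add (h3.sub h2)).congr
    (Eventually.of_forall fun y => ?_)
  have e1 : y + lam ^ n * σ = lam ^ n * ((lam ^ n)⁻¹ * y + σ) := by
    rw [mul_add, ← mul_assoc, mul_inv_cancel₀ hl, one_mul]
  have e2 : g (ψ y) = (D : ℝ) ^ n * g (ψ ((lam ^ n)⁻¹ * y)) + (e ((lam ^ n)⁻¹ * y)).re := by
    rw [← hsc, ← mul_assoc, mul_inv_cancel₀ hl, one_mul]
  show (D : ℝ) ^ n * (g (ψ ((lam ^ n)⁻¹ * y + σ)) - g (ψ ((lam ^ n)⁻¹ * y))) +
    ((e ((lam ^ n)⁻¹ * y + σ)).re - (e ((lam ^ n)⁻¹ * y)).re) =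
    g (ψ (y + lam ^ n * σ)) - g (ψ y)
  rw [e1, hsc, e2]
  ring

theorem TT_lam_inv (hL : Lin g D B lam ψ p) {σ : ℂ} (hσ : σ ∈ TT (fun z => g (ψ z))) (n : ℕ) :
    (lam ^ n)⁻¹ * σ ∈ TT (fun z => g (ψ z)) := by
  obtain ⟨e, he, hsc⟩ := hL.scale n
  have hl := pow_ne_zero n hL.lam_ne
  intro z _
  have hlin : AnalyticAt ℂ (fun y : ℂ => lam ^ n * y) z := by fun_prop
  have hlin2 : AnalyticAt ℂ (fun y : ℂ => y + (lam ^ n)⁻¹ * σ) z := by fun_prop
  have h1 : HarmAt (fun y => g (ψ (lam ^ n * y + σ)) - g (ψ (lam ^ n * y))) z :=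
    HarmAt.comp (u := fun y => g (ψ (y + σ)) - g (ψ y)) (h := fun y => lam ^ n * y)
      (hσ _ trivial) hlin
  have h2 : HarmAt (fun y => (e y).re) z := harmAt_re (he.analyticAt _)
  have h3 : HarmAt (fun y => (e (y + (lam ^ n)⁻¹ * σ)).re) z :=
    harmAt_re (e := fun y => e (y + (lam ^ n)⁻¹ * σ)) ((he.analyticAt _).comp hlin2)
  refine ((h1.sub (h3.sub h2)).const_mul ((D : ℝ) ^ n)⁻¹).congr
    (Eventually.of_forall fun y => ?_)
  have e1 : lam ^ n * y + σ = lam ^ n * (y + (lam ^ n)⁻¹ * σ) := by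
    rw [mul_add, ← mul_assoc, mul_inv_cancel₀ hl, one_mul]
  show ((D : ℝ) ^ n)⁻¹ * (g (ψ (lam ^ n * y + σ)) - g (ψ (lam ^ n * y)) -
    ((e (y + (lam ^ n)⁻¹ * σ)).re - (e y).re)) = g (ψ (y + (lam ^ n)⁻¹ * σ)) - g (ψ y)
  rw [e1, hsc, hsc]
  have := hL.D_ne n
  field_simp
  ring

/-- a continuous `u`: translates converge locally uniformly -/
theorem translate_tendsto {u : ℂ → ℝ} (hu : Continuous u) {s : ℕ → ℂ} {σ : ℂ}
    (hs : Tendsto s atTop (𝓝 σ)) :
    TendstoLocallyUniformly (fun n z => u (z + s n)) (fun z => u (z + σ)) atTop := by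
  rw [Metric.tendstoLocallyUniformly_iff]
  intro ε hε z
  have hc : Continuous (fun q : ℂ × ℂ => u (q.1 + q.2)) := hu.comp (continuous_fst.add continuous_snd)
  have h1 : ∀ᶠ q : ℂ × ℂ in 𝓝 (z, σ), dist (u (q.1 + q.2)) (u (z + σ)) < ε / 2 :=
    (Metric.tendsto_nhds.1 (hc.tendsto (z, σ))) (ε / 2) (half_pos hε)
  rw [nhds_prod_eq] at h1
  obtain ⟨pa, hpa, pb, hpb, h2⟩ := Filter.eventually_prod_iff.1 h1
  refine ⟨{y | pa y}, hpa, ?_⟩
  filter_upwards [hs.eventually hpb] with n hn y hy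
  have a1 := h2 hy hn
  have a2 := h2 hy hpb.self_of_nhds
  calc dist (u (y + σ)) (u (y + s n)) ≤ dist (u (y + σ)) (u (z + σ)) +
        dist (u (y + s n)) (u (z + σ)) := dist_triangle_right _ _ _
    _ < ε := by linarith

theorem TT_closed {u : ℂ → ℝ} (hu : Continuous u) {s : ℕ → ℂ} {σ : ℂ}
    (hs : Tendsto s atTop (𝓝 σ)) (h : ∀ n, s n ∈ TT u) : σ ∈ TT u := by
  refine harmOn_of_tendsto (u := fun n z => u (z + s n) - u z) isOpen_univ
    (Eventually.of_forall h) ?_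
  rw [tendstoLocallyUniformlyOn_univ]
  have h1 := translate_tendsto hu hs
  rw [Metric.tendstoLocallyUniformly_iff] at h1 ⊢
  intro ε hε z
  obtain ⟨t, ht, h2⟩ := h1 ε hε z
  refine ⟨t, ht, ?_⟩
  filter_upwards [h2] with n hn y hy
  have := hn y hy
  rw [Real.dist_eq] at this ⊢
  rwa [sub_sub_sub_cancel_right]

/-- real multiples of limits -/
theorem TT_real {u : ℂ → ℝ} (hu : Continuous u) {μ : ℕ → ℝ} (hμ : Tendsto (fun n => |μ n|) atTop atTop)
    {v : ℕ → ℂ} (hv : ∀ n, v n ∈ TT u) {w : ℂ}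
    (hw : Tendsto (fun n => (μ n : ℂ) * v n) atTop (𝓝 w)) (t : ℝ) : (t : ℂ) * w ∈ TT u := by
  refine TT_closed hu (s := fun n => ((⌊t * μ n⌋ : ℤ) : ℂ) * v n) ?_ (fun n => TT_zsmul (hv n) _)
  have h1 : Tendsto (fun n => (t : ℂ) * ((μ n : ℂ) * v n)) atTop (𝓝 ((t : ℂ) * w)) :=
    hw.const_mul _
  -- v n → 0
  have h2 : Tendsto (fun n => ‖v n‖) atTop (𝓝 0) := by
    have h3 : Tendsto (fun n => ‖(μ n : ℂ) * v n‖ * |μ n|⁻¹) atTop (𝓝 (‖w‖ * 0)) :=
      hw.norm.mul (tendsto_inv_atTop_zero.comp hμ)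
    rw [mul_zero] at h3
    refine h3.congr' ?_
    filter_upwards [hμ.eventually_gt_atTop 0] with n hn
    rw [norm_mul, Complex.norm_real, Real.norm_eq_abs]
    field_simp
  have h4 : Tendsto (fun n => (((⌊t * μ n⌋ : ℤ) : ℂ) - (t * μ n : ℝ)) * v n) atTop (𝓝 0) := by
    rw [tendsto_zero_iff_norm_tendsto_zero]
    refine squeeze_zero (fun n => norm_nonneg _) (fun n => ?_) h2
    rw [norm_mul]
    have h5 : ‖((⌊t * μ n⌋ : ℤ) : ℂ) - (t * μ n : ℝ)‖ ≤ 1 := by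
      have : ((⌊t * μ n⌋ : ℤ) : ℂ) - ((t * μ n : ℝ) : ℂ) =
          (((⌊t * μ n⌋ : ℤ) - t * μ n : ℝ) : ℂ) := by push_cast; rfl
      rw [this, Complex.norm_real, Real.norm_eq_abs, abs_le]
      constructor
      · linarith [Int.lt_floor_add_one (t * μ n)]
      · linarith [Int.floor_le (t * μ n)]
    calc _ ≤ 1 * ‖v n‖ := by gcongr
      _ = ‖v n‖ := one_mul _
  have h6 := h1.add h4
  rw [add_zero] at h6
  refine h6.congr fun n => ?_
  push_cast
  ring

theorem Lin.pow_atTop (hL : Lin g D B lam ψ p) : Tendsto (fun n : ℕ => ‖lam‖ ^ n) atTop atTop :=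
  tendsto_pow_atTop_atTop_of_one_lt hL.one

theorem TT_line' (hL : Lin g D B lam ψ p) {τ : ℂ} (hτ : τ ≠ 0)
    (h : τ ∈ TT (fun z => g (ψ z))) :
    ∃ c : ℂ, c ≠ 0 ∧ (∀ t : ℝ, (t : ℂ) * c ∈ TT (fun z => g (ψ z))) ∧
      (TT (fun z => g (ψ z)) = Set.univ ∨
        ∀ σ ∈ TT (fun z => g (ψ z)), ∃ t : ℝ, σ = (t : ℂ) * c) := by
  have hl := hL.lam_ne
  have hln : ‖lam‖ ≠ 0 := norm_ne_zero_iff.2 hl
  have hu := hL.continuous
  -- the direction `c`
  have hbd : ∀ n : ℕ, ((‖lam‖ ^ n : ℝ) : ℂ) * ((lam ^ n)⁻¹ * τ) ∈ closedBall (0 : ℂ) ‖τ‖ := by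
    intro n
    rw [mem_closedBall_zero_iff, norm_mul, norm_mul, norm_inv, norm_pow, Complex.norm_real,
      Real.norm_eq_abs, abs_of_nonneg (by positivity), ← mul_assoc, mul_inv_cancel₀
      (pow_ne_zero n hln), one_mul]
  obtain ⟨c, -, φ, hφ, hc⟩ := (isCompact_closedBall (0 : ℂ) ‖τ‖).tendsto_subseq hbd
  have hcn : ‖c‖ = ‖τ‖ := by
    refine tendsto_nhds_unique hc.norm ?_
    refine tendsto_const_nhds.congr fun n => ?_
    show ‖τ‖ = ‖((‖lam‖ ^ (φ n) : ℝ) : ℂ) * ((lam ^ (φ n))⁻¹ * τ)‖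
    rw [norm_mul, norm_mul, norm_inv, norm_pow, Complex.norm_real,
      Real.norm_eq_abs, abs_of_nonneg (by positivity), ← mul_assoc, mul_inv_cancel₀
      (pow_ne_zero _ hln), one_mul]
  have hc0 : c ≠ 0 := by
    rw [← norm_ne_zero_iff, hcn]; exact norm_ne_zero_iff.2 hτ
  have hline : ∀ t : ℝ, (t : ℂ) * c ∈ TT (fun z => g (ψ z)) := by
    intro t
    refine TT_real hu (μ := fun n => ‖lam‖ ^ (φ n)) ?_ (v := fun n => (lam ^ (φ n))⁻¹ * τ)
      (fun n => TT_lam_inv hL h _) hc t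
    have : Tendsto (fun n : ℕ => ‖lam‖ ^ (φ n)) atTop atTop :=
      hL.pow_atTop.comp hφ.tendsto_atTop
    refine this.congr fun n => ?_
    rw [abs_of_nonneg (by positivity)]
  refine ⟨c, hc0, hline, ?_⟩
  by_cases hall : ∀ σ ∈ TT (fun z => g (ψ z)), ∃ t : ℝ, σ = (t : ℂ) * c
  · exact Or.inr hall
  left
  push Not at hall
  obtain ⟨σ, hσ, hσc⟩ := hall
  -- it is enough to find a second direction
  have key : ∀ w : ℂ, (∀ t : ℝ, (t : ℂ) * w ∈ TT (fun z => g (ψ z))) → (w / c).im ≠ 0 →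
      TT (fun z => g (ψ z)) = Set.univ := by
    intro w hw him
    refine Set.eq_univ_of_forall fun z => ?_
    -- z = a c + b w
    set b : ℝ := (z / c).im / (w / c).im with hb
    set a : ℝ := (z / c).re - b * (w / c).re with ha
    have : z / c = (a : ℂ) + (b : ℂ) * (w / c) := by
      apply Complex.ext
      · rw [Complex.add_re, Complex.ofReal_re, Complex.re_ofReal_mul, ha]; ring
      · rw [Complex.add_im, Complex.ofReal_im, Complex.im_ofReal_mul, hb]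
        field_simp
        ring
    have hz : z = (a : ℂ) * c + (b : ℂ) * w := by
      field_simp at this
      rw [this]; ring
    rw [hz]
    exact TT_add (hline a) (hw b)
  by_cases hreal : lam.im = 0
  · -- `lam` real
    have hlr : lam = ((lam.re : ℝ) : ℂ) := by
      apply Complex.ext <;> simp [hreal]
    have hσim : (σ / c).im ≠ 0 := by
      intro h0
      refine hσc (σ / c).re ?_
      have : σ / c = (((σ / c).re : ℝ) : ℂ) := by
        apply Complex.ext <;> simp [h0]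
      rw [← this]
      field_simp
    -- w = σ - (re) c
    set w : ℂ := σ - (((σ / c).re : ℝ) : ℂ) * c with hw
    have hwT : w ∈ TT (fun z => g (ψ z)) := by
      have := TT_add hσ (TT_neg (hline (σ / c).re))
      rwa [← sub_eq_add_neg] at this
    refine key w (fun t => ?_) ?_
    · refine TT_real hu (μ := fun n => lam.re ^ n) ?_ (v := fun n => (lam ^ n)⁻¹ * w)
        (fun n => TT_lam_inv hL hwT _) ?_ t
      · refine hL.pow_atTop.congr fun n => ?_
        rw [abs_pow]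
        congr 1
        rw [hlr, Complex.norm_real, Real.norm_eq_abs]
        simp
      · refine tendsto_const_nhds.congr fun n => ?_
        have : ((lam.re ^ n : ℝ) : ℂ) = lam ^ n := by
          conv_rhs => rw [hlr]
          push_cast; rfl
        rw [this, ← mul_assoc, mul_inv_cancel₀ (pow_ne_zero n hl), one_mul]
    · rw [hw, sub_div, mul_div_assoc, div_self hc0, mul_one, Complex.sub_im, Complex.ofReal_im,
        sub_zero]
      exact hσim
  · refine key (lam * c) (fun t => ?_) ?_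
    · have := TT_lam hL (hline t) 1
      rw [pow_one] at this
      rwa [mul_left_comm]
    · rw [mul_div_assoc, div_self hc0, mul_one]
      exact hreal

end Pool.Agent.Work.MP_78b16e_an
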