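import Pool.Agent.Work.MP_78b16e_an.TransA

/-! Zooming local symmetries at the repelling fixed point.  (owner: helper71) -/

set_option autoImplicit false

namespace Pool.Agent.Work.MP_78b16e_an

open Metric Filter Topology

variable {g : ℂ × ℂ → ℝ} {D : ℕ} {B : ℂ × ℂ → ℂ × ℂ} {lam : ℂ} {ψ : ℂ → ℂ × ℂ} {p : ℂ → ℂ}

/-- transporting a symmetry by the scaling -/
theorem Lin.scale_harm (hL : Lin g D B lam ψ p) {κ : ℂ → ℂ} {ρ : ℝ} (n : ℕ) {z : ℂ}
    (hκ : AnalyticAt ℂ κ ((lam ^ n)⁻¹ * z))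
    (hh : HarmAt (fun y => g (ψ (κ y)) - ρ * g (ψ y)) ((lam ^ n)⁻¹ * z)) :
    HarmAt (fun y => g (ψ (lam ^ n * κ ((lam ^ n)⁻¹ * y))) - ρ * g (ψ y)) z := by
  have hl := hL.lam_ne
  obtain ⟨e, he, hsc⟩ := hL.scale n
  have hlin : AnalyticAt ℂ (fun y : ℂ => (lam ^ n)⁻¹ * y) z := by fun_prop
  have h1 : HarmAt (fun y => g (ψ (κ ((lam ^ n)⁻¹ * y))) -
      ρ * g (ψ ((lam ^ n)⁻¹ * y))) z :=
    HarmAt.comp (u := fun y => g (ψ (κ y)) - ρ * g (ψ y))
      (h := fun y => (lam ^ n)⁻¹ * y) hh hlin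
  have h2 : HarmAt (fun y => (e (κ ((lam ^ n)⁻¹ * y))).re) z := by
    have : AnalyticAt ℂ (fun y => e (κ ((lam ^ n)⁻¹ * y))) z := by
      have h3 : AnalyticAt ℂ (fun y => κ ((lam ^ n)⁻¹ * y)) z := hκ.comp hlin
      exact AnalyticAt.comp (g := e) (f := fun y => κ ((lam ^ n)⁻¹ * y))
        (he.analyticAt _) h3
    exact harmAt_re this
  have h3 : HarmAt (fun y => (e ((lam ^ n)⁻¹ * y)).re) z :=
    harmAt_re (e := fun y => e ((lam ^ n)⁻¹ * y)) ((he.analyticAt _).comp hlin)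
  refine (((h1.const_mul ((D : ℝ) ^ n)).add h2).sub (h3.const_mul ρ)).congr
    (Eventually.of_forall fun y => ?_)
  have e1 : g (ψ y) = (D : ℝ) ^ n * g (ψ ((lam ^ n)⁻¹ * y)) +
      (e ((lam ^ n)⁻¹ * y)).re := by
    rw [← hsc, ← mul_assoc, mul_inv_cancel₀ (pow_ne_zero _ hl), one_mul]
  show (D : ℝ) ^ n * (g (ψ (κ ((lam ^ n)⁻¹ * y))) - ρ * g (ψ ((lam ^ n)⁻¹ * y))) +
    (e (κ ((lam ^ n)⁻¹ * y))).re - ρ * (e ((lam ^ n)⁻¹ * y)).re =
    g (ψ (lam ^ n * κ ((lam ^ n)⁻¹ * y))) - ρ * g (ψ y)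
  rw [hsc, e1]
  ring

/-- general zoom: if `lam ^ N_j • κ_j (lam ^ (- N_j) • )` converges locally uniformly to `K` then
`u ∘ K - u` is harmonic -/
theorem zoom (hL : Lin g D B lam ψ p) {δ : ℝ} (hδ : 0 < δ) {κ : ℕ → ℂ → ℂ}
    {ρ : ℕ → ℝ} {N : ℕ → ℕ} {K : ℂ → ℂ} (hK : Continuous K)
    (hd : ∀ j, DifferentiableOn ℂ (κ j) (ball 0 δ))
    (hh : ∀ j, HarmOn (fun z => g (ψ (κ j z)) - ρ j * g (ψ z)) (ball 0 δ))
    (hρ : Tendsto ρ atTop (𝓝 1)) (hN : Tendsto N atTop atTop)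
    (hconv : ∀ R > 0, ∀ ε > 0, ∀ᶠ j in atTop, ∀ z ∈ ball (0 : ℂ) R,
      ‖lam ^ N j * κ j ((lam ^ N j)⁻¹ * z) - K z‖ < ε) :
    HarmOn (fun z => g (ψ (K z)) - g (ψ z)) Set.univ := by
  intro z₀ _
  set R := ‖z₀‖ + 1 with hR
  have hRpos : 0 < R := by positivity
  have hz₀ : z₀ ∈ ball (0 : ℂ) R := by rw [mem_ball_zero_iff]; linarith
  have hu := hL.continuous
  have hl := hL.lam_ne
  have hlN : Tendsto (fun j => ‖lam‖ ^ N j) atTop atTop := hL.pow_atTop.comp hN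
  refine harmOn_of_tendsto (U := ball 0 R)
    (u := fun j z => g (ψ (lam ^ N j * κ j ((lam ^ N j)⁻¹ * z))) - ρ j * g (ψ z))
    isOpen_ball ?_ ?_ z₀ hz₀
  · -- harmonicity for large `j`
    filter_upwards [hlN.eventually_gt_atTop (R / δ)] with j hj z hz
    have hin : ∀ y ∈ ball (0 : ℂ) R, (lam ^ N j)⁻¹ * y ∈ ball (0 : ℂ) δ := by
      intro y hy
      rw [mem_ball_zero_iff] at hy ⊢
      rw [norm_mul, norm_inv, norm_pow]
      have hpos : 0 < ‖lam‖ ^ N j := by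
        have := hL.one
        positivity
      rw [inv_mul_lt_iff₀ hpos]
      rw [div_lt_iff₀ hδ] at hj
      linarith
    exact hL.scale_harm (N j) ((hd j).analyticAt (isOpen_ball.mem_nhds (hin z hz)))
      (hh j _ (hin z hz))
  · -- convergence
    apply TendstoUniformlyOn.tendstoLocallyUniformlyOn
    rw [Metric.tendstoUniformlyOn_iff]
    intro ε hε
    -- bound of K on the ball
    obtain ⟨M, hM⟩ := ((isCompact_closedBall (0 : ℂ) R).exists_bound_of_continuousOn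
      hK.continuousOn)
    have hM0 : 0 ≤ M := (norm_nonneg _).trans (hM 0 (by simp [hRpos.le]))
    obtain ⟨C, hC⟩ := ((isCompact_closedBall (0 : ℂ) R).exists_bound_of_continuousOn
      hu.continuousOn)
    have hC0 : 0 ≤ C := (norm_nonneg _).trans (hC 0 (by simp [hRpos.le]))
    have huc : UniformContinuousOn (fun z => g (ψ z)) (closedBall (0 : ℂ) (M + 1)) :=
      (isCompact_closedBall _ _).uniformContinuousOn_of_continuous hu.continuousOn
    rw [Metric.uniformContinuousOn_iff] at huc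
    obtain ⟨η, hη, huc⟩ := huc (ε / 2) (half_pos hε)
    have hρ' : ∀ᶠ j in atTop, |ρ j - 1| < ε / 2 / (C + 1) := by
      have := Metric.tendsto_nhds.1 hρ (ε / 2 / (C + 1)) (by positivity)
      simpa [Real.dist_eq] using this
    filter_upwards [hconv R hRpos (min η 1) (lt_min hη one_pos), hρ'] with j hj hρj z hz
    have hjz := hj z hz
    have hKz : ‖K z‖ ≤ M := hM z (ball_subset_closedBall hz)
    have hb1 : K z ∈ closedBall (0 : ℂ) (M + 1) := by
      rw [mem_closedBall_zero_iff]; linarith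
    have hb2 : lam ^ N j * κ j ((lam ^ N j)⁻¹ * z) ∈ closedBall (0 : ℂ) (M + 1) := by
      rw [mem_closedBall_zero_iff]
      have h1 : ‖lam ^ N j * κ j ((lam ^ N j)⁻¹ * z)‖ ≤
          ‖lam ^ N j * κ j ((lam ^ N j)⁻¹ * z) - K z‖ + ‖K z‖ := by
        simpa using norm_add_le (lam ^ N j * κ j ((lam ^ N j)⁻¹ * z) - K z) (K z)
      have h2 := hjz.trans_le (min_le_right _ _)
      linarith
    have h3 := huc _ hb2 _ hb1 (by
      rw [dist_eq_norm]; exact hjz.trans_le (min_le_left _ _))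
    rw [Real.dist_eq] at h3 ⊢
    have h4 : |(1 - ρ j) * g (ψ z)| ≤ ε / 2 := by
      rw [abs_mul, abs_sub_comm]
      have h5 : |g (ψ z)| ≤ C := hC z (ball_subset_closedBall hz)
      calc |ρ j - 1| * |g (ψ z)| ≤ (ε / 2 / (C + 1)) * (C + 1) := by
            gcongr
            linarith
        _ = ε / 2 := by field_simp
    have h6 : g (ψ (K z)) - g (ψ z) -
        (g (ψ (lam ^ N j * κ j ((lam ^ N j)⁻¹ * z))) - ρ j * g (ψ z)) =
        -(g (ψ (lam ^ N j * κ j ((lam ^ N j)⁻¹ * z))) - g (ψ (K z))) -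
          (1 - ρ j) * g (ψ z) := by ring
    rw [h6]
    calc |-(g (ψ (lam ^ N j * κ j ((lam ^ N j)⁻¹ * z))) - g (ψ (K z))) -
          (1 - ρ j) * g (ψ z)| ≤
          |-(g (ψ (lam ^ N j * κ j ((lam ^ N j)⁻¹ * z))) - g (ψ (K z)))| +
          |(1 - ρ j) * g (ψ z)| := abs_sub _ _
      _ < ε := by rw [abs_neg]; linarith

/-- Schwarz lemma for maps close to the identity -/
theorem near_id {κ : ℂ → ℂ} {q : ℂ} {δ m : ℝ} (hδ : 0 < δ)
    (hd : DifferentiableOn ℂ κ (ball q δ)) (h : ∀ z ∈ ball q δ, ‖κ z - z‖ < m) {z : ℂ}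
    (hz : z ∈ ball q δ) : ‖(κ z - z) - (κ q - q)‖ ≤ 2 * m / δ * ‖z - q‖ := by
  have h1 : DifferentiableOn ℂ (fun z => κ z - z) (ball q δ) := hd.sub differentiableOn_id
  have hq : q ∈ ball q δ := mem_ball_self hδ
  have h2 : Set.MapsTo (fun z => κ z - z) (ball q δ) (ball (κ q - q) (2 * m)) := by
    intro y hy
    rw [mem_ball, dist_eq_norm]
    calc ‖κ y - y - (κ q - q)‖ ≤ ‖κ y - y‖ + ‖κ q - q‖ := norm_sub_le _ _
      _ < 2 * m := by linarith [h y hy, h q hq]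
  have h3 := Complex.dist_le_div_mul_dist_of_mapsTo_ball (f := fun z => κ z - z) h1
    (fun y hy => ball_subset_closedBall (h2 hy)) hz
  rwa [dist_eq_norm, dist_eq_norm] at h3

/-- zoom lemma at `0`: the limit of `lam ^ N_j * κ_j 0` is a translation in `TT` -/
theorem zoom_translation (hL : Lin g D B lam ψ p) {δ : ℝ} (hδ : 0 < δ) {κ : ℕ → ℂ → ℂ}
    {ρ : ℕ → ℝ} {N : ℕ → ℕ} {σ : ℂ}
    (hd : ∀ j, DifferentiableOn ℂ (κ j) (ball 0 δ))
    (hid : ∀ ε > 0, ∀ᶠ j in atTop, ∀ z ∈ ball (0 : ℂ) δ, ‖κ j z - z‖ < ε)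
    (hh : ∀ j, HarmOn (fun z => g (ψ (κ j z)) - ρ j * g (ψ z)) (ball 0 δ))
    (hρ : Tendsto ρ atTop (𝓝 1)) (hN : Tendsto N atTop atTop)
    (hσ : Tendsto (fun j => lam ^ N j * κ j 0) atTop (𝓝 σ)) :
    σ ∈ TT (fun z => g (ψ z)) := by
  have hl := hL.lam_ne
  have hlN : Tendsto (fun j => ‖lam‖ ^ N j) atTop atTop := hL.pow_atTop.comp hN
  refine zoom hL hδ (K := fun z => z + σ) (continuous_id.add continuous_const) hd hh hρ hN ?_
  intro R hR ε hε
  have h1 : ∀ᶠ j in atTop, ‖lam ^ N j * κ j 0 - σ‖ < ε / 2 := by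
    have := Metric.tendsto_nhds.1 hσ (ε / 2) (half_pos hε)
    simpa [dist_eq_norm] using this
  have hm : 0 < ε * δ / (8 * R) := by positivity
  filter_upwards [h1, hid _ hm, hlN.eventually_gt_atTop (R / δ)] with j hj hidj hNj z hz
  rw [mem_ball_zero_iff] at hz
  have hpos : 0 < ‖lam‖ ^ N j := by
    have := hL.one
    positivity
  have hyn : ‖(lam ^ N j)⁻¹ * z‖ = ‖z‖ / ‖lam‖ ^ N j := by
    rw [norm_mul, norm_inv, norm_pow, div_eq_inv_mul]
  have hin : (lam ^ N j)⁻¹ * z ∈ ball (0 : ℂ) δ := by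
    rw [mem_ball_zero_iff, hyn, div_lt_iff₀ hpos]
    rw [div_lt_iff₀ hδ] at hNj
    linarith
  have h2 := near_id hδ (hd j) hidj hin
  rw [sub_zero, sub_zero, hyn] at h2
  have h3 : lam ^ N j * κ j ((lam ^ N j)⁻¹ * z) - (z + σ) =
      lam ^ N j * ((κ j ((lam ^ N j)⁻¹ * z) - (lam ^ N j)⁻¹ * z) - κ j 0) +
      (lam ^ N j * κ j 0 - σ) := by
    have : lam ^ N j * ((lam ^ N j)⁻¹ * z) = z := by
      rw [← mul_assoc, mul_inv_cancel₀ (pow_ne_zero _ hl), one_mul]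
    rw [mul_sub, mul_sub, this]
    ring
  show ‖lam ^ N j * κ j ((lam ^ N j)⁻¹ * z) - (z + σ)‖ < ε
  rw [h3]
  calc ‖lam ^ N j * ((κ j ((lam ^ N j)⁻¹ * z) - (lam ^ N j)⁻¹ * z) - κ j 0) +
      (lam ^ N j * κ j 0 - σ)‖ ≤
      ‖lam ^ N j * ((κ j ((lam ^ N j)⁻¹ * z) - (lam ^ N j)⁻¹ * z) - κ j 0)‖ +
      ‖lam ^ N j * κ j 0 - σ‖ := norm_add_le _ _
    _ ≤ ‖lam‖ ^ N j * (2 * (ε * δ / (8 * R)) / δ * (‖z‖ / ‖lam‖ ^ N j)) +
      ‖lam ^ N j * κ j 0 - σ‖ := by
        rw [norm_mul, norm_pow]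
        gcongr
    _ = ε * ‖z‖ / (4 * R) + ‖lam ^ N j * κ j 0 - σ‖ := by
        congr 1
        field_simp
        ring
    _ < ε := by
        have h4 : ε * ‖z‖ / (4 * R) ≤ ε / 4 := by
          rw [div_le_div_iff₀ (by positivity) (by norm_num)]
          nlinarith
        linarith

/-- a sequence of symmetries close to the identity and moving `0` gives a translation -/
theorem exists_translation (hL : Lin g D B lam ψ p) {δ : ℝ} (hδ : 0 < δ) {κ : ℕ → ℂ → ℂ}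
    {ρ : ℕ → ℝ} (hd : ∀ j, DifferentiableOn ℂ (κ j) (ball 0 δ))
    (hid : ∀ ε > 0, ∀ᶠ j in atTop, ∀ z ∈ ball (0 : ℂ) δ, ‖κ j z - z‖ < ε)
    (hh : ∀ j, HarmOn (fun z => g (ψ (κ j z)) - ρ j * g (ψ z)) (ball 0 δ))
    (hρ : Tendsto ρ atTop (𝓝 1)) (hmove : ∀ j, κ j 0 ≠ 0) :
    ∃ τ, τ ≠ 0 ∧ τ ∈ TT (fun z => g (ψ z)) := by
  have hone := hL.one
  -- pass to a tail where `κ j 0` is small
  have h0 : Tendsto (fun j => κ j 0) atTop (𝓝 0) := by
    rw [Metric.tendsto_nhds]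
    intro ε hε
    filter_upwards [hid ε hε] with j hj
    have := hj 0 (mem_ball_self hδ)
    rwa [sub_zero, ← dist_zero_right] at this
  obtain ⟨J, hJ⟩ := eventually_atTop.1 (Metric.tendsto_nhds.1 h0 1 one_pos)
  -- exponents
  have hex : ∀ j, ∃ N : ℕ, 1 ≤ ‖lam‖ ^ N * ‖κ (j + J) 0‖ ∧
      ‖lam‖ ^ N * ‖κ (j + J) 0‖ ≤ ‖lam‖ := by
    intro j
    have hpos : 0 < ‖κ (j + J) 0‖ := norm_pos_iff.2 (hmove _)
    have hlt : ‖κ (j + J) 0‖ < 1 := by
      have := hJ (j + J) (Nat.le_add_left _ _)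
      rwa [dist_zero_right] at this
    have hinv : 1 ≤ ‖κ (j + J) 0‖⁻¹ := (one_le_inv₀ hpos).2 hlt.le
    obtain ⟨n, hn1, hn2⟩ := exists_nat_pow_near hinv hone
    refine ⟨n + 1, ?_, ?_⟩
    · have h1 := mul_lt_mul_of_pos_right hn2 hpos
      rw [inv_mul_cancel₀ hpos.ne'] at h1
      exact h1.le
    · have h1 := mul_le_mul_of_nonneg_right hn1 hpos.le
      rw [inv_mul_cancel₀ hpos.ne'] at h1
      rw [pow_succ]
      nlinarith
  choose N hN1 hN2 using hex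
  -- compactness
  have hmem : ∀ j, lam ^ N j * κ (j + J) 0 ∈ closedBall (0 : ℂ) ‖lam‖ := by
    intro j
    rw [mem_closedBall_zero_iff, norm_mul, norm_pow]
    exact hN2 j
  obtain ⟨σ, -, φ, hφ, hσ⟩ := (isCompact_closedBall (0 : ℂ) ‖lam‖).tendsto_subseq hmem
  have hσn : 1 ≤ ‖σ‖ := by
    refine ge_of_tendsto' hσ.norm fun j => ?_
    show 1 ≤ ‖lam ^ N (φ j) * κ (φ j + J) 0‖
    rw [norm_mul, norm_pow]
    exact hN1 _
  have hσ0 : σ ≠ 0 := by
    intro h
    rw [h, norm_zero] at hσn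
    linarith
  -- the exponents tend to infinity
  have htail : Tendsto (fun j => j + J) atTop atTop := tendsto_add_atTop_nat J
  have hNt : Tendsto N atTop atTop := by
    rw [Filter.tendsto_atTop]
    intro b
    have h1 : Tendsto (fun j => κ (j + J) 0) atTop (𝓝 0) := h0.comp htail
    have h2 := Metric.tendsto_nhds.1 h1 ((‖lam‖ ^ b)⁻¹) (by positivity)
    filter_upwards [h2] with j hj
    rw [dist_zero_right] at hj
    by_contra hcon
    push Not at hcon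
    have h3 : ‖lam‖ ^ N j ≤ ‖lam‖ ^ b := pow_le_pow_right₀ hone.le hcon.le
    have h4 : ‖lam‖ ^ N j * ‖κ (j + J) 0‖ < ‖lam‖ ^ b * (‖lam‖ ^ b)⁻¹ := by
      have hb : (0 : ℝ) < ‖lam‖ ^ b := by positivity
      have hNb : (0 : ℝ) < ‖lam‖ ^ N j := by positivity
      calc ‖lam‖ ^ N j * ‖κ (j + J) 0‖ < ‖lam‖ ^ N j * (‖lam‖ ^ b)⁻¹ := by gcongr
        _ ≤ ‖lam‖ ^ b * (‖lam‖ ^ b)⁻¹ := by gcongr
    rw [mul_inv_cancel₀ (by positivity)] at h4
    linarith [hN1 j]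
  refine ⟨σ, hσ0, zoom_translation hL hδ (κ := fun j => κ (φ j + J)) (ρ := fun j => ρ (φ j + J))
    (N := fun j => N (φ j)) (fun j => hd _) ?_ (fun j => hh _)
    (hρ.comp (htail.comp hφ.tendsto_atTop)) (hNt.comp hφ.tendsto_atTop) hσ⟩
  intro ε hε
  exact (htail.comp hφ.tendsto_atTop).eventually (hid ε hε)

/-- a symmetry fixing the repelling point has multiplier of modulus one -/
theorem multiplier_one (hL : Lin g D B lam ψ p) {κ : ℂ → ℂ} (hκ : AnalyticAt ℂ κ 0)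
    (h0 : κ 0 = 0) (hh : HarmAt (fun z => g (ψ (κ z)) - g (ψ z)) 0) : ‖deriv κ 0‖ = 1 := by
  set M := deriv κ 0 with hM
  have hl := hL.lam_ne
  -- a ball on which everything is defined
  have hev1 := hh.eventually
  have hev2 := hκ.eventually_analyticAt
  obtain ⟨δ, hδ, hball⟩ := Metric.eventually_nhds_iff_ball.1 (hev1.and hev2)
  have hdκ : DifferentiableOn ℂ κ (ball 0 δ) := fun z hz =>
    (hball z hz).2.differentiableAt.differentiableWithinAt
  have hderiv : HasDerivAt κ M 0 := hκ.differentiableAt.hasDerivAt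
  -- first consequence
  have hMh : HarmOn (fun z => g (ψ (M * z)) - g (ψ z)) Set.univ := by
    refine zoom hL hδ (κ := fun _ => κ) (ρ := fun _ => 1) (N := fun j => j)
      (K := fun z => M * z) (continuous_const.mul continuous_id) (fun _ => hdκ)
      (fun j z hz => ?_) tendsto_const_nhds tendsto_id ?_
    · simpa using (hball z hz).1
    · intro R hR ε hε
      have h1 := hasDerivAt_iff_isLittleO.1 hderiv
      have h2 := (Asymptotics.isLittleO_iff.1 h1) (c := ε / (2 * R)) (by positivity)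
      obtain ⟨r, hr, h3⟩ := Metric.eventually_nhds_iff_ball.1 h2
      filter_upwards [hL.pow_atTop.eventually_gt_atTop (R / r)] with j hj z hz
      rw [mem_ball_zero_iff] at hz
      have hpos : 0 < ‖lam‖ ^ j := by
        have := hL.one
        positivity
      have hyn : ‖(lam ^ j)⁻¹ * z‖ = ‖z‖ / ‖lam‖ ^ j := by
        rw [norm_mul, norm_inv, norm_pow, div_eq_inv_mul]
      have hin : (lam ^ j)⁻¹ * z ∈ ball (0 : ℂ) r := by
        rw [mem_ball_zero_iff, hyn, div_lt_iff₀ hpos]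
        rw [div_lt_iff₀ hr] at hj
        linarith
      have h4 := h3 _ hin
      rw [h0, sub_zero, sub_zero, smul_eq_mul, hyn] at h4
      have h5 : lam ^ j * κ ((lam ^ j)⁻¹ * z) - M * z =
          lam ^ j * (κ ((lam ^ j)⁻¹ * z) - (lam ^ j)⁻¹ * z * M) := by
        have : lam ^ j * ((lam ^ j)⁻¹ * z * M) = M * z := by
          rw [← mul_assoc, ← mul_assoc, mul_inv_cancel₀ (pow_ne_zero _ hl), one_mul, mul_comm]
        rw [mul_sub, this]
      show ‖lam ^ j * κ ((lam ^ j)⁻¹ * z) - M * z‖ < ε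
      rw [h5, norm_mul, norm_pow]
      calc ‖lam‖ ^ j * ‖κ ((lam ^ j)⁻¹ * z) - (lam ^ j)⁻¹ * z * M‖ ≤
          ‖lam‖ ^ j * (ε / (2 * R) * (‖z‖ / ‖lam‖ ^ j)) := by gcongr
        _ = ε * ‖z‖ / (2 * R) := by field_simp
        _ < ε := by
          rw [div_lt_iff₀ (by positivity)]
          nlinarith
  -- contraction case
  have key : ∀ M : ℂ, HarmOn (fun z => g (ψ (M * z)) - g (ψ z)) Set.univ → ¬ ‖M‖ < 1 := by
    intro M hMh hlt
    have hk : ∀ k : ℕ, HarmOn (fun z => g (ψ (M ^ k * z)) - g (ψ z)) Set.univ := by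
      intro k
      induction k with
      | zero =>
        intro z _
        refine (harmAt_zero z).congr (Eventually.of_forall fun y => ?_)
        simp
      | succ k ih =>
        intro z _
        have h1 : HarmAt (fun y => g (ψ (M ^ k * (M * y))) - g (ψ (M * y))) z :=
          HarmAt.comp (u := fun y => g (ψ (M ^ k * y)) - g (ψ y)) (h := fun y => M * y)
            (ih _ trivial) (by fun_prop)
        refine (h1.add (hMh z trivial)).congr (Eventually.of_forall fun y => ?_)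
        show g (ψ (M ^ k * (M * y))) - g (ψ (M * y)) + (g (ψ (M * y)) - g (ψ y)) =
          g (ψ (M ^ (k + 1) * y)) - g (ψ y)
        rw [pow_succ, mul_assoc]; ring
    have hlim : HarmOn (fun z => g (ψ 0) - g (ψ z)) Set.univ := by
      refine harmOn_of_tendsto (u := fun k z => g (ψ (M ^ k * z)) - g (ψ z)) isOpen_univ
        (Eventually.of_forall hk) ?_
      rw [tendstoLocallyUniformlyOn_univ, Metric.tendstoLocallyUniformly_iff]
      intro ε hε z
      have hc := Metric.tendsto_nhds.1 (hL.continuous.tendsto 0) ε hε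
      obtain ⟨r, hr, h3⟩ := Metric.eventually_nhds_iff_ball.1 hc
      refine ⟨ball z 1, ball_mem_nhds z one_pos, ?_⟩
      have hMk : Tendsto (fun k : ℕ => ‖M‖ ^ k * (‖z‖ + 1)) atTop (𝓝 0) := by
        have := (tendsto_pow_atTop_nhds_zero_of_lt_one (norm_nonneg M) hlt).mul_const (‖z‖ + 1)
        rwa [zero_mul] at this
      filter_upwards [hMk.eventually_lt_const hr] with k hk y hy
      have hyn : ‖y‖ ≤ ‖z‖ + 1 := by
        rw [mem_ball, dist_eq_norm] at hy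
        have : ‖y‖ ≤ ‖y - z‖ + ‖z‖ := by simpa using norm_add_le (y - z) z
        linarith
      have hin : M ^ k * y ∈ ball (0 : ℂ) r := by
        rw [mem_ball_zero_iff, norm_mul, norm_pow]
        calc ‖M‖ ^ k * ‖y‖ ≤ ‖M‖ ^ k * (‖z‖ + 1) := by gcongr
          _ < r := hk
      have h4 := h3 _ hin
      rw [dist_comm] at h4
      rw [Real.dist_eq] at h4 ⊢
      rwa [sub_sub_sub_cancel_right]
    apply hL.not_harm'
    have h5 : HarmAt (fun _ => g (ψ 0)) 0 := by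
      have := harmAt_re (e := fun _ => ((g (ψ 0) : ℝ) : ℂ)) (z := 0) analyticAt_const
      simpa using this
    refine (h5.sub (hlim 0 trivial)).congr (Eventually.of_forall fun y => ?_)
    show g (ψ 0) - (g (ψ 0) - g (ψ y)) = g (ψ y)
    ring
  rcases lt_trichotomy ‖M‖ 1 with h | h | h
  · exact absurd h (key M hMh)
  · exact h
  · exfalso
    have hM0 : M ≠ 0 := by
      intro h'; rw [h', norm_zero] at h; linarith
    refine key M⁻¹ (fun z _ => ?_) (by
      rw [norm_inv]; exact inv_lt_one_of_one_lt₀ h)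
    have h1 : HarmAt (fun y => g (ψ (M * (M⁻¹ * y))) - g (ψ (M⁻¹ * y))) z :=
      HarmAt.comp (u := fun y => g (ψ (M * y)) - g (ψ y)) (h := fun y => M⁻¹ * y)
        (hMh _ trivial) (by fun_prop)
    refine h1.neg.congr (Eventually.of_forall fun y => ?_)
    show -(g (ψ (M * (M⁻¹ * y))) - g (ψ (M⁻¹ * y))) = g (ψ (M⁻¹ * y)) - g (ψ y)
    rw [← mul_assoc, mul_inv_cancel₀ hM0, one_mul]
    ring

end Pool.Agent.Work.MP_78b16e_an
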