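import Pool.Agent.Work.MP_78b16e_an.TransB

/-! Rigidity of local symmetries.  (owner: helper71) -/

set_option autoImplicit false

namespace Pool.Agent.Work.MP_78b16e_an

open Metric Filter Topology

variable {g : ℂ × ℂ → ℝ} {D : ℕ} {B : ℂ × ℂ → ℂ × ℂ} {lam : ℂ} {ψ : ℂ → ℂ × ℂ} {p : ℂ → ℂ}

theorem sym_harm {u : ℂ → ℝ} {η k : ℂ → ℂ} {ρ : ℝ} (hρ : ρ ≠ 0) {q₁ q₂ s z : ℂ}
    (hq₁ : q₁ ∈ TT u) (hq₂ : q₂ ∈ TT u) (hs : s ∈ TT u)
    (h1 : AnalyticAt ℂ η (z + q₁)) (h2 : HarmAt (fun y => u (η y) - ρ * u y) (z + q₁))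
    (h3 : AnalyticAt ℂ k (η (z + q₁) + s)) (h4 : ∀ᶠ Y in 𝓝 (η (z + q₁) + s), η (k Y) = Y)
    (h5 : HarmAt (fun y => u (η y) - ρ * u y) (k (η (z + q₁) + s))) :
    HarmAt (fun y => u (k (η (y + q₁) + s) - q₂) - u y) z := by
  have hsh : AnalyticAt ℂ (fun y : ℂ => y + q₁) z := by fun_prop
  have hη : AnalyticAt ℂ (fun y => η (y + q₁)) z :=
    AnalyticAt.comp (g := η) (f := fun y => y + q₁) h1 hsh
  have hY : AnalyticAt ℂ (fun y => η (y + q₁) + s) z := hη.add analyticAt_const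
  have hkY : AnalyticAt ℂ (fun y => k (η (y + q₁) + s)) z :=
    AnalyticAt.comp (g := k) (f := fun y => η (y + q₁) + s) h3 hY
  have a : HarmAt (fun y => u (k (η (y + q₁) + s) + -q₂) - u (k (η (y + q₁) + s))) z :=
    HarmAt.comp (u := fun y => u (y + -q₂) - u y) (TT_neg hq₂ _ trivial) hkY
  have b : HarmAt (fun y => u (η (k (η (y + q₁) + s))) - ρ * u (k (η (y + q₁) + s))) z :=
    HarmAt.comp (u := fun y => u (η y) - ρ * u y) h5 hkY
  have c : HarmAt (fun y => u (η (y + q₁) + s) - u (η (y + q₁))) z :=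
    HarmAt.comp (u := fun y => u (y + s) - u y) (hs _ trivial) hη
  have d : HarmAt (fun y => u (η (y + q₁)) - ρ * u (y + q₁)) z :=
    HarmAt.comp (u := fun y => u (η y) - ρ * u y) h2 hsh
  have e : HarmAt (fun y => u (y + q₁) - u y) z := hq₁ z trivial
  have hev : ∀ᶠ y in 𝓝 z, η (k (η (y + q₁) + s)) = η (y + q₁) + s :=
    hY.continuousAt.eventually h4
  refine ((a.add (((c.add d).sub b).const_mul ρ⁻¹)).add e).congr ?_
  filter_upwards [hev] with y hy
  rw [hy, ← sub_eq_add_neg]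
  field_simp
  ring

/-- dividing translations by the derivative of a symmetry -/
theorem rigid_div (hL : Lin g D B lam ψ p) {η : ℂ → ℂ} {ρ : ℝ} (hρ : ρ ≠ 0) {q s : ℂ}
    (hq : q ∈ TT (fun z => g (ψ z))) (hs : s ∈ TT (fun z => g (ψ z)))
    (hη : AnalyticAt ℂ η q) (hη' : deriv η q ≠ 0)
    (hh : HarmAt (fun z => g (ψ (η z)) - ρ * g (ψ z)) q) :
    (deriv η q)⁻¹ * s ∈ TT (fun z => g (ψ z)) := by
  have hl := hL.lam_ne
  obtain ⟨k, hk, hkq, hkd, hkr, hkl⟩ := exists_local_inverse hη hη'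
  obtain ⟨r, hr, hball⟩ := Metric.eventually_nhds_iff_ball.1
    (hη.eventually_analyticAt.and hh.eventually)
  obtain ⟨C, t, ht, hLip⟩ := hk.hasStrictDerivAt.hasStrictFDerivAt.exists_lipschitzOnWith
  have hkin : ∀ᶠ Y in 𝓝 (η q), k Y ∈ ball q r := by
    have := hk.continuousAt.tendsto
    rw [hkq] at this
    exact this.eventually (ball_mem_nhds q hr)
  obtain ⟨ε, hε, hYball⟩ := Metric.eventually_nhds_iff_ball.1
    (((hk.eventually_analyticAt.and hkr.eventually_nhds).and hkin).and ht)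
  -- points near `0`
  have hsh : Tendsto (fun z : ℂ => z + q) (𝓝 0) (𝓝 q) := by
    have : Continuous (fun z : ℂ => z + q) := by fun_prop
    simpa using this.tendsto 0
  have hηin : ∀ᶠ z in 𝓝 (0 : ℂ), η (z + q) ∈ ball (η q) (ε / 2) :=
    hsh.eventually (hη.continuousAt.tendsto.eventually (ball_mem_nhds _ (half_pos hε)))
  have hkl' : ∀ᶠ z in 𝓝 (0 : ℂ), k (η (z + q)) = z + q := hsh.eventually hkl
  have hballq : ∀ᶠ z in 𝓝 (0 : ℂ), z + q ∈ ball q r := hsh.eventually (ball_mem_nhds _ hr)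
  obtain ⟨δ, hδ, hδb⟩ := Metric.eventually_nhds_iff_ball.1 ((hηin.and hkl').and hballq)
  -- small translations
  have hsn : Tendsto (fun n : ℕ => (lam ^ n)⁻¹ * s) atTop (𝓝 0) := hL.tendsto_zero s
  obtain ⟨n₀, hn₀⟩ := eventually_atTop.1 (Metric.tendsto_nhds.1 hsn (ε / 2) (half_pos hε))
  have hsm : ∀ n, ‖(lam ^ (n + n₀))⁻¹ * s‖ < ε / 2 := by
    intro n
    have := hn₀ (n + n₀) (Nat.le_add_left _ _)
    rwa [dist_zero_right] at this
  have hYin : ∀ n, ∀ z ∈ ball (0 : ℂ) δ, η (z + q) + (lam ^ (n + n₀))⁻¹ * s ∈ ball (η q) ε := by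
    intro n z hz
    have h1 := (hδb z hz).1.1
    rw [mem_ball, dist_eq_norm] at h1 ⊢
    have : η (z + q) + (lam ^ (n + n₀))⁻¹ * s - η q =
        (η (z + q) - η q) + (lam ^ (n + n₀))⁻¹ * s := by ring
    rw [this]
    calc _ ≤ ‖η (z + q) - η q‖ + ‖(lam ^ (n + n₀))⁻¹ * s‖ := norm_add_le _ _
      _ < ε := by linarith [hsm n]
  have htail : Tendsto (fun n : ℕ => n + n₀) atTop atTop := tendsto_add_atTop_nat n₀
  refine zoom_translation hL hδ (κ := fun n z => k (η (z + q) + (lam ^ (n + n₀))⁻¹ * s) - q)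
    (ρ := fun _ => 1) (N := fun n => n + n₀) ?_ ?_ ?_ tendsto_const_nhds htail ?_
  · -- differentiability
    intro n z hz
    have h1 : AnalyticAt ℂ η (z + q) := (hball _ (hδb z hz).2).1
    have h2 : AnalyticAt ℂ (fun y => η (y + q) + (lam ^ (n + n₀))⁻¹ * s) z :=
      (AnalyticAt.comp (g := η) (f := fun y => y + q) h1 (by fun_prop)).add analyticAt_const
    have h3 : AnalyticAt ℂ k (η (z + q) + (lam ^ (n + n₀))⁻¹ * s) :=
      (hYball _ (hYin n z hz)).1.1.1
    have h4 : AnalyticAt ℂ (fun y => k (η (y + q) + (lam ^ (n + n₀))⁻¹ * s)) z :=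
      AnalyticAt.comp (g := k) (f := fun y => η (y + q) + (lam ^ (n + n₀))⁻¹ * s) h3 h2
    exact (h4.sub analyticAt_const).differentiableAt.differentiableWithinAt
  · -- close to the identity
    intro ε' hε'
    have h1 : Tendsto (fun n : ℕ => (C : ℝ) * ‖(lam ^ (n + n₀))⁻¹ * s‖) atTop (𝓝 0) := by
      have := ((hsn.comp htail).norm).const_mul (C : ℝ)
      simpa using this
    filter_upwards [h1.eventually_lt_const hε'] with n hn z hz
    have h2 : η (z + q) ∈ ball (η q) ε :=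
      ball_subset_ball (by linarith) (hδb z hz).1.1
    have h3 := hLip.dist_le_mul _ (hYball _ (hYin n z hz)).2 _ (hYball _ h2).2
    rw [(hδb z hz).1.2, dist_eq_norm, dist_eq_norm, add_sub_cancel_left] at h3
    have h4 : k (η (z + q) + (lam ^ (n + n₀))⁻¹ * s) - q - z =
        k (η (z + q) + (lam ^ (n + n₀))⁻¹ * s) - (z + q) := by ring
    show ‖k (η (z + q) + (lam ^ (n + n₀))⁻¹ * s) - q - z‖ < ε'
    rw [h4]
    exact h3.trans_lt hn
  · -- harmonicity
    intro n z hz
    have h1 := hball _ (hδb z hz).2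
    have h2 := hYball _ (hYin n z hz)
    have := sym_harm (u := fun z => g (ψ z)) hρ hq hq (TT_lam_inv hL hs (n + n₀)) h1.1 h1.2
      h2.1.1.1 h2.1.1.2 (hball _ h2.1.2).2
    simpa using this
  · -- the limit
    rcases eq_or_ne s 0 with rfl | hs0
    · simp [hkq]
    · have h1 : HasDerivAt k (deriv η q)⁻¹ (η q) := by
        rw [← hkd]; exact hk.differentiableAt.hasDerivAt
      have h2 := h1.tendsto_slope_zero
      have h3 : Tendsto (fun n : ℕ => (lam ^ (n + n₀))⁻¹ * s) atTop (𝓝[≠] 0) :=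
        tendsto_nhdsWithin_iff.2 ⟨hsn.comp htail, Eventually.of_forall fun n =>
          mul_ne_zero (inv_ne_zero (pow_ne_zero _ hl)) hs0⟩
      have h4 := (h2.comp h3).mul_const s
      refine h4.congr fun n => ?_
      show ((lam ^ (n + n₀))⁻¹ * s)⁻¹ • (k (η q + (lam ^ (n + n₀))⁻¹ * s) - k (η q)) * s = _
      rw [hkq, zero_add, smul_eq_mul, mul_inv, inv_inv]
      field_simp

/-- modulus of the derivative of a symmetry -/
theorem rigid_mod (hL : Lin g D B lam ψ p) {η : ℂ → ℂ} {ρ : ℝ} (hρ : ρ ≠ 0) {q : ℂ}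
    (hq : q ∈ TT (fun z => g (ψ z))) (ht : η q - η 0 ∈ TT (fun z => g (ψ z)))
    (hη : AnalyticAt ℂ η q) (hη' : deriv η q ≠ 0)
    (hh : HarmAt (fun z => g (ψ (η z)) - ρ * g (ψ z)) q)
    (hη0 : AnalyticAt ℂ η 0)
    (hh0 : HarmAt (fun z => g (ψ (η z)) - ρ * g (ψ z)) 0) :
    ‖deriv η 0‖ = ‖deriv η q‖ := by
  obtain ⟨k, hk, hkq, hkd, hkr, -⟩ := exists_local_inverse hη hη'
  have e0 : η 0 + (η q - η 0) = η q := by ring
  have hsym : HarmAt (fun y => g (ψ (k (η (y + 0) + (η q - η 0)) - q)) - g (ψ y)) 0 := by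
    refine sym_harm (u := fun z => g (ψ z)) hρ (TT_zero _) hq ht ?_ ?_ ?_ ?_ ?_
    · rw [add_zero]; exact hη0
    · rw [add_zero]; exact hh0
    · rw [add_zero, e0]; exact hk
    · rw [add_zero, e0]; exact hkr
    · rw [add_zero, e0, hkq]; exact hh
  have hsym' : HarmAt (fun y => g (ψ (k (η y + (η q - η 0)) - q)) - g (ψ y)) 0 := by
    simpa using hsym
  have hY : HasDerivAt (fun y => η y + (η q - η 0)) (deriv η 0) 0 :=
    hη0.differentiableAt.hasDerivAt.add_const _
  have hk' : HasDerivAt k (deriv η q)⁻¹ (η 0 + (η q - η 0)) := by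
    rw [e0, ← hkd]; exact hk.differentiableAt.hasDerivAt
  have hκd : HasDerivAt (fun y => k (η y + (η q - η 0)) - q) ((deriv η q)⁻¹ * deriv η 0) 0 :=
    (hk'.comp (0 : ℂ) hY).sub_const q
  have hκa : AnalyticAt ℂ (fun y => k (η y + (η q - η 0)) - q) 0 := by
    have h1 : AnalyticAt ℂ (fun y => η y + (η q - η 0)) 0 := hη0.add analyticAt_const
    have h2 : AnalyticAt ℂ k (η 0 + (η q - η 0)) := by rw [e0]; exact hk
    exact (AnalyticAt.comp (g := k) (f := fun y => η y + (η q - η 0)) h2 h1).sub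
      analyticAt_const
  have hκ0 : (fun y => k (η y + (η q - η 0)) - q) 0 = 0 := by
    show k (η 0 + (η q - η 0)) - q = 0
    rw [e0, hkq, sub_self]
  have h := multiplier_one hL hκa hκ0 hsym'
  rw [hκd.deriv, norm_mul, norm_inv] at h
  have h3 : ‖deriv η q‖ ≠ 0 := norm_ne_zero_iff.2 hη'
  field_simp at h
  exact h

theorem affine_of_deriv {η : ℂ → ℂ} (hη : AnalyticAt ℂ η 0)
    (h : ∀ᶠ z in 𝓝 (0 : ℂ), deriv η z = deriv η 0) :
    ∀ᶠ z in 𝓝 (0 : ℂ), η z = η 0 + deriv η 0 * z := by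
  obtain ⟨r, hr, hball⟩ := Metric.eventually_nhds_iff_ball.1 (hη.eventually_analyticAt.and h)
  filter_upwards [ball_mem_nhds (0 : ℂ) hr] with z hz
  have hd : ∀ y ∈ ball (0 : ℂ) r,
      HasDerivAt (fun y => η y - deriv η 0 * y) (deriv η y - deriv η 0 * 1) y := by
    intro y hy
    exact (hball y hy).1.differentiableAt.hasDerivAt.sub ((hasDerivAt_id y).const_mul _)
  have h1 := isOpen_ball.is_const_of_deriv_eq_zero (convex_ball (0 : ℂ) r).isPreconnected
    (f := fun y => η y - deriv η 0 * y)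
    (fun y hy => (hd y hy).differentiableAt.differentiableWithinAt)
    (fun y hy => by
      rw [(hd y hy).deriv, (hball y hy).2, mul_one, sub_self]; rfl) hz (mem_ball_self hr)
  have h2 : η z - deriv η 0 * z = η 0 - deriv η 0 * 0 := h1
  rw [mul_zero, sub_zero] at h2
  rw [← h2]; ring

theorem rigid' (hL : Lin g D B lam ψ p) {τ : ℂ} (hτ : τ ≠ 0)
    (h : τ ∈ TT (fun z => g (ψ z))) {η : ℂ → ℂ} (hη : AnalyticAt ℂ η 0)
    (hη' : deriv η 0 ≠ 0) {ρ : ℝ} (hρ : ρ ≠ 0)
    (hh : HarmAt (fun z => g (ψ (η z)) - ρ * g (ψ z)) 0) :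
    ∀ᶠ z in 𝓝 (0 : ℂ), η z = η 0 + deriv η 0 * z := by
  obtain ⟨c, hc, hline, hdich⟩ := TT_line' hL hτ h
  have hηd : AnalyticAt ℂ (deriv η) 0 := hη.deriv
  obtain ⟨r, hr, hball⟩ := Metric.eventually_nhds_iff_ball.1
    ((hη.eventually_analyticAt.and hh.eventually).and (hηd.continuousAt.eventually_ne hη'))
  apply affine_of_deriv hη
  rcases hdich with huniv | hsub
  · -- all translations
    have hmod : ∀ᶠ z in 𝓝 (0 : ℂ), ‖deriv η z‖ = ‖deriv η 0‖ := by
      filter_upwards [ball_mem_nhds (0 : ℂ) hr] with q hq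
      exact (rigid_mod hL hρ (by rw [huniv]; trivial) (by rw [huniv]; trivial)
        (hball q hq).1.1 (hball q hq).2 (hball q hq).1.2 hη hh).symm
    refine Complex.eventually_eq_of_isLocalMax_norm
      (hηd.eventually_analyticAt.mono fun z hz => hz.differentiableAt) ?_
    filter_upwards [hmod] with z hz
    exact hz.le
  · -- translations contained in a line
    set r' := r / ‖c‖ with hr'
    have hcn : 0 < ‖c‖ := norm_pos_iff.2 hc
    have hr'pos : 0 < r' := div_pos hr hcn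
    have hin : ∀ t : ℝ, |t| < r' → (t : ℂ) * c ∈ ball (0 : ℂ) r := by
      intro t ht
      rw [mem_ball_zero_iff, norm_mul, Complex.norm_real, Real.norm_eq_abs]
      rwa [hr', lt_div_iff₀ hcn] at ht
    -- the derivative is real along the line
    have hreal : ∀ t : ℝ, |t| < r' → (deriv η ((t : ℂ) * c)).im = 0 := by
      intro t ht
      have hb := hball _ (hin t ht)
      have h1 := rigid_div hL hρ (hline t) (by simpa using hline 1) hb.1.1 hb.2 hb.1.2
      obtain ⟨t', ht'⟩ := hsub _ h1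
      have h2 : (deriv η ((t : ℂ) * c))⁻¹ = (t' : ℂ) := mul_right_cancel₀ hc ht'
      have h3 : deriv η ((t : ℂ) * c) = ((t'⁻¹ : ℝ) : ℂ) := by
        rw [← inv_inv (deriv η ((t : ℂ) * c)), h2]; push_cast; rfl
      rw [h3, Complex.ofReal_im]
    -- so the increments are in the line
    have hinc : ∀ t : ℝ, |t| < r' → η ((t : ℂ) * c) - η 0 ∈ TT (fun z => g (ψ z)) := by
      intro t ht
      let f : ℝ → ℝ := fun s => ((η ((s : ℂ) * c) - η 0) / c).im
      have hfd : ∀ s ∈ ball (0 : ℝ) r', HasDerivAt f 0 s := by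
        intro s hs
        rw [mem_ball_zero_iff, Real.norm_eq_abs] at hs
        have hb := (hball _ (hin s hs)).1.1.differentiableAt.hasDerivAt
        have h1 : HasDerivAt (fun s : ℝ => ((s : ℝ) : ℂ) * c) (1 * c) s :=
          (Complex.ofRealCLM.hasDerivAt (x := s)).mul_const c
        have h2 : HasDerivAt (fun s : ℝ => η ((s : ℂ) * c)) (deriv η ((s : ℂ) * c) * (1 * c)) s :=
          HasDerivAt.comp s hb h1
        have h3 : HasDerivAt (fun s : ℝ => (η ((s : ℂ) * c) - η 0) / c)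
            (deriv η ((s : ℂ) * c) * (1 * c) / c) s := (h2.sub_const (η 0)).div_const c
        have h4 : HasDerivAt f ((deriv η ((s : ℂ) * c) * (1 * c) / c).im) s :=
          (Complex.imCLM.hasFDerivAt).comp_hasDerivAt s h3
        refine h4.congr_deriv ?_
        rw [one_mul, mul_div_assoc, div_self hc, mul_one]
        exact hreal s hs
      have hconst := isOpen_ball.is_const_of_deriv_eq_zero
        (convex_ball (0 : ℝ) r').isPreconnected (f := f)
        (fun s hs => (hfd s hs).differentiableAt.differentiableWithinAt)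
        (fun s hs => (hfd s hs).deriv)
        (x := t) (y := 0) (by rwa [mem_ball_zero_iff, Real.norm_eq_abs]) (mem_ball_self hr'pos)
      have h5 : ((η ((t : ℂ) * c) - η 0) / c).im = 0 := by
        have h6 : f 0 = 0 := by
          show ((η (((0 : ℝ) : ℂ) * c) - η 0) / c).im = 0
          simp
        rw [h6] at hconst
        exact hconst
      have h7 : η ((t : ℂ) * c) - η 0 = ((((η ((t : ℂ) * c) - η 0) / c).re : ℝ) : ℂ) * c := by
        have : (η ((t : ℂ) * c) - η 0) / c = ((((η ((t : ℂ) * c) - η 0) / c).re : ℝ) : ℂ) := by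
          apply Complex.ext <;> simp [h5]
        rw [← this]
        field_simp
      rw [h7]
      exact hline _
    -- squares of the derivative agree along the line
    have hsq : ∀ t : ℝ, |t| < r' → deriv η ((t : ℂ) * c) ^ 2 - deriv η 0 ^ 2 = 0 := by
      intro t ht
      have hb := hball _ (hin t ht)
      have h1 := rigid_mod hL hρ (hline t) (hinc t ht) hb.1.1 hb.2 hb.1.2 hη hh
      have i0 : (deriv η 0).im = 0 := by
        have := hreal 0 (by simpa using hr'pos)
        simpa using this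
      have i1 := hreal t ht
      have e0 : deriv η 0 = (((deriv η 0).re : ℝ) : ℂ) := by
        apply Complex.ext <;> simp [i0]
      have e1 : deriv η ((t : ℂ) * c) = (((deriv η ((t : ℂ) * c)).re : ℝ) : ℂ) := by
        apply Complex.ext <;> simp [i1]
      rw [e0, e1, Complex.norm_real, Complex.norm_real, Real.norm_eq_abs, Real.norm_eq_abs] at h1
      have h2 := (sq_eq_sq_iff_abs_eq_abs _ _).2 h1
      rw [e0, e1, sub_eq_zero]
      exact_mod_cast h2.symm
    have hF : AnalyticAt ℂ (fun z => deriv η z ^ 2 - deriv η 0 ^ 2) 0 :=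
      (hηd.pow 2).sub analyticAt_const
    have hF0 : ∀ᶠ z in 𝓝 (0 : ℂ), deriv η z ^ 2 - deriv η 0 ^ 2 = 0 := by
      rcases hF.eventually_eq_zero_or_eventually_ne_zero with h1 | h1
      · exact h1
      · exfalso
        have h2 : Tendsto (fun n : ℕ => ((1 / ((n : ℝ) + 1) : ℝ) : ℂ) * c) atTop (𝓝 0) := by
          have h3 : Tendsto (fun n : ℕ => ((1 / ((n : ℝ) + 1) : ℝ) : ℂ)) atTop (𝓝 ((0 : ℝ) : ℂ)) :=
            (Complex.continuous_ofReal.tendsto 0).comp tendsto_one_div_add_atTop_nhds_zero_nat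
          have := h3.mul_const c
          rwa [Complex.ofReal_zero, zero_mul] at this
        have h4 : Tendsto (fun n : ℕ => ((1 / ((n : ℝ) + 1) : ℝ) : ℂ) * c) atTop (𝓝[≠] 0) := by
          refine tendsto_nhdsWithin_iff.2 ⟨h2, Eventually.of_forall fun n => ?_⟩
          refine mul_ne_zero ?_ hc
          have : (1 / ((n : ℝ) + 1) : ℝ) ≠ 0 := by positivity
          exact_mod_cast this
        have h5 : ∀ᶠ n : ℕ in atTop, |(1 / ((n : ℝ) + 1) : ℝ)| < r' := by
          have := Metric.tendsto_nhds.1 (tendsto_one_div_add_atTop_nhds_zero_nat (𝕜 := ℝ)) r' hr'pos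
          simpa [Real.dist_eq] using this
        obtain ⟨n, hn1, hn2⟩ := ((h4.eventually h1).and h5).exists
        exact hn1 (hsq _ hn2)
    have hne : ∀ᶠ z in 𝓝 (0 : ℂ), deriv η z + deriv η 0 ≠ 0 := by
      have h1 : AnalyticAt ℂ (fun z => deriv η z + deriv η 0) 0 := hηd.add analyticAt_const
      refine h1.continuousAt.eventually_ne ?_
      show deriv η 0 + deriv η 0 ≠ 0
      rw [← two_mul]
      exact mul_ne_zero two_ne_zero hη'
    filter_upwards [hF0, hne] with z h1 h2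
    have h3 : (deriv η z - deriv η 0) * (deriv η z + deriv η 0) = 0 := by
      linear_combination h1
    exact sub_eq_zero.1 ((mul_eq_zero.1 h3).resolve_right h2)

end Pool.Agent.Work.MP_78b16e_an
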