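import Pool.Agent.Work.MP_78b16e_an.TransC

/-! Nondiscrete families of curves give translations.  (owner: helper71) -/

set_option autoImplicit false

namespace Pool.Agent.Work.MP_78b16e_an

open Metric Filter Topology

variable {g : ℂ × ℂ → ℝ} {D : ℕ} {B : ℂ × ℂ → ℂ × ℂ} {lam : ℂ} {ψ : ℂ → ℂ × ℂ} {p : ℂ → ℂ}

theorem plucker' (a b p q : ℂ × ℂ) :
    wg a b * wg p q = wg a q * wg p b - wg a p * wg q b := by
  simp only [wg]; ring

/-- conjugating a sequence of symmetries by a local map -/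
theorem conj_seq {u : ℂ → ℝ} {q : ℂ} {δ : ℝ} (hδ : 0 < δ) {κ : ℕ → ℂ → ℂ} {ρ : ℕ → ℝ}
    (hd : ∀ j, DifferentiableOn ℂ (κ j) (ball q δ))
    (hid : ∀ ε > 0, ∀ᶠ j in atTop, ∀ z ∈ ball q δ, ‖κ j z - z‖ < ε)
    (hh : ∀ j, HarmOn (fun z => u (κ j z) - ρ j * u z) (ball q δ))
    {θ k : ℂ → ℂ} (hθ : AnalyticAt ℂ θ q) (hk : AnalyticAt ℂ k 0) (hk0 : k 0 = q)
    (hθk : ∀ᶠ y in 𝓝 (0 : ℂ), θ (k y) = y) {c : ℝ}
    (hθh : HarmAt (fun z => u (θ z) - c * u z) q) :
    ∃ δ' > 0, ∃ J : ℕ, (∀ j, DifferentiableOn ℂ (fun y => θ (κ (j + J) (k y))) (ball 0 δ')) ∧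
      (∀ ε > 0, ∀ᶠ j in atTop, ∀ y ∈ ball (0 : ℂ) δ', ‖θ (κ (j + J) (k y)) - y‖ < ε) ∧
      (∀ j, HarmOn (fun y => u (θ (κ (j + J) (k y))) - ρ (j + J) * u y) (ball 0 δ')) := by
  obtain ⟨C, t, ht, hLip⟩ := hθ.hasStrictDerivAt.hasStrictFDerivAt.exists_lipschitzOnWith
  obtain ⟨r, hr, hball⟩ := Metric.eventually_nhds_iff_ball.1
    (((hθ.eventually_analyticAt.and hθh.eventually).and ht).and (ball_mem_nhds q hδ))
  have hkin : ∀ᶠ y in 𝓝 (0 : ℂ), k y ∈ ball q (r / 2) := by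
    have := hk.continuousAt.tendsto
    rw [hk0] at this
    exact this.eventually (ball_mem_nhds q (half_pos hr))
  obtain ⟨δ', hδ', hb'⟩ := Metric.eventually_nhds_iff_ball.1
    ((hk.eventually_analyticAt.and hθk.eventually_nhds).and hkin)
  obtain ⟨J, hJ⟩ := eventually_atTop.1 (hid (r / 2) (half_pos hr))
  have hkr : ∀ y ∈ ball (0 : ℂ) δ', k y ∈ ball q r := fun y hy =>
    ball_subset_ball (by linarith) (hb' y hy).2
  have hkδ : ∀ y ∈ ball (0 : ℂ) δ', k y ∈ ball q δ := fun y hy => (hball _ (hkr y hy)).2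
  have hκin : ∀ j, ∀ y ∈ ball (0 : ℂ) δ', κ (j + J) (k y) ∈ ball q r := by
    intro j y hy
    have h1 := hJ (j + J) (Nat.le_add_left _ _) _ (hkδ y hy)
    have h2 := (hb' y hy).2
    rw [mem_ball, dist_eq_norm] at h2 ⊢
    have : κ (j + J) (k y) - q = (κ (j + J) (k y) - k y) + (k y - q) := by ring
    rw [this]
    calc _ ≤ ‖κ (j + J) (k y) - k y‖ + ‖k y - q‖ := norm_add_le _ _
      _ < r := by linarith
  have hκk : ∀ j, ∀ y ∈ ball (0 : ℂ) δ', AnalyticAt ℂ (fun y => κ (j + J) (k y)) y := by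
    intro j y hy
    have h1 : AnalyticAt ℂ (κ (j + J)) (k y) :=
      (hd _).analyticAt (isOpen_ball.mem_nhds (hkδ y hy))
    exact AnalyticAt.comp (g := κ (j + J)) (f := k) h1 (hb' y hy).1.1
  refine ⟨δ', hδ', J, fun j y hy => ?_, fun ε hε => ?_, fun j y hy => ?_⟩
  · have h1 : AnalyticAt ℂ θ (κ (j + J) (k y)) := (hball _ (hκin j y hy)).1.1.1
    exact (AnalyticAt.comp (g := θ) (f := fun y => κ (j + J) (k y)) h1
      (hκk j y hy)).differentiableAt.differentiableWithinAt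
  · have h1 : ∀ᶠ j in atTop, ∀ z ∈ ball q δ, ‖κ (j + J) z - z‖ < ε / (C + 1) :=
      (tendsto_add_atTop_nat J).eventually (hid _ (by positivity))
    filter_upwards [h1] with j hj y hy
    have h2 := hj _ (hkδ y hy)
    have h3 := hLip.dist_le_mul _ (hball _ (hκin j y hy)).1.2 _ (hball _ (hkr y hy)).1.2
    rw [(hb' y hy).1.2.self_of_nhds, dist_eq_norm, dist_eq_norm] at h3
    have h4 : (C : ℝ) * ‖κ (j + J) (k y) - k y‖ < ε := by
      have hC : (0 : ℝ) ≤ C := C.2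
      have h5 : (C : ℝ) * ‖κ (j + J) (k y) - k y‖ ≤ (C : ℝ) * (ε / (C + 1)) := by gcongr
      have h6 : (C : ℝ) * (ε / (C + 1)) < ε := by
        rw [mul_div_assoc', div_lt_iff₀ (by positivity)]
        nlinarith
      linarith
    exact h3.trans_lt h4
  · have h1 : HarmAt (fun y => u (κ (j + J) (k y)) - ρ (j + J) * u (k y)) y :=
      HarmAt.comp (u := fun z => u (κ (j + J) z) - ρ (j + J) * u z) (h := k)
        (hh _ _ (hkδ y hy)) (hb' y hy).1.1
    have h2 : HarmAt (fun y => u (θ (κ (j + J) (k y))) - c * u (κ (j + J) (k y))) y :=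
      HarmAt.comp (u := fun z => u (θ z) - c * u z) (h := fun y => κ (j + J) (k y))
        (hball _ (hκin j y hy)).1.1.2 (hκk j y hy)
    have h3 : HarmAt (fun y => u (θ (k y)) - c * u (k y)) y :=
      HarmAt.comp (u := fun z => u (θ z) - c * u z) (h := k)
        (hball _ (hkr y hy)).1.1.2 (hb' y hy).1.1
    refine ((h2.add (h1.const_mul c)).sub (h3.const_mul (ρ (j + J)))).congr ?_
    filter_upwards [(hb' y hy).1.2] with x hx
    rw [hx]; ring

/-- matching a convergent sequence of curves with its limit -/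
theorem kappa_seq {h : ℂ → ℂ × ℂ} {H : ℕ → ℂ → ℂ × ℂ} {w : ℂ} {r : ℝ} (hr : 0 < r)
    (hdh : DifferentiableOn ℂ h (ball w r)) (hdH : ∀ j, DifferentiableOn ℂ (H j) (ball w r))
    (hconv : ∀ ε > 0, ∀ᶠ j in atTop, ∀ z ∈ ball w r, ‖H j z - h z‖ < ε)
    (himm : wg (h w) (deriv h w) ≠ 0) :
    ∃ δ > 0, δ ≤ r ∧ ∃ (J : ℕ) (κ : ℕ → ℂ → ℂ), (∀ j, DifferentiableOn ℂ (κ j) (ball w δ)) ∧
      (∀ ε > 0, ∀ᶠ j in atTop, ∀ z ∈ ball w δ, ‖κ j z - z‖ < ε) ∧
      (∀ j, ∀ z ∈ ball w δ, κ j z ∈ ball w r ∧ wg (h (κ j z)) (H (j + J) z) = 0) := by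
  have hw : w ∈ ball w r := mem_ball_self hr
  have hha : AnalyticAt ℂ h w := hdh.analyticAt (isOpen_ball.mem_nhds hw)
  have n₁ : h w ≠ 0 := by
    intro h'; rw [h', wg_zero_left] at himm; exact himm rfl
  set a := h w with ha
  set b := perp a with hb
  have hab : wg a b ≠ 0 := wg_perp_ne n₁
  let χ : ℂ → ℂ := fun z => wg a (h z) / wg (h z) b
  have hχ : AnalyticAt ℂ χ w :=
    (analyticAt_wg analyticAt_const hha).div (analyticAt_wg hha analyticAt_const) hab
  have hχd : deriv χ w = wg a (deriv h w) / wg (h w) b :=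
    (coord_deriv hha.differentiableAt (by rw [← ha, wg_self]) hab).deriv
  have hχd0 : deriv χ w ≠ 0 := by
    rw [hχd]; exact div_ne_zero himm hab
  have hχw : χ w = 0 := by
    show wg a (h w) / wg (h w) b = 0
    rw [← ha, wg_self, zero_div]
  obtain ⟨k, hk, hkw, -, hkr, hkl⟩ := exists_local_inverse hχ hχd0
  rw [hχw] at hk hkw hkr
  -- lower bound for the denominators near `w`
  set m := ‖wg a b‖ / 2 with hm
  have hmpos : 0 < m := by
    have := norm_pos_iff.2 hab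
    positivity
  have hden : ∀ᶠ z in 𝓝 w, m < ‖wg (h z) b‖ := by
    have h1 : Tendsto (fun z => ‖wg (h z) b‖) (𝓝 w) (𝓝 ‖wg a b‖) :=
      (analyticAt_wg hha analyticAt_const).continuousAt.tendsto.norm
    exact h1.eventually_const_lt (by rw [hm]; linarith [norm_pos_iff.2 hab])
  have hnorm : ∀ᶠ z in 𝓝 w, ‖h z‖ < ‖a‖ + 1 := by
    have h1 : Tendsto (fun z => ‖h z‖) (𝓝 w) (𝓝 ‖a‖) := hha.continuousAt.tendsto.norm
    exact h1.eventually_lt_const (by linarith)
  obtain ⟨r₁, hr₁, hb₁⟩ := Metric.eventually_nhds_iff_ball.1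
    ((hden.and hnorm).and (ball_mem_nhds w hr))
  -- uniform convergence of denominators
  have hbpos : 0 < 2 * ‖b‖ + 1 := by positivity
  obtain ⟨J₁, hJ₁⟩ := eventually_atTop.1 (hconv (m / 2 / (2 * ‖b‖ + 1)) (by positivity))
  have hdenH : ∀ j, J₁ ≤ j → ∀ z ∈ ball w r₁, m / 2 < ‖wg (H j z) b‖ := by
    intro j hj z hz
    have h1 := hJ₁ j hj z (hb₁ z hz).2
    have h2 := (hb₁ z hz).1.1
    have h3 : wg (H j z) b = wg (h z) b + wg (H j z - h z) b := by
      rw [← wg_add_left]; congr 1; ring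
    have h4 : ‖wg (H j z - h z) b‖ ≤ m / 2 := by
      calc ‖wg (H j z - h z) b‖ ≤ 2 * ‖H j z - h z‖ * ‖b‖ := norm_wg_le _ _
        _ = ‖H j z - h z‖ * (2 * ‖b‖) := by ring
        _ ≤ (m / 2 / (2 * ‖b‖ + 1)) * (2 * ‖b‖ + 1) := by
          gcongr
          linarith
        _ = m / 2 := by field_simp
    have h5 : ‖wg (h z) b‖ ≤ ‖wg (h z) b + wg (H j z - h z) b‖ + ‖wg (H j z - h z) b‖ := by
      simpa using norm_sub_le (wg (h z) b + wg (H j z - h z) b) (wg (H j z - h z) b)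
    rw [h3]
    linarith
  -- uniform convergence of the coordinates
  have hcoord : ∀ ε > 0, ∀ᶠ j in atTop, ∀ z ∈ ball w r₁,
      ‖wg a (H j z) / wg (H j z) b - χ z‖ < ε := by
    intro ε hε
    set A := ‖wg a b‖ * (2 * (‖a‖ + 1)) / (m * (m / 2)) with hA
    have hA0 : 0 ≤ A := by positivity
    filter_upwards [hconv (ε / (A + 1)) (by positivity), eventually_ge_atTop J₁] with j hj hjJ z hz
    have h1 := (hb₁ z hz).1.1
    have h2 := hdenH j hjJ z hz
    have h1' : wg (h z) b ≠ 0 := norm_pos_iff.1 (hmpos.trans h1)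
    have h2' : wg (H j z) b ≠ 0 := norm_pos_iff.1 ((half_pos hmpos).trans h2)
    have h3 : wg a (H j z) / wg (H j z) b - χ z =
        wg a b * wg (h z) (H j z - h z) / (wg (h z) b * wg (H j z) b) := by
      show wg a (H j z) / wg (H j z) b - wg a (h z) / wg (h z) b = _
      have h4 : wg (h z) (H j z - h z) = wg (h z) (H j z) := by
        simp only [wg, Prod.fst_sub, Prod.snd_sub]; ring
      rw [h4, plucker', div_sub_div _ _ h2' h1']
      congr 1
      · ring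
      · ring
    rw [h3, norm_div, norm_mul, norm_mul]
    have h5 : ‖wg (h z) (H j z - h z)‖ ≤ 2 * (‖a‖ + 1) * ‖H j z - h z‖ :=
      (norm_wg_le _ _).trans (by
        have := (hb₁ z hz).1.2.le
        gcongr)
    calc ‖wg a b‖ * ‖wg (h z) (H j z - h z)‖ / (‖wg (h z) b‖ * ‖wg (H j z) b‖) ≤
        ‖wg a b‖ * (2 * (‖a‖ + 1) * ‖H j z - h z‖) / (m * (m / 2)) := by
          gcongr
      _ = A * ‖H j z - h z‖ := by rw [hA]; ring
      _ ≤ A * (ε / (A + 1)) := by
          have := (hj z (hb₁ z hz).2).le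
          gcongr
      _ < ε := by
          rw [mul_div_assoc', div_lt_iff₀ (by positivity)]
          nlinarith
  -- the inverse
  obtain ⟨C, t, ht, hLip⟩ := hk.hasStrictDerivAt.hasStrictFDerivAt.exists_lipschitzOnWith
  have hkin : ∀ᶠ y in 𝓝 (0 : ℂ), k y ∈ ball w r₁ := by
    have := hk.continuousAt.tendsto
    rw [hkw] at this
    exact this.eventually (ball_mem_nhds w hr₁)
  obtain ⟨ε₀, hε₀, hbε⟩ := Metric.eventually_nhds_iff_ball.1
    (((hk.eventually_analyticAt.and hkr).and hkin).and ht)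
  have hχin : ∀ᶠ z in 𝓝 w, χ z ∈ ball (0 : ℂ) (ε₀ / 2) := by
    have := hχ.continuousAt.tendsto
    rw [hχw] at this
    exact this.eventually (ball_mem_nhds _ (half_pos hε₀))
  obtain ⟨δ, hδ, hbδ⟩ := Metric.eventually_nhds_iff_ball.1
    ((hχin.and hkl).and (ball_mem_nhds w hr₁))
  obtain ⟨J₂, hJ₂⟩ := eventually_atTop.1 (hcoord (ε₀ / 2) (half_pos hε₀))
  set J := max J₁ J₂ with hJ
  have hδδ : ∀ z ∈ ball w (min δ r), z ∈ ball w δ := fun z hz =>
    ball_subset_ball (min_le_left _ _) hz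
  have hin : ∀ j, ∀ z ∈ ball w (min δ r), wg a (H (j + J) z) / wg (H (j + J) z) b ∈
      ball (0 : ℂ) ε₀ := by
    intro j z hz
    have h1 := hJ₂ (j + J) (by omega) z (hbδ z (hδδ z hz)).2
    have h2 := (hbδ z (hδδ z hz)).1.1
    rw [mem_ball_zero_iff] at h2 ⊢
    calc ‖wg a (H (j + J) z) / wg (H (j + J) z) b‖ ≤
        ‖wg a (H (j + J) z) / wg (H (j + J) z) b - χ z‖ + ‖χ z‖ := by
          simpa using norm_add_le (wg a (H (j + J) z) / wg (H (j + J) z) b - χ z) (χ z)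
      _ < ε₀ := by linarith
  refine ⟨min δ r, lt_min hδ hr, min_le_right _ _, J,
    fun j z => k (wg a (H (j + J) z) / wg (H (j + J) z) b), fun j z hz => ?_, fun ε hε => ?_,
    fun j z hz => ?_⟩
  · have h1 : AnalyticAt ℂ (H (j + J)) z :=
      (hdH _).analyticAt (isOpen_ball.mem_nhds (ball_subset_ball (min_le_right _ _) hz))
    have h2' : wg (H (j + J) z) b ≠ 0 := norm_pos_iff.1 ((half_pos hmpos).trans
      (hdenH (j + J) (by omega) z (hbδ z (hδδ z hz)).2))
    have h3 : AnalyticAt ℂ (fun z => wg a (H (j + J) z) / wg (H (j + J) z) b) z :=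
      (analyticAt_wg analyticAt_const h1).div (analyticAt_wg h1 analyticAt_const) h2'
    have h4 : AnalyticAt ℂ k (wg a (H (j + J) z) / wg (H (j + J) z) b) :=
      (hbε _ (hin j z hz)).1.1.1
    exact (AnalyticAt.comp (g := k) (f := fun z => wg a (H (j + J) z) / wg (H (j + J) z) b)
      h4 h3).differentiableAt.differentiableWithinAt
  · have h1 : ∀ᶠ j in atTop, ∀ z ∈ ball w r₁,
        ‖wg a (H (j + J) z) / wg (H (j + J) z) b - χ z‖ < ε / (C + 1) :=
      (tendsto_add_atTop_nat J).eventually (hcoord _ (by positivity))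
    filter_upwards [h1] with j hj z hz
    have hzδ := hbδ z (hδδ z hz)
    have h2 := hj z hzδ.2
    have h3 : χ z ∈ ball (0 : ℂ) ε₀ := ball_subset_ball (by linarith) hzδ.1.1
    have h4 := hLip.dist_le_mul _ (hbε _ (hin j z hz)).2 _ (hbε _ h3).2
    rw [hzδ.1.2, dist_eq_norm, dist_eq_norm] at h4
    have h5 : (C : ℝ) * ‖wg a (H (j + J) z) / wg (H (j + J) z) b - χ z‖ < ε := by
      have hC : (0 : ℝ) ≤ C := C.2
      have h6 : (C : ℝ) * ‖wg a (H (j + J) z) / wg (H (j + J) z) b - χ z‖ ≤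
        (C : ℝ) * (ε / (C + 1)) := by gcongr
      have h7 : (C : ℝ) * (ε / (C + 1)) < ε := by
        rw [mul_div_assoc', div_lt_iff₀ (by positivity)]
        nlinarith
      linarith
    exact h4.trans_lt h5
  · have hyin := hbε _ (hin j z hz)
    have hκr₁ := hyin.1.2
    refine ⟨(hb₁ _ hκr₁).2, ?_⟩
    have h1 : χ (k (wg a (H (j + J) z) / wg (H (j + J) z) b)) =
        wg a (H (j + J) z) / wg (H (j + J) z) b := hyin.1.1.2
    have h2 : wg (H (j + J) z) b ≠ 0 := norm_pos_iff.1 ((half_pos hmpos).trans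
      (hdenH (j + J) (by omega) z (hbδ z (hδδ z hz)).2))
    have h3 : wg (h (k (wg a (H (j + J) z) / wg (H (j + J) z) b))) b ≠ 0 :=
      norm_pos_iff.1 (hmpos.trans (hb₁ _ hκr₁).1.1)
    change wg a (h (k (wg a (H (j + J) z) / wg (H (j + J) z) b))) /
      wg (h (k (wg a (H (j + J) z) / wg (H (j + J) z) b))) b = _ at h1
    set y := k (wg a (H (j + J) z) / wg (H (j + J) z) b) with hy
    rw [div_eq_div_iff h3 h2] at h1
    have h6 := plucker' a b (h y) (H (j + J) z)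
    rw [← h1] at h6
    have h7 : wg a b * wg (h y) (H (j + J) z) = 0 := by rw [h6]; ring
    exact (mul_eq_zero.1 h7).resolve_left hab

/-- a curve with vanishing Wronskian is projectively constant -/
theorem par_of_wronski {G : ℂ → ℂ × ℂ} {x : ℂ} (hG : AnalyticAt ℂ G x) (hnz : G x ≠ 0)
    (hW : ∀ᶠ z in 𝓝 x, wg (G z) (deriv G z) = 0) : ∀ᶠ z in 𝓝 x, wg (G z) (G x) = 0 := by
  set a := G x with ha
  set b := perp a with hb
  have hab : wg a b ≠ 0 := wg_perp_ne hnz
  have hne : ∀ᶠ z in 𝓝 x, wg (G z) b ≠ 0 :=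
    (analyticAt_wg hG analyticAt_const).continuousAt.eventually_ne hab
  obtain ⟨r, hr, hball⟩ := Metric.eventually_nhds_iff_ball.1
    ((hG.eventually_analyticAt.and hW).and hne)
  have hd : ∀ y ∈ ball x r, HasDerivAt (fun z => wg a (G z) / wg (G z) b) 0 y := by
    intro y hy
    have hy' := hball y hy
    have h1 := hasDerivAt_wg (hasDerivAt_const y a) hy'.1.1.differentiableAt.hasDerivAt
    have h2 := hasDerivAt_wg hy'.1.1.differentiableAt.hasDerivAt (hasDerivAt_const y b)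
    refine (h1.div h2 hy'.2).congr_deriv ?_
    simp only [wg_zero_left, wg_zero_right, zero_add, add_zero]
    have h3 := plucker' a b (G y) (deriv G y)
    rw [hy'.1.2, mul_zero] at h3
    rw [← h3, zero_div]
  filter_upwards [ball_mem_nhds x hr] with z hz
  have h4 := isOpen_ball.is_const_of_deriv_eq_zero (convex_ball x r).isPreconnected
    (f := fun z => wg a (G z) / wg (G z) b)
    (fun y hy => (hd y hy).differentiableAt.differentiableWithinAt)
    (fun y hy => (hd y hy).deriv) hz (mem_ball_self hr)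
  have h5 : wg a (G z) / wg (G z) b = wg a (G x) / wg (G x) b := h4
  rw [← ha, wg_self, zero_div, div_eq_zero_iff] at h5
  have h6 := h5.resolve_right (hball z hz).2
  rw [wg_swap, h6, neg_zero]

end Pool.Agent.Work.MP_78b16e_an
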